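import Pool.Agent.Lib.MP_c05127_co.PO.SpecT

/-!
# MP_c05127_co, project PO: the winding number of the circle
-/

set_option autoImplicit false

open scoped Classical

namespace Pool.Agent.MPc05127.PO

namespace AwAux

/-- The rounding at the odd angles. -/
noncomputable def gg (P : ℕ) (κ : ℤ) (ν μ : ℝ) (t : ℕ) : ℤ :=
  round (κ * (2 * (t : ℝ) - 1) / (2 * P) + ν - μ)

lemma last (P : ℕ) (hP : 0 < P) (κ : ℤ) (hκ : |κ| < P) (ν x : ℝ) (δ : Bool) :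
    round ((κ * (x + dz δ) / (2 * P) + ν) - (κ * x / (2 * P) + ν)) = 0 := by
  have hP' : (0 : ℝ) < P := by exact_mod_cast hP
  have hκ' : |(κ : ℝ)| < P := by exact_mod_cast hκ
  have hd : |((dz δ : ℤ) : ℝ)| = 1 := by
    cases δ <;> simp [dz]
  have e : (κ * (x + dz δ) / (2 * P) + ν) - (κ * x / (2 * P) + ν) = (κ * (dz δ : ℝ)) / (2 * P) := by
    ring
  rw [e, round_eq_zero_iff]
  have h1 : |(κ * (dz δ : ℝ)) / (2 * P)| < 1 / 2 := by
    rw [abs_div, abs_mul, hd, mul_one, abs_of_pos (by positivity : (0 : ℝ) < 2 * P),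
      div_lt_div_iff₀ (by positivity) (by norm_num)]
    linarith
  obtain ⟨h2, h3⟩ := abs_lt.1 h1
  exact ⟨by linarith, h3⟩

lemma term (P : ℕ) (hP : 0 < P) (κ : ℤ) (hκ : |κ| < P) (ν μ : ℝ) (t : ℕ) :
    ∑ δ : Bool, dz δ *
      (round ((κ * (2 * (t : ℝ) + dz δ) / (2 * P) + ν) - μ)
        - round ((κ * (2 * (t : ℝ)) / (2 * P) + ν) - μ)
        - round ((κ * (2 * (t : ℝ) + dz δ) / (2 * P) + ν) - (κ * (2 * (t : ℝ)) / (2 * P) + ν))) =
      gg P κ ν μ (t + 1) - gg P κ ν μ t := by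
  simp only [last P hP κ hκ ν (2 * (t : ℝ)), Fintype.sum_bool, gg]
  have e1 : κ * (2 * (t : ℝ) + ((dz true : ℤ) : ℝ)) / (2 * P) + ν - μ =
      κ * (2 * ((t + 1 : ℕ) : ℝ) - 1) / (2 * P) + ν - μ := by
    have : ((dz true : ℤ) : ℝ) = 1 := by simp [dz]
    rw [this]; push_cast; ring
  have e2 : κ * (2 * (t : ℝ) + ((dz false : ℤ) : ℝ)) / (2 * P) + ν - μ =
      κ * (2 * (t : ℝ) - 1) / (2 * P) + ν - μ := by
    have : ((dz false : ℤ) : ℝ) = -1 := by simp [dz]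
    rw [this]; ring
  rw [e1, e2]
  have d1 : dz true = 1 := rfl
  have d2 : dz false = -1 := rfl
  rw [d1, d2]
  ring

end AwAux

open AwAux in
theorem tAw : S_Aw := by
  intro P _ κ ν μ hκ
  have hP : 0 < P := Nat.pos_of_ne_zero (NeZero.ne P)
  have hP' : (P : ℝ) ≠ 0 := by exact_mod_cast hP.ne'
  have e : (∑ t : ZMod P, ∑ δ : Bool, dz δ *
    (round ((κ * (2 * (t.val : ℝ) + dz δ) / (2 * P) + ν) - μ)
      - round ((κ * (2 * (t.val : ℝ)) / (2 * P) + ν) - μ)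
      - round ((κ * (2 * (t.val : ℝ) + dz δ) / (2 * P) + ν)
        - (κ * (2 * (t.val : ℝ)) / (2 * P) + ν)))) =
      ∑ t : ZMod P, (gg P κ ν μ (t.val + 1) - gg P κ ν μ t.val) :=
    Finset.sum_congr rfl fun t _ => term P hP κ hκ ν μ t.val
  rw [e]
  have e' : ∑ t : ZMod P, (gg P κ ν μ (t.val + 1) - gg P κ ν μ t.val) =
      ∑ t ∈ Finset.range P, (gg P κ ν μ (t + 1) - gg P κ ν μ t) := by
    obtain ⟨Q, rfl⟩ : ∃ Q, P = Q + 1 := ⟨P - 1, by omega⟩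
    exact Fin.sum_univ_eq_sum_range (fun t => gg (Q + 1) κ ν μ (t + 1) - gg (Q + 1) κ ν μ t) (Q + 1)
  rw [e', Finset.sum_range_sub]
  have h1 : κ * (2 * (P : ℝ) - 1) / (2 * P) + ν - μ =
      (κ * (2 * ((0 : ℕ) : ℝ) - 1) / (2 * P) + ν - μ) + (κ : ℝ) := by
    field_simp
    push_cast
    ring
  simp only [gg]
  rw [h1, round_add_intCast]
  ring

end Pool.Agent.MPc05127.PO
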