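import Pool.Agent.Lib.MP_c05127_co.PO.SpecG

/-! Module Ax: the two functions `sA`, `sB`. -/

set_option autoImplicit false

open scoped Classical

namespace Pool.Agent.MPc05127.PO

namespace AxAux

open Complex

private theorem om_eq (p : ℕ) : om p = Complex.exp (((2 * Real.pi / p : ℝ) : ℂ) * I) := by
  unfold om
  congr 1
  push_cast
  ring

private theorem om_norm (p : ℕ) : ‖om p‖ = 1 := by
  rw [om_eq]
  exact Complex.norm_exp_ofReal_mul_I _

private theorem om_pow (p : ℕ) (hp : p ≠ 0) : om p ^ p = 1 := by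
  have h := Complex.isPrimitiveRoot_exp p hp
  exact h.pow_eq_one

private theorem om_ne (p : ℕ) : om p ≠ 0 := by
  unfold om
  exact Complex.exp_ne_zero _

private noncomputable def T (p : ℕ) (u x : ℂ) (l : ℕ) : ℝ :=
  max 0 ((x * (starRingEnd ℂ) (u * om p ^ l)).re - Real.cos (Real.pi / p) * ‖x‖)

private noncomputable def S (p : ℕ) (u x : ℂ) : ℂ := ∑ l ∈ Finset.range p, ((T p u x l : ℝ) : ℂ) * om p ^ l

private theorem sA_eq (p : ℕ) (x : ℂ) : sA p x = S p 1 x := by
  unfold sA S T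
  simp only [one_mul]

private theorem sB_eq (p : ℕ) (x : ℂ) : sB p x = S p (om (2 * p)) x := rfl

private theorem cont (p : ℕ) (u : ℂ) : Continuous (S p u) := by
  unfold S T
  refine continuous_finsetSum _ fun l _ => ?_
  refine Continuous.mul ?_ continuous_const
  refine Complex.continuous_ofReal.comp ?_
  refine continuous_const.max ?_
  exact ((Complex.continuous_re.comp (continuous_id.mul continuous_const))).sub
    (continuous_const.mul continuous_norm)

private theorem conj_mul_self_one {w : ℂ} (hw : ‖w‖ = 1) : w * (starRingEnd ℂ) w = 1 := by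
  rw [Complex.mul_conj, Complex.normSq_eq_norm_sq, hw]
  norm_num

private theorem T_rot (p : ℕ) (u x : ℂ) (l : ℕ) : T p u (om p * x) (l + 1) = T p u x l := by
  unfold T
  have h1 : om p * x * (starRingEnd ℂ) (u * om p ^ (l + 1)) = x * (starRingEnd ℂ) (u * om p ^ l) := by
    have h2 := conj_mul_self_one (om_norm p)
    simp only [map_mul, map_pow, pow_succ]
    calc om p * x * ((starRingEnd ℂ) u * ((starRingEnd ℂ) (om p) ^ l * (starRingEnd ℂ) (om p))) =
        (om p * (starRingEnd ℂ) (om p)) * (x * ((starRingEnd ℂ) u * (starRingEnd ℂ) (om p) ^ l)) := by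
          ring
      _ = _ := by rw [h2, one_mul]
  rw [h1, norm_mul, om_norm, one_mul]

private theorem rotS (p : ℕ) (hp : p ≠ 0) (u x : ℂ) : S p u (om p * x) = om p * S p u x := by
  unfold S
  have h1 := Finset.sum_range_succ (fun l => ((T p u (om p * x) l : ℝ) : ℂ) * om p ^ l) p
  have h2 := Finset.sum_range_succ' (fun l => ((T p u (om p * x) l : ℝ) : ℂ) * om p ^ l) p
  have h3 : ((T p u (om p * x) p : ℝ) : ℂ) * om p ^ p =
      ((T p u (om p * x) 0 : ℝ) : ℂ) * om p ^ 0 := by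
    unfold T
    rw [om_pow p hp, pow_zero]
  rw [h1, h3] at h2
  have h4 := add_right_cancel h2
  rw [h4, Finset.mul_sum]
  refine Finset.sum_congr rfl fun l _ => ?_
  rw [T_rot, pow_succ]
  ring

private theorem cos_abs (p k : ℕ) (hp : 2 ≤ p) (hk : 1 ≤ k) (hkp : k + 1 ≤ p) :
    |Real.cos (Real.pi * k / p)| ≤ Real.cos (Real.pi / p) := by
  have hpR : (2 : ℝ) ≤ p := by exact_mod_cast hp
  have hkR : (1 : ℝ) ≤ k := by exact_mod_cast hk
  have hkpR : (k : ℝ) + 1 ≤ p := by exact_mod_cast hkp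
  have hpi := Real.pi_pos
  have hp0 : (0 : ℝ) < p := by linarith
  have h0 : 0 ≤ Real.pi / p := by positivity
  have h1 : Real.pi / p ≤ Real.pi * k / p := by
    apply div_le_div_of_nonneg_right _ hp0.le
    nlinarith
  have h2 : Real.pi * k / p ≤ Real.pi - Real.pi / p := by
    rw [div_le_iff₀ hp0, sub_mul, div_mul_cancel₀ _ hp0.ne']
    nlinarith
  rw [abs_le]
  constructor
  · rw [← Real.cos_pi_sub]
    exact Real.cos_le_cos_of_nonneg_of_le_pi (by positivity) (by linarith) h2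
  · exact Real.cos_le_cos_of_nonneg_of_le_pi h0 (by linarith) h1

private theorem norm_add (p k : ℕ) (hp : 2 ≤ p) (hk : 1 ≤ k) (hkp : k + 1 ≤ p) :
    ‖(1 : ℂ) + om p ^ k‖ ≤ 2 * Real.cos (Real.pi / p) := by
  have hc := cos_abs p k hp hk hkp
  have hc0 : 0 ≤ Real.cos (Real.pi / p) := (abs_nonneg _).trans hc
  have hp0 : (p : ℝ) ≠ 0 := by
    have : (2 : ℝ) ≤ p := by exact_mod_cast hp
    linarith
  have h1 : om p ^ k = Complex.exp (((2 * (Real.pi * k / p) : ℝ) : ℂ) * I) := by
    rw [om_eq, ← Complex.exp_nat_mul]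
    congr 1
    push_cast
    ring
  have h2 : ‖(1 : ℂ) + om p ^ k‖ ^ 2 = (2 * Real.cos (Real.pi * k / p)) ^ 2 := by
    rw [h1, ← Complex.normSq_eq_norm_sq, Complex.exp_mul_I, ← Complex.ofReal_cos,
      ← Complex.ofReal_sin, Complex.normSq_apply]
    simp only [Complex.add_re, Complex.one_re, Complex.ofReal_re, Complex.mul_re, Complex.ofReal_im,
      Complex.I_re, Complex.I_im, Complex.add_im, Complex.one_im, Complex.mul_im]
    rw [Real.cos_two_mul, Real.sin_two_mul]
    have h3 := Real.sin_sq_add_cos_sq (Real.pi * k / p)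
    nlinarith [h3, sq_nonneg (Real.cos (Real.pi * k / p)), sq_nonneg (Real.sin (Real.pi * k / p))]
  have h3 : (2 * Real.cos (Real.pi * k / p)) ^ 2 ≤ (2 * Real.cos (Real.pi / p)) ^ 2 := by
    rw [← sq_abs (2 * Real.cos (Real.pi * k / p)), abs_mul, abs_two]
    gcongr
  rw [← h2] at h3
  exact (sq_le_sq₀ (norm_nonneg _) (by positivity)).1 h3

private theorem T_pos {p : ℕ} {u x : ℂ} {l : ℕ} (h : 0 < T p u x l) :
    Real.cos (Real.pi / p) * ‖x‖ < (x * (starRingEnd ℂ) (u * om p ^ l)).re := by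
  unfold T at h
  rcases lt_max_iff.1 h with h | h
  · exact absurd h (lt_irrefl _)
  · linarith

private theorem uniq_lt {p : ℕ} (hp : 2 ≤ p) {u x : ℂ} (hu : ‖u‖ = 1) {l l' : ℕ} (hl : l < l')
    (hl' : l' < p) (h1 : 0 < T p u x l) (h2 : 0 < T p u x l') : False := by
  have h3 := T_pos h1
  have h4 := T_pos h2
  have h5 : (x * (starRingEnd ℂ) (u * om p ^ l)).re + (x * (starRingEnd ℂ) (u * om p ^ l')).re =
      (x * (starRingEnd ℂ) (u * om p ^ l * (1 + om p ^ (l' - l)))).re := by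
    rw [← Complex.add_re, ← mul_add, ← map_add]
    congr 3
    rw [mul_add, mul_one, mul_assoc, ← pow_add]
    congr 3
    omega
  have h6 : (x * (starRingEnd ℂ) (u * om p ^ l * (1 + om p ^ (l' - l)))).re ≤
      ‖x‖ * (2 * Real.cos (Real.pi / p)) := by
    refine (Complex.re_le_norm _).trans ?_
    rw [norm_mul, Complex.norm_conj, norm_mul, norm_mul, norm_pow, hu, om_norm, one_pow, one_mul,
      one_mul]
    exact mul_le_mul_of_nonneg_left (norm_add p (l' - l) hp (by omega) (by omega)) (norm_nonneg _)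
  linarith

private theorem uniq {p : ℕ} (hp : 2 ≤ p) {u x : ℂ} (hu : ‖u‖ = 1) {l l' : ℕ} (hl : l < p)
    (hl' : l' < p) (h1 : 0 < T p u x l) (h2 : 0 < T p u x l') : l = l' := by
  rcases lt_trichotomy l l' with h | h | h
  · exact (uniq_lt hp hu h hl' h1 h2).elim
  · exact h
  · exact (uniq_lt hp hu h hl h2 h1).elim

private theorem T_nonneg (p : ℕ) (u x : ℂ) (l : ℕ) : 0 ≤ T p u x l := le_max_left _ _

private theorem S_eq {p : ℕ} (hp : 2 ≤ p) {u x : ℂ} (hu : ‖u‖ = 1) {l : ℕ} (hl : l < p)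
    (h1 : 0 < T p u x l) : S p u x = ((T p u x l : ℝ) : ℂ) * om p ^ l := by
  unfold S
  refine Finset.sum_eq_single l (fun l' hl' hne => ?_) (fun h => absurd (Finset.mem_range.2 hl) h)
  rcases (T_nonneg p u x l').lt_or_eq with h | h
  · exact absurd (uniq hp hu (Finset.mem_range.1 hl') hl h h1) hne
  · rw [← h, Complex.ofReal_zero, zero_mul]

private theorem S_form {p : ℕ} (hp : 2 ≤ p) {u : ℂ} (hu : ‖u‖ = 1) (x : ℂ) :
    ∃ r : ℝ, 0 ≤ r ∧ ∃ l : ℕ, S p u x = r * om p ^ l := by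
  by_cases h : ∃ l < p, 0 < T p u x l
  · obtain ⟨l, hl, h1⟩ := h
    exact ⟨T p u x l, h1.le, l, S_eq hp hu hl h1⟩
  · refine ⟨0, le_rfl, 0, ?_⟩
    rw [Complex.ofReal_zero, zero_mul]
    unfold S
    refine Finset.sum_eq_zero fun l hl => ?_
    rcases (T_nonneg p u x l).lt_or_eq with h1 | h1
    · exact absurd ⟨l, Finset.mem_range.1 hl, h1⟩ h
    · rw [← h1, Complex.ofReal_zero, zero_mul]

private theorem S_ne {p : ℕ} (hp : 2 ≤ p) {u x : ℂ} (hu : ‖u‖ = 1) {l : ℕ} (hl : l < p)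
    (h1 : 0 < T p u x l) : S p u x ≠ 0 := by
  rw [S_eq hp hu hl h1]
  exact mul_ne_zero (by exact_mod_cast h1.ne') (pow_ne_zero _ (om_ne p))

/-- reduction of an integer exponent -/
private theorem om_zpow (p : ℕ) (hp : p ≠ 0) (j : ℤ) : ∃ l < p, om p ^ l = om p ^ j := by
  have hpz : (0 : ℤ) < p := by exact_mod_cast Nat.pos_of_ne_zero hp
  refine ⟨(j % p).toNat, ?_, ?_⟩
  · have := Int.emod_lt_of_pos j hpz
    have := Int.emod_nonneg j hpz.ne'
    omega
  · have h1 : ((j % p).toNat : ℤ) = j % p := Int.toNat_of_nonneg (Int.emod_nonneg j hpz.ne')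
    rw [← zpow_natCast, h1]
    conv_rhs => rw [← Int.emod_add_mul_ediv j p, zpow_add₀ (om_ne p), zpow_mul, zpow_natCast,
      om_pow p hp, one_zpow, mul_one]

private theorem nonzero {p : ℕ} (hp : 2 ≤ p) {x : ℂ} (hx : x ≠ 0) :
    S p 1 x ≠ 0 ∨ S p (om (2 * p)) x ≠ 0 := by
  have hpR : (2 : ℝ) ≤ p := by exact_mod_cast hp
  have hp0 : (0 : ℝ) < p := by linarith
  have hpi := Real.pi_pos
  set φ := Complex.arg x with hφ
  set m : ℤ := round (p * φ / Real.pi) with hm
  have h1 : |φ - Real.pi * m / p| ≤ Real.pi / (2 * p) := by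
    have h2 := abs_sub_round (p * φ / Real.pi)
    rw [← hm] at h2
    have h3 : φ - Real.pi * m / p = Real.pi / p * (p * φ / Real.pi - m) := by
      field_simp
    rw [h3, abs_mul, abs_of_pos (by positivity)]
    calc Real.pi / p * |p * φ / Real.pi - m| ≤ Real.pi / p * (1 / 2) :=
          mul_le_mul_of_nonneg_left h2 (by positivity)
      _ = Real.pi / (2 * p) := by ring
  have hlt : Real.cos (Real.pi / p) < Real.cos (φ - Real.pi * m / p) := by
    rw [← Real.cos_abs (φ - Real.pi * m / p)]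
    have h4 : Real.pi / (2 * p) < Real.pi / p := by
      apply div_lt_div_of_pos_left hpi hp0
      linarith
    apply Real.cos_lt_cos_of_nonneg_of_le_pi (abs_nonneg _) _ (by linarith)
    rw [div_le_iff₀ hp0]
    nlinarith
  have hre : ∀ w : ℂ, w = Complex.exp (((Real.pi * m / p : ℝ) : ℂ) * I) →
      (x * (starRingEnd ℂ) w).re = ‖x‖ * Real.cos (φ - Real.pi * m / p) := by
    intro w hw
    have h5 : (starRingEnd ℂ) w = Complex.exp (((-(Real.pi * m / p) : ℝ) : ℂ) * I) := by
      rw [hw, ← Complex.exp_conj]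
      congr 1
      rw [map_mul, Complex.conj_ofReal, Complex.conj_I]
      push_cast
      ring
    have h6 : x = ‖x‖ * Complex.exp ((φ : ℂ) * I) := (Complex.norm_mul_exp_arg_mul_I x).symm
    have h7 : x * (starRingEnd ℂ) w =
        (‖x‖ : ℂ) * Complex.exp (((φ - Real.pi * m / p : ℝ) : ℂ) * I) := by
      rw [h5]
      conv_lhs => rw [h6]
      rw [mul_assoc, ← Complex.exp_add]
      congr 2
      push_cast
      ring
    rw [h7, Complex.re_ofReal_mul, Complex.exp_ofReal_mul_I_re]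
  have hn : 0 < ‖x‖ := norm_pos_iff.2 hx
  have hpos : ∀ (u : ℂ) (l : ℕ), u * om p ^ l = Complex.exp (((Real.pi * m / p : ℝ) : ℂ) * I) →
      0 < T p u x l := by
    intro u l hul
    unfold T
    rw [hre _ hul]
    apply lt_max_of_lt_right
    nlinarith
  have hp0' : p ≠ 0 := by omega
  have hpC : (p : ℂ) ≠ 0 := by exact_mod_cast hp0'
  rcases Int.even_or_odd' m with ⟨j, hj | hj⟩
  · left
    obtain ⟨l, hl, h8⟩ := om_zpow p hp0' j
    refine S_ne hp (by simp) hl (hpos 1 l ?_)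
    rw [one_mul, h8, om_eq, ← Complex.exp_int_mul]
    congr 1
    rw [hj]
    push_cast
    ring
  · right
    obtain ⟨l, hl, h8⟩ := om_zpow p hp0' j
    refine S_ne hp (om_norm _) hl (hpos _ l ?_)
    rw [h8, om_eq, om_eq, ← Complex.exp_int_mul, ← Complex.exp_add]
    congr 1
    rw [hj]
    push_cast
    field_simp
    ring

end AxAux

open AxAux in
theorem tAx : S_Ax := by
  intro p hp
  have hp0 : p ≠ 0 := by omega
  have hA : sA p = AxAux.S p 1 := funext (AxAux.sA_eq p)
  have hB : sB p = AxAux.S p (om (2 * p)) := funext (AxAux.sB_eq p)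
  rw [hA, hB]
  refine ⟨⟨AxAux.cont p 1, AxAux.cont p _⟩, fun x => ⟨AxAux.rotS p hp0 1 x, AxAux.rotS p hp0 _ x⟩,
    fun x => ⟨AxAux.S_form hp (by simp) x, AxAux.S_form hp (AxAux.om_norm _) x⟩,
    fun x hx => AxAux.nonzero hp hx⟩

end Pool.Agent.MPc05127.PO
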