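import Pool.Agent.Lib.MP_c05127_co.PO.SpecG

/-!
# MP_c05127_co, project PO: the characters are triangular
-/

set_option autoImplicit false

open scoped Classical

namespace Pool.Agent.MPc05127.PO

namespace BlAux

theorem ld_spec {p s : ℕ} (χ : Hc p s) :
    χ.1 (ld χ) ≠ 0 ∧ (∀ t' < ld χ, χ.1 t' = 0) ∧ 2 * (χ.1 (ld χ)).val < p :=
  χ.2.choose_spec

theorem not_dvd_of {p : ℕ} {a : ℤ} (h0 : 0 < a) (h1 : a < p) : ¬ (p : ℤ) ∣ a :=
  fun h => absurd (Int.le_of_dvd h0 h) (not_le.2 h1)

theorem XO_inl {m l : ℕ} {p : ℕ} {e : Fin m → ℕ} (i : Fin m) (χ : Hc p (e i))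
    (o : Option (Fin l × Bool)) (j : Σ i : Fin m, Fin (e i)) :
    (XO (Sum.inl ⟨i, χ, o⟩ : Cf p l e) (Sum.inl j)) =
      ∑ t, if j = ⟨i, t⟩ then ((χ.1 t).val : ℤ) else 0 := by
  rcases o with _ | o <;> rfl

theorem sum_eq {m : ℕ} {p : ℕ} {e : Fin m → ℕ} (i : Fin m) (χ : Hc p (e i)) (t : Fin (e i)) :
    (∑ t', if (⟨i, t⟩ : Σ i : Fin m, Fin (e i)) = ⟨i, t'⟩ then ((χ.1 t').val : ℤ) else 0) =
      ((χ.1 t).val : ℤ) := by
  rw [Finset.sum_eq_single t]
  · rw [if_pos rfl]
  · intro t' _ ht
    apply if_neg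
    intro h
    apply ht
    have := (Sigma.mk.inj_iff.1 h).2
    exact (eq_of_heq this).symm
  · intro h
    exact absurd (Finset.mem_univ t) h

end BlAux

open BlAux

theorem tBl : S_Bl := by
  intro p _ hp hp2 m l e c
  have hp3 : 3 ≤ p := by
    have := hp.two_le
    omega
  have hpz : (3 : ℤ) ≤ p := by exact_mod_cast hp3
  rcases c with ⟨i, χ, o⟩ | ((b' | ⟨q, s⟩) | ⟨b', i⟩)
  · obtain ⟨h1, h2, h3⟩ := ld_spec χ
    have hB : BO (Sum.inl ⟨i, χ, o⟩ : Cf p l e) = Sum.inl ⟨i, ld χ⟩ := rfl
    constructor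
    · rw [hB, XO_inl, sum_eq]
      apply not_dvd_of
      · have : (χ.1 (ld χ)).val ≠ 0 := by
          rw [Ne, ZMod.val_eq_zero]
          exact h1
        omega
      · omega
    · intro j hj
      rw [hB]
      rcases j with j | b
      · rw [XO_inl] at hj
        obtain ⟨t, -, ht⟩ := Finset.exists_ne_zero_of_sum_ne_zero hj
        by_cases hjt : j = ⟨i, t⟩
        · rw [if_pos hjt] at ht
          subst hjt
          have hle : ld χ ≤ t := by
            by_contra hc
            rw [not_le] at hc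
            apply ht
            rw [h2 t hc, ZMod.val_zero]
            rfl
          rcases hle.eq_or_lt with h | h
          · left
            rw [h]
          · right
            exact h
        · rw [if_neg hjt] at ht
          exact absurd rfl ht
      · right
        change ((ld χ : Fin (e i)) : ℕ) < (∑ i, e i) + 1 + (b : ℕ)
        have h1 : ((ld χ : Fin (e i)) : ℕ) < e i := (ld χ).isLt
        have h2 : e i ≤ ∑ i, e i :=
          Finset.single_le_sum (f := fun i => e i) (fun _ _ => Nat.zero_le _) (Finset.mem_univ i)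
        omega
  · constructor
    · change ¬ (p : ℤ) ∣ (if (Sum.inr b' : Jo l e) = Sum.inr b' then 2 else 0)
      rw [if_pos rfl]
      exact not_dvd_of (by norm_num) (by omega)
    · intro j hj
      left
      change (if j = (Sum.inr b' : Jo l e) then (2 : ℤ) else 0) ≠ 0 at hj
      by_contra hc
      exact hj (if_neg hc)
  · have hq : q.1.1 < q.1.2 := q.2
    constructor
    · change ¬ (p : ℤ) ∣ ((if (Sum.inr q.1.1 : Jo l e) = Sum.inr q.1.1 then 1 else 0) +
        (if (Sum.inr q.1.1 : Jo l e) = Sum.inr q.1.2 then (if s then 1 else -1) else 0))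
      rw [if_pos rfl, if_neg (fun h => hq.ne (Sum.inr.inj h)), add_zero]
      exact not_dvd_of (by norm_num) (by omega)
    · intro j hj
      change ((if j = (Sum.inr q.1.1 : Jo l e) then (1 : ℤ) else 0) +
        (if j = (Sum.inr q.1.2 : Jo l e) then (if s then 1 else -1) else 0)) ≠ 0 at hj
      by_cases h1 : j = (Sum.inr q.1.1 : Jo l e)
      · left
        exact h1
      · right
        rw [if_neg h1, zero_add] at hj
        have h2 : j = (Sum.inr q.1.2 : Jo l e) := by
          by_contra hc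
          exact hj (if_neg hc)
        subst h2
        change (∑ i, e i) + 1 + (q.1.1 : ℕ) < (∑ i, e i) + 1 + (q.1.2 : ℕ)
        have h3 : (q.1.1 : ℕ) < (q.1.2 : ℕ) := hq
        omega
  · constructor
    · change ¬ (p : ℤ) ∣ (if (Sum.inr b' : Jo l e) = Sum.inr b' then 1 else 0)
      rw [if_pos rfl]
      exact not_dvd_of (by norm_num) (by omega)
    · intro j hj
      left
      change (if j = (Sum.inr b' : Jo l e) then (1 : ℤ) else 0) ≠ 0 at hj
      by_contra hc
      exact hj (if_neg hc)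

end Pool.Agent.MPc05127.PO
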