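import Pool.Agent.Lib.MP_c05127_co.PO.SpecT

/-!
# MP_c05127_co, project PO: the combinatorial theorem
-/

set_option autoImplicit false

open scoped Classical

namespace Pool.Agent.MPc05127.PO

open Pool.Agent.MPc05127.PP (skip Num Num.n)

namespace BoAux

variable {C J : Type}

theorem ka_not_dvd (b : Blo C J) {p : ℕ} (hp : p.Prime)
    (hB : ∀ c j, b.B c = some j → ¬ (p : ℤ) ∣ b.χ c j) (c : C) : ¬ (p : ℤ) ∣ b.ka c := by
  cases hc : b.B c with
  | none =>
    have h1 : b.ka c = 1 := by unfold Blo.ka; rw [hc]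
    rw [h1]
    intro h
    exact (Nat.prime_iff_prime_int.mp hp).not_isUnit (isUnit_of_dvd_one h)
  | some j =>
    have h1 : b.ka c = b.χ c j := by unfold Blo.ka; rw [hc]
    rw [h1]
    exact hB c j hc

theorem vt_gro {N : ℕ} {e : C → ℕ} (he : ∀ c, e c < N) (t : C → ℤ) (δ : C → Bool)
    (pos : C × Bool → ℕ) (l : ℕ) : vt e t δ pos l ∈ GrO C N := by
  intro c
  have h := he c
  simp only [vt]
  split_ifs <;> omega

theorem vt_fst (e : C → ℕ) (t : C → ℤ) (δ : C → Bool) (pos : C × Bool → ℕ) (l : ℕ) (c : C) :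
    |((vt e t δ pos l c).1 : ℤ) - (vt e t δ pos 0 c).1| ≤ 1 := by
  simp only [vt, Nat.not_lt_zero, if_false]
  split_ifs <;> simp

theorem vt_snd (e : C → ℕ) (t : C → ℤ) (δ : C → Bool) (pos : C × Bool → ℕ) (l : ℕ) (c : C) :
    |(vt e t δ pos l c).2 - (vt e t δ pos 0 c).2| ≤ 1 := by
  simp only [vt, Nat.not_lt_zero, if_false]
  cases h : δ c <;> split_ifs <;> simp [dz]

end BoAux

open BoAux in
/-- **The combinatorial theorem.** -/
theorem tBo (hIo : S_Io) (hRo : S_Ro) (hEo : S_Eo) : S_Bo := by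
  intro C J _ _ b p M N _ f hp hN hχ hB hOk
  set T : Num C := Fintype.equivFin C with hT
  have h1 := hIo C J b p M N T f (ro b (2 * p * M) T) hp.two_le hN hOk (hRo C J b p M N T hN)
  have h2 := hEo C J b p M N T hN hp.two_le hχ
  rw [h2] at h1
  have h3 : ¬ (p : ℤ) ∣ ∏ c, b.ka c := by
    intro h
    obtain ⟨c, -, hc⟩ := (Prime.dvd_finsetProd_iff (Nat.prime_iff_prime_int.mp hp) _).mp h
    exact ka_not_dvd b hp hB c hc
  have h4 : all p M N T (pw (Fintype.card C) (so T f)) ≠ 0 := by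
    intro h
    rw [h, zero_sub, dvd_neg] at h1
    exact h3 h1
  unfold all at h4
  obtain ⟨e, he, h5⟩ := Finset.exists_ne_zero_of_sum_ne_zero h4
  obtain ⟨t, -, h6⟩ := Finset.exists_ne_zero_of_sum_ne_zero h5
  obtain ⟨δ, -, h7⟩ := Finset.exists_ne_zero_of_sum_ne_zero h6
  obtain ⟨π, -, h8⟩ := Finset.exists_ne_zero_of_sum_ne_zero h7
  have h9 := right_ne_zero_of_mul h8
  have he' : ∀ c, e c < N := fun c => Finset.mem_range.mp (Fintype.mem_piFinset.mp he c)
  unfold pw at h9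
  rw [Finset.prod_ne_zero_iff] at h9
  refine ⟨vt e (fun c => ((t c).val : ℤ)) δ (fun x => st T (π x)) 0, vt_gro he' _ _ _ _, ?_⟩
  intro c
  refine ⟨fun i => vt e (fun c => ((t c).val : ℤ)) δ (fun x => st T (π x)) (2 * T.n c + i),
    fun i => ⟨vt_gro he' _ _ _ _, fun c' => ⟨vt_fst _ _ _ _ _ _, vt_snd _ _ _ _ _ _⟩⟩, ?_⟩
  have h10 := h9 (T.n c) (Finset.mem_range.mpr (T c).2)
  have h11 : so T f (T.n c) = f c := by
    funext v
    have h12 : T.n c < Fintype.card C := (T c).2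
    unfold so
    rw [dif_pos h12]
    congr 1
    exact T.symm_apply_apply c
  rw [h11] at h10
  exact h10

end Pool.Agent.MPc05127.PO
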