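import Pool.Agent.Lib.MP_c05127_co.PO.SpecG

/-!
# MP_c05127_co, project PO: counting the functions of every block (`S_Cn`)
-/

set_option autoImplicit false

open scoped Classical

namespace Pool.Agent.MPc05127.PO

namespace CnAux

theorem ld_spec {p s : ℕ} (χ : Hc p s) :
    χ.1 (ld χ) ≠ 0 ∧ (∀ t' < ld χ, χ.1 t' = 0) ∧ 2 * (χ.1 (ld χ)).val < p :=
  χ.2.choose_spec

/-- The first nonzero coordinate of a nonzero vector. -/
theorem exists_first {p s : ℕ} (χ : Fin s → ZMod p) (h : χ ≠ 0) :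
    ∃ t, χ t ≠ 0 ∧ ∀ t' < t, χ t' = 0 := by
  obtain ⟨t₀, ht₀⟩ := Function.ne_iff.mp h
  have hne : (Finset.univ.filter (fun t : Fin s => χ t ≠ 0)).Nonempty :=
    ⟨t₀, by simpa using ht₀⟩
  refine ⟨(Finset.univ.filter (fun t : Fin s => χ t ≠ 0)).min' hne, ?_, ?_⟩
  · exact (Finset.mem_filter.mp (Finset.min'_mem _ hne)).2
  · intro t' ht'
    by_contra hc
    exact absurd (Finset.min'_le _ t' (Finset.mem_filter.mpr ⟨Finset.mem_univ _, hc⟩))
      (not_le.mpr ht')

theorem val_neg {p : ℕ} [NeZero p] (a : ZMod p) (ha : a ≠ 0) : (-a).val = p - a.val := by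
  have : NeZero a := ⟨ha⟩
  exact ZMod.val_neg_of_ne_zero a

/-- Half of the nonzero characters. -/
theorem card_Hc (p s : ℕ) [NeZero p] (hp : p.Prime) (hp2 : p ≠ 2) :
    2 * Fintype.card (Hc p s) = p ^ s - 1 := by
  have hodd : p % 2 = 1 := (Nat.Prime.eq_two_or_odd hp).resolve_left hp2
  have h1 : Fintype.card {χ : Fin s → ZMod p // χ ≠ 0} = p ^ s - 1 := by
    rw [Fintype.card_subtype]
    have h2 : (Finset.univ.filter (fun χ : Fin s → ZMod p => χ ≠ 0)) =
        (Finset.univ : Finset (Fin s → ZMod p)).erase 0 := by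
      ext χ
      simp
    rw [h2, Finset.card_erase_of_mem (Finset.mem_univ _), Finset.card_univ, Fintype.card_fun,
      ZMod.card, Fintype.card_fin]
  have h3 : Fintype.card (Hc p s × Bool) = Fintype.card {χ : Fin s → ZMod p // χ ≠ 0} := by
    refine Fintype.card_of_bijective (f := fun z : Hc p s × Bool =>
      (⟨if z.2 then z.1.1 else -z.1.1, ?_⟩ : {χ : Fin s → ZMod p // χ ≠ 0})) ⟨?_, ?_⟩
    · have h4 := (ld_spec z.1).1
      intro h5
      apply h4
      have h6 := congrFun h5 (ld z.1)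
      by_cases hz : z.2 = true
      · rw [if_pos hz] at h6
        exact h6
      · rw [if_neg hz] at h6
        exact neg_eq_zero.mp h6
    · rintro ⟨χ, b⟩ ⟨χ', b'⟩ h
      have h4 : (if b then χ.1 else -χ.1) = (if b' then χ'.1 else -χ'.1) :=
        congrArg Subtype.val h
      have key : ∀ ψ ψ' : Hc p s, ψ.1 = -ψ'.1 → False := by
        intro ψ ψ' hψ
        obtain ⟨a1, a2, a3⟩ := ld_spec ψ
        obtain ⟨b1, b2, b3⟩ := ld_spec ψ'
        have ht : ld ψ = ld ψ' := by
          rcases lt_trichotomy (ld ψ) (ld ψ') with h7 | h7 | h7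
          · exfalso
            apply a1
            rw [hψ, Pi.neg_apply, b2 _ h7, neg_zero]
          · exact h7
          · exfalso
            apply b1
            have h8 := a2 _ h7
            rw [hψ, Pi.neg_apply] at h8
            exact neg_eq_zero.mp h8
        rw [hψ, Pi.neg_apply, ht, val_neg _ b1] at a3
        omega
      cases b <;> cases b'
      · simp only [Bool.false_eq_true, if_false] at h4
        have h5 : χ = χ' := Subtype.ext (neg_injective h4)
        rw [h5]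
      · simp only [Bool.false_eq_true, if_false, if_true] at h4
        exact (key χ' χ h4.symm).elim
      · simp only [Bool.false_eq_true, if_false, if_true] at h4
        exact (key χ χ' h4).elim
      · simp only [if_true] at h4
        have h5 : χ = χ' := Subtype.ext h4
        rw [h5]
    · rintro ⟨χ, hχ⟩
      obtain ⟨t, ht, ht'⟩ := exists_first χ hχ
      have hlt := ZMod.val_lt (χ t)
      by_cases h5 : 2 * (χ t).val < p
      · exact ⟨(⟨χ, t, ht, ht', h5⟩, true), Subtype.ext (by simp)⟩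
      · have h6 : 2 * ((-χ) t).val < p := by
          rw [Pi.neg_apply, val_neg _ ht]
          omega
        refine ⟨(⟨-χ, t, neg_ne_zero.mpr ht, fun t' h => ?_, h6⟩, false), Subtype.ext ?_⟩
        · rw [Pi.neg_apply, ht' t' h, neg_zero]
        · simp only [Bool.false_eq_true, if_false, neg_neg]
  rw [← h1, ← h3, Fintype.card_prod, Fintype.card_bool, Nat.mul_comm]

/-- The functions of the blocks of the family `i`. -/
theorem card_fam {m : ℕ} (p : ℕ) [NeZero p] (l : ℕ) (e : Fin m → ℕ) (i : Fin m) :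
    ∑ t : Fin (e i), nj p l e i t = Fintype.card (Hc p (e i)) * (2 * l + 1) := by
  have h1 : ∑ t : Fin (e i), nj p l e i t =
      Fintype.card (Σ t : Fin (e i), {c : Cf p l e // BO c = Sum.inl ⟨i, t⟩}) := by
    rw [Fintype.card_sigma]
    rfl
  have h2 : Fintype.card (Hc p (e i) × Option (Fin l × Bool)) =
      Fintype.card (Σ t : Fin (e i), {c : Cf p l e // BO c = Sum.inl ⟨i, t⟩}) := by
    refine Fintype.card_of_bijective
      (f := fun z => ⟨ld z.1, ⟨Sum.inl ⟨i, z.1, z.2⟩, rfl⟩⟩) ⟨?_, ?_⟩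
    · rintro ⟨χ, o⟩ ⟨χ', o'⟩ h
      have h3 := congrArg (fun z : (Σ t : Fin (e i), {c : Cf p l e // BO c = Sum.inl ⟨i, t⟩}) =>
        z.2.1) h
      simp only [Sum.inl.injEq, Sigma.mk.injEq, heq_eq_eq, true_and] at h3
      exact h3
    · rintro ⟨t, ⟨c, hc⟩⟩
      rcases c with ⟨i', χ, o⟩ | ((b | ⟨q, s⟩) | ⟨b, j⟩)
      · have h4 : (⟨i', ld χ⟩ : Σ i : Fin m, Fin (e i)) = ⟨i, t⟩ := by
          have h5 : (Sum.inl ⟨i', ld χ⟩ : Jo l e) = Sum.inl ⟨i, t⟩ := hc
          exact Sum.inl.inj h5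
        obtain rfl : i' = i := congrArg Sigma.fst h4
        obtain rfl : ld χ = t := by
          have := (Sigma.mk.injEq _ _ _ _).mp h4
          exact eq_of_heq this.2
        exact ⟨(χ, o), rfl⟩
      · exact absurd hc (by simp [BO])
      · exact absurd hc (by simp [BO])
      · exact absurd hc (by simp [BO])
  rw [h1, ← h2, Fintype.card_prod, Fintype.card_option, Fintype.card_prod, Fintype.card_fin,
    Fintype.card_bool, Nat.mul_comm l 2]

/-- The functions of the block of the `b`-th vector. -/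
theorem card_vec {m : ℕ} (p : ℕ) [NeZero p] (l : ℕ) (hm : 1 ≤ m) (e : Fin m → ℕ) (b : Fin l) :
    no (e := e) p (Sum.inr b) + 1 + 2 * (b : ℕ) + 1 ≤ 2 * l + m := by
  have h1 : no (e := e) p (Sum.inr b) ≤
      Fintype.card ((Unit ⊕ ({b' : Fin l // b < b'} × Bool)) ⊕ {i : Fin m // (i : ℕ) ≠ 0}) := by
    refine Fintype.card_le_of_surjective (fun z : (Unit ⊕ ({b' : Fin l // b < b'} × Bool)) ⊕
      {i : Fin m // (i : ℕ) ≠ 0} => (Sum.elim (Sum.elim
        (fun _ => ⟨Sum.inr (Sum.inl (Sum.inl b)), rfl⟩)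
        (fun b' => ⟨Sum.inr (Sum.inl (Sum.inr (⟨(b, b'.1.1), b'.1.2⟩, b'.2))), rfl⟩))
        (fun i => ⟨Sum.inr (Sum.inr (b, i)), rfl⟩) z :
          {c : Cf p l e // BO c = Sum.inr b})) ?_
    rintro ⟨c, hc⟩
    rcases c with ⟨i', χ, o⟩ | ((b' | ⟨⟨⟨x, y⟩, hq⟩, s⟩) | ⟨b', j⟩)
    · exact absurd hc (by simp [BO])
    · obtain rfl : b' = b := by
        have h5 : (Sum.inr b' : Jo l e) = Sum.inr b := hc
        exact Sum.inr.inj h5
      exact ⟨Sum.inl (Sum.inl ()), rfl⟩
    · obtain rfl : x = b := by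
        have h5 : (Sum.inr x : Jo l e) = Sum.inr b := hc
        exact Sum.inr.inj h5
      exact ⟨Sum.inl (Sum.inr (⟨y, hq⟩, s)), rfl⟩
    · obtain rfl : b' = b := by
        have h5 : (Sum.inr b' : Jo l e) = Sum.inr b := hc
        exact Sum.inr.inj h5
      exact ⟨Sum.inr j, rfl⟩
  have h2 : Fintype.card {b' : Fin l // b < b'} = l - 1 - b := by
    rw [Fintype.card_subtype, ← Fin.card_Ioi b]
    congr 1
    ext x
    simp
  have h3 : Fintype.card {i : Fin m // (i : ℕ) ≠ 0} = m - 1 := by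
    have hm0 : 0 < m := hm
    rw [Fintype.card_subtype]
    have h4 : (Finset.univ.filter (fun i : Fin m => (i : ℕ) ≠ 0)) =
        (Finset.univ : Finset (Fin m)).erase ⟨0, hm0⟩ := by
      ext i
      rw [Finset.mem_filter, Finset.mem_erase]
      refine ⟨fun h => ⟨fun h0 => h.2 (congrArg Fin.val h0), h.1⟩, fun h => ⟨h.2, fun h0 =>
        h.1 (Fin.ext h0)⟩⟩
    rw [h4, Finset.card_erase_of_mem (Finset.mem_univ _), Finset.card_univ, Fintype.card_fin]
  rw [Fintype.card_sum, Fintype.card_sum, Fintype.card_prod, h2, h3, Fintype.card_bool,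
    Fintype.card_unit] at h1
  have h5 := b.2
  omega

end CnAux

/-- **Counting.** -/
theorem tCn : S_Cn := by
  intro p _ hp hp2 d l hl hld e
  refine ⟨fun i => ?_, fun b => ?_⟩
  · have h1 : ∑ t : Fin (e i), n2 p l e i t = 2 * ∑ t : Fin (e i), nj p l e i t := by
      rw [Finset.mul_sum]
      rfl
    rw [h1, CnAux.card_fam, ← Nat.mul_assoc, CnAux.card_Hc p (e i) hp hp2, Nat.mul_comm]
  · have h := CnAux.card_vec p l (Nat.le_add_left 1 (d - 2 * l)) e b
    omega

end Pool.Agent.MPc05127.PO
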