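import Pool.Agent.Lib.MP_c05127_co.PO.SpecT

set_option autoImplicit false

open scoped Classical

namespace Pool.Agent.MPc05127.PO

open Pool.Agent.MPc05127.PP (skip Num Num.n)

namespace CoAux

/-- The point of the polydisc of a grid point. -/
noncomputable def pt {C : Type} (p M N : ℕ) (v : Pt C) (c : C) : ℂ :=
  ((((v c).1 : ℝ) / N : ℝ) : ℂ) *
    Complex.exp (((2 * Real.pi * ((v c).2 : ℝ) / (2 * p * M) : ℝ) : ℂ) * Complex.I)

theorem argn {z : ℂ} {r θ : ℝ} (hr : 0 < r)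
    (h : z = (r : ℂ) * Complex.exp ((θ : ℂ) * Complex.I)) :
    ∃ n : ℤ, z.arg / (2 * Real.pi) = θ / (2 * Real.pi) + n := by
  have hz : ‖z‖ = r := by
    rw [h, norm_mul, Complex.norm_exp_ofReal_mul_I, mul_one, Complex.norm_real,
      Real.norm_of_nonneg hr.le]
  have h1 : (r : ℂ) * Complex.exp ((z.arg : ℂ) * Complex.I)
      = r * Complex.exp ((θ : ℂ) * Complex.I) := by
    rw [← h, ← hz]
    exact Complex.norm_mul_exp_arg_mul_I z
  have hr' : (r : ℂ) ≠ 0 := by exact_mod_cast hr.ne'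
  have h2 := mul_left_cancel₀ hr' h1
  obtain ⟨n, hn⟩ := Complex.exp_eq_exp_iff_exists_int.mp h2
  refine ⟨n, ?_⟩
  have h3 : (z.arg : ℂ) = θ + n * (2 * Real.pi) := by
    have h5 : (z.arg : ℂ) * Complex.I = (θ + n * (2 * Real.pi)) * Complex.I := by
      rw [hn]
      ring
    exact mul_right_cancel₀ Complex.I_ne_zero h5
  have h4 : z.arg = θ + n * (2 * Real.pi) := by exact_mod_cast h3
  have hpi := Real.pi_pos
  rw [h4]
  field_simp

theorem argm {z w : ℂ} {r θ : ℝ} (hr : 0 < r) (hw : w ≠ 0)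
    (h : z = (r : ℂ) * Complex.exp ((θ : ℂ) * Complex.I) * w) :
    ∃ n : ℤ, z.arg / (2 * Real.pi) = w.arg / (2 * Real.pi) + θ / (2 * Real.pi) + n := by
  have h' : z = ((r * ‖w‖ : ℝ) : ℂ) * Complex.exp (((θ + w.arg : ℝ) : ℂ) * Complex.I) := by
    have hw' := Complex.norm_mul_exp_arg_mul_I w
    have h6 : Complex.exp (((θ + w.arg : ℝ) : ℂ) * Complex.I)
        = Complex.exp ((θ : ℂ) * Complex.I) * Complex.exp ((w.arg : ℂ) * Complex.I) := by
      rw [← Complex.exp_add]
      congr 1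
      push_cast
      ring
    rw [h6, h]
    push_cast
    calc (r : ℂ) * Complex.exp ((θ : ℂ) * Complex.I) * w
        = (r : ℂ) * Complex.exp ((θ : ℂ) * Complex.I) *
          ((‖w‖ : ℂ) * Complex.exp ((w.arg : ℂ) * Complex.I)) := by rw [hw']
      _ = _ := by ring
  obtain ⟨n, hn⟩ := argn (mul_pos hr (norm_pos_iff.mpr hw)) h'
  exact ⟨n, by rw [hn]; ring⟩

theorem om_zpow (p : ℕ) (k : ℤ) :
    om p ^ k = Complex.exp (((2 * Real.pi * k / p : ℝ) : ℂ) * Complex.I) := by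
  unfold om
  rw [← Complex.exp_int_mul]
  congr 1
  push_cast
  ring

section

variable {C J : Type}

theorem norm_pt (p M N : ℕ) (v : Pt C) (c : C) : ‖pt p M N v c‖ = ((v c).1 : ℝ) / N := by
  unfold pt
  rw [norm_mul, Complex.norm_exp_ofReal_mul_I, mul_one, Complex.norm_real, Real.norm_of_nonneg]
  positivity

theorem pt_same {p M N : ℕ} (hp : 0 < p) (hM : 0 < M) {v v' : Pt C}
    (h : Same (2 * p * M) v v') : pt p M N v' = pt p M N v := by
  funext c
  obtain ⟨h1, h2⟩ := h c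
  unfold pt
  rw [← h1]
  rcases h2 with h2 | ⟨k, hk⟩
  · rw [h2]
    simp
  · congr 1
    refine Complex.exp_eq_exp_iff_exists_int.mpr ⟨k, ?_⟩
    have hk' : ((v' c).2 : ℝ) = (v c).2 + 2 * p * M * k := by
      have : (v' c).2 = (v c).2 + 2 * p * M * k := by linarith
      rw [this]
      push_cast
      ring
    have hpR : (p : ℂ) ≠ 0 := by exact_mod_cast hp.ne'
    have hMR : (M : ℂ) ≠ 0 := by exact_mod_cast hM.ne'
    rw [hk']
    push_cast
    field_simp

theorem pt_rot {p M N : ℕ} (hp : 0 < p) (hM : 0 < M) (b : Blo C J) (j : J) (v : Pt C) :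
    pt p M N (rot b M j v) = rotC b p j (pt p M N v) := by
  funext c
  have hpR : (p : ℂ) ≠ 0 := by exact_mod_cast hp.ne'
  have hMR : (M : ℂ) ≠ 0 := by exact_mod_cast hM.ne'
  unfold rotC pt rot
  rw [om_zpow]
  simp only
  have h : Complex.exp (((2 * Real.pi * (((v c).2 + 2 * M * b.mu j c : ℤ) : ℝ) / (2 * p * M) : ℝ) : ℂ)
      * Complex.I) = Complex.exp (((2 * Real.pi * (b.mu j c) / p : ℝ) : ℂ) * Complex.I) *
      Complex.exp (((2 * Real.pi * ((v c).2 : ℝ) / (2 * p * M) : ℝ) : ℂ) * Complex.I) := by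
    rw [← Complex.exp_add]
    congr 1
    push_cast
    field_simp
    ring
  rw [h]
  ring

theorem exp_sub_le (α β : ℝ) : ‖Complex.exp ((α : ℂ) * Complex.I) -
    Complex.exp ((β : ℂ) * Complex.I)‖ ≤ |α - β| := by
  have h : Complex.exp ((α : ℂ) * Complex.I) - Complex.exp ((β : ℂ) * Complex.I)
      = Complex.exp ((β : ℂ) * Complex.I) * (Complex.exp (Complex.I * ((α - β : ℝ) : ℂ)) - 1) := by
    rw [mul_sub, mul_one, ← Complex.exp_add]
    congr 2
    push_cast
    ring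
  rw [h, norm_mul, Complex.norm_exp_ofReal_mul_I, one_mul]
  have := Real.norm_exp_I_mul_ofReal_sub_one_le (x := α - β)
  rwa [Real.norm_eq_abs] at this

theorem dist_pt {p M N : ℕ} (hp : 0 < p) (hM : 0 < M) (hN : 0 < N) {v v' : Pt C}
    (hv' : v' ∈ GrO C N) (c : C) (h1 : |((v c).1 : ℤ) - (v' c).1| ≤ 1)
    (h2 : |(v c).2 - (v' c).2| ≤ 1) :
    ‖pt p M N v c - pt p M N v' c‖ ≤ 1 / N + Real.pi / M := by
  have hNR : (0 : ℝ) < N := by exact_mod_cast hN
  have hMR : (0 : ℝ) < M := by exact_mod_cast hM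
  have hpR : (1 : ℝ) ≤ p := by exact_mod_cast hp
  have hpi := Real.pi_pos
  set a : ℝ := ((v c).1 : ℝ) / N with ha
  set a' : ℝ := ((v' c).1 : ℝ) / N with ha'
  set α : ℝ := 2 * Real.pi * ((v c).2 : ℝ) / (2 * p * M) with hα
  set α' : ℝ := 2 * Real.pi * ((v' c).2 : ℝ) / (2 * p * M) with hα'
  have e1 : pt p M N v c - pt p M N v' c =
      ((a - a' : ℝ) : ℂ) * Complex.exp ((α : ℂ) * Complex.I) +
      (a' : ℂ) * (Complex.exp ((α : ℂ) * Complex.I) - Complex.exp ((α' : ℂ) * Complex.I)) := by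
    unfold pt
    rw [← ha, ← ha', ← hα, ← hα']
    push_cast
    ring
  have b1 : |a - a'| ≤ 1 / N := by
    have h3 : |((v c).1 : ℝ) - (v' c).1| ≤ 1 := by exact_mod_cast h1
    rw [ha, ha', ← sub_div, abs_div, abs_of_pos hNR]
    exact div_le_div_of_nonneg_right h3 hNR.le
  have b2 : a' ≤ 1 := by
    rw [ha', div_le_one hNR]
    exact_mod_cast hv' c
  have b2' : 0 ≤ a' := by positivity
  have b3 : |α - α'| ≤ Real.pi / M := by
    have h3 : |((v c).2 : ℝ) - (v' c).2| ≤ 1 := by exact_mod_cast h2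
    have h4 : α - α' = (Real.pi / (p * M)) * (((v c).2 : ℝ) - (v' c).2) := by
      rw [hα, hα']
      field_simp
    rw [h4, abs_mul, abs_of_pos (by positivity)]
    calc Real.pi / (p * M) * |((v c).2 : ℝ) - (v' c).2| ≤ Real.pi / (p * M) * 1 :=
          mul_le_mul_of_nonneg_left h3 (by positivity)
      _ = Real.pi / (p * M) := mul_one _
      _ ≤ Real.pi / M := by
          apply div_le_div_of_nonneg_left hpi.le hMR
          nlinarith
  rw [e1]
  calc ‖((a - a' : ℝ) : ℂ) * Complex.exp ((α : ℂ) * Complex.I) +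
      (a' : ℂ) * (Complex.exp ((α : ℂ) * Complex.I) - Complex.exp ((α' : ℂ) * Complex.I))‖
      ≤ ‖((a - a' : ℝ) : ℂ) * Complex.exp ((α : ℂ) * Complex.I)‖ +
        ‖(a' : ℂ) * (Complex.exp ((α : ℂ) * Complex.I) - Complex.exp ((α' : ℂ) * Complex.I))‖ :=
        norm_add_le _ _
    _ = |a - a'| + a' * ‖Complex.exp ((α : ℂ) * Complex.I) -
        Complex.exp ((α' : ℂ) * Complex.I)‖ := by
        rw [norm_mul, norm_mul, Complex.norm_exp_ofReal_mul_I, mul_one, Complex.norm_real,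
          Complex.norm_real, Real.norm_eq_abs, Real.norm_of_nonneg b2']
    _ ≤ 1 / N + 1 * (Real.pi / M) :=
        add_le_add b1 (mul_le_mul b2 ((exp_sub_le α α').trans b3) (norm_nonneg _) zero_le_one)
    _ = 1 / N + Real.pi / M := by rw [one_mul]

end

end CoAux

open CoAux in
theorem tCo (hWc : S_Wc) (hRo : S_Ro) (hBo : S_Bo) : S_Co := by
  intro C J _ _ b p f hp hχ hcont hrot hmir
  by_contra hno
  push Not at hno
  have hp0 : 0 < p := hp.pos
  have hpi := Real.pi_pos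
  set D : Set (C → ℂ) := {x | ∀ c', ‖x c'‖ ≤ 1} with hD
  -- compactness
  have hDeq : D = Set.pi Set.univ fun _ : C => Metric.closedBall (0 : ℂ) 1 := by
    ext x
    simp [hD]
  have hDc : IsCompact D := by
    rw [hDeq]
    exact isCompact_univ_pi fun _ => isCompact_closedBall _ _
  have hDn : D.Nonempty := ⟨fun _ => 0, fun c => by simp⟩
  set F : (C → ℂ) → C → ℂ := fun x c => f c x with hF
  have hFc : ContinuousOn F D := continuousOn_pi.mpr hcont
  obtain ⟨x₁, hx₁, hmin⟩ := hDc.exists_isMinOn hDn hFc.norm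
  set ε : ℝ := ‖F x₁‖ with hε
  have hε0 : 0 < ε := by
    rw [hε, norm_pos_iff]
    intro h0
    obtain ⟨c, hc⟩ := hno x₁ hx₁
    exact hc (congrFun h0 c)
  have hlow : ∀ x ∈ D, ∃ c, ε ≤ ‖f c x‖ := by
    intro x hx
    by_contra hc
    push Not at hc
    have h1 : ‖F x‖ < ε := (pi_norm_lt_iff hε0).mpr hc
    have h2 : ε ≤ ‖F x‖ := hmin hx
    exact absurd h1 (not_lt.mpr h2)
  have hunif := hDc.uniformContinuousOn_of_continuous hFc
  obtain ⟨η, hη0, hη⟩ := Metric.uniformContinuousOn_iff.mp hunif (ε / 2) (by positivity)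
  -- the parameters
  obtain ⟨N, hN⟩ := exists_nat_gt (2 / η)
  obtain ⟨M, hM⟩ := exists_nat_gt (2 * Real.pi / η + ∑ c, ∑ j, |(b.χ c j : ℝ)|)
  have hsum0 : 0 ≤ ∑ c, ∑ j, |(b.χ c j : ℝ)| :=
    Finset.sum_nonneg fun c _ => Finset.sum_nonneg fun j _ => abs_nonneg _
  have hNR : (0 : ℝ) < N := lt_trans (by positivity) hN
  have hN0 : 0 < N := by exact_mod_cast hNR
  have hM2 : 2 * Real.pi / η < M := lt_of_le_of_lt (le_add_of_nonneg_right hsum0) hM
  have hMR : (0 : ℝ) < M := lt_trans (by positivity) hM2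
  have hM0 : 0 < M := by exact_mod_cast hMR
  haveI : NeZero (p * M) := ⟨(Nat.mul_pos hp0 hM0).ne'⟩
  have hχM : ∀ c j, |b.χ c j| < (p : ℤ) * M := by
    intro c j
    have h1 : |(b.χ c j : ℝ)| ≤ ∑ c, ∑ j, |(b.χ c j : ℝ)| := by
      calc |(b.χ c j : ℝ)| ≤ ∑ j, |(b.χ c j : ℝ)| :=
            Finset.single_le_sum (f := fun j => |(b.χ c j : ℝ)|) (fun j _ => abs_nonneg _)
              (Finset.mem_univ j)
        _ ≤ ∑ c, ∑ j, |(b.χ c j : ℝ)| :=
            Finset.single_le_sum (f := fun c => ∑ j, |(b.χ c j : ℝ)|)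
              (fun c _ => Finset.sum_nonneg fun j _ => abs_nonneg _) (Finset.mem_univ c)
    have h2 : |(b.χ c j : ℝ)| < M := by
      have : (0 : ℝ) < 2 * Real.pi / η := by positivity
      linarith
    have h3 : |b.χ c j| < (M : ℤ) := by exact_mod_cast h2
    have h4 : (1 : ℤ) ≤ p := by exact_mod_cast hp0
    have h5 : (0 : ℤ) < M := by exact_mod_cast hM0
    nlinarith
  have hdist : 1 / (N : ℝ) + Real.pi / M < η := by
    have h1 : 1 / (N : ℝ) < η / 2 := by
      rw [div_lt_iff₀ hNR]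
      rw [div_lt_iff₀ hη0] at hN
      linarith
    have h2 : Real.pi / M < η / 2 := by
      rw [div_lt_iff₀ hMR]
      rw [div_lt_iff₀ hη0] at hM2
      linarith
    linarith
  -- the arguments
  set T : Num C := Fintype.equivFin C with hT
  have hOk := hRo C J b p M N T hN0
  set φ : C → Pt C → ℝ := fun c v => if f c (pt p M N v) = 0 then ro b (2 * p * M) T c v
    else (f c (pt p M N v)).arg / (2 * Real.pi) with hφ
  have hptD : ∀ v ∈ GrO C N, pt p M N v ∈ D := by
    intro v hv c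
    rw [norm_pt, div_le_one hNR]
    exact_mod_cast hv c
  have hφOk : b.Ok p M N φ := by
    refine ⟨?_, ?_, ?_⟩
    · intro c v v' hv hs
      simp only [hφ]
      rw [pt_same hp0 hM0 hs]
      by_cases h0 : f c (pt p M N v) = 0
      · rw [if_pos h0, if_pos h0]
        exact hOk.same c v v' hv hs
      · rw [if_neg h0, if_neg h0]
        exact ⟨0, by simp⟩
    · intro j v hv hc c
      have hex : ∃ c, b.B c = some j ∧ ‖pt p M N v c‖ = 1 := by
        obtain ⟨c₁, hc₁, hc₂⟩ := hc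
        refine ⟨c₁, hc₁, ?_⟩
        rw [norm_pt, hc₂]
        exact div_self hNR.ne'
      have hr := hrot j (pt p M N v) (hptD v hv) hex c
      rw [← pt_rot hp0 hM0] at hr
      simp only [hφ]
      by_cases h0 : f c (pt p M N v) = 0
      · have h0' : f c (pt p M N (rot b M j v)) = 0 := by rw [hr, h0, mul_zero]
        rw [if_pos h0, if_pos h0']
        exact hOk.blk j v hv hc c
      · have hom : om p ^ b.χ c j ≠ 0 := by
          rw [om_zpow]
          exact Complex.exp_ne_zero _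
        have h0' : f c (pt p M N (rot b M j v)) ≠ 0 := by
          rw [hr]
          exact mul_ne_zero hom h0
        rw [if_neg h0, if_neg h0']
        have hr' : f c (pt p M N (rot b M j v)) = ((1 : ℝ) : ℂ) *
            Complex.exp (((2 * Real.pi * b.χ c j / p : ℝ) : ℂ) * Complex.I) *
            f c (pt p M N v) := by
          rw [hr, om_zpow]
          simp
        obtain ⟨n, hn⟩ := argm one_pos h0 hr'
        refine ⟨n, ?_⟩
        rw [hn]
        have hpR : (p : ℝ) ≠ 0 := by exact_mod_cast hp0.ne'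
        congr 2
        field_simp
    · intro c v hv hc hN'
      have hn1 : ‖pt p M N v c‖ = 1 := by
        rw [norm_pt, hN']
        exact div_self hNR.ne'
      obtain ⟨r, hr0, hr⟩ := hmir c hc (pt p M N v) (hptD v hv) hn1
      have h0 : f c (pt p M N v) ≠ 0 := by
        rw [hr]
        refine mul_ne_zero (by exact_mod_cast hr0.ne') ?_
        rw [← norm_pos_iff, hn1]
        exact one_pos
      simp only [hφ]
      rw [if_neg h0]
      have hr' : f c (pt p M N v) = (r : ℂ) *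
          Complex.exp (((2 * Real.pi * ((v c).2 : ℝ) / (2 * p * M) : ℝ) : ℂ) * Complex.I) := by
        rw [hr]
        congr 1
        unfold pt
        rw [hN', div_self hNR.ne']
        simp
      obtain ⟨n, hn⟩ := argn hr0 hr'
      refine ⟨n, ?_⟩
      rw [hn]
      have hpR : (p : ℝ) ≠ 0 := by exact_mod_cast hp0.ne'
      congr 1
      field_simp
  obtain ⟨v₀, hv₀, hall⟩ := hBo C J b p M N φ hp hN0 hχM hχ hφOk
  obtain ⟨c, hc⟩ := hlow (pt p M N v₀) (hptD v₀ hv₀)
  obtain ⟨v, hv, hww⟩ := hall c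
  apply hww
  set z₀ : ℂ := f c (pt p M N v₀) with hz₀
  have hz₀0 : z₀ ≠ 0 := by
    rw [← norm_pos_iff]
    exact lt_of_lt_of_le hε0 hc
  have hclose : ∀ i, ‖f c (pt p M N (v i)) - z₀‖ < ε / 2 := by
    intro i
    have h1 : dist (pt p M N (v i)) (pt p M N v₀) < η := by
      refine (dist_pi_lt_iff hη0).mpr fun c' => ?_
      rw [dist_eq_norm]
      exact lt_of_le_of_lt (dist_pt hp0 hM0 hN0 hv₀ c' ((hv i).2 c').1 ((hv i).2 c').2) hdist
    have h2 := hη _ (hptD _ (hv i).1) _ (hptD _ hv₀) h1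
    have h3 := lt_of_le_of_lt (dist_le_pi_dist (F (pt p M N (v i))) (F (pt p M N v₀)) c) h2
    rw [dist_eq_norm] at h3
    exact h3
  set g : Pt C → ℝ := fun u => (f c (pt p M N u) / z₀).arg / (2 * Real.pi) with hg
  have hre : ∀ i, ‖f c (pt p M N (v i)) / z₀ - 1‖ < 1 / 2 := by
    intro i
    have h1 : f c (pt p M N (v i)) / z₀ - 1 = (f c (pt p M N (v i)) - z₀) / z₀ := by
      field_simp
    have hz : 0 < ‖z₀‖ := norm_pos_iff.mpr hz₀0
    rw [h1, norm_div, div_lt_iff₀ hz]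
    calc ‖f c (pt p M N (v i)) - z₀‖ < ε / 2 := hclose i
      _ ≤ 1 / 2 * ‖z₀‖ := by linarith
  have hpos : ∀ i, 0 < (f c (pt p M N (v i)) / z₀).re := by
    intro i
    have h1 := Complex.abs_re_le_norm (f c (pt p M N (v i)) / z₀ - 1)
    have h2 := hre i
    rw [Complex.sub_re, Complex.one_re] at h1
    have h3 := (abs_le.mp h1).1
    linarith
  have hgi : ∀ i, |g (v i)| < 1 / 4 := by
    intro i
    have h1 : |(f c (pt p M N (v i)) / z₀).arg| < Real.pi / 2 :=
      Complex.abs_arg_lt_pi_div_two_iff.mpr (Or.inl (hpos i))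
    simp only [hg]
    rw [abs_div, abs_of_pos (by positivity : (0 : ℝ) < 2 * Real.pi), div_lt_iff₀ (by positivity)]
    linarith
  have hrel : ∀ i, ∃ n : ℤ, φ c (v i) = g (v i) + z₀.arg / (2 * Real.pi) + n := by
    intro i
    have hw0 : f c (pt p M N (v i)) / z₀ ≠ 0 := by
      intro h0
      have := hpos i
      rw [h0] at this
      simp at this
    have h0 : f c (pt p M N (v i)) ≠ 0 := by
      intro h0
      apply hw0
      rw [h0, zero_div]
    have h1 : f c (pt p M N (v i)) = ((‖z₀‖ : ℝ) : ℂ) * Complex.exp ((z₀.arg : ℂ) * Complex.I) *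
        (f c (pt p M N (v i)) / z₀) := by
      rw [Complex.norm_mul_exp_arg_mul_I]
      field_simp
    obtain ⟨n, hn⟩ := argm (norm_pos_iff.mpr hz₀0) hw0 h1
    refine ⟨n, ?_⟩
    simp only [hφ, hg]
    rw [if_neg h0]
    exact hn
  obtain ⟨n₁, h₁⟩ := hrel 0
  obtain ⟨n₂, h₂⟩ := hrel 1
  obtain ⟨n₃, h₃⟩ := hrel 2
  obtain ⟨-, -, hw3, -, hw5⟩ := hWc (Pt C) g
  rw [hw3 (φ c) (z₀.arg / (2 * Real.pi)) n₁ n₂ n₃ (v 0) (v 1) (v 2) (v 0) (v 1) (v 2) h₁ h₂ h₃]
  have hg0 := abs_lt.mp (hgi 0)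
  have hg1 := abs_lt.mp (hgi 1)
  have hg2 := abs_lt.mp (hgi 2)
  refine hw5 (v 0) (v 1) (v 2) ?_ ?_ ?_
  · rw [abs_lt]
    constructor <;> linarith
  · rw [abs_lt]
    constructor <;> linarith
  · rw [abs_lt]
    constructor <;> linarith

end Pool.Agent.MPc05127.PO
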