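import Pool.Agent.Lib.MP_c05127_co.PO.SpecT

/-!
# MP_c05127_co, project PO: the reference sum
-/

set_option autoImplicit false

open scoped Classical

namespace Pool.Agent.MPc05127.PO

open Pool.Agent.MPc05127.PP (skip Num Num.n)

namespace EoAux

variable {C J : Type} [Fintype C]

/-- `lo` depends only on the coordinates of the block with radius `≠ 0` -/
private theorem lo_congr (b : Blo C J) (A : ℝ) (T : Num C) (j : J) (v v' : Pt C)
    (h : ∀ c, b.B c = some j → (v c).1 = (v' c).1 ∧ ((v c).1 ≠ 0 → (v c).2 = (v' c).2)) :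
    lo b A T j v = lo b A T j v' := by
  unfold lo
  refine Finset.sum_congr rfl fun c _ => ?_
  by_cases hc : b.B c = some j
  · obtain ⟨h1, h2⟩ := h c hc
    by_cases h0 : (v c).1 = 0
    · rw [if_neg (fun h' => h'.2.1 h0), if_neg (fun h' => h'.2.1 (h1 ▸ h0))]
    · have h3 : (∀ c', b.B c' = some j → T.n c < T.n c' → (v c').1 = 0) ↔
          ∀ c', b.B c' = some j → T.n c < T.n c' → (v' c').1 = 0 := by
        constructor
        · intro h4 c' h5 h6
          rw [← (h c' h5).1]
          exact h4 c' h5 h6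
        · intro h4 c' h5 h6
          rw [(h c' h5).1]
          exact h4 c' h5 h6
      by_cases h4 : ∀ c', b.B c' = some j → T.n c < T.n c' → (v c').1 = 0
      · rw [if_pos ⟨hc, h0, h4⟩, if_pos ⟨hc, h1 ▸ h0, h3.1 h4⟩, h2 h0]
      · rw [if_neg (fun h' => h4 h'.2.2), if_neg (fun h' => h4 (h3.2 h'.2.2))]
  · rw [if_neg (fun h' => hc h'.1), if_neg (fun h' => hc h'.1)]

private theorem ro_congr [Fintype J] (b : Blo C J) (A : ℝ) (T : Num C) (c : C) (v v' : Pt C)
    (h : ∀ c, (v c).1 = (v' c).1 ∧ ((v c).1 ≠ 0 → (v c).2 = (v' c).2)) :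
    ro b A T c v = ro b A T c v' := by
  unfold ro
  obtain ⟨h1, h2⟩ := h c
  by_cases h3 : b.B c = none ∧ (v c).1 ≠ 0
  · rw [if_pos h3, if_pos ⟨h3.1, h1 ▸ h3.2⟩, h2 h3.2]
  · rw [if_neg h3, if_neg (fun h' => h3 ⟨h'.1, h1 ▸ h'.2⟩)]
    exact Finset.sum_congr rfl fun j _ => by rw [lo_congr b A T j v v' fun c _ => h c]

/-- the value of `lo` if `c` is the coordinate with the largest number -/
private theorem lo_top (b : Blo C J) (A : ℝ) (T : Num C) (j : J) (c : C) (v : Pt C)
    (hc : b.B c = some j) (h0 : (v c).1 ≠ 0) (h1 : ∀ c', T.n c < T.n c' → (v c').1 = 0) :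
    lo b A T j v = ((v c).2 : ℝ) / A := by
  unfold lo
  rw [Finset.sum_eq_single c]
  · rw [if_pos ⟨hc, h0, fun c' _ h2 => h1 c' h2⟩]
  · intro c' _ hne
    refine if_neg fun h2 => ?_
    rcases lt_trichotomy (T.n c') (T.n c) with h3 | h3 | h3
    · exact h0 (h2.2.2 c hc h3)
    · exact hne (T.injective (Fin.ext h3))
    · exact h2.2.1 (h1 c' h3)
  · intro h2
    exact absurd (Finset.mem_univ _) h2

/-- the rest of the argument -/
private noncomputable def nu [Fintype J] (b : Blo C J) (A : ℝ) (T : Num C) (c : C) (v : Pt C) : ℝ :=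
  match b.B c with
  | none => 0
  | some j => ∑ j' ∈ Finset.univ.erase j, (b.χ c j' : ℝ) * lo b A T j' v

private theorem ro_top [Fintype J] (b : Blo C J) (A : ℝ) (T : Num C) (c : C) (v v' : Pt C)
    (h0 : (v c).1 ≠ 0) (h1 : ∀ c', T.n c < T.n c' → (v c').1 = 0)
    (h2 : ∀ c', c' ≠ c → (v c').1 = (v' c').1 ∧ ((v c').1 ≠ 0 → (v c').2 = (v' c').2)) :
    ro b A T c v = ((b.ka c : ℝ) * ((v c).2 : ℝ)) / A + nu b A T c v' := by
  unfold ro nu Blo.ka
  cases hb : b.B c with
  | none =>
    simp only [true_and, ne_eq, h0, not_false_eq_true, if_true, Int.cast_one, one_mul, add_zero]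
  | some j =>
    rw [if_neg (fun h => by simp at h)]
    rw [← Finset.add_sum_erase _ _ (Finset.mem_univ j), lo_top b A T j c v hb h0 h1]
    congr 1
    · simp only [mul_div_assoc]
    · refine Finset.sum_congr rfl fun j' hj' => ?_
      rw [lo_congr b A T j' v v' fun c' hc' => h2 c' fun h3 => ?_]
      rw [h3, hb] at hc'
      exact Finset.ne_of_mem_erase hj' (Option.some.inj hc').symm

/-- the vertices of the only simplex -/
private noncomputable def V (T : Num C) {P : ℕ} (w : Fin (Fintype.card C) → ZMod P × Bool)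
    (k : ℕ) : Pt C :=
  vt (fun _ => 0) (fun c => ((w (T c)).1.val : ℤ)) (fun c => (w (T c)).2) (st T) k

private theorem V1 (T : Num C) {P : ℕ} (w : Fin (Fintype.card C) → ZMod P × Bool) (k : ℕ) (c : C) :
    (V T w k c).1 = if 2 * T.n c < k then 1 else 0 := by
  simp [V, vt, st]

private theorem V2 (T : Num C) {P : ℕ} (w : Fin (Fintype.card C) → ZMod P × Bool) (k : ℕ) (c : C) :
    (V T w k c).2 = 2 * ((w (T c)).1.val : ℤ) + if 2 * T.n c + 1 < k then dz (w (T c)).2 else 0 := by
  simp [V, vt, st]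

/-- the factor with the number `l` -/
private noncomputable def G [Fintype J] (b : Blo C J) (A : ℝ) (T : Num C) {P : ℕ}
    (l : Fin (Fintype.card C)) (w : Fin (Fintype.card C) → ZMod P × Bool) : ℤ :=
  dz (w l).2 * ww (ro b A T (T.symm l)) (V T w (2 * l)) (V T w (2 * l + 1)) (V T w (2 * l + 2))

private theorem V_congr (T : Num C) {P : ℕ} (w w' : Fin (Fintype.card C) → ZMod P × Bool)
    (l k : ℕ) (hk : k ≤ 2 * l + 2) (h : ∀ i : Fin (Fintype.card C), (i : ℕ) ≤ l → w i = w' i) (c : C) :
    (V T w k c).1 = (V T w' k c).1 ∧ ((V T w k c).1 ≠ 0 → (V T w k c).2 = (V T w' k c).2) := by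
  refine ⟨by rw [V1, V1], fun h0 => ?_⟩
  rw [V1] at h0
  have h1 : 2 * T.n c < k := by
    by_contra h2
    exact h0 (if_neg h2)
  rw [V2, V2, h (T c) (by
    have : T.n c = (T c : ℕ) := rfl
    omega)]

private theorem G_congr [Fintype J] (b : Blo C J) (A : ℝ) (T : Num C) {P : ℕ}
    (l : Fin (Fintype.card C)) (w w' : Fin (Fintype.card C) → ZMod P × Bool)
    (h : ∀ i ≤ l, w i = w' i) : G b A T l w = G b A T l w' := by
  have h' : ∀ i : Fin (Fintype.card C), (i : ℕ) ≤ (l : ℕ) → w i = w' i := fun i hi => h i hi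
  unfold G ww
  rw [h l le_rfl,
    ro_congr b A T _ _ _ (V_congr T w w' l (2 * l) (by omega) h'),
    ro_congr b A T _ _ _ (V_congr T w w' l (2 * l + 1) (by omega) h'),
    ro_congr b A T _ _ _ (V_congr T w w' l (2 * l + 2) (by omega) h')]

private theorem V_upd (T : Num C) {P : ℕ} (w : Fin (Fintype.card C) → ZMod P × Bool)
    (l : Fin (Fintype.card C)) (x : ZMod P × Bool) (k : ℕ) (hk : k ≤ 2 * l + 2) (hk' : 2 * l ≤ k)
    (c : C) (hc : c ≠ T.symm l) :
    (V T (Function.update w l x) k c).1 = (V T w (2 * l) c).1 ∧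
      ((V T (Function.update w l x) k c).1 ≠ 0 →
        (V T (Function.update w l x) k c).2 = (V T w (2 * l) c).2) := by
  have h1 : T c ≠ l := fun h => hc (by rw [← h, Equiv.symm_apply_apply])
  have h2 : T.n c ≠ l := fun h => h1 (Fin.ext h)
  constructor
  · rw [V1, V1]
    by_cases h3 : 2 * T.n c < k
    · rw [if_pos h3, if_pos (by omega)]
    · rw [if_neg h3, if_neg (by omega)]
  · intro h0
    rw [V1] at h0
    have h3 : 2 * T.n c < k := by
      by_contra h2
      exact h0 (if_neg h2)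
    rw [V2, V2, Function.update_of_ne h1]
    rw [if_pos (by omega), if_pos (by omega)]

private theorem V_upd0 (T : Num C) {P : ℕ} (w : Fin (Fintype.card C) → ZMod P × Bool)
    (l : Fin (Fintype.card C)) (x : ZMod P × Bool) (c : C) :
    (V T (Function.update w l x) (2 * l) c).1 = (V T w (2 * l) c).1 ∧
      ((V T (Function.update w l x) (2 * l) c).1 ≠ 0 →
        (V T (Function.update w l x) (2 * l) c).2 = (V T w (2 * l) c).2) := by
  by_cases hc : c = T.symm l
  · have h1 : (V T (Function.update w l x) (2 * l) c).1 = 0 := by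
      rw [V1, if_neg]
      rw [hc]
      have : T.n (T.symm l) = (l : ℕ) := by
        show ((T (T.symm l) : Fin _) : ℕ) = l
        rw [Equiv.apply_symm_apply]
      omega
    refine ⟨?_, fun h => absurd h1 h⟩
    rw [h1, V1, if_neg]
    rw [hc]
    have : T.n (T.symm l) = (l : ℕ) := by
      show ((T (T.symm l) : Fin _) : ℕ) = l
      rw [Equiv.apply_symm_apply]
    omega
  · exact V_upd T w l x (2 * l) (by omega) le_rfl c hc

private theorem n_symm (T : Num C) (l : Fin (Fintype.card C)) : T.n (T.symm l) = (l : ℕ) := by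
  show ((T (T.symm l) : Fin _) : ℕ) = l
  rw [Equiv.apply_symm_apply]

private theorem G_sum [Fintype J] (hAw : S_Aw) (b : Blo C J) (p M : ℕ) [NeZero (p * M)] (T : Num C)
    (hp : 2 ≤ p) (hχ : ∀ c j, |b.χ c j| < p * M)
    (l : Fin (Fintype.card C)) (w : Fin (Fintype.card C) → ZMod (p * M) × Bool) :
    ∑ x, G b (2 * p * M) T l (Function.update w l x) = b.ka (T.symm l) := by
  have hP : 0 < p * M := Nat.pos_of_ne_zero (NeZero.ne _)
  have hka : |b.ka (T.symm l)| < ((p * M : ℕ) : ℤ) := by
    unfold Blo.ka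
    cases b.B (T.symm l) with
    | none =>
      have hM : 1 ≤ M := Nat.pos_of_mul_pos_left hP
      have : 2 ≤ p * M := le_trans hp (Nat.le_mul_of_pos_right p hM)
      have h2 : ((2 : ℕ) : ℤ) ≤ ((p * M : ℕ) : ℤ) := by exact_mod_cast this
      show |(1 : ℤ)| < _
      rw [abs_one]
      push_cast at h2 ⊢
      omega
    | some j =>
      have h1 := hχ (T.symm l) j
      push_cast
      exact h1
  have hAA : (2 * (p : ℝ) * M) = 2 * ((p * M : ℕ) : ℝ) := by push_cast; ring
  have key := hAw (p * M) (b.ka (T.symm l))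
    (nu b (2 * p * M) T (T.symm l) (V T w (2 * l)))
    (ro b (2 * p * M) T (T.symm l) (V T w (2 * l))) hka
  rw [← key, Fintype.sum_prod_type]
  refine Finset.sum_congr rfl fun t _ => Finset.sum_congr rfl fun δ _ => ?_
  unfold G ww
  have hA0 := ro_congr b (2 * p * M) T (T.symm l) _ _ (V_upd0 T w l (t, δ))
  have htop : ∀ k, 2 * (l : ℕ) < k → k ≤ 2 * l + 2 →
      ro b (2 * p * M) T (T.symm l) (V T (Function.update w l (t, δ)) k) =
        ((b.ka (T.symm l) : ℝ) * ((V T (Function.update w l (t, δ)) k (T.symm l)).2 : ℝ)) /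
          (2 * p * M) + nu b (2 * p * M) T (T.symm l) (V T w (2 * l)) := by
    intro k hk hk'
    refine ro_top b _ T _ _ _ ?_ ?_ ?_
    · rw [V1, n_symm, if_pos hk]
      exact one_ne_zero
    · intro c' hc'
      rw [n_symm] at hc'
      rw [V1, if_neg (by omega)]
    · intro c' hc'
      exact V_upd T w l (t, δ) k hk' hk.le c' hc'
  rw [hA0, htop (2 * l + 1) (by omega) (by omega), htop (2 * l + 2) (by omega) (by omega)]
  have e1 : (V T (Function.update w l (t, δ)) (2 * l + 1) (T.symm l)).2 = 2 * (t.val : ℤ) := by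
    rw [V2, n_symm, if_neg (by omega), Equiv.apply_symm_apply, Function.update_self, add_zero]
  have e2 : (V T (Function.update w l (t, δ)) (2 * l + 2) (T.symm l)).2 =
      2 * (t.val : ℤ) + dz δ := by
    rw [V2, n_symm, if_pos (by omega), Equiv.apply_symm_apply, Function.update_self]
  rw [e1, e2, Function.update_self, hAA]
  push_cast
  rfl

end EoAux

open EoAux in
theorem tEo (hUo : S_Uo) (hAw : S_Aw) (hTu : S_Tu) : S_Eo := by
  intro C J _ _ b p M N _ T hN hp hχ
  have hM0 : 0 < p * M := Nat.pos_of_ne_zero (NeZero.ne _)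
  unfold all
  -- only `e = 0`
  rw [Finset.sum_eq_single (fun _ : C => 0)]
  rotate_left
  · intro e _ he
    refine Finset.sum_eq_zero fun t _ => Finset.sum_eq_zero fun δ _ =>
      Finset.sum_eq_zero fun π _ => ?_
    by_cases h : pw (Fintype.card C) (so T (ro b (2 * p * M) T))
        (vt e (fun c => ((t c).val : ℤ)) δ (fun x => st T (π x))) = 0
    · rw [h, mul_zero]
    · exact absurd (funext (hUo C J b _ T e _ δ π h).1) he
  · intro h
    exact absurd (Fintype.mem_piFinset.2 fun _ => Finset.mem_range.2 (by omega)) h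
  -- only `π = 1`
  have h1 : ∀ (t : C → ZMod (p * M)) (δ : C → Bool), ∑ π : Equiv.Perm (C × Bool),
      (Equiv.Perm.sign π : ℤ) * (∏ c, dz (δ c)) * pw (Fintype.card C) (so T (ro b (2 * p * M) T))
        (vt (fun _ => 0) (fun c => ((t c).val : ℤ)) δ (fun x => st T (π x))) =
      (∏ c, dz (δ c)) * pw (Fintype.card C) (so T (ro b (2 * p * M) T))
        (vt (fun _ => 0) (fun c => ((t c).val : ℤ)) δ (st T)) := by
    intro t δ
    rw [Finset.sum_eq_single 1]
    · simp
    · intro π _ hπ
      by_cases h : pw (Fintype.card C) (so T (ro b (2 * p * M) T))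
          (vt (fun _ => 0) (fun c => ((t c).val : ℤ)) δ (fun x => st T (π x))) = 0
      · rw [h, mul_zero]
      · exact absurd (hUo C J b _ T _ _ δ π h).2 hπ
    · intro h
      exact absurd (Finset.mem_univ _) h
  rw [Finset.sum_congr rfl fun t _ => Finset.sum_congr rfl fun δ _ => h1 t δ]
  -- the product
  have h2 : ∀ w : Fin (Fintype.card C) → ZMod (p * M) × Bool,
      (∏ c, dz (w (T c)).2) * pw (Fintype.card C) (so T (ro b (2 * p * M) T)) (V T w) =
      ∏ l, G b (2 * p * M) T l w := by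
    intro w
    unfold G pw
    rw [Finset.prod_mul_distrib, Finset.prod_range]
    congr 1
    · exact Equiv.prod_comp T fun l => dz (w l).2
    · refine Finset.prod_congr rfl fun l _ => ?_
      have h3 : so T (ro b (2 * p * M) T) l = ro b (2 * p * M) T (T.symm l) := by
        funext v
        unfold so
        rw [dif_pos l.2]
      rw [h3]
  have h3 : ∑ t : C → ZMod (p * M), ∑ δ : C → Bool,
      (∏ c, dz (δ c)) * pw (Fintype.card C) (so T (ro b (2 * p * M) T))
        (vt (fun _ => 0) (fun c => ((t c).val : ℤ)) δ (st T)) =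
      ∑ w : Fin (Fintype.card C) → ZMod (p * M) × Bool, ∏ l, G b (2 * p * M) T l w := by
    rw [← Fintype.sum_prod_type' (f := fun (t : C → ZMod (p * M)) (δ : C → Bool) =>
      (∏ c, dz (δ c)) * pw (Fintype.card C) (so T (ro b (2 * p * M) T))
        (vt (fun _ => 0) (fun c => ((t c).val : ℤ)) δ (st T)))]
    let E : (C → ZMod (p * M)) × (C → Bool) ≃ (Fin (Fintype.card C) → ZMod (p * M) × Bool) :=
      (Equiv.arrowProdEquivProdArrow C (fun _ => ZMod (p * M)) (fun _ => Bool)).symm.trans
        (Equiv.arrowCongr T (Equiv.refl _))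
    rw [← Equiv.sum_comp E]
    refine Finset.sum_congr rfl fun x _ => ?_
    rw [← h2]
    have h4 : ∀ c, E x (T c) = (x.1 c, x.2 c) := by
      intro c
      simp [E, Equiv.arrowCongr, Equiv.arrowProdEquivProdArrow]
    unfold V
    simp only [h4]
  rw [h3, hTu (Fintype.card C) (ZMod (p * M) × Bool) (fun l w => G b (2 * p * M) T l w)
    (fun l => b.ka (T.symm l)) (fun l w w' h => G_congr b _ T l w w' h)
    (fun l w => G_sum hAw b p M T hp hχ l w)]
  exact Equiv.prod_comp T.symm fun c => b.ka c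

end Pool.Agent.MPc05127.PO
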