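import Pool.Agent.Lib.MP_c05127_co.PO.SpecE

set_option autoImplicit false

/-!
# MP_c05127_co: assembly of the final theorem for prime powers
-/

open scoped Classical

namespace Pool.Agent.Lib.MP_c05127_co.PP

open Pool.Agent.Lib.MP_c05127_co.Brief

theorem wFinalP (h1 : S_Fink) (h2 : S_FinkO) (h3 : S_Gen1k) (h4 : S_Gen2k) : S_FinalP := by
  intro p d k r A hp hpk hk1 hkd hr hA hcard h
  have main : NoDirK r A → ConclK k r A := by
    intro hN
    by_cases hp2 : p = 2
    · subst hp2
      exact h1 d k r A hk1 hkd hr hA hcard hN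
    · have hodd : ¬ Even p := fun h => hp2 ((Nat.Prime.even_iff hp).1 h)
      have hk : Even k := by
        rcases Nat.even_mul.1 hpk with h | h
        · exact absurd h hodd
        · exact h
      obtain ⟨l, hl⟩ := hk
      obtain rfl : k = 2 * l := by omega
      exact h2 p hp hp2 d l r A (by omega) hkd hr hA hcard hN
  rcases h with hN | hG
  · exact main hN
  · by_cases hs : d ≤ ∑ i, r i
    · exact main (h3 d _ r A hG hs)
    · have hr1 : ∀ i, 1 ≤ r i := by
        intro i
        obtain ⟨e, he⟩ := hr i
        rw [he]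
        exact Nat.one_le_pow _ _ hp.pos
      refine h4 d k _ r A (Nat.succ_pos _) hk1 hkd hr1 hA (fun i => ?_) hG (by omega)
      rw [hcard i]
      have h5 := hr1 i
      obtain ⟨x, hx⟩ : ∃ x, r i = x + 1 := ⟨r i - 1, by omega⟩
      rw [hx, Nat.add_sub_cancel]
      nlinarith [Nat.zero_le (k * x)]

end Pool.Agent.Lib.MP_c05127_co.PP
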