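import Pool.Agent.Lib.MP_c05127_co.PO.SpecG

/-!
# MP_c05127_co, project PO: the vectors of the frame and the Miranda conditions
-/

set_option autoImplicit false

open scoped Classical

namespace Pool.Agent.MPc05127.PO

open Pool.Agent.MPc05127.PP (E idx len)

theorem tFm (hCn : S_Cn) : S_Fm := by
  intro p _ hp hp2 d l hl hld e a z hz
  obtain ⟨-, hno⟩ := hCn p hp hp2 d l hl hld e
  have h1 : ∀ b : Fin l, 0 < ‖vR d z.1 b‖ ^ 2 + ‖vI d z.1 b‖ ^ 2 := by
    intro b
    obtain ⟨⟨i, hi, hne⟩, -, -⟩ := hz.1 (Sum.inr b)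
    have hid : i < d := by
      have := hno b
      omega
    have h0 : vR d z.1 b ≠ 0 ∨ vI d z.1 b ≠ 0 := by
      by_contra hcon
      push Not at hcon
      apply hne
      apply Complex.ext
      · have := congrArg (fun v : E d => v ⟨i, hid⟩) hcon.1
        exact this
      · have := congrArg (fun v : E d => v ⟨i, hid⟩) hcon.2
        exact this
    rcases h0 with h | h
    · have := norm_pos_iff.2 h
      positivity
    · have := norm_pos_iff.2 h
      positivity
  refine ⟨h1, fun b hb => ⟨‖vR d z.1 b‖ ^ 2 + ‖vI d z.1 b‖ ^ 2, h1 b, ?_⟩⟩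
  have hn : ‖z.2‖ = 1 := by
    apply le_antisymm
    · exact (pi_norm_le_iff_of_nonneg zero_le_one).2 hz.2
    · rw [← hb]
      exact norm_le_pi_norm z.2 b
  have hs : su z.2 = 1 := by
    unfold su
    rw [hn]
    norm_num
  unfold go
  rw [hs]
  simp

end Pool.Agent.MPc05127.PO
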