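import Pool.Agent.Lib.MP_c05127_co.PO.SpecT

/-!
# MP_c05127_co, project PO: free orbits
-/

set_option autoImplicit false

open scoped Classical

namespace Pool.Agent.MPc05127.PO

theorem tFr : S_Fr := by
  intro C _ p M _ c s g hs hg
  have hpM : p * M ≠ 0 := NeZero.ne _
  have hp : 0 < p := Nat.pos_of_ne_zero (left_ne_zero_of_mul hpM)
  have hM : 0 < M := Nat.pos_of_ne_zero (right_ne_zero_of_mul hpM)
  obtain ⟨q, hq⟩ : ∃ q : (C → ZMod (p * M)) → ℕ, ∀ t, q t = (t c).val / M :=
    ⟨fun t => (t c).val / M, fun _ => rfl⟩
  have hqp : ∀ t, q t < p := by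
    intro t
    rw [hq]
    apply Nat.div_lt_of_lt_mul
    exact lt_of_lt_of_eq (ZMod.val_lt (t c)) (mul_comm p M)
  have hstep : ∀ i, i + 1 < p → ∑ t with q t = i + 1, g t = ∑ t with q t = i, g t := by
    intro i hi
    have hsM : (s c).val = M := by
      rw [hs, ZMod.val_natCast, Nat.mod_eq_of_lt]
      nlinarith
    symm
    refine Finset.sum_nbij' (fun t => t + s) (fun t => t - s) ?_ ?_ ?_ ?_ ?_
    · intro t ht
      rw [Finset.mem_filter] at ht ⊢
      refine ⟨Finset.mem_univ _, ?_⟩
      have h1 := ht.2
      rw [hq] at h1 ⊢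
      have h2 : (t c).val < (i + 1) * M := by
        rw [← h1]
        have h3 := Nat.lt_div_mul_add (a := (t c).val) hM
        rw [add_mul, one_mul]
        exact h3
      have h4 : (t c).val + M < p * M := by
        calc (t c).val + M < (i + 1) * M + M := Nat.add_lt_add_right h2 M
          _ = (i + 2) * M := by ring
          _ ≤ p * M := Nat.mul_le_mul_right _ hi
      rw [Pi.add_apply, ZMod.val_add, hsM, Nat.mod_eq_of_lt h4, Nat.add_div_right _ hM, h1]
    · intro t ht
      rw [Finset.mem_filter] at ht ⊢
      refine ⟨Finset.mem_univ _, ?_⟩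
      have h1 := ht.2
      rw [hq] at h1 ⊢
      have h2 : M ≤ (t c).val := by
        by_contra h
        rw [not_le] at h
        rw [Nat.div_eq_of_lt h] at h1
        omega
      rw [Pi.sub_apply, ZMod.val_sub (by rw [hsM]; exact h2), hsM]
      have h3 : (t c).val / M = ((t c).val - M) / M + 1 := by
        conv_lhs => rw [← Nat.sub_add_cancel h2]
        rw [Nat.add_div_right _ hM]
      omega
    · intro t _
      exact add_sub_cancel_right t s
    · intro t _
      exact sub_add_cancel t s
    · intro t _
      exact (hg t).symm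
  have hall : ∀ i, i < p → ∑ t with q t = i, g t = ∑ t with q t = 0, g t := by
    intro i
    induction i with
    | zero => intro _; rfl
    | succ i ih => intro hi; rw [hstep i hi, ih (by omega)]
  rw [← Finset.sum_fiberwise_of_maps_to (s := Finset.univ) (t := Finset.range p) (g := q)
    (fun t _ => Finset.mem_range.2 (hqp t)) g,
    Finset.sum_congr rfl (fun i hi => hall i (Finset.mem_range.1 hi)), Finset.sum_const,
    Finset.card_range, nsmul_eq_mul]
  exact dvd_mul_right _ _

end Pool.Agent.MPc05127.PO
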