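import Pool.Agent.Lib.MP_c05127_co.PO.SpecG

/-! MP_c05127_co, project PO: symmetry of the functions of the disc theorem. -/

set_option autoImplicit false

open scoped Classical

namespace Pool.Agent.MPc05127.PO

open Pool.Agent.MPc05127.PP (E idx len)

namespace FsAux

theorem norm_om (p : ℕ) : ‖om p‖ = 1 := by
  unfold om
  have h : (2 * Real.pi * Complex.I / p : ℂ) = ((2 * Real.pi / p : ℝ) : ℂ) * Complex.I := by
    push_cast
    ring
  rw [h, Complex.norm_exp_ofReal_mul_I]

theorem om_ne (p : ℕ) : om p ≠ 0 := by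
  unfold om
  exact Complex.exp_ne_zero _

theorem om_sq (p : ℕ) : (om p).re ^ 2 + (om p).im ^ 2 = 1 := by
  have h := Complex.sq_norm (om p)
  rw [norm_om, Complex.normSq_apply] at h
  nlinarith [h]

theorem conj_om (p : ℕ) : (starRingEnd ℂ) (om p) = (om p)⁻¹ := by
  rw [Complex.inv_def, Complex.normSq_eq_norm_sq, norm_om]
  simp

variable {m l d : ℕ} {e : Fin m → ℕ} {p : ℕ} [NeZero p]

omit [NeZero p] in
theorem rX_self {J : Type} (j : J) (X : J → ℕ → ℂ) : rX p j X j = fun i => om p * X j i := by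
  unfold rX
  rw [Function.update_self]

omit [NeZero p] in
theorem rX_ne {J : Type} (j j' : J) (X : J → ℕ → ℂ) (h : j' ≠ j) : rX p j X j' = X j' := by
  unfold rX
  rw [Function.update_of_ne h]

omit [NeZero p] in
theorem vR_inl (X : Jo l e → ℕ → ℂ) (q : Σ i : Fin m, Fin (e i)) (b : Fin l) :
    vR d (rX p (Sum.inl q) X) b = vR d X b := by
  unfold vR
  rw [rX_ne _ _ _ Sum.inr_ne_inl]

omit [NeZero p] in
theorem vI_inl (X : Jo l e → ℕ → ℂ) (q : Σ i : Fin m, Fin (e i)) (b : Fin l) :
    vI d (rX p (Sum.inl q) X) b = vI d X b := by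
  unfold vI
  rw [rX_ne _ _ _ Sum.inr_ne_inl]

omit [NeZero p] in
theorem vR_inr (X : Jo l e → ℕ → ℂ) (b c : Fin l) :
    vR d (rX p (Sum.inr b) X) c = if c = b then (om p).re • vR d X c - (om p).im • vI d X c
      else vR d X c := by
  by_cases h : c = b
  · subst h
    rw [if_pos rfl]
    unfold vR vI
    rw [rX_self]
    ext i
    simp [Complex.mul_re]
  · rw [if_neg h]
    unfold vR
    rw [rX_ne _ _ _ fun h' => h (Sum.inr_injective h')]

omit [NeZero p] in
theorem vI_inr (X : Jo l e → ℕ → ℂ) (b c : Fin l) :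
    vI d (rX p (Sum.inr b) X) c = if c = b then (om p).re • vI d X c + (om p).im • vR d X c
      else vI d X c := by
  by_cases h : c = b
  · subst h
    rw [if_pos rfl]
    unfold vR vI
    rw [rX_self]
    ext i
    simp [Complex.mul_im]
  · rw [if_neg h]
    unfold vI
    rw [rX_ne _ _ _ fun h' => h (Sum.inr_injective h')]

omit [NeZero p] in
theorem rY_inl (q : Σ i : Fin m, Fin (e i)) (y : Fin l → ℂ) :
    rY p XQ (Sum.inl q : Jo l e) y = y := by
  funext c
  unfold rY XQ
  rw [if_neg (by exact fun h => by cases h), zpow_zero, one_mul]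

omit [NeZero p] in
theorem rY_inr (b : Fin l) (y : Fin l → ℂ) (c : Fin l) :
    rY p XQ (Sum.inr b : Jo l e) y c = if c = b then om p * y c else y c := by
  unfold rY XQ
  by_cases h : c = b
  · rw [if_pos h, if_pos (by rw [h]), zpow_one]
  · rw [if_neg h, if_neg (fun h' => h (Sum.inr_injective h').symm), zpow_zero, one_mul]

omit [NeZero p] in
theorem norm_rY (j : Jo l e) (y : Fin l → ℂ) : ‖rY p XQ j y‖ = ‖y‖ := by
  have h : ∀ c, ‖rY p XQ j y c‖ = ‖y c‖ := by
    intro c
    unfold rY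
    rw [norm_mul, norm_zpow, norm_om, one_zpow, one_mul]
  apply le_antisymm
  · rw [pi_norm_le_iff_of_nonneg (norm_nonneg _)]
    intro c
    rw [h]
    exact norm_le_pi_norm y c
  · rw [pi_norm_le_iff_of_nonneg (norm_nonneg _)]
    intro c
    rw [← h]
    exact norm_le_pi_norm (rY p XQ j y) c

omit [NeZero p] in
theorem uo_inl (X : Jo l e → ℕ → ℂ) (q : Σ i : Fin m, Fin (e i)) (y : Fin l → ℂ) :
    uo d (rX p (Sum.inl q) X) y = uo d X y := by
  unfold uo
  exact Finset.sum_congr rfl fun b _ => by rw [vR_inl, vI_inl]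

omit [NeZero p] in
theorem uo_inr (X : Jo l e → ℕ → ℂ) (b : Fin l) (y : Fin l → ℂ) :
    uo d (rX p (Sum.inr b) X) (rY p XQ (Sum.inr b : Jo l e) y) = uo d X y := by
  unfold uo
  refine Finset.sum_congr rfl fun c _ => ?_
  rw [vR_inr, vI_inr, rY_inr]
  by_cases h : c = b
  · rw [if_pos h, if_pos h, if_pos h]
    ext i
    simp only [PiLp.add_apply, PiLp.smul_apply, PiLp.sub_apply, smul_eq_mul, Complex.mul_re,
      Complex.mul_im]
    linear_combination ((y c).re * (vR d X c) i + (y c).im * (vI d X c) i) * om_sq p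
  · rw [if_neg h, if_neg h, if_neg h]

omit [NeZero p] in
theorem norm_inr (X : Jo l e → ℕ → ℂ) (b c : Fin l) :
    ‖vR d (rX p (Sum.inr b) X) c‖ ^ 2 + ‖vI d (rX p (Sum.inr b) X) c‖ ^ 2 =
      ‖vR d X c‖ ^ 2 + ‖vI d X c‖ ^ 2 := by
  rw [vR_inr, vI_inr]
  by_cases h : c = b
  · rw [if_pos h, if_pos h, norm_sub_sq_real, norm_add_sq_real, norm_smul, norm_smul, norm_smul,
      norm_smul, mul_pow, mul_pow, mul_pow, mul_pow, Real.norm_eq_abs, Real.norm_eq_abs, sq_abs,
      sq_abs, inner_smul_left, inner_smul_right, inner_smul_left, inner_smul_right,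
      real_inner_comm (vR d X c) (vI d X c)]
    simp only [conj_trivial]
    linear_combination (‖vR d X c‖ ^ 2 + ‖vI d X c‖ ^ 2) * om_sq p
  · rw [if_neg h, if_neg h]

omit [NeZero p] in
theorem FO_inl (a : Fin m → ℕ → E d) (X : Jo l e → ℕ → ℂ) (q : Σ i : Fin m, Fin (e i))
    (y : Fin l → ℂ) (i : Fin m) (b : Fin l) :
    FO a (rX p (Sum.inl q) X) y i b = FO a X y i b := by
  funext h
  unfold FO
  rw [uo_inl, vR_inl, vI_inl]

omit [NeZero p] in
theorem FO_inr (a : Fin m → ℕ → E d) (X : Jo l e → ℕ → ℂ) (b : Fin l)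
    (y : Fin l → ℂ) (i : Fin m) (c : Fin l) :
    FO a (rX p (Sum.inr b) X) (rY p XQ (Sum.inr b : Jo l e) y) i c =
      if c = b then (fun h => om p * FO a X y i c h) else FO a X y i c := by
  funext h
  unfold FO tu
  rw [uo_inr, vR_inr, vI_inr, norm_rY]
  by_cases hc : c = b
  · rw [if_pos hc, if_pos hc, if_pos hc, inner_sub_right, inner_add_right, inner_smul_right,
      inner_smul_right, inner_smul_right, inner_smul_right]
    apply Complex.ext
    · simp only [Complex.mul_re, Complex.mul_im, Complex.ofReal_re, Complex.ofReal_im]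
      ring
    · simp only [Complex.mul_re, Complex.mul_im, Complex.ofReal_re, Complex.ofReal_im]
      ring
  · rw [if_neg hc, if_neg hc, if_neg hc]

/-- Rotation of a sphere of the family `i`: the intervals of the family. -/
theorem zz_self (hSg : S_Sg) (hp : 2 ≤ p) (X : Jo l e → ℕ → ℂ) (i : Fin m) (t : Fin (e i))
    (h0 : X (Sum.inl ⟨i, t⟩) (no (l := l) (e := e) p (Sum.inl ⟨i, t⟩)) = 0) :
    zz p (rX p (Sum.inl ⟨i, t⟩) X) i =
      Function.update (zz p X i) t (fun b => om p * zz p X i t b) := by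
  funext u
  by_cases h : u = t
  · subst h
    rw [Function.update_self]
    unfold zz
    rw [rX_self]
    funext b
    exact ((hSg p (nj p l e i u) hp).2 (X (Sum.inl ⟨i, u⟩))).1 h0 b
  · rw [Function.update_of_ne h]
    unfold zz
    rw [rX_ne _ _ _ fun h' => h ?_]
    exact eq_of_heq (Sigma.mk.inj (Sum.inl_injective h')).2

/-- Rotation of a sphere of the family `i`: the intervals of the other families. -/
theorem zz_ne (X : Jo l e → ℕ → ℂ) (i i' : Fin m) (t : Fin (e i)) (h : i' ≠ i) :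
    zz p (rX p (Sum.inl ⟨i, t⟩) X) i' = zz p X i' := by
  funext u
  unfold zz
  rw [rX_ne _ _ _ fun h' => h (Sigma.mk.inj (Sum.inl_injective h')).1]

theorem zz_inr (X : Jo l e → ℕ → ℂ) (b : Fin l) (i : Fin m) :
    zz p (rX p (Sum.inr b) X) i = zz p X i := by
  funext u
  unfold zz
  rw [rX_ne _ _ _ Sum.inl_ne_inr]

theorem phc_mul (hPr : S_Pr) {s : ℕ} (n : Fin s → ℕ) (Z : Fin s → ℕ → ℂ) (χ : Fin s → ZMod p)
    (c : ℂ) (F : ℕ → ℂ) : phc n Z χ (fun h => c * F h) = c * phc n Z χ F := by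
  have h := (hPr s p n Z χ).2.1 Unit (fun _ => c) (fun _ => F)
  simpa using h

theorem fo_none (a : Fin m → ℕ → E d) (i : Fin m) (χ : Hc p (e i)) (X : Jo l e → ℕ → ℂ)
    (y : Fin l → ℂ) :
    fo p a (Sum.inl ⟨i, χ, none⟩ : Cf p l e) X y = phc (n2 p l e i) (zz p X i) χ.1 (fun _ => 1) := rfl

theorem fo_some (a : Fin m → ℕ → E d) (i : Fin m) (χ : Hc p (e i)) (b : Fin l) (s : Bool)
    (X : Jo l e → ℕ → ℂ) (y : Fin l → ℂ) :
    fo p a (Sum.inl ⟨i, χ, some (b, s)⟩ : Cf p l e) X y = phc (n2 p l e i) (zz p X i) χ.1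
      (fun h => if s then FO a X y i b h else (starRingEnd ℂ) (FO a X y i b h)) := rfl

theorem fo_q (a : Fin m → ℕ → E d) (b : Fin l) (X : Jo l e → ℕ → ℂ) (y : Fin l → ℂ) :
    fo p a (Sum.inr (Sum.inl (Sum.inl b)) : Cf p l e) X y =
      ∑ c ∈ Finset.range d, X (Sum.inr b) c ^ 2 := rfl

theorem fo_qq (a : Fin m → ℕ → E d) (q : {q : Fin l × Fin l // q.1 < q.2}) (s : Bool)
    (X : Jo l e → ℕ → ℂ) (y : Fin l → ℂ) :
    fo p a (Sum.inr (Sum.inl (Sum.inr (q, s))) : Cf p l e) X y =
      ∑ c ∈ Finset.range d, X (Sum.inr q.1.1) c *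
      (if s then X (Sum.inr q.1.2) c else (starRingEnd ℂ) (X (Sum.inr q.1.2) c)) := rfl

theorem fo_0 (a : Fin m → ℕ → E d) (b : Fin l) (i : {i : Fin m // (i : ℕ) ≠ 0})
    (X : Jo l e → ℕ → ℂ) (y : Fin l → ℂ) :
    fo p a (Sum.inr (Sum.inr (b, i)) : Cf p l e) X y =
      phc (n2 p l e i) (zz p X i) (0 : Fin (e i) → ZMod p) (FO a X y i b) := rfl

omit [NeZero p] in
theorem XO_1 (i : Fin m) (χ : Hc p (e i)) (o : Option (Fin l × Bool))
    (j : Σ i : Fin m, Fin (e i)) : XO (Sum.inl ⟨i, χ, o⟩ : Cf p l e) (Sum.inl j) =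
      ∑ t, if j = ⟨i, t⟩ then ((χ.1 t).val : ℤ) else 0 := by
  rcases o with _ | _ <;> rfl

omit [NeZero p] in
theorem XO_2 (i : Fin m) (χ : Hc p (e i)) (b : Fin l) :
    XO (Sum.inl ⟨i, χ, none⟩ : Cf p l e) (Sum.inr b) = 0 := rfl

omit [NeZero p] in
theorem XO_3 (i : Fin m) (χ : Hc p (e i)) (b b' : Fin l) (s : Bool) :
    XO (Sum.inl ⟨i, χ, some (b', s)⟩ : Cf p l e) (Sum.inr b) =
      if b = b' then (if s then 1 else -1) else 0 := rfl

omit [NeZero p] in
theorem XO_4 (b : Fin l) (j : Jo l e) :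
    XO (Sum.inr (Sum.inl (Sum.inl b)) : Cf p l e) j = if j = Sum.inr b then 2 else 0 := by
  rcases j with _ | _ <;> rfl

omit [NeZero p] in
theorem XO_5 (q : {q : Fin l × Fin l // q.1 < q.2}) (s : Bool) (j : Jo l e) :
    XO (Sum.inr (Sum.inl (Sum.inr (q, s))) : Cf p l e) j =
      (if j = Sum.inr q.1.1 then 1 else 0) +
        (if j = Sum.inr q.1.2 then (if s then 1 else -1) else 0) := by
  rcases j with _ | _ <;> rfl

omit [NeZero p] in
theorem XO_6 (b : Fin l) (i : {i : Fin m // (i : ℕ) ≠ 0}) (j : Jo l e) :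
    XO (Sum.inr (Sum.inr (b, i)) : Cf p l e) j = if j = Sum.inr b then 1 else 0 := by
  rcases j with _ | _ <;> rfl

end FsAux

open FsAux

theorem tFs (hSg : S_Sg) (hPr : S_Pr) : S_Fs := by
  intro p _ hp m l d _ e a j z hz h0
  rcases j with ⟨i, t⟩ | b
  · -- a sphere of the family `i`
    have key : ∀ (i' : Fin m) (χ : Fin (e i') → ZMod p) (F : ℕ → ℂ),
        phc (n2 p l e i') (zz p (rX p (Sum.inl ⟨i, t⟩) z.1) i') χ F =
          om p ^ (∑ t', if (⟨i, t⟩ : Σ i : Fin m, Fin (e i)) = ⟨i', t'⟩ then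
            ((χ t').val : ℤ) else 0) * phc (n2 p l e i') (zz p z.1 i') χ F := by
      intro i' χ F
      by_cases hi : i' = i
      · subst hi
        rw [zz_self hSg hp z.1 i' t h0, (hPr _ p _ _ χ).1 t F, Finset.sum_eq_single t,
          if_pos rfl, zpow_natCast]
        · intro t' _ ht'
          rw [if_neg]
          intro h
          exact ht' (eq_of_heq (Sigma.mk.inj h).2).symm
        · intro h
          exact absurd (Finset.mem_univ t) h
      · rw [zz_ne _ _ _ _ hi, Finset.sum_eq_zero, zpow_zero, one_mul]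
        intro t' _
        rw [if_neg]
        intro h
        exact hi (Sigma.mk.inj h).1.symm
    have key0 : ∀ (i' : Fin m) (F : ℕ → ℂ),
        phc (n2 p l e i') (zz p (rX p (Sum.inl ⟨i, t⟩) z.1) i') (0 : Fin (e i') → ZMod p) F =
          phc (n2 p l e i') (zz p z.1 i') (0 : Fin (e i') → ZMod p) F := by
      intro i' F
      rw [key, Finset.sum_eq_zero, zpow_zero, one_mul]
      intro t' _
      simp
    have hne : ∀ b : Fin l, (Sum.inl ⟨i, t⟩ : Jo l e) ≠ Sum.inr b := fun b h => by cases h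
    rw [rY_inl]
    constructor
    · rintro (⟨i', χ, _ | ⟨b, s⟩⟩ | (b | ⟨q, s⟩) | ⟨b, i'⟩)
      · rw [fo_none, fo_none, XO_1, key]
      · rw [fo_some, fo_some, XO_1, FO_inl, key]
      · rw [fo_q, fo_q, XO_4, if_neg (hne _), zpow_zero, one_mul, rX_ne _ _ _ (hne _).symm]
      · rw [fo_qq, fo_qq, XO_5, if_neg (hne _), if_neg (hne _), add_zero, zpow_zero, one_mul,
          rX_ne _ _ _ (hne _).symm, rX_ne _ _ _ (hne _).symm]
      · rw [fo_0, fo_0, XO_6, if_neg (hne _), zpow_zero, one_mul, FO_inl, key0]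
    · intro b
      have hX : XQ b (Sum.inl ⟨i, t⟩ : Jo l e) = 0 := by
        unfold XQ
        rw [if_neg (hne b)]
      rw [hX, zpow_zero, one_mul]
      unfold go
      rw [FO_inl, key0, vR_inl, vI_inl]
  · -- a vector of the frame
    have key : ∀ (i' : Fin m) (χ : Fin (e i') → ZMod p) (c : Fin l),
        phc (n2 p l e i') (zz p (rX p (Sum.inr b) z.1) i') χ
          (FO a (rX p (Sum.inr b) z.1) (rY p XQ (Sum.inr b : Jo l e) z.2) i' c) =
          om p ^ (if b = c then (1 : ℤ) else 0) *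
            phc (n2 p l e i') (zz p z.1 i') χ (FO a z.1 z.2 i' c) := by
      intro i' χ c
      rw [zz_inr, FO_inr]
      by_cases hc : c = b
      · rw [if_pos hc, if_pos hc.symm, zpow_one, phc_mul hPr]
      · rw [if_neg hc, if_neg (Ne.symm hc), zpow_zero, one_mul]
    have keyc : ∀ (i' : Fin m) (χ : Fin (e i') → ZMod p) (c : Fin l),
        phc (n2 p l e i') (zz p (rX p (Sum.inr b) z.1) i') χ
          (fun h => (starRingEnd ℂ)
            (FO a (rX p (Sum.inr b) z.1) (rY p XQ (Sum.inr b : Jo l e) z.2) i' c h)) =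
          om p ^ (if b = c then (-1 : ℤ) else 0) *
            phc (n2 p l e i') (zz p z.1 i') χ (fun h => (starRingEnd ℂ) (FO a z.1 z.2 i' c h)) := by
      intro i' χ c
      rw [zz_inr, FO_inr]
      by_cases hc : c = b
      · rw [if_pos hc, if_pos hc.symm, zpow_neg_one]
        simp only [map_mul, conj_om]
        rw [phc_mul hPr]
      · rw [if_neg hc, if_neg (Ne.symm hc), zpow_zero, one_mul]
    have hinr : ∀ c : Fin l, ((Sum.inr b : Jo l e) = Sum.inr c) = (b = c) := fun c =>
      propext ⟨fun h => Sum.inr_injective h, fun h => by rw [h]⟩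
    have hrX : ∀ (c : Fin l) (x : ℕ), rX p (Sum.inr b) z.1 (Sum.inr c) x =
        om p ^ (if b = c then (1 : ℤ) else 0) * z.1 (Sum.inr c) x := by
      intro c x
      by_cases hc : b = c
      · rw [if_pos hc, ← hc, rX_self, zpow_one]
      · rw [if_neg hc, rX_ne _ _ _ (fun h => hc (Sum.inr_injective h).symm), zpow_zero, one_mul]
    constructor
    · rintro (⟨i', χ, _ | ⟨c, s⟩⟩ | (c | ⟨q, s⟩) | ⟨c, i'⟩)
      · rw [fo_none, fo_none, XO_2, zpow_zero, one_mul, zz_inr]
      · rw [fo_some, fo_some, XO_3]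
        rcases s with _ | _
        · exact keyc i' χ.1 c
        · exact key i' χ.1 c
      · rw [fo_q, fo_q, XO_4, Finset.mul_sum]
        refine Finset.sum_congr rfl fun x _ => ?_
        rw [hrX, mul_pow]
        by_cases hc : b = c
        · rw [if_pos hc, if_pos (by rw [hc]), zpow_one]
          norm_cast
        · rw [if_neg hc, if_neg (fun h => hc (Sum.inr_injective h)), zpow_zero, one_pow]
      · rw [fo_qq, fo_qq, XO_5, zpow_add₀ (om_ne p), Finset.mul_sum]
        refine Finset.sum_congr rfl fun x _ => ?_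
        rw [hrX, hrX]
        simp only [hinr]
        rcases s with _ | _
        · simp only [Bool.false_eq_true, if_false, map_mul, map_zpow₀, conj_om]
          by_cases hc : b = q.1.2
          · rw [if_pos hc, if_pos hc, zpow_one, zpow_neg_one]
            ring
          · rw [if_neg hc, if_neg hc, zpow_zero, zpow_zero]
            ring
        · simp only [if_true]
          ring
      · rw [fo_0, fo_0, XO_6]
        have h1 := key i'.1 0 c
        rw [h1]
        by_cases hc : b = c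
        · rw [if_pos hc, if_pos (by rw [hc])]
        · rw [if_neg hc, if_neg (fun h => hc (Sum.inr_injective h))]
    · intro c
      have hX : XQ c (Sum.inr b : Jo l e) = if b = c then 1 else 0 := by
        unfold XQ
        by_cases hc : b = c
        · rw [if_pos hc, if_pos (by rw [hc])]
        · rw [if_neg hc, if_neg (fun h => hc (Sum.inr_injective h))]
      have hy : rY p XQ (Sum.inr b : Jo l e) z.2 c =
          om p ^ (if b = c then (1 : ℤ) else 0) * z.2 c := by
        rw [← hX]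
        rfl
      rw [hX]
      unfold go su
      rw [key, norm_rY, norm_inr, hy]
      ring

end Pool.Agent.MPc05127.PO
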