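import Pool.Agent.Lib.MP_c05127_co.PO.SpecG

/-!
# MP_c05127_co, project PO: the vector statement
-/

set_option autoImplicit false

open scoped Classical

namespace Pool.Agent.MPc05127.PO

open Pool.Agent.MPc05127.PP (E)

theorem tGeo (hCn : S_Cn) (hZr : S_Zr) (hIn : S_In) (hIt : S_It) : S_Geo := by
  intro p hp hp2 d l hl hld e a ha
  have : NeZero p := ⟨hp.ne_zero⟩
  have hcnt := (hCn p hp hp2 d l hl hld e).1
  set a' : Fin (d - 2 * l + 1) → ℕ → E d := fun i h =>
    if hh : h < (2 * l + 1) * (p ^ e i - 1) + 1 then a i ⟨h, hh⟩ else 0 with ha'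
  have ha'v : ∀ (i : Fin (d - 2 * l + 1)) (h : ℕ) (hh : h < (2 * l + 1) * (p ^ e i - 1) + 1),
      a' i h = a i ⟨h, hh⟩ := by
    intro i h hh
    rw [ha']
    exact dif_pos hh
  obtain ⟨z, hz, hfn, hgn⟩ := hZr p hp hp2 d l hl hld e a'
  rcases le_or_gt (1 / 2) ‖z.2‖ with hn | hn
  · exfalso
    obtain ⟨u, hu, hcard⟩ := hIn p hp hp2 d l hl hld e a' z hz hfn hgn hn
    obtain ⟨i, hi⟩ := ha u hu
    have h1 := hcard i
    rw [hcnt i] at h1
    have h2 : (Finset.range ((2 * l + 1) * (p ^ e i - 1) + 1)).filter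
        (fun h => inner ℝ (a' i h) u = (0 : ℝ)) ⊆
        (Finset.univ.filter (fun l => inner ℝ (a i l) u = (0 : ℝ))).image
          (fun h : Fin ((2 * l + 1) * (p ^ e i - 1) + 1) => (h : ℕ)) := by
      intro h hh
      obtain ⟨hh1, hh2⟩ := Finset.mem_filter.1 hh
      have hh3 := Finset.mem_range.1 hh1
      rw [ha'v i h hh3] at hh2
      exact Finset.mem_image.2 ⟨⟨h, hh3⟩, Finset.mem_filter.2 ⟨Finset.mem_univ _, hh2⟩, rfl⟩
    have h3 := (Finset.card_le_card h2).trans Finset.card_image_le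
    omega
  · obtain ⟨v, q, hv, hq, hP⟩ := hIt p hp hp2 d l hl hld e a' z hz hfn hgn hn
    have hc2 : Fintype.card (Fin l × Bool) = 2 * l := by
      rw [Fintype.card_prod, Fintype.card_fin, Fintype.card_bool, mul_comm]
    set ε : Fin l × Bool ≃ Fin (2 * l) := Fintype.equivFinOfCardEq hc2 with hε
    have hrange : Set.range (v ∘ ε.symm) = Set.range v := ε.symm.surjective.range_comp v
    refine ⟨v ∘ ε.symm, q, (linearIndependent_equiv ε.symm).2 hv, by rwa [hrange], fun i => ?_⟩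
    obtain ⟨P, hP1, hP2, hP3⟩ := hP i
    have hc : Fintype.card (Fin (e i) → ZMod p) = p ^ e i := by
      rw [Fintype.card_fun, ZMod.card, Fintype.card_fin]
    set eq : (Fin (e i) → ZMod p) ≃ Fin (p ^ e i) := Fintype.equivFinOfCardEq hc with heq
    refine ⟨fun j => Finset.univ.filter
      (fun h : Fin ((2 * l + 1) * (p ^ e i - 1) + 1) => (h : ℕ) ∈ P (eq.symm j)), ?_, ?_⟩
    · intro j j' hj
      rw [Finset.disjoint_left]
      intro h hh hh'
      have h1 := (Finset.mem_filter.1 hh).2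
      have h2 := (Finset.mem_filter.1 hh').2
      have h3 := hP1 (eq.symm j) (eq.symm j') (fun h => hj (eq.symm.injective h))
      exact (Finset.disjoint_left.1 h3) h1 h2
    · intro j w hw
      rw [hrange] at hw
      obtain ⟨h, hh, hh2⟩ := hP3 (eq.symm j) w hw
      have h1 := hP2 (eq.symm j) h hh
      rw [hcnt i] at h1
      have h4 : h < (2 * l + 1) * (p ^ e i - 1) + 1 := by omega
      rw [ha'v i h h4] at hh2
      exact ⟨⟨h, h4⟩, Finset.mem_filter.2 ⟨Finset.mem_univ _, hh⟩, hh2⟩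

end Pool.Agent.MPc05127.PO
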