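import Pool.Agent.Lib.MP_c05127_co.PO.SpecG

/-!
# MP_c05127_co, project PO: zeros at infinity are excluded
-/

set_option autoImplicit false

open scoped Classical

namespace Pool.Agent.MPc05127.PO

open Pool.Agent.MPc05127.PP (E idx len)

private theorem In_tu {l : ℕ} {y : Fin l → ℂ} (h : 1 / 2 ≤ ‖y‖) : tu y = 0 := by
  unfold tu
  exact max_eq_left (by linarith)

private theorem In_su0 {l : ℕ} (y : Fin l → ℂ) : 0 ≤ su y := le_max_left _ _

private theorem In_su1 {l : ℕ} {y : Fin l → ℂ} (h : ‖y‖ ≤ 1) : su y ≤ 1 := by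
  unfold su
  exact max_le (by norm_num) (by linarith)

/-- the weighted sum without labels -/
private noncomputable def wr {s : ℕ} (n : Fin s → ℕ) (Z : Fin s → ℕ → ℂ) (F : ℕ → ℝ) : ℝ :=
  ∑ α ∈ idx n, len n (fun t b => ‖Z t b‖) α * F (∑ t, α t)

private theorem phc_zero {s p : ℕ} (n : Fin s → ℕ) (Z : Fin s → ℕ → ℂ) (F : ℕ → ℂ) :
    phc n Z (0 : Fin s → ZMod p) F =
      ∑ α ∈ idx n, (len n (fun t b => ‖Z t b‖) α : ℂ) * F (∑ t, α t) := by
  unfold phc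
  refine Finset.sum_congr rfl fun α _ => ?_
  have h1 : ∏ t, dn (Z t (α t)) ^ ((0 : Fin s → ZMod p) t).val = 1 := by
    refine Finset.prod_eq_one fun t _ => ?_
    rw [Pi.zero_apply, ZMod.val_zero, pow_zero]
  rw [h1, mul_one]

private theorem phc_re {s p : ℕ} (n : Fin s → ℕ) (Z : Fin s → ℕ → ℂ) (F : ℕ → ℂ) :
    (phc n Z (0 : Fin s → ZMod p) F).re = wr n Z (fun h => (F h).re) := by
  rw [phc_zero, Complex.re_sum]
  unfold wr
  refine Finset.sum_congr rfl fun α _ => ?_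
  rw [Complex.re_ofReal_mul]

private theorem phc_real {s p : ℕ} (n : Fin s → ℕ) (Z : Fin s → ℕ → ℂ) (F : ℕ → ℝ) :
    phc n Z (0 : Fin s → ZMod p) (fun h => (F h : ℂ)) = (wr n Z F : ℂ) := by
  rw [phc_zero]
  unfold wr
  push_cast
  rfl

private theorem wr_nn {s : ℕ} (n : Fin s → ℕ) (Z : Fin s → ℕ → ℂ) (F : ℕ → ℝ)
    (hF : ∀ h, 0 ≤ F h) : 0 ≤ wr n Z F := by
  unfold wr
  exact Finset.sum_nonneg fun α _ => mul_nonneg (le_max_left _ _) (hF _)

private theorem wr_neg {s : ℕ} (n : Fin s → ℕ) (Z : Fin s → ℕ → ℂ) (F : ℕ → ℝ) :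
    wr n Z (fun h => -F h) = -wr n Z F := by
  unfold wr
  rw [← Finset.sum_neg_distrib]
  exact Finset.sum_congr rfl fun α _ => by ring

private theorem In_sum {m l d : ℕ} {e : Fin m → ℕ} (a : Fin m → ℕ → E d)
    (X : Jo l e → ℕ → ℂ) (y : Fin l → ℂ) (i : Fin m) (h : ℕ) (h0 : tu y = 0) :
    (∑ b, (starRingEnd ℂ) (y b) * FO a X y i b h).re = -(inner ℝ (a i h) (uo d X y) ^ 2) := by
  have h1 : ∀ b, ((starRingEnd ℂ) (y b) * FO a X y i b h).re =
      -(inner ℝ (a i h) (uo d X y)) * ((y b).re * inner ℝ (a i h) (vR d X b) +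
        (y b).im * inner ℝ (a i h) (vI d X b)) := by
    intro b
    unfold FO
    rw [h0, Complex.mul_re, Complex.re_ofReal_mul, Complex.im_ofReal_mul, Complex.conj_re,
      Complex.conj_im]
    ring
  rw [Complex.re_sum, Finset.sum_congr rfl fun b _ => h1 b, ← Finset.mul_sum]
  have h2 : ∑ b, ((y b).re * inner ℝ (a i h) (vR d X b) +
        (y b).im * inner ℝ (a i h) (vI d X b)) = inner ℝ (a i h) (uo d X y) := by
    unfold uo
    rw [inner_sum]
    exact Finset.sum_congr rfl fun b _ => by rw [inner_add_right, inner_smul_right, inner_smul_right]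
  rw [h2]
  ring

private theorem In_card {N : ℕ} {κ : Type} [Fintype κ] (P : κ → Finset ℕ)
    (hP1 : ∀ g g', g ≠ g' → Disjoint (P g) (P g')) (hP2 : ∀ g, ∀ h ∈ P g, h ≤ N)
    (hP3 : ∀ g, (P g).Nonempty) (q : ℕ → Prop) (hq : ∀ g, ∀ h ∈ P g, q h) :
    Fintype.card κ ≤ ((Finset.range (N + 1)).filter q).card := by
  choose f hf using hP3
  have hinj : Function.Injective f := by
    intro g g' h
    by_contra hne
    exact (Finset.disjoint_left.1 (hP1 g g' hne)) (hf g) (h ▸ hf g')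
  rw [← Finset.card_univ]
  refine Finset.card_le_card_of_injOn f (fun g _ => ?_) hinj.injOn
  exact Finset.mem_coe.2 (Finset.mem_filter.2
    ⟨Finset.mem_range.2 (Nat.lt_succ_of_le (hP2 g _ (hf g))), hq g _ (hf g)⟩)

private theorem In_u0 {m l d : ℕ} {e : Fin m → ℕ} (X : Jo l e → ℕ → ℂ) (y : Fin l → ℂ)
    (hv : ∀ b, vR d X b ≠ 0 ∧ ‖vI d X b‖ = ‖vR d X b‖)
    (hort : ∀ x x' : Fin l × Bool, x ≠ x' → inner ℝ (fr d X x) (fr d X x') = (0 : ℝ))
    (hy : ∃ b, y b ≠ 0) : uo d X y ≠ 0 := by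
  intro h0
  have hne : ∀ x : Fin l × Bool, fr d X x ≠ 0 := by
    rintro ⟨b, s⟩
    cases s
    · exact (hv b).1
    · show vI d X b ≠ 0
      rw [← norm_ne_zero_iff, (hv b).2, norm_ne_zero_iff]
      exact (hv b).1
  have hli : LinearIndependent ℝ (fr d X) :=
    linearIndependent_of_ne_zero_of_inner_eq_zero hne (fun x x' h => hort x x' h)
  have h1 : ∑ x : Fin l × Bool, (if x.2 then (y x.1).im else (y x.1).re) • fr d X x = 0 := by
    rw [Fintype.sum_prod_type, ← h0]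
    unfold uo
    refine Finset.sum_congr rfl fun b _ => ?_
    rw [Fintype.sum_bool, add_comm]
    rfl
  have h2 := Fintype.linearIndependent_iff.1 hli _ h1
  obtain ⟨b, hb⟩ := hy
  exact hb (Complex.ext (h2 (b, false)) (h2 (b, true)))

theorem tIn (hSg : S_Sg) (hPr : S_Pr) (hPs : S_Ps) (hOr : S_Or) : S_In := by
  intro p _ hp hp2 d l hl hld e a z hz hf hg hy
  obtain ⟨hv, hort⟩ := hOr p hp hp2 d l hl hld e a z hz hf
  have hτ := In_tu hy
  have hy1 : ‖z.2‖ ≤ 1 := (pi_norm_le_iff_of_nonneg zero_le_one).2 hz.2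
  have hs0 := In_su0 z.2
  have hs1 := In_su1 hy1
  have hy0 : ∃ b, z.2 b ≠ 0 := by
    by_contra hcon
    have h0 : z.2 = 0 := by
      funext b
      by_contra hb
      exact hcon ⟨b, hb⟩
    rw [h0, norm_zero] at hy
    norm_num at hy
  have hu0 : uo d z.1 z.2 ≠ 0 := In_u0 z.1 z.2 hv hort hy0
  have hdom : ∀ i, zz p z.1 i ∈ DomC (n2 p l e i) := fun i t =>
    (((hSg p (nj p l e i t) hp.two_le).2 (z.1 (Sum.inl ⟨i, t⟩))).2.2
      (hz.1 (Sum.inl ⟨i, t⟩)).1)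
  have hval : ∀ i t b, ∃ r : ℝ, 0 ≤ r ∧ ∃ l' : ℕ, zz p z.1 i t b = r * om p ^ l' :=
    fun i t b => ((hSg p (nj p l e i t) hp.two_le).2 (z.1 (Sum.inl ⟨i, t⟩))).2.1
      (hz.1 (Sum.inl ⟨i, t⟩)).2.2 b
  -- the combination
  have hcomb : ∀ i, (∑ b, (starRingEnd ℂ) (z.2 b) *
      phc (n2 p l e i) (zz p z.1 i) (0 : Fin (e i) → ZMod p) (FO a z.1 z.2 i b)).re =
      -wr (n2 p l e i) (zz p z.1 i) (fun h => inner ℝ (a i h) (uo d z.1 z.2) ^ 2) := by
    intro i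
    rw [← (hPr (e i) p (n2 p l e i) (zz p z.1 i) 0).2.1 (Fin l)
      (fun b => (starRingEnd ℂ) (z.2 b)) (fun b => FO a z.1 z.2 i b), phc_re, ← wr_neg]
    exact congrArg _ (funext fun h => In_sum a z.1 z.2 i h hτ)
  have hnn : ∀ i, 0 ≤ wr (n2 p l e i) (zz p z.1 i)
      (fun h => inner ℝ (a i h) (uo d z.1 z.2) ^ 2) := fun i =>
    wr_nn _ _ _ fun h => sq_nonneg _
  have hzero : ∀ i, wr (n2 p l e i) (zz p z.1 i)
      (fun h => inner ℝ (a i h) (uo d z.1 z.2) ^ 2) = 0 := by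
    intro i
    by_cases hi : (i : ℕ) = 0
    · have hi0 : i = 0 := Fin.ext hi
      subst hi0
      have hS : 0 < ∑ b, ‖z.2 b‖ ^ 2 * (‖vR d z.1 b‖ ^ 2 + ‖vI d z.1 b‖ ^ 2) := by
        obtain ⟨b, hb⟩ := hy0
        refine Finset.sum_pos' (fun b' _ => by positivity) ⟨b, Finset.mem_univ _, ?_⟩
        have h1 := norm_pos_iff.2 (hv b).1
        have h2 := norm_pos_iff.2 hb
        positivity
      have h1 : (∑ b, (starRingEnd ℂ) (z.2 b) * go p a b z.1 z.2).re = 0 := by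
        rw [Finset.sum_eq_zero fun b _ => by rw [hg b, mul_zero], Complex.zero_re]
      have h2 : ∀ b, (starRingEnd ℂ) (z.2 b) * go p a b z.1 z.2 =
          ((-(1 - su z.2) : ℝ) : ℂ) * ((starRingEnd ℂ) (z.2 b) *
            phc (n2 p l e 0) (zz p z.1 0) (0 : Fin (e 0) → ZMod p) (FO a z.1 z.2 0 b)) +
            ((su z.2 * (‖z.2 b‖ ^ 2 * (‖vR d z.1 b‖ ^ 2 + ‖vI d z.1 b‖ ^ 2)) : ℝ) : ℂ) := by
        intro b
        have h3 : (starRingEnd ℂ) (z.2 b) * z.2 b = ((‖z.2 b‖ ^ 2 : ℝ) : ℂ) := by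
          rw [mul_comm, Complex.mul_conj, Complex.normSq_eq_norm_sq]
        unfold go
        rw [mul_add, show (starRingEnd ℂ) (z.2 b) *
          (((su z.2 * (‖vR d z.1 b‖ ^ 2 + ‖vI d z.1 b‖ ^ 2) : ℝ) : ℂ) * z.2 b) =
          ((su z.2 * (‖vR d z.1 b‖ ^ 2 + ‖vI d z.1 b‖ ^ 2) : ℝ) : ℂ) *
            ((starRingEnd ℂ) (z.2 b) * z.2 b) by ring, h3]
        push_cast
        ring
      rw [Finset.sum_congr rfl fun b _ => h2 b, Finset.sum_add_distrib, ← Finset.mul_sum,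
        ← Complex.ofReal_sum, Complex.add_re, Complex.re_ofReal_mul, hcomb 0, Complex.ofReal_re,
        ← Finset.mul_sum] at h1
      have h3 := mul_nonneg (sub_nonneg.2 hs1) (hnn 0)
      have h4 := mul_nonneg hs0 hS.le
      have h5 : su z.2 * ∑ b, ‖z.2 b‖ ^ 2 * (‖vR d z.1 b‖ ^ 2 + ‖vI d z.1 b‖ ^ 2) = 0 := by
        linarith
      have h6 : su z.2 = 0 := (mul_eq_zero.1 h5).resolve_right hS.ne'
      rw [h6] at h1
      linarith
    · have h1 : ∀ b, phc (n2 p l e i) (zz p z.1 i) (0 : Fin (e i) → ZMod p)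
          (FO a z.1 z.2 i b) = 0 := fun b => hf (Sum.inr (Sum.inr (b, ⟨i, hi⟩)))
      have h2 := hcomb i
      rw [Finset.sum_eq_zero fun b _ => by rw [h1 b, mul_zero], Complex.zero_re] at h2
      linarith
  refine ⟨uo d z.1 z.2, hu0, fun i => ?_⟩
  obtain ⟨P, hP1, hP2, hP3, -, hP5⟩ := hPs (e i) p hp hp2 (n2 p l e i) (zz p z.1 i) (hdom i)
    (hval i) (fun χ => hf (Sum.inl ⟨i, χ, none⟩))
  have hc : Fintype.card (Fin (e i) → ZMod p) = p ^ e i := by
    rw [Fintype.card_fun, ZMod.card, Fintype.card_fin]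
  rw [← hc]
  refine In_card P hP1 hP2 hP3 _ fun g h hh => ?_
  have h7 := hP5 (fun h => inner ℝ (a i h) (uo d z.1 z.2) ^ 2) (fun h => sq_nonneg _) (by
    rw [phc_real, hzero i, Complex.ofReal_zero]) g h hh
  exact pow_eq_zero_iff (two_ne_zero) |>.1 h7

end Pool.Agent.MPc05127.PO
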