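import Pool.Agent.Lib.MP_c05127_co.PO.SpecT

/-!
# MP_c05127_co, project PO: the sum does not depend on the arguments, modulo `p` (helper26)
-/

set_option autoImplicit false

open scoped Classical

namespace Pool.Agent.MPc05127.PO

open Pool.Agent.MPc05127.PP (skip Num Num.n)

namespace IoAux

section general

variable {V : Type}

/-- `f'` modulo integers, close to `f`. -/
noncomputable def gg (f f' : V → ℝ) (v : V) : ℝ := f v + Int.fract (f' v - f v)

lemma gg_int (f f' : V → ℝ) (v : V) : f' v = gg f f' v + 0 + (⌊f' v - f v⌋ : ℤ) := by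
  unfold gg
  have := Int.floor_add_fract (f' v - f v)
  linarith

lemma gg_shift (f f' : V → ℝ) (κ : ℝ) (a a' : V) (i i' : ℤ) (h : f a' = f a + κ + i)
    (h' : f' a' = f' a + κ + i') : gg f f' a' = gg f f' a + κ + i := by
  unfold gg
  have h1 : f' a' - f a' = (f' a - f a) + ((i' - i : ℤ) : ℝ) := by
    rw [h, h']
    push_cast
    ring
  rw [h1, Int.fract_add_intCast, h]
  ring

lemma us_shift (f f' : V → ℝ) (κ : ℝ) (a b a' b' : V) (i i' j j' : ℤ) (ha : f a' = f a + κ + i)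
    (ha' : f' a' = f' a + κ + i') (hb : f b' = f b + κ + j) (hb' : f' b' = f' b + κ + j') :
    us f (gg f f') a' b' = us f (gg f f') a b := by
  unfold us
  rw [gg_shift f f' κ a a' i i' ha ha', gg_shift f f' κ b b' j j' hb hb', ha, hb]
  have h1 : gg f f' b + κ + j - (gg f f' a + κ + i) =
      (gg f f' b - gg f f' a) + ((j - i : ℤ) : ℝ) := by
    push_cast
    ring
  have h2 : f b + κ + j - (f a + κ + i) = (f b - f a) + ((j - i : ℤ) : ℝ) := by
    push_cast
    ring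
  rw [h1, h2, round_add_intCast, round_add_intCast]
  ring

/-- Equivalent points. -/
lemma us_zero (f f' : V → ℝ) (a b : V) (j j' : ℤ) (h : f b = f a + j) (h' : f' b = f' a + j') :
    us f (gg f f') a b = 0 := by
  unfold us
  rw [gg_shift f f' 0 a b j j' (by rw [h]; ring) (by rw [h']; ring), h]
  have h1 : gg f f' a + 0 + j - gg f f' a = (j : ℝ) := by ring
  have h2 : f a + j - f a = (j : ℝ) := by ring
  rw [h1, h2, sub_self]

/-- Points where `f` and `f'` agree modulo integers. -/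
lemma us_zero' (f f' : V → ℝ) (a b : V) (j j' : ℤ) (h : f' a = f a + j) (h' : f' b = f b + j') :
    us f (gg f f') a b = 0 := by
  have h1 : gg f f' a = f a := by
    unfold gg
    have h2 : f' a - f a = (j : ℝ) := by rw [h]; ring
    rw [h2, Int.fract_intCast, add_zero]
  have h1' : gg f f' b = f b := by
    unfold gg
    have h2 : f' b - f b = (j' : ℝ) := by rw [h']; ring
    rw [h2, Int.fract_intCast, add_zero]
  unfold us
  rw [h1, h1', sub_self]

lemma pb_congr (n m : ℕ) (hm : m < n) (σ : ℕ → V → ℝ) (u : V → V → ℤ) (v v' : ℕ → V)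
    (h1 : ∀ l < n, ∀ a < 2 * n, ∀ b < 2 * n, ∀ c < 2 * n,
      ww (σ l) (v' a) (v' b) (v' c) = ww (σ l) (v a) (v b) (v c))
    (h2 : u (v' (2 * m)) (v' (2 * m + 1)) = u (v (2 * m)) (v (2 * m + 1))) :
    pb n m σ u v' = pb n m σ u v := by
  unfold pb
  rw [h2]
  congr 1
  · congr 1
    refine Finset.prod_congr rfl fun l hl => ?_
    have := Finset.mem_range.1 hl
    exact h1 l (by omega) _ (by omega) _ (by omega) _ (by omega)
  · refine Finset.prod_congr rfl fun l hl => ?_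
    have := Finset.mem_Ico.1 hl
    exact h1 l (by omega) _ (by omega) _ (by omega) _ (by omega)

lemma pb_left (n m : ℕ) (σ : ℕ → V → ℝ) (u : V → V → ℤ) (v : ℕ → V) (l : ℕ) (hl : l < m)
    (h : ww (σ l) (v (2 * l)) (v (2 * l + 1)) (v (2 * l + 2)) = 0) : pb n m σ u v = 0 := by
  unfold pb
  rw [Finset.prod_eq_zero (Finset.mem_range.2 hl) h, zero_mul, zero_mul]

lemma pb_mid (n m : ℕ) (σ : ℕ → V → ℝ) (u : V → V → ℤ) (v : ℕ → V)
    (h : u (v (2 * m)) (v (2 * m + 1)) = 0) : pb n m σ u v = 0 := by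
  unfold pb
  rw [h, mul_zero, zero_mul]

lemma pb_right (n m : ℕ) (σ : ℕ → V → ℝ) (u : V → V → ℤ) (v : ℕ → V) (l : ℕ) (hl : m < l)
    (hln : l < n) (h : ww (σ l) (v (2 * l - 1)) (v (2 * l)) (v (2 * l + 1)) = 0) :
    pb n m σ u v = 0 := by
  unfold pb
  rw [Finset.prod_eq_zero (i := l) (Finset.mem_Ico.2 ⟨hl, hln⟩) h, mul_zero]

lemma pw_split (n m : ℕ) (hm : m < n) (σ : ℕ → V → ℝ) (v : ℕ → V) :
    pw n σ v = (∏ l ∈ Finset.range m, ww (σ l) (v (2 * l)) (v (2 * l + 1)) (v (2 * l + 2))) *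
      ww (σ m) (v (2 * m)) (v (2 * m + 1)) (v (2 * m + 2)) *
      ∏ l ∈ Finset.Ico (m + 1) n, ww (σ l) (v (2 * l)) (v (2 * l + 1)) (v (2 * l + 2)) := by
  unfold pw
  rw [← Finset.prod_range_mul_prod_Ico _ hm.le, Finset.prod_eq_prod_Ico_succ_bot hm, mul_assoc]

/-- The difference of two products is a coboundary. -/
lemma pw_diff (hWc : S_Wc) (hPl : S_Pl) (n m : ℕ) (hm : m < n) (σ σ' : ℕ → V → ℝ)
    (h : ∀ l, l ≠ m → σ' l = σ l) (v : ℕ → V) :
    pw n σ v - pw n σ' v = dl (2 * n - 1) (pb n m σ (us (σ m) (gg (σ m) (σ' m)))) v := by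
  rw [hPl V n m σ _ v hm, pw_split n m hm, pw_split n m hm]
  have h1 : ∏ l ∈ Finset.range m, ww (σ' l) (v (2 * l)) (v (2 * l + 1)) (v (2 * l + 2)) =
      ∏ l ∈ Finset.range m, ww (σ l) (v (2 * l)) (v (2 * l + 1)) (v (2 * l + 2)) :=
    Finset.prod_congr rfl fun l hl => by rw [h l (Finset.mem_range.1 hl).ne]
  have h2 : ∏ l ∈ Finset.Ico (m + 1) n, ww (σ' l) (v (2 * l)) (v (2 * l + 1)) (v (2 * l + 2)) =
      ∏ l ∈ Finset.Ico (m + 1) n, ww (σ l) (v (2 * l)) (v (2 * l + 1)) (v (2 * l + 2)) :=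
    Finset.prod_congr rfl fun l hl => by
      have := Finset.mem_Ico.1 hl
      rw [h l (by omega)]
  have h3 : ww (σ' m) (v (2 * m)) (v (2 * m + 1)) (v (2 * m + 2)) =
      ww (gg (σ m) (σ' m)) (v (2 * m)) (v (2 * m + 1)) (v (2 * m + 2)) :=
    (hWc V (gg (σ m) (σ' m))).2.2.1 (σ' m) 0 _ _ _ _ _ _ _ _ _ (gg_int _ _ _) (gg_int _ _ _)
      (gg_int _ _ _)
  have h4 := (hWc V (σ m)).2.1 (gg (σ m) (σ' m)) (v (2 * m)) (v (2 * m + 1)) (v (2 * m + 2))
  rw [h1, h2, h3]
  have h5 : ww (σ m) (v (2 * m)) (v (2 * m + 1)) (v (2 * m + 2)) =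
      ww (gg (σ m) (σ' m)) (v (2 * m)) (v (2 * m + 1)) (v (2 * m + 2)) -
        (us (σ m) (gg (σ m) (σ' m)) (v (2 * m)) (v (2 * m + 2)) -
          us (σ m) (gg (σ m) (σ' m)) (v (2 * m)) (v (2 * m + 1)) -
          us (σ m) (gg (σ m) (σ' m)) (v (2 * m + 1)) (v (2 * m + 2))) := by
    linarith
  rw [h5]
  ring

end general

variable {C J : Type} [Fintype C]

/-- The mixed arguments. -/
noncomputable def mix (T : Num C) (f f' : C → Pt C → ℝ) (m : ℕ) (c : C) : Pt C → ℝ :=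
  if T.n c < m then f' c else f c

lemma mix_cases (T : Num C) (f f' : C → Pt C → ℝ) (m : ℕ) (c : C) :
    mix T f f' m c = f' c ∨ mix T f f' m c = f c := by
  unfold mix
  split_ifs
  · exact Or.inl rfl
  · exact Or.inr rfl

lemma mix_ok (b : Blo C J) (p M N : ℕ) (T : Num C) (f f' : C → Pt C → ℝ) (h : b.Ok p M N f)
    (h' : b.Ok p M N f') (m : ℕ) : b.Ok p M N (mix T f f' m) := by
  constructor
  · intro c v v' hv hs
    rcases mix_cases T f f' m c with h1 | h1
    · rw [h1]; exact h'.same c v v' hv hs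
    · rw [h1]; exact h.same c v v' hv hs
  · intro j v hv hc c
    rcases mix_cases T f f' m c with h1 | h1
    · rw [h1]; exact h'.blk j v hv hc c
    · rw [h1]; exact h.blk j v hv hc c
  · intro c v hv hc hN
    rcases mix_cases T f f' m c with h1 | h1
    · rw [h1]; exact h'.mir c v hv hc hN
    · rw [h1]; exact h.mir c v hv hc hN

lemma n_symm (T : Num C) (l : ℕ) (hl : l < Fintype.card C) : T.n (T.symm ⟨l, hl⟩) = l := by
  unfold Num.n
  rw [Equiv.apply_symm_apply]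

lemma so_n (T : Num C) (f : C → Pt C → ℝ) (c : C) : so T f (T.n c) = f c := by
  have h : T.n c < Fintype.card C := (T c).2
  have h1 : T.symm ⟨T.n c, h⟩ = c := by
    rw [Equiv.symm_apply_eq]
    rfl
  funext v
  unfold so
  rw [dif_pos h, h1]

lemma so_eq (T : Num C) (f : C → Pt C → ℝ) (l : ℕ) (hl : l < Fintype.card C) :
    so T f l = f (T.symm ⟨l, hl⟩) := by
  funext v
  unfold so
  rw [dif_pos hl]

lemma so_mix (T : Num C) (f f' : C → Pt C → ℝ) (m l : ℕ) (hl : l ≠ m) :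
    so T (mix T f f' (m + 1)) l = so T (mix T f f' m) l := by
  funext v
  unfold so
  by_cases h : l < Fintype.card C
  · rw [dif_pos h, dif_pos h]
    unfold mix
    rw [n_symm]
    by_cases h1 : l < m
    · rw [if_pos h1, if_pos (by omega)]
    · rw [if_neg h1, if_neg (by omega)]
  · rw [dif_neg h, dif_neg h]

lemma so_mix_self (T : Num C) (f f' : C → Pt C → ℝ) (m : ℕ) (hm : m < Fintype.card C) :
    so T (mix T f f' m) m = f (T.symm ⟨m, hm⟩) ∧
      so T (mix T f f' (m + 1)) m = f' (T.symm ⟨m, hm⟩) := by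
  rw [so_eq T _ m hm, so_eq T _ m hm]
  unfold mix
  rw [n_symm, if_neg (lt_irrefl m), if_pos (Nat.lt_succ_self m)]
  exact ⟨rfl, rfl⟩

lemma so_same (b : Blo C J) (p M N : ℕ) (T : Num C) (f : C → Pt C → ℝ) (h : b.Ok p M N f)
    (l : ℕ) (v v' : Pt C) (hv : v ∈ GrO C N) (hs : Same (2 * p * M) v v') :
    ∃ n : ℤ, so T f l v' = so T f l v + n := by
  unfold so
  by_cases hl : l < Fintype.card C
  · rw [dif_pos hl, dif_pos hl]
    exact h.same _ v v' hv hs
  · rw [dif_neg hl, dif_neg hl]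
    exact ⟨0, by simp⟩

lemma so_blk (b : Blo C J) (p M N : ℕ) (T : Num C) (f : C → Pt C → ℝ) (h : b.Ok p M N f)
    (j : J) (l : ℕ) : ∃ κ : ℝ, ∀ v : Pt C, v ∈ GrO C N → (∃ c, b.B c = some j ∧ (v c).1 = N) →
    ∃ n : ℤ, so T f l (rot b M j v) = so T f l v + κ + n := by
  by_cases hl : l < Fintype.card C
  · refine ⟨(b.χ (T.symm ⟨l, hl⟩) j : ℝ) / p, fun v hv hc => ?_⟩
    rw [so_eq T f l hl]
    exact h.blk j v hv hc _
  · refine ⟨0, fun v _ _ => ⟨0, ?_⟩⟩
    unfold so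
    rw [dif_neg hl, dif_neg hl]
    simp

lemma all_sub (p M N : ℕ) (T : Num C) [NeZero (p * M)] (g g' : (ℕ → Pt C) → ℤ) :
    all p M N T g - all p M N T g' = all p M N T (fun v => g v - g' v) := by
  unfold all
  simp only [mul_sub, Finset.sum_sub_distrib]

lemma bc (hWc : S_Wc) (b : Blo C J) (p M N : ℕ) [hpM : NeZero (p * M)] (T : Num C)
    (f f' : C → Pt C → ℝ) (hp : 2 ≤ p) (h : b.Ok p M N f) (h' : b.Ok p M N f') (m : ℕ)
    (hm : m < Fintype.card C) :
    Bc b p M N (pb (Fintype.card C) m (so T (mix T f f' m))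
      (us (f (T.symm ⟨m, hm⟩)) (gg (f (T.symm ⟨m, hm⟩)) (f' (T.symm ⟨m, hm⟩))))) := by
  have hok := mix_ok b p M N T f f' h h' m
  constructor
  · -- loc
    intro v v' hv
    symm
    refine pb_congr _ m hm _ _ _ _ ?_ ?_
    · intro l _ a ha b hb c hc
      rw [hv a (by omega), hv b (by omega), hv c (by omega)]
    · rw [hv (2 * m) (by omega), hv (2 * m + 1) (by omega)]
  · -- same
    intro v v' hv
    refine pb_congr _ m hm _ _ _ _ ?_ ?_
    · intro l _ a ha b' hb c hc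
      obtain ⟨na, hna⟩ := so_same b p M N T _ hok l _ _ (hv a ha).1 (hv a ha).2
      obtain ⟨nb, hnb⟩ := so_same b p M N T _ hok l _ _ (hv b' hb).1 (hv b' hb).2
      obtain ⟨nc, hnc⟩ := so_same b p M N T _ hok l _ _ (hv c hc).1 (hv c hc).2
      exact (hWc _ _).2.2.1 _ 0 na nb nc _ _ _ _ _ _ (by rw [hna]; ring) (by rw [hnb]; ring)
        (by rw [hnc]; ring)
    · have h1 := hv (2 * m) (by omega)
      have h2 := hv (2 * m + 1) (by omega)
      obtain ⟨i, hi⟩ := h.same (T.symm ⟨m, hm⟩) _ _ h1.1 h1.2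
      obtain ⟨i', hi'⟩ := h'.same (T.symm ⟨m, hm⟩) _ _ h1.1 h1.2
      obtain ⟨j, hj⟩ := h.same (T.symm ⟨m, hm⟩) _ _ h2.1 h2.2
      obtain ⟨j', hj'⟩ := h'.same (T.symm ⟨m, hm⟩) _ _ h2.1 h2.2
      exact us_shift _ _ 0 _ _ _ _ i i' j j' (by rw [hi]; ring) (by rw [hi']; ring)
        (by rw [hj]; ring) (by rw [hj']; ring)
  · -- deg
    rintro v hv ⟨l, hl, hs⟩
    rcases lt_trichotomy l (2 * m) with h3 | h3 | h3
    · obtain ⟨k, hk⟩ := so_same b p M N T _ hok (l / 2) _ _ (hv l (by omega)) hs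
      refine pb_left _ m _ _ _ (l / 2) (by omega) ?_
      apply (hWc _ _).2.2.2.1 _ _ _ k
      rcases Nat.even_or_odd l with ⟨r, hr⟩ | ⟨r, hr⟩
      · left
        have e1 : 2 * (l / 2) = l := by omega
        rw [e1]
        exact hk
      · right
        have e1 : 2 * (l / 2) + 1 = l := by omega
        have e2 : 2 * (l / 2) + 2 = l + 1 := by omega
        rw [e1, e2]
        exact hk
    · apply pb_mid
      rw [h3] at hs
      obtain ⟨j, hj⟩ := h.same (T.symm ⟨m, hm⟩) _ _ (hv (2 * m) (by omega)) hs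
      obtain ⟨j', hj'⟩ := h'.same (T.symm ⟨m, hm⟩) _ _ (hv (2 * m) (by omega)) hs
      exact us_zero _ _ _ _ j j' hj hj'
    · obtain ⟨k, hk⟩ := so_same b p M N T _ hok ((l + 1) / 2) _ _ (hv l (by omega)) hs
      refine pb_right _ m _ _ _ ((l + 1) / 2) (by omega) (by omega) ?_
      apply (hWc _ _).2.2.2.1 _ _ _ k
      rcases Nat.even_or_odd l with ⟨r, hr⟩ | ⟨r, hr⟩
      · right
        have e1 : 2 * ((l + 1) / 2) = l := by omega
        rw [e1]
        exact hk
      · left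
        have e1 : 2 * ((l + 1) / 2) - 1 = l := by omega
        have e2 : 2 * ((l + 1) / 2) = l + 1 := by omega
        rw [e1, e2]
        exact hk
  · -- blk
    rintro j v hv ⟨c, hc, hcN⟩
    have hex : ∀ k < 2 * Fintype.card C, ∃ c, b.B c = some j ∧ (v k c).1 = N := fun k hk =>
      ⟨c, hc, hcN k hk⟩
    refine pb_congr _ m hm _ _ _ _ ?_ ?_
    · intro l _ a1 ha a2 hb a3 hc'
      obtain ⟨κ, hκ⟩ := so_blk b p M N T _ hok j l
      obtain ⟨na, hna⟩ := hκ _ (hv a1 ha) (hex a1 ha)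
      obtain ⟨nb, hnb⟩ := hκ _ (hv a2 hb) (hex a2 hb)
      obtain ⟨nc, hnc⟩ := hκ _ (hv a3 hc') (hex a3 hc')
      exact (hWc _ _).2.2.1 _ κ na nb nc _ _ _ _ _ _ hna hnb hnc
    · have h1 : 2 * m < 2 * Fintype.card C := by omega
      have h2 : 2 * m + 1 < 2 * Fintype.card C := by omega
      obtain ⟨i, hi⟩ := h.blk j _ (hv _ h1) (hex _ h1) (T.symm ⟨m, hm⟩)
      obtain ⟨i', hi'⟩ := h'.blk j _ (hv _ h1) (hex _ h1) (T.symm ⟨m, hm⟩)
      obtain ⟨k, hk⟩ := h.blk j _ (hv _ h2) (hex _ h2) (T.symm ⟨m, hm⟩)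
      obtain ⟨k', hk'⟩ := h'.blk j _ (hv _ h2) (hex _ h2) (T.symm ⟨m, hm⟩)
      exact us_shift _ _ ((b.χ (T.symm ⟨m, hm⟩) j : ℝ) / p) _ _ _ _ i i' k k' hi hi' hk hk'
  · -- mir
    intro c v hv hc hcN hθ
    have hM0 : 0 < M := Nat.pos_of_ne_zero fun h1 => hpM.out (by rw [h1, mul_zero])
    have hA : (4 : ℝ) ≤ 2 * p * M := by
      have h1 : (2 : ℝ) ≤ p := by exact_mod_cast hp
      have h2 : (1 : ℝ) ≤ M := by exact_mod_cast hM0
      nlinarith
    rcases eq_or_ne (T.n c) m with hcm | hcm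
    · have h4 : T.symm ⟨m, hm⟩ = c := by
        rw [Equiv.symm_apply_eq]
        exact Fin.ext hcm.symm
      apply pb_mid
      rw [h4]
      have h1 : 2 * m < 2 * Fintype.card C := by omega
      have h2 : 2 * m + 1 < 2 * Fintype.card C := by omega
      obtain ⟨i, hi⟩ := h.mir c _ (hv _ h1) hc (hcN _ h1)
      obtain ⟨i', hi'⟩ := h'.mir c _ (hv _ h1) hc (hcN _ h1)
      obtain ⟨k, hk⟩ := h.mir c _ (hv _ h2) hc (hcN _ h2)
      obtain ⟨k', hk'⟩ := h'.mir c _ (hv _ h2) hc (hcN _ h2)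
      exact us_zero' _ _ _ _ (i' - i) (k' - k) (by rw [hi, hi']; push_cast; ring)
        (by rw [hk, hk']; push_cast; ring)
    · have hlt : T.n c < Fintype.card C := (T c).2
      have hww : ∀ a1 < 2 * Fintype.card C, ∀ a2 < 2 * Fintype.card C,
          ∀ a3 < 2 * Fintype.card C,
          ww (so T (mix T f f' m) (T.n c)) (v a1) (v a2) (v a3) = 0 := by
        intro a1 h1 a2 h2 a3 h3
        rw [so_n]
        obtain ⟨i, hi⟩ := hok.mir c _ (hv _ h1) hc (hcN _ h1)
        obtain ⟨j, hj⟩ := hok.mir c _ (hv _ h2) hc (hcN _ h2)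
        obtain ⟨k, hk⟩ := hok.mir c _ (hv _ h3) hc (hcN _ h3)
        obtain ⟨F, hF⟩ : ∃ F : Pt C → ℝ, F = fun v => ((v c).2 : ℝ) / (2 * p * M) := ⟨_, rfl⟩
        have hF' : ∀ v, F v = ((v c).2 : ℝ) / (2 * p * M) := fun v => by rw [hF]
        rw [(hWc _ F).2.2.1 (mix T f f' m c) 0 i j k (v a1) (v a2) (v a3) (v a1) (v a2) (v a3)
          (by rw [hi, hF']; ring) (by rw [hj, hF']; ring) (by rw [hk, hF']; ring)]
        have hd : ∀ x < 2 * Fintype.card C, ∀ y < 2 * Fintype.card C,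
            |F (v x) - F (v y)| < 1 / 2 := by
          intro x hx y hy
          rw [hF', hF', ← sub_div, abs_div, abs_of_pos (by linarith : (0 : ℝ) < 2 * p * M),
            div_lt_iff₀ (by linarith)]
          have h5 : |((v x c).2 : ℝ) - (v y c).2| ≤ 1 := by
            have h6 := hθ x hx y hy
            exact_mod_cast h6
          linarith
        exact (hWc _ F).2.2.2.2 _ _ _ (hd _ h2 _ h1) (hd _ h3 _ h2) (hd _ h3 _ h1)
      rcases lt_or_gt_of_ne hcm with h3 | h3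
      · exact pb_left _ m _ _ _ (T.n c) h3 (hww _ (by omega) _ (by omega) _ (by omega))
      · exact pb_right _ m _ _ _ (T.n c) h3 hlt (hww _ (by omega) _ (by omega) _ (by omega))

lemma step (hWc : S_Wc) (hPl : S_Pl) (hSo : S_So) (b : Blo C J) (p M N : ℕ)
    [NeZero (p * M)] (T : Num C) (f f' : C → Pt C → ℝ) (hp : 2 ≤ p) (hN : 1 ≤ N)
    (h : b.Ok p M N f) (h' : b.Ok p M N f') (m : ℕ) (hm : m < Fintype.card C) :
    (p : ℤ) ∣ all p M N T (pw (Fintype.card C) (so T (mix T f f' m))) -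
      all p M N T (pw (Fintype.card C) (so T (mix T f f' (m + 1)))) := by
  rw [all_sub]
  have h1 : (fun v => pw (Fintype.card C) (so T (mix T f f' m)) v -
      pw (Fintype.card C) (so T (mix T f f' (m + 1))) v) = fun v => dl (2 * Fintype.card C - 1)
      (pb (Fintype.card C) m (so T (mix T f f' m))
        (us (f (T.symm ⟨m, hm⟩)) (gg (f (T.symm ⟨m, hm⟩)) (f' (T.symm ⟨m, hm⟩))))) v := by
    funext v
    rw [pw_diff hWc hPl _ m hm _ _ (fun l hl => so_mix T f f' m l hl), (so_mix_self T f f' m hm).1,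
      (so_mix_self T f f' m hm).2]
  rw [h1]
  exact hSo C J b p M N T _ (by omega) hN (bc hWc b p M N T f f' hp h h' m hm)

end IoAux

open IoAux in
theorem tIo (hWc : S_Wc) (hPl : S_Pl) (hSo : S_So) : S_Io := by
  intro C J _ b p M N _ T f f' hp hN h h'
  have h0 : mix T f f' 0 = f := by
    funext c
    unfold mix
    rw [if_neg (Nat.not_lt_zero _)]
  have hD : mix T f f' (Fintype.card C) = f' := by
    funext c
    unfold mix
    rw [if_pos (show T.n c < Fintype.card C from (T c).2)]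
  have h1 : ∀ m ≤ Fintype.card C, (p : ℤ) ∣ all p M N T (pw (Fintype.card C) (so T f)) -
      all p M N T (pw (Fintype.card C) (so T (mix T f f' m))) := by
    intro m
    induction m with
    | zero =>
      intro _
      rw [h0, sub_self]
      exact dvd_zero _
    | succ m ih =>
      intro hm
      have h2 := step hWc hPl hSo b p M N T f f' hp hN h h' m (by omega)
      have h3 := dvd_add (ih (by omega)) h2
      rwa [sub_add_sub_cancel] at h3
  have h2 := h1 _ le_rfl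
  rw [hD] at h2
  exact h2

end Pool.Agent.MPc05127.PO
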