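import Pool.Agent.Lib.MP_c05127_co.PO.SpecG

/-!
# MP_c05127_co, project PO: zeros in the interior
-/

set_option autoImplicit false

open scoped Classical

namespace Pool.Agent.MPc05127.PO

open Pool.Agent.MPc05127.PP (E idx len)

private theorem It_tu {l : ℕ} {y : Fin l → ℂ} (h : ‖y‖ < 1 / 2) : 0 < tu y := by
  unfold tu
  exact lt_max_of_lt_right (by linarith)

private theorem It_su {l : ℕ} {y : Fin l → ℂ} (h : ‖y‖ < 1 / 2) : su y = 0 := by
  unfold su
  exact max_eq_left (by linarith)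

/-- the coefficients of the real combination -/
private noncomputable def cf {l : ℕ} (c : Fin l × Bool → ℝ) (x : Fin l × Bool) : ℂ :=
  if x.2 then (⟨c (x.1, false) / 2, -(c (x.1, true) / 2)⟩ : ℂ)
  else (⟨c (x.1, false) / 2, c (x.1, true) / 2⟩ : ℂ)

private theorem It_sum {m l d : ℕ} {e : Fin m → ℕ} (a : Fin m → ℕ → E d)
    (X : Jo l e → ℕ → ℂ) (y : Fin l → ℂ) (i : Fin m) (c : Fin l × Bool → ℝ) (h : ℕ) :
    (((tu y - inner ℝ (a i h) (uo d X y)) * inner ℝ (a i h) (∑ x, c x • fr d X x) : ℝ) : ℂ) =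
      ∑ x : Fin l × Bool, cf c x * (if x.2 then FO a X y i x.1 h
        else (starRingEnd ℂ) (FO a X y i x.1 h)) := by
  rw [Fintype.sum_prod_type, inner_sum, Fintype.sum_prod_type, Finset.mul_sum, Complex.ofReal_sum]
  refine Finset.sum_congr rfl fun b _ => ?_
  rw [Fintype.sum_bool, Fintype.sum_bool, inner_add_right, inner_smul_right, inner_smul_right]
  have h1 : fr d X (b, true) = vI d X b := rfl
  have h2 : fr d X (b, false) = vR d X b := rfl
  rw [h1, h2]
  have h3 : cf c (b, true) = (⟨c (b, false) / 2, -(c (b, true) / 2)⟩ : ℂ) := rfl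
  have h4 : cf c (b, false) = (⟨c (b, false) / 2, c (b, true) / 2⟩ : ℂ) := rfl
  have h5 : (if ((b, true) : Fin l × Bool).2 = true then FO a X y i ((b, true) : Fin l × Bool).1 h
      else (starRingEnd ℂ) (FO a X y i ((b, true) : Fin l × Bool).1 h)) = FO a X y i b h := rfl
  have h6 : (if ((b, false) : Fin l × Bool).2 = true then
      FO a X y i ((b, false) : Fin l × Bool).1 h
      else (starRingEnd ℂ) (FO a X y i ((b, false) : Fin l × Bool).1 h)) =
      (starRingEnd ℂ) (FO a X y i b h) := rfl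
  rw [h3, h4, h5, h6]
  unfold FO
  apply Complex.ext
  · simp only [Complex.ofReal_re, Complex.add_re, Complex.mul_re, Complex.mul_im,
      Complex.ofReal_im, Complex.conj_re, Complex.conj_im]
    ring
  · simp only [Complex.ofReal_re, Complex.add_im, Complex.mul_re, Complex.mul_im,
      Complex.ofReal_im, Complex.conj_re, Complex.conj_im]
    ring

theorem tIt (hSg : S_Sg) (hPr : S_Pr) (hPs : S_Ps) (hOr : S_Or) : S_It := by
  intro p _ hp hp2 d l hl hld e a z hz hf hg hy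
  obtain ⟨hv, hort⟩ := hOr p hp hp2 d l hl hld e a z hz hf
  have hτ := It_tu hy
  have hσ := It_su hy
  have hne : ∀ x : Fin l × Bool, fr d z.1 x ≠ 0 := by
    rintro ⟨b, s⟩
    cases s
    · exact (hv b).1
    · show vI d z.1 b ≠ 0
      rw [← norm_ne_zero_iff, (hv b).2, norm_ne_zero_iff]
      exact (hv b).1
  have hli : LinearIndependent ℝ (fr d z.1) :=
    linearIndependent_of_ne_zero_of_inner_eq_zero hne (fun x x' h => hort x x' h)
  have hdom : ∀ i, zz p z.1 i ∈ DomC (n2 p l e i) := fun i t =>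
    (((hSg p (nj p l e i t) hp.two_le).2 (z.1 (Sum.inl ⟨i, t⟩))).2.2
      (hz.1 (Sum.inl ⟨i, t⟩)).1)
  have hval : ∀ i t b, ∃ r : ℝ, 0 ≤ r ∧ ∃ l' : ℕ, zz p z.1 i t b = r * om p ^ l' :=
    fun i t b => ((hSg p (nj p l e i t) hp.two_le).2 (z.1 (Sum.inl ⟨i, t⟩))).2.1
      (hz.1 (Sum.inl ⟨i, t⟩)).2.2 b
  have hu : uo d z.1 z.2 ∈ Submodule.span ℝ (Set.range (fr d z.1)) := by
    unfold uo
    refine Submodule.sum_mem _ fun b _ => Submodule.add_mem _ ?_ ?_
    · exact Submodule.smul_mem _ _ (Submodule.subset_span ⟨(b, false), rfl⟩)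
    · exact Submodule.smul_mem _ _ (Submodule.subset_span ⟨(b, true), rfl⟩)
  have h0 : ∀ i b, phc (n2 p l e i) (zz p z.1 i) (0 : Fin (e i) → ZMod p)
      (FO a z.1 z.2 i b) = 0 := by
    intro i b
    by_cases hi : (i : ℕ) = 0
    · have hi0 : i = 0 := Fin.ext hi
      subst hi0
      have h := hg b
      unfold go at h
      rw [hσ] at h
      simpa using h
    · exact hf (Sum.inr (Sum.inr (b, ⟨i, hi⟩)))
  refine ⟨fr d z.1, (tu z.2)⁻¹ • uo d z.1 z.2, hli, Submodule.smul_mem _ _ hu, fun i => ?_⟩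
  obtain ⟨P, hP1, hP2, -, hP4, -⟩ := hPs (e i) p hp hp2 (n2 p l e i) (zz p z.1 i) (hdom i)
    (hval i) (fun χ => hf (Sum.inl ⟨i, χ, none⟩))
  refine ⟨P, hP1, hP2, fun g w hw => ?_⟩
  obtain ⟨c, rfl⟩ := (Submodule.mem_span_range_iff_exists_fun ℝ).1 hw
  have hlin : ∀ χ : Fin (e i) → ZMod p, phc (n2 p l e i) (zz p z.1 i) χ
      (fun h => (((tu z.2 - inner ℝ (a i h) (uo d z.1 z.2)) *
        inner ℝ (a i h) (∑ x, c x • fr d z.1 x) : ℝ) : ℂ)) =
      ∑ x : Fin l × Bool, cf c x * phc (n2 p l e i) (zz p z.1 i) χ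
        (fun h => if x.2 then FO a z.1 z.2 i x.1 h
          else (starRingEnd ℂ) (FO a z.1 z.2 i x.1 h)) := by
    intro χ
    rw [← (hPr (e i) p (n2 p l e i) (zz p z.1 i) χ).2.1 (Fin l × Bool) (cf c)
      (fun x h => if x.2 then FO a z.1 z.2 i x.1 h
          else (starRingEnd ℂ) (FO a z.1 z.2 i x.1 h))]
    exact congrArg _ (funext fun h => It_sum a z.1 z.2 i c h)
  obtain ⟨h, hh, hpos⟩ := hP4 (fun h => (tu z.2 - inner ℝ (a i h) (uo d z.1 z.2)) *
        inner ℝ (a i h) (∑ x, c x • fr d z.1 x)) (by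
      intro χ
      rw [hlin χ.1]
      refine Finset.sum_eq_zero fun x _ => ?_
      have h1 : phc (n2 p l e i) (zz p z.1 i) χ.1
        (fun h => if x.2 then FO a z.1 z.2 i x.1 h
          else (starRingEnd ℂ) (FO a z.1 z.2 i x.1 h)) = 0 := hf (Sum.inl ⟨i, χ, some x⟩)
      rw [h1, mul_zero]) (by
      rw [hlin 0]
      refine Finset.sum_eq_zero fun x _ => ?_
      obtain ⟨b, s⟩ := x
      cases s
      · have h1 : phc (n2 p l e i) (zz p z.1 i) (0 : Fin (e i) → ZMod p)
          (fun h => (starRingEnd ℂ) (FO a z.1 z.2 i b h)) = 0 := by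
          rw [(hPr (e i) p (n2 p l e i) (zz p z.1 i) 0).2.2, h0 i b, map_zero]
        have h2 : (fun h => if ((b, false) : Fin l × Bool).2 = true then
            FO a z.1 z.2 i ((b, false) : Fin l × Bool).1 h
            else (starRingEnd ℂ) (FO a z.1 z.2 i ((b, false) : Fin l × Bool).1 h)) =
            fun h => (starRingEnd ℂ) (FO a z.1 z.2 i b h) := rfl
        rw [h2, h1, mul_zero]
      · have h2 : (fun h => if ((b, true) : Fin l × Bool).2 = true then
            FO a z.1 z.2 i ((b, true) : Fin l × Bool).1 h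
            else (starRingEnd ℂ) (FO a z.1 z.2 i ((b, true) : Fin l × Bool).1 h)) =
            FO a z.1 z.2 i b := rfl
        rw [h2, h0 i b, mul_zero]) g
  refine ⟨h, hh, ?_⟩
  rw [inner_smul_right]
  set A := inner ℝ (a i h) (uo d z.1 z.2) with hA
  set W := inner ℝ (a i h) (∑ x, c x • fr d z.1 x) with hW
  have h1 : ((tu z.2)⁻¹ * A - 1) * W = -((tu z.2)⁻¹ * ((tu z.2 - A) * W)) := by
    field_simp
    ring
  have h2 : 0 ≤ (tu z.2)⁻¹ * ((tu z.2 - A) * W) := mul_nonneg (inv_nonneg.2 hτ.le) hpos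
  linarith

end Pool.Agent.MPc05127.PO
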