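import Pool.Agent.Lib.MP_c05127_co.PO.SpecT

/-!
# MP_c05127_co, project PO, module Lb: the Leibniz rule
-/

set_option autoImplicit false

open scoped Classical

namespace Pool.Agent.MPc05127.PO

open Pool.Agent.MPc05127.PP (skip Num Num.n)

theorem tLb : S_Lb := by
  intro V q q' z z' hz _ v
  have hA : ∀ i ∈ Finset.range (q + 1), (-1 : ℤ) ^ i * (z (skip i v) *
      z' (fun l => skip i v (l + q))) =
      ((-1) ^ i * z (skip i v)) * z' (fun l => v (l + q + 1)) := by
    intro i hi
    have h1 : i < q + 1 := Finset.mem_range.1 hi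
    have h2 : (fun l => skip i v (l + q)) = fun l => v (l + q + 1) := by
      funext l
      unfold skip
      rw [if_neg (by omega)]
    rw [h2, mul_assoc]
  have hz1 : ∀ j : ℕ, z (skip (q + 1 + j) v) = z v := by
    intro j
    refine hz _ _ fun l hl => ?_
    unfold skip
    rw [if_pos (by omega)]
  have hB : ∀ j ∈ Finset.range (q' + 1), (-1 : ℤ) ^ (q + 1 + j) * (z (skip (q + 1 + j) v) *
      z' (fun l => skip (q + 1 + j) v (l + q))) =
      ((-1) ^ q * z v) * ((-1) ^ (j + 1) * z' (skip (j + 1) (fun l => v (l + q)))) := by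
    intro j _
    have h2 : (fun l => skip (q + 1 + j) v (l + q)) = skip (j + 1) (fun l => v (l + q)) := by
      funext l
      unfold skip
      by_cases h : l < j + 1
      · rw [if_pos h, if_pos (by omega)]
      · rw [if_neg h, if_neg (by omega), show l + q + 1 = l + 1 + q by omega]
    rw [h2, hz1 j]
    ring
  have hC : dl q z v = (∑ i ∈ Finset.range (q + 1), (-1 : ℤ) ^ i * z (skip i v)) +
      (-1) ^ (q + 1) * z v := by
    unfold dl
    rw [Finset.sum_range_succ]
    have h3 := hz1 0
    rw [Nat.add_zero] at h3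
    rw [h3]
  have hD : dl q' z' (fun l => v (l + q)) = (∑ j ∈ Finset.range (q' + 1), (-1 : ℤ) ^ (j + 1) *
      z' (skip (j + 1) (fun l => v (l + q)))) + z' (fun l => v (l + q + 1)) := by
    unfold dl
    rw [Finset.sum_range_succ']
    have h3 : skip 0 (fun l => v (l + q)) = fun l => v (l + q + 1) := by
      funext l
      unfold skip
      rw [if_neg (Nat.not_lt_zero _)]
      show v (l + 1 + q) = v (l + q + 1)
      rw [show l + 1 + q = l + q + 1 by omega]
    rw [h3, pow_zero, one_mul]
  have hE : dl (q + q') (fun v => z v * z' (fun l => v (l + q))) v =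
      (∑ i ∈ Finset.range (q + 1), (-1 : ℤ) ^ i * (z (skip i v) *
        z' (fun l => skip i v (l + q)))) +
      ∑ j ∈ Finset.range (q' + 1), (-1 : ℤ) ^ (q + 1 + j) * (z (skip (q + 1 + j) v) *
        z' (fun l => skip (q + 1 + j) v (l + q))) := by
    unfold dl
    rw [show q + q' + 2 = (q + 1) + (q' + 1) by omega, Finset.sum_range_add]
  rw [hE, Finset.sum_congr rfl hA, Finset.sum_congr rfl hB, ← Finset.sum_mul,
    ← Finset.mul_sum, hC, hD]
  ring

end Pool.Agent.MPc05127.PO
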