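import Pool.Agent.Lib.MP_c05127_co.PO.SpecG

/-!
# MP_c05127_co, project PO: the frame is orthogonal
-/

set_option autoImplicit false

open scoped Classical

namespace Pool.Agent.MPc05127.PO

open Pool.Agent.MPc05127.PP (E idx len)

namespace OrAux

theorem inner_toLp {d : ℕ} (u v : Fin d → ℝ) :
    inner ℝ (WithLp.toLp 2 u : E d) (WithLp.toLp 2 v : E d) = ∑ c, u c * v c := by
  rw [PiLp.inner_apply]
  refine Finset.sum_congr rfl fun c _ => ?_
  simp [mul_comm]

theorem sums {d : ℕ} {f g : ℕ → ℂ} (h : ∑ c ∈ Finset.range d, f c * g c = 0) :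
    ∑ c : Fin d, (f c).re * (g c).re - ∑ c : Fin d, (f c).im * (g c).im = 0 ∧
      ∑ c : Fin d, (f c).re * (g c).im + ∑ c : Fin d, (f c).im * (g c).re = 0 := by
  rw [Finset.sum_range] at h
  have h1 := congrArg Complex.re h
  have h2 := congrArg Complex.im h
  simp only [Complex.re_sum, Complex.im_sum, Complex.mul_re, Complex.mul_im, Complex.zero_re,
    Complex.zero_im, Finset.sum_sub_distrib, Finset.sum_add_distrib] at h1 h2
  exact ⟨h1, h2⟩

/-- All four sums vanish if the bilinear and the hermitian product vanish. -/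
theorem sums4 {d : ℕ} {f g : ℕ → ℂ} (h : ∑ c ∈ Finset.range d, f c * g c = 0)
    (h' : ∑ c ∈ Finset.range d, f c * (starRingEnd ℂ) (g c) = 0) :
    ∑ c : Fin d, (f c).re * (g c).re = 0 ∧ ∑ c : Fin d, (f c).im * (g c).im = 0 ∧
      ∑ c : Fin d, (f c).re * (g c).im = 0 ∧ ∑ c : Fin d, (f c).im * (g c).re = 0 := by
  obtain ⟨h1, h2⟩ := sums h
  obtain ⟨h3, h4⟩ := sums h'
  simp only [Complex.conj_re, Complex.conj_im, mul_neg, Finset.sum_neg_distrib] at h3 h4
  refine ⟨?_, ?_, ?_, ?_⟩ <;> linarith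

end OrAux

open OrAux in
theorem tOr (hFm : S_Fm) : S_Or := by
  intro p _ hp hp2 d l hl hld e a z hz h0
  have hsq : ∀ b : Fin l, ∑ c ∈ Finset.range d, z.1 (Sum.inr b) c * z.1 (Sum.inr b) c = 0 := by
    intro b
    have h1 : ∑ c ∈ Finset.range d, z.1 (Sum.inr b) c ^ 2 = 0 :=
      h0 (Sum.inr (Sum.inl (Sum.inl b)))
    rw [← h1]
    exact Finset.sum_congr rfl fun c _ => (sq _).symm
  have hpr : ∀ b b' : Fin l, b < b' →
      ∑ c ∈ Finset.range d, z.1 (Sum.inr b) c * z.1 (Sum.inr b') c = 0 ∧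
      ∑ c ∈ Finset.range d, z.1 (Sum.inr b) c * (starRingEnd ℂ) (z.1 (Sum.inr b') c) = 0 := by
    intro b b' hb
    have h1 := h0 (Sum.inr (Sum.inl (Sum.inr (⟨(b, b'), hb⟩, true))))
    have h2 := h0 (Sum.inr (Sum.inl (Sum.inr (⟨(b, b'), hb⟩, false))))
    simp only [fo, if_true] at h1
    simp only [fo, Bool.false_eq_true, if_false] at h2
    exact ⟨h1, h2⟩
  have hRI : ∀ b : Fin l, inner ℝ (vR d z.1 b) (vI d z.1 b) = (0 : ℝ) ∧
      ‖vI d z.1 b‖ = ‖vR d z.1 b‖ := by
    intro b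
    obtain ⟨h1, h2⟩ := sums (hsq b)
    have hR : inner ℝ (vR d z.1 b) (vR d z.1 b) =
        ∑ c : Fin d, (z.1 (Sum.inr b) c).re * (z.1 (Sum.inr b) c).re := inner_toLp _ _
    have hI : inner ℝ (vI d z.1 b) (vI d z.1 b) =
        ∑ c : Fin d, (z.1 (Sum.inr b) c).im * (z.1 (Sum.inr b) c).im := inner_toLp _ _
    have hRI : inner ℝ (vR d z.1 b) (vI d z.1 b) =
        ∑ c : Fin d, (z.1 (Sum.inr b) c).re * (z.1 (Sum.inr b) c).im := inner_toLp _ _
    have hIR : inner ℝ (vI d z.1 b) (vR d z.1 b) =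
        ∑ c : Fin d, (z.1 (Sum.inr b) c).im * (z.1 (Sum.inr b) c).re := inner_toLp _ _
    constructor
    · have h3 : inner ℝ (vI d z.1 b) (vR d z.1 b) = inner ℝ (vR d z.1 b) (vI d z.1 b) :=
        real_inner_comm _ _
      rw [← hRI, ← hIR, h3] at h2
      linarith
    · rw [← hR, ← hI, real_inner_self_eq_norm_sq, real_inner_self_eq_norm_sq] at h1
      exact (sq_eq_sq₀ (norm_nonneg _) (norm_nonneg _)).mp (by linarith)
  have hlt : ∀ (b b' : Fin l) (s s' : Bool), b < b' →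
      inner ℝ (fr d z.1 (b, s)) (fr d z.1 (b', s')) = (0 : ℝ) := by
    intro b b' s s' hb
    obtain ⟨h1, h2, h3, h4⟩ := sums4 (hpr b b' hb).1 (hpr b b' hb).2
    cases s <;> cases s'
    · exact (inner_toLp _ _).trans h1
    · exact (inner_toLp _ _).trans h3
    · exact (inner_toLp _ _).trans h4
    · exact (inner_toLp _ _).trans h2
  refine ⟨fun b => ⟨?_, (hRI b).2⟩, ?_⟩
  · intro h
    have h1 := (hFm p hp hp2 d l hl hld e a z hz).1 b
    rw [(hRI b).2, h, norm_zero] at h1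
    norm_num at h1
  · rintro ⟨b, s⟩ ⟨b', s'⟩ hne
    rcases lt_trichotomy b b' with h | h | h
    · exact hlt b b' s s' h
    · subst h
      cases s <;> cases s'
      · exact absurd rfl hne
      · exact (hRI b).1
      · exact (real_inner_comm _ _).trans (hRI b).1
      · exact absurd rfl hne
    · exact (real_inner_comm _ _).trans (hlt b' b s' s h)

end Pool.Agent.MPc05127.PO
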