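import Pool.Agent.Lib.MP_c05127_co.PO.SpecT

/-!
# MP_c05127_co, project PO, module Pl: the coboundary of the product
-/

set_option autoImplicit false

open scoped Classical

namespace Pool.Agent.MPc05127.PO

open Pool.Agent.MPc05127.PP (skip Num Num.n)

namespace PlAux

private theorem skip_lt {V : Type} {i l : ℕ} (v : ℕ → V) (h : l < i) : skip i v l = v l := by
  simp [skip, h]

private theorem skip_ge {V : Type} {i l : ℕ} (v : ℕ → V) (h : i ≤ l) : skip i v l = v (l + 1) := by
  simp [skip, not_lt.2 h]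

private theorem loc_pw {V : Type} (m : ℕ) (f : ℕ → V → ℝ) : Loc (2 * m) (pw m f) := by
  intro v v' h
  unfold pw
  refine Finset.prod_congr rfl fun l hl => ?_
  rw [Finset.mem_range] at hl
  rw [h (2 * l) (by omega), h (2 * l + 1) (by omega), h (2 * l + 2) (by omega)]

private theorem dl_ww {V : Type} (hWc : S_Wc) (f : V → ℝ) (w : ℕ → V) :
    dl 2 (fun w => ww f (w 0) (w 1) (w 2)) w = 0 := by
  have h := (hWc V f).1 (w 0) (w 1) (w 2) (w 3)
  unfold dl
  rw [Finset.sum_range_succ, Finset.sum_range_succ, Finset.sum_range_succ,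
    Finset.sum_range_succ, Finset.sum_range_zero]
  beta_reduce
  simp only [Nat.reduceAdd]
  rw [skip_ge (i := 0) (l := 0) w (by omega), skip_ge (i := 0) (l := 1) w (by omega),
    skip_ge (i := 0) (l := 2) w (by omega), skip_lt (i := 1) (l := 0) w (by omega),
    skip_ge (i := 1) (l := 1) w (by omega), skip_ge (i := 1) (l := 2) w (by omega),
    skip_lt (i := 2) (l := 0) w (by omega), skip_lt (i := 2) (l := 1) w (by omega),
    skip_ge (i := 2) (l := 2) w (by omega), skip_lt (i := 3) (l := 0) w (by omega),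
    skip_lt (i := 3) (l := 1) w (by omega), skip_lt (i := 3) (l := 2) w (by omega)]
  norm_num
  linarith

private theorem closed {V : Type} (hLb : S_Lb) (hWc : S_Wc) (f : ℕ → V → ℝ) (m : ℕ)
    (v : ℕ → V) : dl (2 * m) (pw m f) v = 0 := by
  induction m with
  | zero =>
    unfold dl
    rw [Finset.sum_range_succ, Finset.sum_range_succ, Finset.sum_range_zero]
    simp [pw]
  | succ m ih =>
    have h1 : pw (m + 1) f = fun v : ℕ → V => pw m f v *
        (fun w : ℕ → V => ww (f m) (w 0) (w 1) (w 2)) (fun l => v (l + 2 * m)) := by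
      funext v
      unfold pw
      rw [Finset.prod_range_succ]
      have e0 : 0 + 2 * m = 2 * m := by omega
      have e1 : 1 + 2 * m = 2 * m + 1 := by omega
      have e2 : 2 + 2 * m = 2 * m + 2 := by omega
      simp only [e0, e1, e2]
    have h2 : 2 * (m + 1) = 2 * m + 2 := by ring
    rw [h1, h2, hLb V (2 * m) 2 (pw m f) (fun w : ℕ → V => ww (f m) (w 0) (w 1) (w 2))
      (loc_pw m f) (fun v v' h => by
        change ww (f m) (v 0) (v 1) (v 2) = ww (f m) (v' 0) (v' 1) (v' 2)
        rw [h 0 (by omega), h 1 (by omega), h 2 (by omega)]) v, ih, dl_ww hWc, zero_mul, mul_zero,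
      mul_zero, add_zero]

/-- the last product -/
private theorem last {V : Type} (n m : ℕ) (hm : m < n) (f : ℕ → V → ℝ) (v : ℕ → V) :
    ∏ l ∈ Finset.Ico (m + 1) n, ww (f l) (v (2 * l - 1)) (v (2 * l)) (v (2 * l + 1)) =
      pw (n - (m + 1)) (fun l => f (m + 1 + l)) (fun l => v (l + 1 + 2 * m)) := by
  unfold pw
  rw [Finset.prod_Ico_eq_prod_range]
  refine Finset.prod_congr rfl fun l _ => ?_
  have e1 : 2 * (m + 1 + l) - 1 = 2 * l + 1 + 2 * m := by omega
  have e2 : 2 * (m + 1 + l) = 2 * l + 1 + 1 + 2 * m := by omega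
  have e3 : 2 * (m + 1 + l) + 1 = 2 * l + 2 + 1 + 2 * m := by omega
  rw [e1, e3, e2]

private theorem last' {V : Type} (n m : ℕ) (hm : m < n) (f : ℕ → V → ℝ) (v : ℕ → V) :
    ∏ l ∈ Finset.Ico (m + 1) n, ww (f l) (v (2 * l)) (v (2 * l + 1)) (v (2 * l + 2)) =
      pw (n - (m + 1)) (fun l => f (m + 1 + l)) (fun l => v (l + 1 + 1 + 2 * m)) := by
  unfold pw
  rw [Finset.prod_Ico_eq_prod_range]
  refine Finset.prod_congr rfl fun l _ => ?_
  have e1 : 2 * (m + 1 + l) = 2 * l + 1 + 1 + 2 * m := by omega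
  have e2 : 2 * (m + 1 + l) + 1 = 2 * l + 1 + 1 + 1 + 2 * m := by omega
  have e3 : 2 * (m + 1 + l) + 2 = 2 * l + 2 + 1 + 1 + 2 * m := by omega
  rw [e2, e3, e1]

end PlAux

open PlAux in
/-- the coboundary of the product -/
theorem tPl (hLb : S_Lb) (hWc : S_Wc) : S_Pl := by
  intro V n m f u v hm
  set k := n - (m + 1) with hk
  set g : ℕ → V → ℝ := fun l => f (m + 1 + l) with hg
  set z1 : (ℕ → V) → ℤ := fun w => (fun w : ℕ → V => u (w 0) (w 1)) w *
    pw k g (fun l => w (l + 1)) with hz1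
  have h1 : pb n m f u = fun v : ℕ → V => pw m f v * z1 (fun l => v (l + 2 * m)) := by
    funext v
    unfold pb
    rw [last n m hm f v]
    have e0 : 0 + 2 * m = 2 * m := by omega
    have e1 : 1 + 2 * m = 2 * m + 1 := by omega
    simp only [hz1, e0, e1]
    rw [mul_assoc]
    rfl
  have h2 : 2 * n - 1 = 2 * m + (1 + 2 * k) := by omega
  have locu : Loc 1 (fun w : ℕ → V => u (w 0) (w 1)) := by
    intro v v' h
    change u (v 0) (v 1) = u (v' 0) (v' 1)
    rw [h 0 (by omega), h 1 (by omega)]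
  have loc1 : Loc (1 + 2 * k) z1 := by
    intro v v' h
    simp only [hz1]
    rw [h 0 (by omega), h 1 (by omega)]
    congr 1
    exact loc_pw k g _ _ fun l hl => h (l + 1) (by omega)
  have h3 : ∀ w : ℕ → V, dl (1 + 2 * k) z1 w =
      (u (w 1) (w 2) - u (w 0) (w 2) + u (w 0) (w 1)) * pw k g (fun l => w (l + 1 + 1)) := by
    intro w
    have h4 := hLb V 1 (2 * k) (fun w : ℕ → V => u (w 0) (w 1)) (pw k g) locu (loc_pw k g) w
    rw [closed hLb hWc, mul_zero, mul_zero, add_zero] at h4
    rw [hz1]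
    refine h4.trans ?_
    congr 1
    unfold dl
    rw [Finset.sum_range_succ, Finset.sum_range_succ, Finset.sum_range_succ,
      Finset.sum_range_zero]
    beta_reduce
    simp only [Nat.reduceAdd]
    rw [skip_ge (i := 0) (l := 0) w (by omega), skip_ge (i := 0) (l := 1) w (by omega),
      skip_lt (i := 1) (l := 0) w (by omega), skip_ge (i := 1) (l := 1) w (by omega),
      skip_lt (i := 2) (l := 0) w (by omega), skip_lt (i := 2) (l := 1) w (by omega)]
    ring
  rw [h1, h2, hLb V (2 * m) (1 + 2 * k) (pw m f) z1 (loc_pw m f) loc1 v, closed hLb hWc,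
    zero_mul, zero_add, h3, last' n m hm f v, pow_mul]
  have e0 : 0 + 2 * m = 2 * m := by omega
  have e1 : 1 + 2 * m = 2 * m + 1 := by omega
  have e2 : 2 + 2 * m = 2 * m + 2 := by omega
  simp only [e0, e1, e2]
  rw [neg_one_sq, one_pow, one_mul, ← mul_assoc]
  rfl

end Pool.Agent.MPc05127.PO
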