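import Pool.Agent.Lib.MP_c05127_co.PO.SpecT

/-!
# MP_c05127_co, project PO: Borsuk-Ulam for products of spheres, group `(ℤ/p)^J`, with Miranda
directions (module Po)
-/

set_option autoImplicit false

open scoped Classical

namespace Pool.Agent.MPc05127.PO

namespace PoAux

variable {C K J : Type}

/-- the blocks -/
private def bk (B : C → J) (χ : C → J → ℤ) (χ' : K → J → ℤ) (rank : J → ℕ)
    (h2 : ∀ c j, χ c j ≠ 0 → j = B c ∨ rank (B c) < rank j) :
    Blo (C ⊕ K) J where
  B := Sum.elim (fun c => some (B c)) (fun _ => none)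
  χ := fun s j => Sum.elim (fun c => χ c j) (fun a => χ' a j) s
  rank := rank
  up := by
    rintro (c | a) j j' h h'
    · have h3 : B c = j := Option.some.inj h
      rw [← h3]
      exact h2 c j' h'
    · exact absurd h (by simp)

private theorem om_norm (p : ℕ) : ‖om p‖ = 1 := by
  unfold om
  rw [Complex.norm_exp]
  have h : (2 * (Real.pi : ℂ) * Complex.I / (p : ℂ)).re = 0 := by
    rw [← Complex.ofReal_natCast p, Complex.div_ofReal_re]
    simp
  rw [h, Real.exp_zero]

variable [Fintype C] [Fintype K] [Fintype J] (B : C → J) (n : J → ℕ)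
  (ε : ∀ j, {c // B c = j} ≃ Fin (n j))

/-- the maximum of the coordinates of a block -/
private noncomputable def mx (x : C ⊕ K → ℂ) (j : J) : ℝ :=
  ‖fun c : {c // B c = j} => x (Sum.inl c.1)‖

/-- the points of the spheres -/
private noncomputable def mp (x : C ⊕ K → ℂ) (j : J) (i : ℕ) : ℂ :=
  if h : i < n j then x (Sum.inl ((ε j).symm ⟨i, h⟩).1)
  else if i = n j then (((1 - mx B x j : ℝ)) : ℂ) else 0

private theorem mp_cont : Continuous (fun x : C ⊕ K → ℂ => mp B n ε x) := by
  refine continuous_pi fun j => continuous_pi fun i => ?_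
  unfold mp
  by_cases h : i < n j
  · simp only [h, dif_pos]
    exact continuous_apply _
  · by_cases h' : i = n j
    · simp only [dif_neg, h', if_true, not_false_eq_true, lt_self_iff_false]
      unfold mx
      exact Complex.continuous_ofReal.comp
        (continuous_const.sub (continuous_pi fun c => continuous_apply _).norm)
    · simp only [h, dif_neg, h', if_false, not_false_eq_true]
      exact continuous_const

private theorem mx_le (x : C ⊕ K → ℂ) (hx : ∀ c, ‖x c‖ ≤ 1) (j : J) : mx B x j ≤ 1 := by
  unfold mx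
  rw [pi_norm_le_iff_of_nonneg zero_le_one]
  intro c
  exact hx _

private theorem mp_last (x : C ⊕ K → ℂ) (j : J) :
    mp B n ε x j (n j) = (((1 - mx B x j : ℝ)) : ℂ) := by
  unfold mp
  rw [dif_neg (lt_irrefl _), if_pos rfl]

private theorem mp_dom (x : C ⊕ K → ℂ) (hx : ∀ c, ‖x c‖ ≤ 1) :
    ((mp B n ε x, fun a => x (Sum.inr a)) : (J → ℕ → ℂ) × (K → ℂ)) ∈
      (DomO n : Set ((J → ℕ → ℂ) × (K → ℂ))) := by
  refine ⟨fun j => ⟨?_, fun i hi => ?_, 1 - mx B x j, ?_, mp_last B n ε x j⟩, fun a => hx _⟩
  · by_contra hcon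
    push Not at hcon
    have h1 : ∀ c : {c // B c = j}, x (Sum.inl c.1) = 0 := by
      intro c
      have h2 : mp B n ε x j (ε j c : ℕ) = 0 := hcon (ε j c : ℕ) (ε j c).2.le
      have h3 : mp B n ε x j (ε j c : ℕ) = x (Sum.inl c.1) := by
        unfold mp
        rw [dif_pos (ε j c).2, Fin.eta, Equiv.symm_apply_apply]
      rw [h3] at h2
      exact h2
    have h4 : mp B n ε x j (n j) = 0 := hcon (n j) le_rfl
    rw [mp_last] at h4
    have h6 : mx B x j = 0 := by
      unfold mx
      rw [norm_eq_zero]
      funext c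
      exact h1 c
    rw [h6] at h4
    norm_num at h4
  · show mp B n ε x j i = 0
    unfold mp
    rw [dif_neg (not_lt.2 hi.le), if_neg hi.ne']
  · have := mx_le B x hx j
    linarith

end PoAux

open PoAux in
theorem tPo (hCo : S_Co) : S_Po := by
  intro C K J _ _ _ p B χ χ' rank n F G hp hself hup hcard hFc hGc hsym hmir
  have ε : ∀ j, {c // B c = j} ≃ Fin (n j) := fun j => Fintype.equivFinOfCardEq (hcard j)
  obtain ⟨b, hb⟩ : ∃ b : Blo (C ⊕ K) J, b = bk B χ χ' rank hup := ⟨_, rfl⟩
  have hcont : Continuous (fun x : C ⊕ K → ℂ => ((mp B n ε x, fun a => x (Sum.inr a)) :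
      (J → ℕ → ℂ) × (K → ℂ))) :=
    (mp_cont B n ε).prodMk (continuous_pi fun a => continuous_apply _)
  have hmaps : Set.MapsTo (fun x : C ⊕ K → ℂ => ((mp B n ε x, fun a => x (Sum.inr a)) :
      (J → ℕ → ℂ) × (K → ℂ))) {x | ∀ c', ‖x c'‖ ≤ 1} (DomO n) := fun x hx => mp_dom B n ε x hx
  obtain ⟨f, hfdef⟩ : ∃ f : C ⊕ K → (C ⊕ K → ℂ) → ℂ, f = fun s x =>
      Sum.elim (fun c => F c (mp B n ε x) (fun a => x (Sum.inr a)))
      (fun a => G a (mp B n ε x) (fun a => x (Sum.inr a))) s := ⟨_, rfl⟩
  suffices h : ∃ x : C ⊕ K → ℂ, (∀ c, ‖x c‖ ≤ 1) ∧ ∀ c, f c x = 0 by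
    obtain ⟨x, hx, hf⟩ := h
    rw [hfdef] at hf
    exact ⟨_, mp_dom B n ε x hx, fun c => hf (Sum.inl c), fun a => hf (Sum.inr a)⟩
  rw [hfdef]
  refine hCo (C ⊕ K) J b p _ hp ?_ ?_ ?_ ?_
  · rintro (c | a) j h
    · rw [hb] at h ⊢
      have h3 : B c = j := Option.some.inj h
      rw [← h3]
      exact hself c
    · rw [hb] at h
      exact absurd h (by simp [bk])
  · rintro (c | a)
    · exact (hFc c).comp hcont.continuousOn hmaps
    · exact (hGc a).comp hcont.continuousOn hmaps
  · intro j x hx hex
    obtain ⟨s, hs, hs1⟩ := hex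
    rcases s with c0 | a0
    swap
    · rw [hb] at hs
      exact absurd hs (by simp [bk])
    have hc0 : B c0 = j := by
      rw [hb] at hs
      exact Option.some.inj hs
    have hfl1 : ∀ c, B c = j → rotC b p j x (Sum.inl c) = om p * x (Sum.inl c) := by
      intro c hc
      have h1 : b.mu j (Sum.inl c) = 1 := by
        rw [hb]
        unfold Blo.mu
        rw [if_pos]
        show some (B c) = some j
        rw [hc]
      unfold rotC
      rw [h1, zpow_one]
    have hfl2 : ∀ c, B c ≠ j → rotC b p j x (Sum.inl c) = x (Sum.inl c) := by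
      intro c hc
      have h1 : b.mu j (Sum.inl c) = 0 := by
        rw [hb]
        unfold Blo.mu
        rw [if_neg, if_neg]
        · show ¬ some (B c) = none
          simp
        · show ¬ some (B c) = some j
          simpa using hc
      unfold rotC
      rw [h1, zpow_zero, one_mul]
    have hfr : (fun a => rotC b p j x (Sum.inr a)) = rY p χ' j (fun a => x (Sum.inr a)) := by
      funext a
      have h1 : b.mu j (Sum.inr a) = χ' a j := by
        rw [hb]
        unfold Blo.mu
        rw [if_neg, if_pos]
        · rfl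
        · rfl
        · show ¬ (none : Option J) = some j
          simp
      unfold rotC rY
      rw [h1]
    have hmx : mx B x j = 1 := by
      refine le_antisymm (mx_le B x hx j) ?_
      unfold mx
      have h1 := norm_le_pi_norm (fun c : {c // B c = j} => x (Sum.inl c.1)) ⟨c0, hc0⟩
      simp only at h1
      rw [hs1] at h1
      exact h1
    have hmx1 : mx B (rotC b p j x) j = 1 := by
      have h2 : (fun c : {c // B c = j} => rotC b p j x (Sum.inl c.1)) =
          (om p) • fun c : {c // B c = j} => x (Sum.inl c.1) := by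
        funext c
        rw [hfl1 _ c.2, Pi.smul_apply, smul_eq_mul]
      unfold mx
      rw [h2, norm_smul, om_norm, one_mul]
      exact hmx
    have hmp : mp B n ε (rotC b p j x) = rX p j (mp B n ε x) := by
      funext j' i
      unfold rX
      by_cases hj : j' = j
      · subst hj
        rw [Function.update_self]
        unfold mp
        by_cases h : i < n j'
        · rw [dif_pos h, dif_pos h, hfl1 _ ((ε j').symm ⟨i, h⟩).2]
        · by_cases h' : i = n j'
          · rw [dif_neg h, dif_neg h, if_pos h', if_pos h', hmx, hmx1]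
            simp
          · rw [dif_neg h, dif_neg h, if_neg h', if_neg h', mul_zero]
      · rw [Function.update_of_ne hj]
        have hmx' : mx B (rotC b p j x) j' = mx B x j' := by
          unfold mx
          congr 1
          funext c
          exact hfl2 _ (by rw [c.2]; exact hj)
        unfold mp
        by_cases h : i < n j'
        · rw [dif_pos h, dif_pos h]
          exact hfl2 _ (by rw [((ε j').symm ⟨i, h⟩).2]; exact hj)
        · by_cases h' : i = n j'
          · rw [dif_neg h, dif_neg h, if_pos h', if_pos h', hmx']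
          · rw [dif_neg h, dif_neg h, if_neg h', if_neg h']
    have hz0 : mp B n ε x j (n j) = 0 := by
      rw [mp_last, hmx]
      simp
    obtain ⟨hF, hG⟩ := hsym j _ (mp_dom B n ε x hx) hz0
    rintro (c | a)
    · have h3 : b.χ (Sum.inl c) j = χ c j := by
        rw [hb]
        rfl
      have h4 := hF c
      simp only at h4
      show F c (mp B n ε (rotC b p j x)) (fun a => rotC b p j x (Sum.inr a)) = _
      rw [hmp, hfr, h4, h3]
      rfl
    · have h3 : b.χ (Sum.inr a) j = χ' a j := by
        rw [hb]
        rfl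
      have h4 := hG a
      simp only at h4
      show G a (mp B n ε (rotC b p j x)) (fun a => rotC b p j x (Sum.inr a)) = _
      rw [hmp, hfr, h4, h3]
      rfl
  · rintro (c | a) hc x hx hx1
    · rw [hb] at hc
      exact absurd hc (by simp [bk])
    · exact hmir a _ (mp_dom B n ε x hx) hx1

end Pool.Agent.MPc05127.PO
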