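import Pool.Agent.Lib.MP_c05127_co.PO.SpecG

/-!
# MP_c05127_co, project PO, module Pr: rotation and linearity
-/

set_option autoImplicit false

open scoped Classical

namespace Pool.Agent.MPc05127.PO

open Pool.Agent.MPc05127.PP (E idx len)

namespace PrAux

private theorem norm_om (p : ℕ) : ‖om p‖ = 1 := by
  have h : om p = Complex.exp (((2 * Real.pi / p : ℝ) : ℂ) * Complex.I) := by
    unfold om
    congr 1
    push_cast
    ring
  rw [h, Complex.norm_exp_ofReal_mul_I]

private theorem norm_om_mul (p : ℕ) (z : ℂ) : ‖om p * z‖ = ‖z‖ := by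
  rw [norm_mul, norm_om, one_mul]

private theorem dn_om_mul (p : ℕ) (z : ℂ) : dn (om p * z) = om p * dn z := by
  unfold dn
  rw [norm_om_mul, mul_div_assoc]

end PrAux

theorem tPr : S_Pr := by
  intro s p _ n Z χ
  refine ⟨fun t F => ?_, fun κ _ c F => ?_, fun F => ?_⟩
  · have h1 : (fun t' b => ‖Function.update Z t (fun b => om p * Z t b) t' b‖) =
        fun t' b => ‖Z t' b‖ := by
      funext t' b
      by_cases h : t' = t
      · subst h
        rw [Function.update_self, PrAux.norm_om_mul]
      · rw [Function.update_of_ne h]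
    have h2 : ∀ α : Fin s → ℕ,
        (∏ t', dn (Function.update Z t (fun b => om p * Z t b) t' (α t')) ^ (χ t').val) =
          om p ^ (χ t).val * ∏ t', dn (Z t' (α t')) ^ (χ t').val := by
      intro α
      have h3 : ∀ t', dn (Function.update Z t (fun b => om p * Z t b) t' (α t')) ^ (χ t').val =
          (if t' = t then om p ^ (χ t).val else 1) * dn (Z t' (α t')) ^ (χ t').val := by
        intro t'
        by_cases h : t' = t
        · subst h
          rw [Function.update_self, PrAux.dn_om_mul, mul_pow, if_pos rfl]
        · rw [Function.update_of_ne h, if_neg h, one_mul]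
      rw [Finset.prod_congr rfl fun t' _ => h3 t', Finset.prod_mul_distrib,
        Finset.prod_ite_eq' Finset.univ t, if_pos (Finset.mem_univ t)]
    unfold phc
    rw [Finset.mul_sum, h1]
    refine Finset.sum_congr rfl fun α _ => ?_
    rw [h2 α]
    ring
  · unfold phc
    simp only [Finset.mul_sum]
    rw [Finset.sum_comm]
    refine Finset.sum_congr rfl fun b _ => Finset.sum_congr rfl fun α _ => ?_
    ring
  · unfold phc
    rw [map_sum]
    refine Finset.sum_congr rfl fun α _ => ?_
    have h1 : (∏ t, dn (Z t (α t)) ^ ((0 : Fin s → ZMod p) t).val) = 1 := by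
      refine Finset.prod_eq_one fun t _ => ?_
      rw [Pi.zero_apply, ZMod.val_zero, pow_zero]
    rw [h1, mul_one, map_mul, Complex.conj_ofReal]

end Pool.Agent.MPc05127.PO
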