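import Pool.Agent.Lib.MP_c05127_co.PO.SpecG

/-!
# MP_c05127_co, project PO, module Ps: the parts
-/

set_option autoImplicit false

open scoped Classical

namespace Pool.Agent.MPc05127.PO

open Pool.Agent.MPc05127.PP (E idx len)

namespace PsAux

variable {s p : ℕ}

private lemma prim [NeZero p] : IsPrimitiveRoot (om p) p :=
  Complex.isPrimitiveRoot_exp p (NeZero.ne p)

/-- the direction of a labelled number is a root of unity -/
private lemma dn_pow [NeZero p] {z : ℂ} (hz : z ≠ 0)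
    (h : ∃ r : ℝ, 0 ≤ r ∧ ∃ l : ℕ, z = r * om p ^ l) : dn z ^ p = 1 := by
  obtain ⟨r, hr, l, rfl⟩ := h
  have hn : ‖om p‖ = 1 := Complex.norm_eq_one_of_pow_eq_one prim.pow_eq_one (NeZero.ne p)
  have hr0 : (r : ℂ) ≠ 0 := left_ne_zero_of_mul hz
  have h1 : ‖(r : ℂ) * om p ^ l‖ = r := by
    rw [norm_mul, norm_pow, hn, one_pow, mul_one, Complex.norm_real, Real.norm_eq_abs,
      abs_of_nonneg hr]
  unfold dn
  rw [h1, mul_div_cancel_left₀ _ hr0, ← pow_mul, mul_comm, pow_mul, prim.pow_eq_one, one_pow]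

private lemma sum_zmod [NeZero p] (f : ℕ → ℂ) :
    ∑ a : ZMod p, f a.val = ∑ i ∈ Finset.range p, f i := by
  refine Finset.sum_nbij ZMod.val ?_ ?_ ?_ ?_
  · intro a _
    exact Finset.mem_range.2 (ZMod.val_lt a)
  · intro a _ b _ h
    exact ZMod.val_injective p h
  · intro i hi
    rw [Finset.mem_coe, Finset.mem_range] at hi
    exact ⟨(i : ZMod p), by simp, ZMod.val_cast_of_lt hi⟩
  · intro a _
    rfl

private lemma geom [NeZero p] {w : ℂ} (hw : w ^ p = 1) :
    ∑ a : ZMod p, w ^ a.val = if w = 1 then (p : ℂ) else 0 := by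
  rw [sum_zmod fun i => w ^ i]
  split_ifs with h
  · rw [h]
    simp
  · have h1 := mul_geom_sum w p
    rw [hw, sub_self] at h1
    exact (mul_eq_zero.1 h1).resolve_left (sub_ne_zero.2 h)

/-- The pieces with the label `g`. -/
private noncomputable def II (n : Fin s → ℕ) (Z : Fin s → ℕ → ℂ) (g : Fin s → ZMod p) :
    Finset (Fin s → ℕ) :=
  (idx n).filter (fun α => 0 < len n (fun t b => ‖Z t b‖) α ∧
    ∀ t, dn (Z t (α t)) = om p ^ (g t).val)

private lemma fourier [NeZero p] (n : Fin s → ℕ) (Z : Fin s → ℕ → ℂ)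
    (h0 : ∀ α, 0 ≤ len n (fun t b => ‖Z t b‖) α)
    (hlab : ∀ α, 0 < len n (fun t b => ‖Z t b‖) α → ∀ t, dn (Z t (α t)) ^ p = 1)
    (g : Fin s → ZMod p) (F : ℕ → ℂ) :
    ∑ χ : Fin s → ZMod p, (∏ t, ((om p ^ (g t).val)⁻¹) ^ (χ t).val) * phc n Z χ F =
      (p : ℂ) ^ s * ∑ α ∈ II n Z g,
        (len n (fun t b => ‖Z t b‖) α : ℂ) * F (∑ t, α t) := by
  unfold phc
  simp_rw [Finset.mul_sum]
  rw [Finset.sum_comm]
  unfold II
  rw [Finset.sum_filter]
  refine Finset.sum_congr rfl fun α _ => ?_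
  have e1 : ∑ χ : Fin s → ZMod p, (∏ t, ((om p ^ (g t).val)⁻¹) ^ (χ t).val) *
      ((len n (fun t b => ‖Z t b‖) α : ℂ) * (∏ t, dn (Z t (α t)) ^ (χ t).val) *
        F (∑ t, α t)) =
      ((len n (fun t b => ‖Z t b‖) α : ℂ) * F (∑ t, α t)) *
        ∏ t, ∑ a : ZMod p, ((om p ^ (g t).val)⁻¹ * dn (Z t (α t))) ^ a.val := by
    rw [Finset.prod_univ_sum, Fintype.piFinset_univ, Finset.mul_sum]
    refine Finset.sum_congr rfl fun χ _ => ?_
    simp_rw [mul_pow]
    rw [Finset.prod_mul_distrib]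
    ring
  rw [e1]
  rcases (h0 α).eq_or_lt with hz | hp
  · rw [← hz]
    simp
  · have hom : ∀ t, om p ^ (g t).val ≠ 0 := fun t =>
      pow_ne_zero _ (prim.ne_zero (NeZero.ne p))
    have e2 : ∀ t, ∑ a : ZMod p, ((om p ^ (g t).val)⁻¹ * dn (Z t (α t))) ^ a.val =
        if dn (Z t (α t)) = om p ^ (g t).val then (p : ℂ) else 0 := by
      intro t
      have hw : ((om p ^ (g t).val)⁻¹ * dn (Z t (α t))) ^ p = 1 := by
        rw [mul_pow, hlab α hp t, mul_one, inv_pow, ← pow_mul, mul_comm, pow_mul,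
          prim.pow_eq_one, one_pow, inv_one]
      rw [geom hw]
      have h1 : ((om p ^ (g t).val)⁻¹ * dn (Z t (α t)) = 1) ↔
          dn (Z t (α t)) = om p ^ (g t).val := by
        rw [inv_mul_eq_one₀ (hom t)]
        exact eq_comm
      simp only [h1]
    simp_rw [e2]
    by_cases hq : ∀ t, dn (Z t (α t)) = om p ^ (g t).val
    · rw [if_pos ⟨hp, hq⟩, Finset.prod_congr rfl fun t _ => if_pos (hq t)]
      simp
      ring
    · rw [if_neg fun h => hq h.2]
      rw [not_forall] at hq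
      obtain ⟨t, ht⟩ := hq
      rw [Finset.prod_eq_zero (Finset.mem_univ t) (if_neg ht), mul_zero]

private lemma neg_val [NeZero p] (a : ZMod p) : a.val + (-a).val = 0 ∨ a.val + (-a).val = p := by
  rw [ZMod.neg_val]
  have h := ZMod.val_lt a
  split_ifs with h0
  · left
    rw [h0, ZMod.val_zero]
  · right
    omega

/-- for real `F` the values at `χ` and `-χ` are conjugate -/
private lemma conj_phc [NeZero p] (n : Fin s → ℕ) (Z : Fin s → ℕ → ℂ)
    (h0 : ∀ α, 0 ≤ len n (fun t b => ‖Z t b‖) α)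
    (hlab : ∀ α, 0 < len n (fun t b => ‖Z t b‖) α → ∀ t, dn (Z t (α t)) ^ p = 1)
    (χ : Fin s → ZMod p) (F : ℕ → ℝ) :
    phc n Z χ (fun h => (F h : ℂ)) =
      (starRingEnd ℂ) (phc n Z (-χ) (fun h => (F h : ℂ))) := by
  unfold phc
  rw [map_sum]
  refine Finset.sum_congr rfl fun α _ => ?_
  rw [map_mul, map_mul, map_prod, Complex.conj_ofReal, Complex.conj_ofReal]
  rcases (h0 α).eq_or_lt with hz | hp
  · rw [← hz]
    simp
  · congr 2
    refine Finset.prod_congr rfl fun t _ => ?_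
    have hw := hlab α hp t
    have hn : ‖dn (Z t (α t))‖ = 1 := Complex.norm_eq_one_of_pow_eq_one hw (NeZero.ne p)
    have hw0 : dn (Z t (α t)) ≠ 0 := by
      intro h
      rw [h, norm_zero] at hn
      exact zero_ne_one hn
    have hc : (starRingEnd ℂ) (dn (Z t (α t))) = (dn (Z t (α t)))⁻¹ := by
      rw [Complex.inv_def, Complex.normSq_eq_norm_sq, hn]
      simp
    rw [map_pow, hc, inv_pow]
    refine eq_inv_of_mul_eq_one_left ?_
    rw [← pow_add, Pi.neg_apply]
    rcases neg_val (χ t) with h | h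
    · rw [h, pow_zero]
    · rw [h, hw]

/-- all nonzero characters -/
private lemma all_zero [NeZero p] (hp : p.Prime) (hp2 : p ≠ 2) (n : Fin s → ℕ)
    (Z : Fin s → ℕ → ℂ) (h0 : ∀ α, 0 ≤ len n (fun t b => ‖Z t b‖) α)
    (hlab : ∀ α, 0 < len n (fun t b => ‖Z t b‖) α → ∀ t, dn (Z t (α t)) ^ p = 1)
    (F : ℕ → ℝ) (hF : ∀ χ : Hc p s, phc n Z χ.1 (fun h => (F h : ℂ)) = 0)
    (χ : Fin s → ZMod p) (hχ : χ ≠ 0) : phc n Z χ (fun h => (F h : ℂ)) = 0 := by
  have hex : ∃ t, χ t ≠ 0 := by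
    by_contra hcon
    push Not at hcon
    exact hχ (funext hcon)
  have hmin : ∃ t, χ t ≠ 0 ∧ ∀ t' < t, χ t' = 0 := by
    have hne : (Finset.univ.filter fun t => χ t ≠ 0).Nonempty := by
      obtain ⟨t, ht⟩ := hex
      exact ⟨t, Finset.mem_filter.2 ⟨Finset.mem_univ _, ht⟩⟩
    refine ⟨(Finset.univ.filter fun t => χ t ≠ 0).min' hne,
      (Finset.mem_filter.1 (Finset.min'_mem _ hne)).2, fun t' ht' => ?_⟩
    by_contra hcon
    exact absurd (Finset.min'_le _ t' (Finset.mem_filter.2 ⟨Finset.mem_univ _, hcon⟩))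
      (not_le.2 ht')
  obtain ⟨t, ht, ht'⟩ := hmin
  have hodd : Odd p := hp.odd_of_ne_two hp2
  by_cases h : 2 * (χ t).val < p
  · exact hF ⟨χ, t, ht, ht', h⟩
  · rw [conj_phc n Z h0 hlab χ F]
    have h1 : 2 * ((-χ) t).val < p := by
      rw [Pi.neg_apply]
      have h2 : (χ t).val ≠ 0 := fun h => ht ((ZMod.val_eq_zero _).1 h)
      have h3 : 2 * (χ t).val ≠ p := by
        intro h
        rw [← h] at hodd
        exact (Nat.not_odd_iff_even.2 (even_two_mul _)) hodd
      rcases neg_val (χ t) with h4 | h4 <;> omega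
    have h5 := hF ⟨-χ, t, by simpa using ht, fun t' h => by simp [ht' t' h], h1⟩
    rw [h5, map_zero]

end PsAux

open PsAux in
/-- the parts -/
theorem tPs (hPLe : S_PLe) : S_Ps := by
  intro s p _ hp hp2 n Z hZ hlabel hw
  have hx : (fun t b => ‖Z t b‖) ∈ PP.DomF n := fun t => by
    obtain ⟨b, hb, hb'⟩ := hZ t
    exact ⟨b, hb, norm_ne_zero_iff.2 hb'⟩
  obtain ⟨hl1, hl2, hl3, hl4, -⟩ := hPLe s n _ hx
  have h0 : ∀ α, 0 ≤ len n (fun t b => ‖Z t b‖) α := fun α => le_max_left _ _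
  have hlab : ∀ α, 0 < len n (fun t b => ‖Z t b‖) α → ∀ t, dn (Z t (α t)) ^ p = 1 :=
    fun α hα t => dn_pow (norm_ne_zero_iff.1 (hl2 α t hα)) (hlabel t (α t))
  have hps : ((p : ℂ) ^ s) ≠ 0 := pow_ne_zero _ (Nat.cast_ne_zero.2 (NeZero.ne p))
  have hzero : ∀ F : ℕ → ℂ, phc n Z (0 : Fin s → ZMod p) F =
      ∑ α ∈ idx n, (len n (fun t b => ‖Z t b‖) α : ℂ) * F (∑ t, α t) := by
    intro F
    unfold phc
    refine Finset.sum_congr rfl fun α _ => ?_
    simp
  -- the sum over the pieces with a given label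
  have hone : ∀ g : Fin s → ZMod p, ∀ F : ℕ → ℝ,
      (∀ χ : Hc p s, phc n Z χ.1 (fun h => (F h : ℂ)) = 0) →
      phc n Z (0 : Fin s → ZMod p) (fun h => (F h : ℂ)) =
        (p : ℂ) ^ s * ∑ α ∈ II n Z g,
          (len n (fun t b => ‖Z t b‖) α : ℂ) * (F (∑ t, α t) : ℂ) := by
    intro g F hF
    rw [← fourier n Z h0 hlab g (fun h => (F h : ℂ)), Finset.sum_eq_single (0 : Fin s → ZMod p)]
    · simp
    · intro χ _ hχ
      rw [all_zero hp hp2 n Z h0 hlab F hF χ hχ, mul_zero]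
    · intro h
      exact absurd (Finset.mem_univ _) h
  have hIne : ∀ g : Fin s → ZMod p, (II n Z g).Nonempty := by
    intro g
    by_contra h
    rw [Finset.not_nonempty_iff_eq_empty] at h
    have h1 := hone g (fun _ => 1) (fun χ => by simpa using hw χ)
    rw [h, Finset.sum_empty, mul_zero, hzero] at h1
    have h2 : ∑ α ∈ idx n, len n (fun t b => ‖Z t b‖) α = 0 := by
      have h3 : ((∑ α ∈ idx n, len n (fun t b => ‖Z t b‖) α : ℝ) : ℂ) = 0 := by
        rw [← h1]
        push_cast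
        refine Finset.sum_congr rfl fun α _ => ?_
        simp
      exact_mod_cast h3
    obtain ⟨α, hα, hαp⟩ := hl4
    have h4 : 0 < ∑ α ∈ idx n, len n (fun t b => ‖Z t b‖) α :=
      Finset.sum_pos' (fun β _ => h0 β) ⟨α, hα, hαp⟩
    linarith
  have hmem : ∀ (g : Fin s → ZMod p) (α : Fin s → ℕ), α ∈ II n Z g ↔ α ∈ idx n ∧
      0 < len n (fun t b => ‖Z t b‖) α ∧ ∀ t, dn (Z t (α t)) = om p ^ (g t).val := by
    intro g α
    unfold II
    rw [Finset.mem_filter]
  refine ⟨fun g => (II n Z g).image (fun α => ∑ t, α t), ?_, ?_, ?_, ?_, ?_⟩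
  · intro g g' hg
    rw [Finset.disjoint_left]
    intro a ha ha'
    rw [Finset.mem_image] at ha ha'
    obtain ⟨α, hα, rfl⟩ := ha
    obtain ⟨α', hα', he⟩ := ha'
    rw [hmem] at hα hα'
    have hαα : α = α' := by
      by_contra hn
      rcases hl3 α hα.1 α' hα'.1 hn he.symm with h | h
      · exact absurd hα.2.1 (by rw [h]; exact lt_irrefl _)
      · exact absurd hα'.2.1 (by rw [h]; exact lt_irrefl _)
    subst hαα
    apply hg
    funext t
    have h1 := (hα.2.2 t).symm.trans (hα'.2.2 t)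
    exact ZMod.val_injective p (prim.pow_inj (ZMod.val_lt _) (ZMod.val_lt _) h1)
  · intro g h hh
    rw [Finset.mem_image] at hh
    obtain ⟨α, hα, rfl⟩ := hh
    rw [hmem] at hα
    apply Finset.sum_le_sum
    intro t _
    have := hα.1
    unfold PP.idx at this
    rw [Fintype.mem_piFinset] at this
    have := this t
    rw [Finset.mem_range] at this
    omega
  · intro g
    exact (hIne g).image _
  · intro F hz hz0 g
    by_contra hc
    push Not at hc
    have h1 := hone g F hz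
    rw [hz0] at h1
    have h5 : ∑ α ∈ II n Z g, len n (fun t b => ‖Z t b‖) α * F (∑ t, α t) = 0 := by
      have h6 := (mul_eq_zero.1 h1.symm).resolve_left hps
      exact_mod_cast h6
    have h6 : ∑ α ∈ II n Z g, len n (fun t b => ‖Z t b‖) α * F (∑ t, α t) < 0 := by
      apply Finset.sum_neg
      · intro α hα
        have hF1 : F (∑ t, α t) < 0 := hc _ (Finset.mem_image_of_mem _ hα)
        rw [hmem] at hα
        exact mul_neg_of_pos_of_neg hα.2.1 hF1
      · exact hIne g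
    rw [h5] at h6
    exact lt_irrefl _ h6
  · intro F hF0 hz g h hh
    rw [Finset.mem_image] at hh
    obtain ⟨α, hα, rfl⟩ := hh
    rw [hmem] at hα
    rw [hzero] at hz
    have hz' : ∑ α ∈ idx n, len n (fun t b => ‖Z t b‖) α * F (∑ t, α t) = 0 := by
      exact_mod_cast hz
    rw [Finset.sum_eq_zero_iff_of_nonneg] at hz'
    · have h1 := hz' α hα.1
      rcases mul_eq_zero.1 h1 with h2 | h2
      · exact absurd h2 (ne_of_gt hα.2.1)
      · exact h2
    · intro β _
      exact mul_nonneg (h0 β) (hF0 _)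

end Pool.Agent.MPc05127.PO
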