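import Pool.Agent.Lib.MP_c05127_co.PO.SpecT

/-!
# MP_c05127_co, project PO: the reference arguments satisfy the conditions (helper26)
-/

set_option autoImplicit false

open scoped Classical

namespace Pool.Agent.MPc05127.PO

open Pool.Agent.MPc05127.PP (skip Num Num.n)

namespace RoAux

variable {C J : Type} [Fintype C]

/-- The condition in `lo`. -/
def Cd (b : Blo C J) (T : Num C) (j : J) (v : Pt C) (c : C) : Prop :=
  b.B c = some j ∧ (v c).1 ≠ 0 ∧ ∀ c', b.B c' = some j → T.n c < T.n c' → (v c').1 = 0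

lemma lo_eq (b : Blo C J) (A : ℝ) (T : Num C) (j : J) (v : Pt C) :
    lo b A T j v = ∑ c, if Cd b T j v c then ((v c).2 : ℝ) / A else 0 := by
  unfold lo
  refine Finset.sum_congr rfl fun c _ => ?_
  by_cases h : Cd b T j v c
  · rw [if_pos h]
    exact if_pos h
  · rw [if_neg h]
    exact if_neg h

lemma int_sum {ι : Type} (s : Finset ι) (f g : ι → ℝ) (h : ∀ i, ∃ n : ℤ, g i = f i + n) :
    ∃ n : ℤ, ∑ i ∈ s, g i = ∑ i ∈ s, f i + n := by
  choose n hn using h
  exact ⟨∑ i ∈ s, n i, by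
    rw [Int.cast_sum, ← Finset.sum_add_distrib]
    exact Finset.sum_congr rfl fun i _ => hn i⟩

lemma ang (A : ℤ) (A' : ℝ) (hA : (A : ℝ) = A') (hA' : A' ≠ 0) (x y : ℤ) (h : A ∣ y - x) :
    ∃ n : ℤ, (y : ℝ) / A' = (x : ℝ) / A' + n := by
  obtain ⟨n, hn⟩ := h
  refine ⟨n, ?_⟩
  have h1 : y = x + A * n := by linarith
  have h2 : (y : ℝ) = x + A' * n := by rw [h1, ← hA]; push_cast; ring
  rw [h2]
  field_simp

lemma Cd_congr (b : Blo C J) (T : Num C) (j : J) (v v' : Pt C) (h : ∀ c, (v' c).1 = (v c).1)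
    (c : C) : Cd b T j v' c ↔ Cd b T j v c := by
  unfold Cd
  simp only [h]

lemma lo_same (b : Blo C J) (A : ℤ) (A' : ℝ) (hA : (A : ℝ) = A') (hA' : A' ≠ 0) (T : Num C)
    (j : J) (v v' : Pt C) (hs : Same A v v') : ∃ n : ℤ, lo b A' T j v' = lo b A' T j v + n := by
  rw [lo_eq, lo_eq]
  refine int_sum _ _ _ fun c => ?_
  by_cases h : Cd b T j v c
  · have h' : Cd b T j v' c := (Cd_congr b T j v v' (fun c => (hs c).1.symm) c).2 h
    rw [if_pos h, if_pos h']
    exact ang A A' hA hA' _ _ ((hs c).2.resolve_left h.2.1)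
  · have h' : ¬ Cd b T j v' c := fun h1 =>
      h ((Cd_congr b T j v v' (fun c => (hs c).1.symm) c).1 h1)
    rw [if_neg h, if_neg h']
    exact ⟨0, by simp⟩

/-- There is exactly one coordinate with the condition. -/
lemma ex_Cd (b : Blo C J) (T : Num C) (j : J) (v : Pt C) (h : ∃ c, b.B c = some j ∧ (v c).1 ≠ 0) :
    ∃ c₀, ∀ c, Cd b T j v c ↔ c = c₀ := by
  have hne : (Finset.univ.filter fun c => b.B c = some j ∧ (v c).1 ≠ 0).Nonempty := by
    obtain ⟨c, hc⟩ := h
    exact ⟨c, Finset.mem_filter.2 ⟨Finset.mem_univ _, hc⟩⟩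
  obtain ⟨c₀, hc₀, hmax⟩ := Finset.exists_max_image _ (fun c => T.n c) hne
  obtain ⟨-, h1, h2⟩ := Finset.mem_filter.1 hc₀
  have h3 : Cd b T j v c₀ := by
    refine ⟨h1, h2, fun c' hc' hlt => ?_⟩
    by_contra hcon
    have := hmax c' (Finset.mem_filter.2 ⟨Finset.mem_univ _, hc', hcon⟩)
    omega
  refine ⟨c₀, fun c => ⟨fun hc => ?_, fun hc => hc ▸ h3⟩⟩
  rcases lt_trichotomy (T.n c) (T.n c₀) with hlt | heq | hgt
  · exact absurd (hc.2.2 c₀ h1 hlt) h2
  · exact T.injective (Fin.ext heq)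
  · exact absurd (h3.2.2 c hc.1 hgt) hc.2.1

lemma lo_rot_self (b : Blo C J) (A' : ℝ) (T : Num C) (M : ℕ) (j : J) (v : Pt C)
    (h : ∃ c, b.B c = some j ∧ (v c).1 ≠ 0) :
    lo b A' T j (rot b M j v) = lo b A' T j v + 2 * M / A' := by
  obtain ⟨c₀, hc₀⟩ := ex_Cd b T j v h
  have h1 : ∀ c, Cd b T j (rot b M j v) c ↔ c = c₀ := fun c =>
    (Cd_congr b T j v (rot b M j v) (fun _ => rfl) c).trans (hc₀ c)
  have hB : b.B c₀ = some j := ((hc₀ c₀).2 rfl).1
  rw [lo_eq, lo_eq]
  rw [Finset.sum_eq_single c₀, Finset.sum_eq_single c₀]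
  · rw [if_pos ((h1 c₀).2 rfl), if_pos ((hc₀ c₀).2 rfl)]
    simp only [rot, Blo.mu, if_pos hB]
    push_cast
    ring
  · intro c _ hc
    exact if_neg fun h2 => hc ((hc₀ c).1 h2)
  · intro h2
    exact absurd (Finset.mem_univ _) h2
  · intro c _ hc
    exact if_neg fun h2 => hc ((h1 c).1 h2)
  · intro h2
    exact absurd (Finset.mem_univ _) h2

lemma lo_rot_ne (b : Blo C J) (A' : ℝ) (T : Num C) (M : ℕ) (j j' : J) (hj : j' ≠ j) (v : Pt C) :
    lo b A' T j' (rot b M j v) = lo b A' T j' v := by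
  rw [lo_eq, lo_eq]
  refine Finset.sum_congr rfl fun c _ => ?_
  by_cases h : Cd b T j' v c
  · have h' : Cd b T j' (rot b M j v) c :=
      (Cd_congr b T j' v (rot b M j v) (fun _ => rfl) c).2 h
    rw [if_pos h, if_pos h']
    have h1 : ¬ (b.B c = some j) := by
      rw [h.1]
      intro h2
      exact hj (Option.some.inj h2)
    have h2 : ¬ (b.B c = none) := by
      rw [h.1]
      exact Option.some_ne_none j'
    simp only [rot, Blo.mu, if_neg h1, if_neg h2, mul_zero, add_zero]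
  · have h' : ¬ Cd b T j' (rot b M j v) c := fun h1 =>
      h ((Cd_congr b T j' v (rot b M j v) (fun _ => rfl) c).1 h1)
    rw [if_neg h, if_neg h']

end RoAux

open RoAux in
theorem tRo : S_Ro := by
  intro C J _ _ b p M N hpM T hN
  have hpM0 : p * M ≠ 0 := hpM.out
  have hp : (p : ℝ) ≠ 0 := by
    intro h
    exact hpM0 (by rw [Nat.cast_eq_zero.1 h, zero_mul])
  have hM : (M : ℝ) ≠ 0 := by
    intro h
    exact hpM0 (by rw [Nat.cast_eq_zero.1 h, mul_zero])
  have hA' : (2 * p * M : ℝ) ≠ 0 := mul_ne_zero (mul_ne_zero two_ne_zero hp) hM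
  have hA : ((2 * p * M : ℤ) : ℝ) = 2 * p * M := by push_cast; ring
  have hq : (2 * M : ℝ) / (2 * p * M) = 1 / p := by
    field_simp
  constructor
  · intro c v v' hv hs
    have hr : ∀ c, (v' c).1 = (v c).1 := fun c => (hs c).1.symm
    unfold ro
    by_cases h : b.B c = none ∧ (v c).1 ≠ 0
    · have h' : b.B c = none ∧ (v' c).1 ≠ 0 := by rw [hr]; exact h
      rw [if_pos h, if_pos h']
      exact ang _ _ hA hA' _ _ ((hs c).2.resolve_left h.2)
    · have h' : ¬ (b.B c = none ∧ (v' c).1 ≠ 0) := by rw [hr]; exact h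
      rw [if_neg h, if_neg h']
      refine int_sum _ _ _ fun j => ?_
      obtain ⟨n, hn⟩ := lo_same b _ _ hA hA' T j v v' hs
      exact ⟨b.χ c j * n, by rw [hn]; push_cast; ring⟩
  · intro j v hv hex c
    have hex' : ∃ c, b.B c = some j ∧ (v c).1 ≠ 0 := by
      obtain ⟨c, hc, hcN⟩ := hex
      exact ⟨c, hc, by omega⟩
    refine ⟨0, ?_⟩
    unfold ro
    by_cases h : b.B c = none ∧ (v c).1 ≠ 0
    · have h' : b.B c = none ∧ (rot b M j v c).1 ≠ 0 := h
      rw [if_pos h, if_pos h']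
      have h1 : ¬ (b.B c = some j) := by rw [h.1]; exact (Option.some_ne_none j).symm
      have h2 : (((rot b M j v c).2 : ℤ) : ℝ) = (v c).2 + 2 * M * b.χ c j := by
        simp only [rot, Blo.mu, if_neg h1, if_pos h.1]
        push_cast
        ring
      rw [h2, add_div, mul_div_right_comm, hq]
      push_cast
      ring
    · have h' : ¬ (b.B c = none ∧ (rot b M j v c).1 ≠ 0) := h
      rw [if_neg h, if_neg h']
      have h3 : ∀ j', (b.χ c j' : ℝ) * lo b (2 * p * M) T j' (rot b M j v) =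
          (b.χ c j' : ℝ) * lo b (2 * p * M) T j' v + if j' = j then (b.χ c j : ℝ) / p else 0 := by
        intro j'
        by_cases hj : j' = j
        · rw [if_pos hj, hj, lo_rot_self b _ T M j v hex', hq]
          ring
        · rw [if_neg hj, lo_rot_ne b _ T M j j' hj v, add_zero]
      rw [Finset.sum_congr rfl fun j' _ => h3 j', Finset.sum_add_distrib, Finset.sum_ite_eq' _ j,
        if_pos (Finset.mem_univ _)]
      push_cast
      ring
  · intro c v hv hc hcN
    refine ⟨0, ?_⟩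
    unfold ro
    rw [if_pos ⟨hc, by omega⟩]
    push_cast
    ring

end Pool.Agent.MPc05127.PO
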