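import Pool.Agent.Lib.MP_c05127_co.PO.SpecT

/-!
# MP_c05127_co, project PO, file Sa: faces in an angular direction
-/

set_option autoImplicit false

open scoped Classical

namespace Pool.Agent.MPc05127.PO

namespace SaAux

theorem dz_not (b : Bool) : dz (!b) = - dz b := by cases b <;> simp [dz]

theorem prod_flip {C : Type} [Fintype C] (c : C) (δ : C → Bool) :
    ∏ c', dz (Function.update δ c (!δ c) c') = - ∏ c', dz (δ c') := by
  rw [← Finset.mul_prod_erase Finset.univ _ (Finset.mem_univ c),
    ← Finset.mul_prod_erase Finset.univ (fun c' => dz (δ c')) (Finset.mem_univ c),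
    Function.update_self, dz_not, neg_mul]
  congr 2
  refine Finset.prod_congr rfl fun c' hc' => ?_
  rw [Function.update_of_ne (Finset.ne_of_mem_erase hc')]

theorem flip_flip {C : Type} (c : C) (δ : C → Bool) :
    Function.update (Function.update δ c (!δ c)) c (!(Function.update δ c (!δ c)) c) = δ := by
  rw [Function.update_self, Bool.not_not, Function.update_idem, Function.update_eq_self]

theorem flip_ne {C : Type} (c : C) (δ : C → Bool) : Function.update δ c (!δ c) ≠ δ := by
  intro h
  have h' := congrFun h c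
  rw [Function.update_self] at h'
  cases hb : δ c <;> rw [hb] at h' <;> simp at h'

theorem ed_false {C : Type} (c : C) (e : C → ℕ) (τ : C → ℤ) (δ : C → Bool) (pos : C × Bool → ℕ) :
    ed (c, true) false e τ (Function.update δ c (!δ c)) pos = ed (c, true) false e τ δ pos := by
  funext l c'
  unfold ed
  by_cases h : c' = c
  · subst h
    simp
  · simp only [Function.update_of_ne h]

/-- the change of the angles -/
noncomputable def ch {C : Type} {P : ℕ} (c : C) (x : (C → ZMod P) × (C → Bool)) :
    (C → ZMod P) × (C → Bool) :=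
  (Function.update x.1 c (if x.2 c then x.1 c + 1 else x.1 c - 1), Function.update x.2 c (!x.2 c))

theorem ch_ch {C : Type} {P : ℕ} (c : C) (x : (C → ZMod P) × (C → Bool)) : ch c (ch c x) = x := by
  unfold ch
  refine Prod.ext ?_ (flip_flip c x.2)
  simp only [Function.update_self, Function.update_idem]
  have h : (if (!x.2 c) = true then (if x.2 c = true then x.1 c + 1 else x.1 c - 1) + 1
      else (if x.2 c = true then x.1 c + 1 else x.1 c - 1) - 1) = x.1 c := by
    cases h : x.2 c <;> simp
  rw [h, Function.update_eq_self]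

theorem dvd_aux (p M : ℕ) (x y : ZMod (p * M)) (k : ℤ) (h : y = x + (k : ZMod (p * M))) [NeZero (p * M)] :
    (2 * p * M : ℤ) ∣ 2 * (y.val : ℤ) - 2 * (x.val : ℤ) - 2 * k := by
  have h1 : ((p * M : ℕ) : ℤ) ∣ (y.val : ℤ) - (x.val : ℤ) - k := by
    rw [← ZMod.intCast_zmod_eq_zero_iff_dvd]
    push_cast
    rw [ZMod.natCast_zmod_val, ZMod.natCast_zmod_val, h]
    ring
  obtain ⟨m, hm⟩ := h1
  refine ⟨m, ?_⟩
  push_cast at hm
  linear_combination 2 * hm

theorem gr {C : Type} (N : ℕ) (c : C) (e : C → ℕ) (he : ∀ c, e c < N) (s : Bool) (τ : C → ℤ) (δ : C → Bool)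
    (pos : C × Bool → ℕ) (l : ℕ) : ed (c, true) s e τ δ pos l ∈ GrO C N := by
  intro c'
  unfold ed
  have := he c'
  simp only [Prod.mk.injEq, Bool.false_eq_true, and_false, if_false]
  split_ifs <;> omega

theorem same {C : Type} (p M : ℕ) [NeZero (p * M)] (c : C) (e : C → ℕ) (pos : C × Bool → ℕ)
    (x : (C → ZMod (p * M)) × (C → Bool)) (l : ℕ) :
    Same (2 * p * M) (ed (c, true) true e (fun c => ((x.1 c).val : ℤ)) x.2 pos l)
      (ed (c, true) true e (fun c' => (((ch c x).1 c').val : ℤ)) (ch c x).2 pos l) := by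
  intro c'
  unfold ed ch
  by_cases h : c' = c
  · subst h
    refine ⟨rfl, Or.inr ?_⟩
    simp only [Function.update_self, if_true]
    cases hb : x.2 c'
    · have := dvd_aux p M (x.1 c') (x.1 c' - 1) (-1) (by push_cast; ring)
      simp only [Bool.false_eq_true, if_false, dz, Bool.not_false, if_true] at this ⊢
      refine (by ring_nf at this ⊢; exact this)
    · have := dvd_aux p M (x.1 c') (x.1 c' + 1) 1 (by push_cast; ring)
      simp only [Bool.false_eq_true, if_false, dz, Bool.not_true, if_true] at this ⊢
      refine (by ring_nf at this ⊢; exact this)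
  · refine ⟨rfl, Or.inr ?_⟩
    simp only [Function.update_of_ne h, sub_self, dvd_zero]

end SaAux

open SaAux

theorem tSa : S_Sa := by
  intro C J _ b p M N _ z c pos e hz he
  have h1 : ∀ t : C → ZMod (p * M), ∑ δ : C → Bool, (∏ c, dz (δ c)) *
      z (ed (c, true) false e (fun c => ((t c).val : ℤ)) δ pos) = 0 := by
    intro t
    refine Finset.sum_involution (fun δ _ => Function.update δ c (!δ c)) ?_ ?_ ?_ ?_
    · intro δ _
      rw [prod_flip, ed_false]
      ring
    · intro δ _ _
      exact flip_ne c δ
    · intro δ _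
      exact Finset.mem_univ _
    · intro δ _
      exact flip_flip c δ
  have h2 : ∑ x : (C → ZMod (p * M)) × (C → Bool), (∏ c, dz (x.2 c)) *
      z (ed (c, true) true e (fun c => ((x.1 c).val : ℤ)) x.2 pos) = 0 := by
    refine Finset.sum_involution (fun x _ => ch c x) ?_ ?_ ?_ ?_
    · intro x _
      have hv := hz.same (ed (c, true) true e (fun c => ((x.1 c).val : ℤ)) x.2 pos)
        (ed (c, true) true e (fun c' => (((ch c x).1 c').val : ℤ)) (ch c x).2 pos)
        (fun l _ => ⟨gr N c e he true _ _ pos l, same p M c e pos x l⟩)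
      rw [hv]
      have hp : ∏ c', dz ((ch c x).2 c') = - ∏ c', dz (x.2 c') := prod_flip c x.2
      rw [hp]
      ring
    · intro x _ _ h
      exact flip_ne c x.2 (congrArg Prod.snd h)
    · intro x _
      exact Finset.mem_univ _
    · intro x _
      exact ch_ch c x
  rw [Fintype.sum_prod_type] at h2
  simp_rw [mul_sub, Finset.sum_sub_distrib]
  rw [h2, Finset.sum_eq_zero (fun t _ => h1 t), sub_zero]

end Pool.Agent.MPc05127.PO
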