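import Pool.Agent.Lib.MP_c05127_co.PO.SpecT

/-!
# MP_c05127_co, project PO, file Sd: faces in a radial direction
-/

set_option autoImplicit false

open scoped Classical

namespace Pool.Agent.MPc05127.PO

namespace SdAux

/-- telescoping in the coordinate `c` -/
theorem tele {C : Type} [Fintype C] (N : ℕ) (hN : 1 ≤ N) (c : C) (p : ℤ) (H : (C → ℕ) → ℤ)
    (h0 : ∀ e : C → ℕ, (∀ c', e c' < N) → e c = 0 → p ∣ H e)
    (h1 : ∀ e : C → ℕ, (∀ c', c' ≠ c → e c' < N) → e c = N → p ∣ H e) :
    p ∣ ∑ e ∈ Fintype.piFinset (fun _ : C => Finset.range N), (H e - H (Function.update e c (e c + 1))) := by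
  have hmem : ∀ e : C → ℕ, e ∈ Fintype.piFinset (fun _ : C => Finset.range N) ↔ ∀ c', e c' < N := by
    intro e
    simp [Fintype.mem_piFinset]
  rw [Finset.sum_sub_distrib,
    ← Finset.sum_filter_add_sum_filter_not (Fintype.piFinset (fun _ : C => Finset.range N))
      (fun e => e c = 0) H,
    ← Finset.sum_filter_add_sum_filter_not (Fintype.piFinset (fun _ : C => Finset.range N))
      (fun e => e c = N - 1) (fun e => H (Function.update e c (e c + 1)))]
  have hb : ∑ e ∈ (Fintype.piFinset (fun _ : C => Finset.range N)).filter (fun e => ¬ e c = N - 1),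
      H (Function.update e c (e c + 1)) =
      ∑ e ∈ (Fintype.piFinset (fun _ : C => Finset.range N)).filter (fun e => ¬ e c = 0), H e := by
    refine Finset.sum_nbij' (fun e => Function.update e c (e c + 1)) (fun e => Function.update e c (e c - 1))
      ?_ ?_ ?_ ?_ ?_
    · intro e he
      rw [Finset.mem_filter, hmem] at he ⊢
      refine ⟨fun c' => ?_, ?_⟩
      · by_cases h : c' = c
        · subst h
          rw [Function.update_self]
          have := he.1 c'
          have := he.2
          omega
        · rw [Function.update_of_ne h]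
          exact he.1 c'
      · rw [Function.update_self]
        omega
    · intro e he
      rw [Finset.mem_filter, hmem] at he ⊢
      refine ⟨fun c' => ?_, ?_⟩
      · by_cases h : c' = c
        · subst h
          rw [Function.update_self]
          have := he.1 c'
          omega
        · rw [Function.update_of_ne h]
          exact he.1 c'
      · rw [Function.update_self]
        have := he.1 c
        have := he.2
        omega
    · intro e he
      simp only [Function.update_self, Function.update_idem, Nat.add_sub_cancel, Function.update_eq_self]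
    · intro e he
      rw [Finset.mem_filter, hmem] at he
      have h : e c - 1 + 1 = e c := by
        have := he.2
        omega
      simp only [Function.update_self, Function.update_idem, h, Function.update_eq_self]
    · intro e he
      rfl
  rw [hb]
  have e1 : p ∣ ∑ e ∈ (Fintype.piFinset (fun _ : C => Finset.range N)).filter (fun e => e c = 0), H e := by
    refine Finset.dvd_sum fun e he => ?_
    rw [Finset.mem_filter, hmem] at he
    exact h0 e he.1 he.2
  have e2 : p ∣ ∑ e ∈ (Fintype.piFinset (fun _ : C => Finset.range N)).filter (fun e => e c = N - 1),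
      H (Function.update e c (e c + 1)) := by
    refine Finset.dvd_sum fun e he => ?_
    rw [Finset.mem_filter, hmem] at he
    refine h1 _ (fun c' hc' => ?_) ?_
    · rw [Function.update_of_ne hc']
      exact he.1 c'
    · rw [Function.update_self, he.2]
      omega
  have : ∀ a b d : ℤ, a + b - (d + b) = a - d := fun a b d => by ring
  rw [this]
  exact dvd_sub e1 e2

theorem ed_true {C : Type} (c : C) (e : C → ℕ) (τ : C → ℤ) (δ : C → Bool) (pos : C × Bool → ℕ) :
    ed (c, false) true e τ δ pos = ed (c, false) false (Function.update e c (e c + 1)) τ δ pos := by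
  funext l c'
  unfold ed
  by_cases h : c' = c
  · subst h
    simp
  · have h1 : ¬ ((c', false) = (c, false)) := fun hh => h (congrArg Prod.fst hh)
    have h2 : ¬ ((c', true) = (c, false)) := fun hh => h (congrArg Prod.fst hh)
    simp only [Function.update_of_ne h, if_neg h1, if_neg h2]

theorem ed_fst {C : Type} (c : C) (e : C → ℕ) (τ : C → ℤ) (δ : C → Bool) (pos : C × Bool → ℕ) (l : ℕ) :
    (ed (c, false) false e τ δ pos l c).1 = e c := by
  simp [ed]

theorem gr {C : Type} (N : ℕ) (c : C) (e : C → ℕ) (he : ∀ c', c' ≠ c → e c' < N) (hc : e c ≤ N)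
    (τ : C → ℤ) (δ : C → Bool) (pos : C × Bool → ℕ) (l : ℕ) : ed (c, false) false e τ δ pos l ∈ GrO C N := by
  intro c'
  by_cases h : c' = c
  · subst h
    rw [ed_fst]
    exact hc
  · have h1 : ¬ ((c', false) = (c, false)) := fun hh => h (congrArg Prod.fst hh)
    have := he c' h
    simp only [ed, if_neg h1]
    split_ifs <;> omega

theorem dvd_aux (p M : ℕ) [NeZero (p * M)] (x y : ZMod (p * M)) (k : ℤ) (h : y = x + (k : ZMod (p * M))) :
    (2 * p * M : ℤ) ∣ 2 * (y.val : ℤ) - (2 * (x.val : ℤ) + 2 * k) := by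
  have h1 : ((p * M : ℕ) : ℤ) ∣ (y.val : ℤ) - (x.val : ℤ) - k := by
    rw [← ZMod.intCast_zmod_eq_zero_iff_dvd]
    push_cast
    rw [ZMod.natCast_zmod_val, ZMod.natCast_zmod_val, h]
    ring
  obtain ⟨m, hm⟩ := h1
  refine ⟨m, ?_⟩
  push_cast at hm
  linear_combination 2 * hm

/-- the radius is `0` -/
theorem zero {C J : Type} [Fintype C] (b : Blo C J) (p M N : ℕ) (z : (ℕ → Pt C) → ℤ) (c : C)
    (pos : C × Bool → ℕ) (hz : Bc b p M N z) (hpos : Function.Injective pos)
    (hc : pos (c, true) + 1 < 2 * Fintype.card C) (e : C → ℕ) (he : ∀ c', e c' < N) (h0 : e c = 0)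
    (τ : C → ℤ) (δ : C → Bool) : z (ed (c, false) false e τ δ pos) = 0 := by
  refine hz.deg _ (fun l _ => gr N c e (fun c' _ => he c') (he c).le τ δ pos l) ⟨pos (c, true), hc, ?_⟩
  intro c'
  by_cases h : c' = c
  · subst h
    refine ⟨?_, Or.inl ?_⟩
    · rw [ed_fst, ed_fst]
    · rw [ed_fst, h0]
  · have h1 : ¬ ((c', false) = (c, false)) := fun hh => h (congrArg Prod.fst hh)
    have h2 : ¬ ((c', true) = (c, false)) := fun hh => h (congrArg Prod.fst hh)
    have h3 : pos (c', false) ≠ pos (c, true) := fun hh => h (congrArg Prod.fst (hpos hh))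
    have h4 : pos (c', true) ≠ pos (c, true) := fun hh => h (congrArg Prod.fst (hpos hh))
    have h5 : pos (c', false) < pos (c, true) + 1 ↔ pos (c', false) < pos (c, true) := by omega
    have h6 : pos (c', true) < pos (c, true) + 1 ↔ pos (c', true) < pos (c, true) := by omega
    refine ⟨?_, Or.inr ?_⟩
    · simp only [ed, if_neg h1, h5]
    · simp only [ed, if_neg h2, h6, sub_self, dvd_zero]

/-- the Miranda coordinates -/
theorem mir {C J : Type} [Fintype C] (b : Blo C J) (p M N : ℕ) (z : (ℕ → Pt C) → ℤ) (c : C)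
    (pos : C × Bool → ℕ) (hz : Bc b p M N z) (e : C → ℕ) (he : ∀ c', c' ≠ c → e c' < N) (h0 : e c = N)
    (hb : b.B c = none) (τ : C → ℤ) (δ : C → Bool) : z (ed (c, false) false e τ δ pos) = 0 := by
  refine hz.mir c _ (fun l _ => gr N c e he h0.le τ δ pos l) hb (fun l _ => ?_) ?_
  · rw [ed_fst, h0]
  · intro l _ l' _
    have h2 : ¬ ((c, true) = (c, false)) := fun hh => by simp at hh
    simp only [ed, if_neg h2]
    have hd : |dz (δ c)| ≤ 1 := by
      unfold dz
      split_ifs <;> simp
    rw [abs_le] at hd ⊢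
    split_ifs <;> constructor <;> linarith [hd.1, hd.2]

/-- the rotation -/
theorem rota {C J : Type} [Fintype C] (b : Blo C J) (p M N : ℕ) [NeZero (p * M)] (z : (ℕ → Pt C) → ℤ)
    (c : C) (pos : C × Bool → ℕ) (hz : Bc b p M N z) (e : C → ℕ) (he : ∀ c', c' ≠ c → e c' < N)
    (h0 : e c = N) (j : J) (hb : b.B c = some j) (t : C → ZMod (p * M)) (δ : C → Bool) :
    z (ed (c, false) false e
      (fun c' => (((t + fun c' => (((M : ℤ) * b.mu j c' : ℤ) : ZMod (p * M))) c').val : ℤ)) δ pos) =
    z (ed (c, false) false e (fun c' => ((t c').val : ℤ)) δ pos) := by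
  have hg : ∀ l, ed (c, false) false e (fun c' => ((t c').val : ℤ)) δ pos l ∈ GrO C N :=
    fun l => gr N c e he h0.le _ δ pos l
  rw [← hz.blk j (ed (c, false) false e (fun c' => ((t c').val : ℤ)) δ pos) (fun l _ => hg l)
    ⟨c, hb, fun l _ => by rw [ed_fst, h0]⟩]
  refine hz.same _ _ fun l _ => ⟨fun c' => ?_, fun c' => ⟨?_, Or.inr ?_⟩⟩
  · exact hg l c'
  · rfl
  · have := dvd_aux p M (t c') (t c' + (((M : ℤ) * b.mu j c' : ℤ) : ZMod (p * M))) (M * b.mu j c') rfl
    simp only [rot, ed, Pi.add_apply]
    refine (by ring_nf at this ⊢; exact this)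

end SdAux

open SdAux

theorem tSd (hFr : S_Fr) : S_Sd := by
  intro C J _ b p M N _ z c pos hz hN hpos hc
  have key := tele N hN c (p : ℤ) (fun e => ∑ t : C → ZMod (p * M), ∑ δ : C → Bool, (∏ c, dz (δ c)) *
    z (ed (c, false) false e (fun c => ((t c).val : ℤ)) δ pos)) ?_ ?_
  · refine key.trans (dvd_of_eq ?_)
    refine Finset.sum_congr rfl fun e _ => ?_
    rw [← Finset.sum_sub_distrib]
    refine Finset.sum_congr rfl fun t _ => ?_
    rw [← Finset.sum_sub_distrib]
    refine Finset.sum_congr rfl fun δ _ => ?_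
    rw [ed_true, mul_sub]
  · intro e he h0
    rw [Finset.sum_eq_zero]
    · exact dvd_zero _
    · intro t _
      refine Finset.sum_eq_zero fun δ _ => ?_
      rw [zero b p M N z c pos hz hpos hc e he h0, mul_zero]
  · intro e he h0
    cases hb : b.B c with
    | none =>
      rw [Finset.sum_eq_zero]
      · exact dvd_zero _
      · intro t _
        refine Finset.sum_eq_zero fun δ _ => ?_
        rw [mir b p M N z c pos hz e he h0 hb, mul_zero]
    | some j =>
      rw [Finset.sum_comm]
      refine Finset.dvd_sum fun δ _ => ?_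
      rw [← Finset.mul_sum]
      refine Dvd.dvd.mul_left ?_ _
      refine hFr C p M c (fun c' => (((M : ℤ) * b.mu j c' : ℤ) : ZMod (p * M)))
        (fun t => z (ed (c, false) false e (fun c => ((t c).val : ℤ)) δ pos)) ?_ ?_
      · simp [Blo.mu, hb]
      · intro t
        exact rota b p M N z c pos hz e he h0 j hb t δ

end Pool.Agent.MPc05127.PO
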