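import Pool.Agent.Lib.MP_c05127_co.PO.SpecG

/-!
# MP_c05127_co, project PO: the labelled intervals
-/

set_option autoImplicit false

open scoped Classical

namespace Pool.Agent.MPc05127.PO

theorem tSg (hAx : S_Ax) : S_Sg := by
  intro p n hp
  obtain ⟨⟨hcA, hcB⟩, hrot, hval, hne⟩ := hAx p hp
  refine ⟨fun b => ?_, fun X => ⟨fun _ b => ?_, fun hX b => ?_, fun hX => ?_⟩⟩
  · unfold seg
    split_ifs
    · exact hcA.comp (continuous_apply _)
    · exact hcB.comp (continuous_apply _)
    · exact continuous_apply _
    · exact continuous_const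
  · unfold seg
    split_ifs
    · exact (hrot _).1
    · exact (hrot _).2
    · rfl
    · rw [mul_zero]
  · unfold seg
    split_ifs
    · exact (hval _).1
    · exact (hval _).2
    · obtain ⟨r, hr, h⟩ := hX
      exact ⟨r, hr, 0, by rw [h, pow_zero, mul_one]⟩
    · exact ⟨0, le_refl _, 0, by simp⟩
  · obtain ⟨i, hi, hXi⟩ := hX
    rcases Nat.lt_or_ge i n with hin | hin
    · rcases hne (X i) hXi with h | h
      · refine ⟨2 * i, by omega, ?_⟩
        unfold seg
        rw [if_pos (by omega), if_pos (by omega), show 2 * i / 2 = i by omega]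
        exact h
      · refine ⟨2 * i + 1, by omega, ?_⟩
        unfold seg
        rw [if_pos (by omega), if_neg (by omega), show (2 * i + 1) / 2 = i by omega]
        exact h
    · have hin' : i = n := le_antisymm hi hin
      refine ⟨2 * n, le_refl _, ?_⟩
      unfold seg
      rw [if_neg (by omega), if_pos rfl, ← hin']
      exact hXi

end Pool.Agent.MPc05127.PO
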