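import Pool.Agent.Lib.MP_c05127_co.PO.SpecT

/-!
# MP_c05127_co, project PO: inner faces cancel
-/

set_option autoImplicit false

open scoped Classical

namespace Pool.Agent.MPc05127.PO

open Pool.Agent.MPc05127.PP (skip Num Num.n)

namespace SiAux

theorem st_surj {C : Type} [Fintype C] (T : Num C) {k : ℕ} (hk : k < 2 * Fintype.card C) :
    ∃ x, st T x = k := by
  have hk2 : k / 2 < Fintype.card C := by omega
  have h1 : Num.n T (T.symm ⟨k / 2, hk2⟩) = k / 2 := by
    unfold Num.n
    rw [Equiv.apply_symm_apply]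
  by_cases h : k % 2 = 1
  · refine ⟨(T.symm ⟨k / 2, hk2⟩, true), ?_⟩
    unfold st
    rw [h1, if_pos rfl]
    omega
  · refine ⟨(T.symm ⟨k / 2, hk2⟩, false), ?_⟩
    unfold st
    rw [h1, if_neg (by simp)]
    omega

theorem lt_iff {C : Type} [Fintype C] (T : Num C) {a a' : C × Bool} {i l : ℕ}
    (ha : st T a = i - 1) (ha' : st T a' = i) (hi : 0 < i) (hl : l ≠ i) (x : C × Bool) :
    st T (Equiv.swap a a' x) < l ↔ st T x < l := by
  by_cases h1 : x = a
  · rw [h1, Equiv.swap_apply_left, ha, ha']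
    omega
  · by_cases h2 : x = a'
    · rw [h2, Equiv.swap_apply_right, ha, ha']
      omega
    · rw [Equiv.swap_apply_of_ne_of_ne h1 h2]

theorem vt_eq {C : Type} [Fintype C] (T : Num C) (e : C → ℕ) (t : C → ℤ) (δ : C → Bool)
    {a a' : C × Bool} {i l : ℕ} (ha : st T a = i - 1) (ha' : st T a' = i) (hi : 0 < i)
    (hl : l ≠ i) (π : Equiv.Perm (C × Bool)) :
    vt e t δ (fun x => st T ((Equiv.swap a a' * π) x)) l = vt e t δ (fun x => st T (π x)) l := by
  funext c
  unfold vt
  simp only [Equiv.Perm.mul_apply, lt_iff T ha ha' hi hl]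

theorem skip_eq {C : Type} [Fintype C] (T : Num C) (e : C → ℕ) (t : C → ℤ) (δ : C → Bool)
    {a a' : C × Bool} {i : ℕ} (ha : st T a = i - 1) (ha' : st T a' = i) (hi : 0 < i)
    (π : Equiv.Perm (C × Bool)) :
    skip i (vt e t δ (fun x => st T ((Equiv.swap a a' * π) x))) =
      skip i (vt e t δ (fun x => st T (π x))) := by
  funext l
  unfold skip
  by_cases h : l < i
  · rw [if_pos h, if_pos h, vt_eq T e t δ ha ha' hi (by omega)]
  · rw [if_neg h, if_neg h, vt_eq T e t δ ha ha' hi (by omega)]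

end SiAux

open SiAux in
theorem tSi : S_Si := by
  intro C _ T b e t δ i hi hiD
  obtain ⟨a, ha⟩ := st_surj T (k := i - 1) (by omega)
  obtain ⟨a', ha'⟩ := st_surj T hiD
  have hne : a ≠ a' := by
    intro h
    rw [h, ha'] at ha
    omega
  refine Finset.sum_involution (fun (π : Equiv.Perm (C × Bool)) _ => Equiv.swap a a' * π)
    ?_ ?_ ?_ ?_
  · intro π _
    rw [skip_eq T e t δ ha ha' hi π, Equiv.Perm.sign_mul, Equiv.Perm.sign_swap hne]
    push_cast
    ring
  · intro π _ _ heq
    have h1 := congrArg (fun σ : Equiv.Perm (C × Bool) => σ (π.symm a)) heq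
    simp only [Equiv.Perm.mul_apply, Equiv.apply_symm_apply, Equiv.swap_apply_left] at h1
    exact hne h1.symm
  · intro π _
    exact Finset.mem_univ _
  · intro π _
    rw [← mul_assoc, Equiv.swap_mul_self, one_mul]

end Pool.Agent.MPc05127.PO
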