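import Pool.Agent.Lib.MP_c05127_co.PO.SpecT

/-!
# MP_c05127_co, project PO: Stokes modulo `p` (helper26)
-/

set_option autoImplicit false

open scoped Classical

namespace Pool.Agent.MPc05127.PO

open Pool.Agent.MPc05127.PP (skip Num Num.n)

namespace SoAux

variable {C : Type} [Fintype C]

lemma st_inj (T : Num C) : Function.Injective (st T) := by
  rintro ⟨c, i⟩ ⟨c', i'⟩ h
  simp only [st] at h
  have h1 : T.n c = T.n c' := by split_ifs at h <;> omega
  have h2 : i = i' := by
    cases i <;> cases i' <;> simp at h ⊢ <;> omega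
  have h3 : c = c' := T.injective (Fin.ext h1)
  rw [h2, h3]

lemma st_lt (T : Num C) (x : C × Bool) : st T x < 2 * Fintype.card C := by
  have h : T.n x.1 < Fintype.card C := (T x.1).2
  unfold st
  split_ifs <;> omega

lemma sum_ends (f : ℕ → ℤ) (D : ℕ) (hD : 0 < D) (h : ∀ i, 0 < i → i < D → f i = 0) :
    ∑ i ∈ Finset.range (D + 1), f i = f 0 + f D := by
  rw [Finset.sum_range_succ, Finset.sum_eq_single_of_mem 0 (Finset.mem_range.2 hD)
    (fun i hi hne => h i (Nat.pos_of_ne_zero hne) (Finset.mem_range.1 hi))]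

lemma ends (hSi : S_Si) (T : Num C) (z : (ℕ → Pt C) → ℤ) (hC : 0 < Fintype.card C)
    (e : C → ℕ) (t : C → ℤ) (δ : C → Bool) :
    ∑ π : Equiv.Perm (C × Bool), (Equiv.Perm.sign π : ℤ) *
        dl (2 * Fintype.card C - 1) z (vt e t δ (fun x => st T (π x))) =
      ∑ π : Equiv.Perm (C × Bool), (Equiv.Perm.sign π : ℤ) *
        (z (skip 0 (vt e t δ (fun x => st T (π x)))) +
          z (skip (2 * Fintype.card C) (vt e t δ (fun x => st T (π x))))) := by
  have h1 : ∀ π : Equiv.Perm (C × Bool), (Equiv.Perm.sign π : ℤ) *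
      dl (2 * Fintype.card C - 1) z (vt e t δ (fun x => st T (π x))) =
      ∑ i ∈ Finset.range (2 * Fintype.card C + 1), (-1) ^ i * ((Equiv.Perm.sign π : ℤ) *
        z (skip i (vt e t δ (fun x => st T (π x))))) := by
    intro π
    unfold dl
    rw [show 2 * Fintype.card C - 1 + 2 = 2 * Fintype.card C + 1 by omega, Finset.mul_sum]
    exact Finset.sum_congr rfl fun i _ => by ring
  rw [Finset.sum_congr rfl fun π _ => h1 π, Finset.sum_comm]
  rw [sum_ends _ _ (by omega : 0 < 2 * Fintype.card C)]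
  · rw [← Finset.sum_add_distrib]
    refine Finset.sum_congr rfl fun π _ => ?_
    rw [pow_zero, one_mul, pow_mul, neg_one_sq, one_pow, one_mul, mul_add]
  · intro i hi hi'
    rw [← Finset.mul_sum, hSi C T z e t δ i hi hi', mul_zero]

lemma exch {A B E F : Type} [Fintype B] [Fintype E] [Fintype F] (s : Finset A) (w : F → ℤ)
    (H : F → A → B → E → ℤ) : ∑ e ∈ s, ∑ t, ∑ δ, ∑ π, w π * H π e t δ =
      ∑ π, w π * ∑ e ∈ s, ∑ t, ∑ δ, H π e t δ := by
  have h1 : ∀ e t, ∑ δ, ∑ π, w π * H π e t δ = ∑ π, ∑ δ, w π * H π e t δ := fun e t =>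
    Finset.sum_comm
  have h2 : ∀ e, ∑ t, ∑ δ, ∑ π, w π * H π e t δ = ∑ π, ∑ t, ∑ δ, w π * H π e t δ := fun e => by
    rw [Finset.sum_congr rfl fun t _ => h1 e t, Finset.sum_comm]
  rw [Finset.sum_congr rfl fun e _ => h2 e, Finset.sum_comm]
  simp only [Finset.mul_sum]

end SoAux

open SoAux in
theorem tSo (hSi : S_Si) (hSr : S_Sr) (hSa : S_Sa) (hSd : S_Sd) : S_So := by
  intro C J _ b p M N _ T z hC hN hz
  obtain ⟨L, hL, -⟩ := hSr C T z (fun _ => 0) (fun _ => 0) (fun _ => true) hC hz.loc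
  have key : ∀ (e : C → ℕ) (t : C → ℤ) (δ : C → Bool),
      ∑ π : Equiv.Perm (C × Bool), (Equiv.Perm.sign π : ℤ) * (∏ c, dz (δ c)) *
        dl (2 * Fintype.card C - 1) z (vt e t δ (fun x => st T (π x))) =
      ∑ π : Equiv.Perm (C × Bool), (Equiv.Perm.sign π : ℤ) * ((∏ c, dz (δ c)) *
        (z (ed (π.symm L) false e t δ (fun x => st T (π x))) -
          z (ed (π.symm L) true e t δ (fun x => st T (π x))))) := by
    intro e t δ
    obtain ⟨L', hL', h⟩ := hSr C T z e t δ hC hz.loc
    have hLL : L' = L := st_inj T (hL'.trans hL.symm)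
    rw [hLL, ← ends hSi T z hC] at h
    have h2 : ∀ π : Equiv.Perm (C × Bool), (Equiv.Perm.sign π : ℤ) * (∏ c, dz (δ c)) *
        dl (2 * Fintype.card C - 1) z (vt e t δ (fun x => st T (π x))) =
        (∏ c, dz (δ c)) * ((Equiv.Perm.sign π : ℤ) *
          dl (2 * Fintype.card C - 1) z (vt e t δ (fun x => st T (π x)))) := fun π => by ring
    rw [Finset.sum_congr rfl fun π _ => h2 π, ← Finset.mul_sum, h, Finset.mul_sum]
    exact Finset.sum_congr rfl fun π _ => by ring
  unfold all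
  simp only [key]
  rw [exch]
  refine Finset.dvd_sum fun π _ => Dvd.dvd.mul_left ?_ _
  obtain ⟨x, hx⟩ : ∃ x : C × Bool, x = π.symm L := ⟨_, rfl⟩
  have hπ : π x = L := by rw [hx, Equiv.apply_symm_apply]
  rw [← hx]
  obtain ⟨c, s⟩ := x
  cases s with
  | true =>
    refine Finset.dvd_sum fun e he => ?_
    have h4 := hSa C J b p M N z c (fun x => st T (π x)) e hz
      (fun c => Finset.mem_range.1 (Fintype.mem_piFinset.1 he c))
    rw [h4]
    exact dvd_zero _
  | false =>
    refine hSd C J b p M N z c (fun x => st T (π x)) hz hN ((st_inj T).comp π.injective) ?_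
    have h5 := st_lt T (π (c, true))
    have h6 : st T (π (c, true)) ≠ st T (π (c, false)) := fun h => by
      have h7 := π.injective (st_inj T h)
      simp at h7
    rw [hπ, hL] at h6
    show st T (π (c, true)) + 1 < 2 * Fintype.card C
    omega

end Pool.Agent.MPc05127.PO
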