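import Pool.Agent.Lib.MP_c05127_co.PO.SpecT

/-!
# MP_c05127_co, project PO: the first and the last face
-/

set_option autoImplicit false

open scoped Classical

namespace Pool.Agent.MPc05127.PO

open Pool.Agent.MPc05127.PP (skip Num Num.n)

namespace SrAux

theorem rot_ex (D : ℕ) (hD : 0 < D) : ∃ ρ : Equiv.Perm (Fin D),
    Equiv.Perm.sign ρ = (-1) ^ (D - 1) ∧
    ∀ i : Fin D, ((ρ i : Fin D) : ℕ) = if (i : ℕ) = D - 1 then 0 else (i : ℕ) + 1 := by
  obtain ⟨n, rfl⟩ := Nat.exists_eq_succ_of_ne_zero hD.ne'
  refine ⟨finRotate (n + 1), ?_, fun i => ?_⟩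
  · have h := sign_finRotate (n + 1)
    rw [← h]
  · by_cases h : (i : ℕ) = n
    · have h1 : i = Fin.last n := Fin.ext h
      subst h1
      rw [finRotate_last]
      simp
    · have h2 : ¬ ((i : ℕ) = n.succ - 1) := by simpa using h
      rw [if_neg h2]
      exact coe_finRotate_of_ne_last (fun h' => h (by rw [h']; rfl))

variable {C : Type} [Fintype C] (T : Num C)

theorem st_lt (x : C × Bool) : st T x < 2 * Fintype.card C := by
  have h : T.n x.1 < Fintype.card C := (T x.1).2
  unfold st
  split_ifs <;> omega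

theorem st_inj : Function.Injective (st T) := by
  rintro ⟨c, s⟩ ⟨c', s'⟩ h
  unfold st at h
  have h1 : T.n c = T.n c' := by
    simp only at h
    split_ifs at h <;> omega
  have h2 : c = c' := T.injective (Fin.ext h1)
  subst h2
  simp only at h
  rcases s <;> rcases s' <;> simp at h ⊢

/-- the numbering of the directions -/
noncomputable def E : C × Bool ≃ Fin (2 * Fintype.card C) :=
  Equiv.ofBijective (fun x => (⟨st T x, st_lt T x⟩ : Fin (2 * Fintype.card C)))
    ((Fintype.bijective_iff_injective_and_card _).2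
      ⟨fun x y h => st_inj T (congrArg Fin.val h), by
        rw [Fintype.card_prod, Fintype.card_fin, Fintype.card_bool]; ring⟩)

theorem E_val (x : C × Bool) : ((E T x : Fin _) : ℕ) = st T x := rfl

theorem zeta_ex (hC : 0 < Fintype.card C) : ∃ ζ : Equiv.Perm (C × Bool),
    Equiv.Perm.sign ζ = -1 ∧
    ∀ x, st T (ζ x) = if st T x = 2 * Fintype.card C - 1 then 0 else st T x + 1 := by
  obtain ⟨ρ, hρ, hρ'⟩ := rot_ex (2 * Fintype.card C) (by omega)
  refine ⟨(E T).symm.permCongr ρ, ?_, fun x => ?_⟩
  · rw [Equiv.Perm.sign_permCongr, hρ]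
    have h : Odd (2 * Fintype.card C - 1) := by
      rw [Nat.odd_iff]
      omega
    exact h.neg_one_pow
  · have h := hρ' (E T x)
    rw [E_val] at h
    rw [← h, ← E_val]
    simp [Equiv.permCongr_apply]

end SrAux

open SrAux in
theorem tSr : S_Sr := by
  intro C _ T b e t δ hC hb
  obtain ⟨ζ, hζ, hζ'⟩ := zeta_ex T hC
  obtain ⟨L, hL⟩ : ∃ L : C × Bool, st T L = 2 * Fintype.card C - 1 := by
    refine ⟨(E T).symm ⟨2 * Fintype.card C - 1, by omega⟩, ?_⟩
    rw [← E_val, Equiv.apply_symm_apply]
  refine ⟨L, hL, ?_⟩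
  have h1 : ∀ π : Equiv.Perm (C × Bool),
      b (skip (2 * Fintype.card C) (vt e t δ (fun x => st T (π x)))) =
        b (ed (π.symm L) false e t δ (fun x => st T (π x))) := by
    intro π
    refine hb _ _ fun l hl => ?_
    unfold skip
    rw [if_pos (by omega)]
    funext c
    unfold vt ed
    have hx : ∀ x : C × Bool, x = π.symm L → ¬ (st T (π x) < l) := by
      intro x hx
      rw [hx, Equiv.apply_symm_apply, hL]
      omega
    refine Prod.ext ?_ ?_
    · by_cases h : (c, false) = π.symm L
      · have h' := hx _ h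
        simp only [h', if_false, if_pos h, Bool.false_eq_true]
      · simp only [if_neg h]
    · by_cases h : (c, true) = π.symm L
      · have h' := hx _ h
        simp only [h', if_false, if_pos h, Bool.false_eq_true]
      · simp only [if_neg h]
  have h2 : ∀ π : Equiv.Perm (C × Bool),
      b (skip 0 (vt e t δ (fun x => st T ((ζ * π) x)))) =
        b (ed (π.symm L) true e t δ (fun x => st T (π x))) := by
    intro π
    refine hb _ _ fun l hl => ?_
    unfold skip
    rw [if_neg (by omega)]
    funext c
    unfold vt ed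
    have hx : ∀ x : C × Bool, x = π.symm L → st T ((ζ * π) x) < l + 1 := by
      intro x hx
      rw [Equiv.Perm.mul_apply, hx, Equiv.apply_symm_apply, hζ', if_pos hL]
      omega
    have hy : ∀ x : C × Bool, ¬ (x = π.symm L) →
        (st T ((ζ * π) x) < l + 1 ↔ st T (π x) < l) := by
      intro x hx
      rw [Equiv.Perm.mul_apply, hζ']
      have h3 : ¬ (st T (π x) = 2 * Fintype.card C - 1) := by
        intro h4
        apply hx
        rw [← hL] at h4
        rw [← st_inj T h4, Equiv.symm_apply_apply]
      rw [if_neg h3]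
      omega
    refine Prod.ext ?_ ?_
    · by_cases h : (c, false) = π.symm L
      · have h' := hx _ h
        simp only [h', if_true, if_pos h]
      · have h' := hy _ h
        simp only [h', if_neg h]
    · by_cases h : (c, true) = π.symm L
      · have h' := hx _ h
        simp only [h', if_true, if_pos h]
      · have h' := hy _ h
        simp only [h', if_neg h]
  have h3 : ∑ π : Equiv.Perm (C × Bool), (Equiv.Perm.sign π : ℤ) *
      b (skip 0 (vt e t δ (fun x => st T (π x)))) =
      ∑ π : Equiv.Perm (C × Bool), (Equiv.Perm.sign (ζ * π) : ℤ) *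
      b (skip 0 (vt e t δ (fun x => st T ((ζ * π) x)))) :=
    (Equiv.sum_comp (Equiv.mulLeft ζ) (fun π : Equiv.Perm (C × Bool) => (Equiv.Perm.sign π : ℤ) *
      b (skip 0 (vt e t δ (fun x => st T (π x)))))).symm
  have h4 : ∀ π : Equiv.Perm (C × Bool), (Equiv.Perm.sign (ζ * π) : ℤ) *
      b (skip 0 (vt e t δ (fun x => st T ((ζ * π) x)))) =
      -((Equiv.Perm.sign π : ℤ) * b (ed (π.symm L) true e t δ (fun x => st T (π x)))) := by
    intro π
    rw [h2 π, Equiv.Perm.sign_mul, hζ, Units.val_mul, Units.val_neg, Units.val_one]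
    ring
  simp only [mul_add, Finset.sum_add_distrib, mul_sub, Finset.sum_sub_distrib]
  rw [h3, Finset.sum_congr rfl fun π _ => h4 π, Finset.sum_neg_distrib]
  simp only [h1]
  ring

end Pool.Agent.MPc05127.PO
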