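import Pool.Agent.Lib.MP_c05127_co.PO.DefsT

/-!
# MP_c05127_co, project PO: statements of the modules, part T (the disc theorem)

A Borsuk-Ulam theorem for products of spheres and the group `(ℤ/p)^J`, with Miranda directions, in a
triangular situation (the analogue for `p > 2` of project PP, `PP/SpecT.lean`).  Every `S_X` is proved in its
own file `PO/X.lean` (`namespace Pool.Agent.MPc05127.PO`) as `theorem tX (hA : S_A) … : S_X`, `S_A`, … the
statements named after `uses`; the docstring contains the proof.  Auxiliary declarations are private or in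
`Pool.Agent.MPc05127.PO.XAux`.
-/

set_option autoImplicit false

open scoped Classical

namespace Pool.Agent.MPc05127.PO

open Pool.Agent.MPc05127.PP (skip Num Num.n)

/-! ## Cochains -/

/-- (80 lines) **The Leibniz rule.**

Proof.  In `dl (q + q')` of the product: for `i ≤ q` we have `(skip i v) (l + q) = v (l + q + 1)` for all `l`, so the second factor is `z' (fun l => v (l + q + 1))`; the sum over `i ≤ q` of the first factors is `dl q z v - (-1)^(q+1) z v`, as `skip (q+1) v` agrees with `v` up to `q` (`Loc q z`).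
For `i ≥ q + 1` the first factor is `z v` (`Loc q z`) and `(fun l => skip i v (l + q)) = skip (i - q) (fun l => v (l + q))`; the sum over these `i` is `z v * (-1)^q * (dl q' z' (fun l => v (l + q)) - z' (fun l => v (l + q + 1)))`, as `skip 0 (fun l => v (l + q)) = fun l => v (l + q + 1)`.
The two extra terms cancel. -/
def S_Lb : Prop := ∀ (V : Type) (q q' : ℕ) (z z' : (ℕ → V) → ℤ), Loc q z → Loc q' z' → ∀ v : ℕ → V,
  dl (q + q') (fun v => z v * z' (fun l => v (l + q))) v =
    dl q z v * z' (fun l => v (l + q + 1)) + (-1) ^ q * (z v * dl q' z' (fun l => v (l + q)))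

/-- (80 lines) **The winding number of a triangle.**

Proof.  (1), (2) cancel all roundings (`simp only [ww, us]; ring`).  (3) the differences `f' b' - f' a'` are `f b - f a` plus an integer (`round_add_intCast`), the integers cancel.  (4) `f b - f a = n`: `round n = n`, `round (f c - f a) = round (f c - f b) + n`.  The second case is similar.
(5) `round x = 0` for `|x| < 1/2` (`round_eq_zero_iff`). -/
def S_Wc : Prop := ∀ (V : Type) (f : V → ℝ),
  (∀ a b c d : V, ww f b c d - ww f a c d + ww f a b d - ww f a b c = 0) ∧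
  (∀ (g : V → ℝ) (a b c : V), ww g a b c - ww f a b c = us f g a c - us f g a b - us f g b c) ∧
  (∀ (f' : V → ℝ) (κ : ℝ) (n₁ n₂ n₃ : ℤ) (a b c a' b' c' : V), f' a' = f a + κ + n₁ →
    f' b' = f b + κ + n₂ → f' c' = f c + κ + n₃ → ww f' a' b' c' = ww f a b c) ∧
  (∀ (a b c : V) (n : ℤ), (f b = f a + n ∨ f c = f b + n) → ww f a b c = 0) ∧
  ∀ a b c : V, |f b - f a| < 1 / 2 → |f c - f b| < 1 / 2 → |f c - f a| < 1 / 2 → ww f a b c = 0

/-- (120 lines; uses `S_Lb`, `S_Wc`) **The coboundary of the product.**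

Proof.  `S_Lb` repeatedly: a product of the closed 2-cochains `ww (f l)` is closed (`dl (2 m) (pw m f) = 0` for `m ≥ 1` by induction on `m`, as `pw (m + 1) f v = pw m f v * ww (f m) (v (2m)) (v (2m+1)) (v (2m+2))`; the closedness of a single `ww` is `S_Wc` (1)), similarly the last
product, `Q v = ∏ l ∈ Ico (m+1) n, ww (f l) (v (2 (l - m - 1))) …`.  `pb n m f u v = pw m f v * (u (v (2m)) (v (2m+1)) * Q (fun l => v (l + 2m + 1)))`; signs: `(-1)^(2m) = 1`, and the term with `dl Q` vanishes.  (For `m = 0` or `m = n - 1` one of the factors is the empty product `1`; it may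
be easier to prove the formula by induction on `n` and on `m`, or to treat the 0-cochain `1`, `dl 0 1 = 0`, as closed.) -/
def S_Pl : Prop := ∀ (V : Type) (n m : ℕ) (f : ℕ → V → ℝ) (u : V → V → ℤ) (v : ℕ → V), m < n →
  dl (2 * n - 1) (pb n m f u) v =
    (∏ l ∈ Finset.range m, ww (f l) (v (2 * l)) (v (2 * l + 1)) (v (2 * l + 2))) *
      (u (v (2 * m + 1)) (v (2 * m + 2)) - u (v (2 * m)) (v (2 * m + 2)) + u (v (2 * m)) (v (2 * m + 1))) *
      ∏ l ∈ Finset.Ico (m + 1) n, ww (f l) (v (2 * l)) (v (2 * l + 1)) (v (2 * l + 2))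

/-! ## The theorem of Stokes -/

/-- The direction `x₀` has its starting value (`s = false`) or its final value (`s = true`) all the time. -/
noncomputable def ed {C : Type} (x₀ : C × Bool) (s : Bool) (e : C → ℕ) (t : C → ℤ) (δ : C → Bool)
    (pos : C × Bool → ℕ) (l : ℕ) : Pt C :=
  fun c => (e c + (if (c, false) = x₀ then (if s then 1 else 0) else if pos (c, false) < l then 1 else 0),
    2 * t c + (if (c, true) = x₀ then (if s then dz (δ c) else 0)
      else if pos (c, true) < l then dz (δ c) else 0))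

/-- (80 lines) **Inner faces cancel.**

Proof.  Let `a`, `a'` be the directions with `st T a = i - 1`, `st T a' = i` (`st T` is a bijection of `C × Bool` onto the numbers `< 2 card C`).  `π ↦ π' = Equiv.swap a a' * π` is a fixed point free involution, `sign π' = - sign π`, and `vt e t δ (st T ∘ π') l = vt e t δ (st T ∘ π) l` for `l ≠ i`:
`st T (π x) < l ↔ st T (π' x) < l`.  `skip i` does not use the vertex `i`.  `Finset.sum_involution`. -/
def S_Si : Prop := ∀ (C : Type) [Fintype C] (T : Num C) (b : (ℕ → Pt C) → ℤ) (e : C → ℕ) (t : C → ℤ)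
  (δ : C → Bool) (i : ℕ), 0 < i → i < 2 * Fintype.card C →
  ∑ π : Equiv.Perm (C × Bool), (Equiv.Perm.sign π : ℤ) *
    b (skip i (vt e t δ (fun x => st T (π x)))) = 0

/-- (150 lines) **The first and the last face.**

Proof.  Let `D = 2 card C`, `L` the direction with `st T L = D - 1`, and `ζ : Perm (C × Bool)` the cyclic permutation with `st T (ζ x) = st T x + 1` (`0` if `st T x = D - 1`); `sign ζ = (-1)^(D-1) = -1` (`ζ` is conjugate to `finRotate D`: `sign_finRotate`, `Equiv.Perm.sign_permCongr`).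
(1) `skip D (vt …)` agrees with `ed (π⁻¹ L) false …` at all `l < D`: the direction `π⁻¹ L` moves in the step `D - 1`, so it is not yet moved at `l < D`.
(2) Let `π' = ζ⁻¹ * π`: `st T (π' x) = st T (π x) - 1`, and `D - 1` if `st T (π x) = 0`.  `skip 0 (vt … π)` at `l` is `vt … π (l + 1)`: a direction `x` with `st T (π x) > 0` has moved iff `st T (π x) < l + 1` iff `st T (π' x) < l`, and the direction with `st T (π x) = 0`, which is `π'⁻¹ L`, has moved.  So it agrees at all
`l < D` with `ed (π'⁻¹ L) true …` for `π'`.  `sign π = - sign π'`, sum over `π'`. -/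
def S_Sr : Prop := ∀ (C : Type) [Fintype C] (T : Num C) (b : (ℕ → Pt C) → ℤ) (e : C → ℕ) (t : C → ℤ)
  (δ : C → Bool), 0 < Fintype.card C → Loc (2 * Fintype.card C - 1) b →
  ∃ L : C × Bool, st T L = 2 * Fintype.card C - 1 ∧
  ∑ π : Equiv.Perm (C × Bool), (Equiv.Perm.sign π : ℤ) *
    (b (skip 0 (vt e t δ (fun x => st T (π x)))) +
      b (skip (2 * Fintype.card C) (vt e t δ (fun x => st T (π x))))) =
  ∑ π : Equiv.Perm (C × Bool), (Equiv.Perm.sign π : ℤ) *
    (b (ed (π.symm L) false e t δ (fun x => st T (π x))) -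
      b (ed (π.symm L) true e t δ (fun x => st T (π x))))

/-- The conditions on the cochain in the theorem of Stokes (`D = 2 card C`). -/
structure Bc {C J : Type} [Fintype C] (b : Blo C J) (p M N : ℕ) (z : (ℕ → Pt C) → ℤ) : Prop where
  loc : Loc (2 * Fintype.card C - 1) z
  same : ∀ v v' : ℕ → Pt C, (∀ l < 2 * Fintype.card C, v l ∈ GrO C N ∧ Same (2 * p * M) (v l) (v' l)) →
    z v' = z v
  deg : ∀ v : ℕ → Pt C, (∀ l < 2 * Fintype.card C, v l ∈ GrO C N) →
    (∃ l, l + 1 < 2 * Fintype.card C ∧ Same (2 * p * M) (v l) (v (l + 1))) → z v = 0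
  blk : ∀ (j : J) (v : ℕ → Pt C), (∀ l < 2 * Fintype.card C, v l ∈ GrO C N) →
    (∃ c, b.B c = some j ∧ ∀ l < 2 * Fintype.card C, (v l c).1 = N) →
    z (fun l => rot b M j (v l)) = z v
  mir : ∀ (c : C) (v : ℕ → Pt C), (∀ l < 2 * Fintype.card C, v l ∈ GrO C N) → b.B c = none →
    (∀ l < 2 * Fintype.card C, (v l c).1 = N) →
    (∀ l < 2 * Fintype.card C, ∀ l' < 2 * Fintype.card C, |(v l c).2 - (v l' c).2| ≤ 1) → z v = 0

/-- (100 lines) **Faces in an angular direction.**

Proof.  Fix `e`, the `t c'` and `δ c'` for `c' ≠ c`.  For an integer `θ` let `B θ` be the value of `z` at the sequence `ed` with the angle of `c` replaced by `θ`.  The sum over `δ c` is `(B (2t) - B (2t+1)) - (B (2t) - B (2t-1)) = B (2t-1) - B (2t+1)`, `t = (t c).val`.  The sum over `t c : ZMod (p * M)` vanishes: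
reindex the first part by `t ↦ t + 1`; `2 (t+1).val - 1 ≡ 2 t.val + 1` modulo `2 p M`, so `B` has the same value (`Bc.same`; all entries are in `GrO C N`, `e c < N`).  (Write the sum over `t`, `δ` as a sum over the other coordinates and `(t c, δ c)`, e.g. `Equiv.funSplitAt`, or use the bijections
`t ↦ Function.update t c (t c + 1)` and `δ ↦ Function.update δ c (!δ c)`.) -/
def S_Sa : Prop := ∀ (C J : Type) [Fintype C] (b : Blo C J) (p M N : ℕ) [NeZero (p * M)]
  (z : (ℕ → Pt C) → ℤ) (c : C) (pos : C × Bool → ℕ) (e : C → ℕ), Bc b p M N z → (∀ c, e c < N) →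
  ∑ t : C → ZMod (p * M), ∑ δ : C → Bool, (∏ c, dz (δ c)) *
    (z (ed (c, true) false e (fun c => ((t c).val : ℤ)) δ pos) -
      z (ed (c, true) true e (fun c => ((t c).val : ℤ)) δ pos)) = 0

/-- (80 lines) **Free orbits.**

Proof.  `i • s` has the `c`-th coordinate `i M`.  The map `(i, t) ↦ t + i • s` is a bijection of `{0, …, p-1} × {t | (t c).val < M}` onto all `t`: given `t`, `i = (t c).val / M`.  `g (t + i • s) = g t`, so the sum is `p * ∑ t with (t c).val < M, g t`. -/
def S_Fr : Prop := ∀ (C : Type) [Fintype C] (p M : ℕ) [NeZero (p * M)] (c : C) (s : C → ZMod (p * M))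
  (g : (C → ZMod (p * M)) → ℤ), s c = (M : ZMod (p * M)) → (∀ t, g (t + s) = g t) →
  (p : ℤ) ∣ ∑ t, g t

/-- (200 lines; uses `S_Fr`) **Faces in a radial direction.**

Proof.  Fix `t`, `δ`.  For `ρ : ℕ` let `B ρ` be the value of `z` at the sequence with the radius of `c` replaced by `ρ`.  The sum over `e c ∈ range N` of `B (e c) - B (e c + 1)` is `B 0 - B N` (`Finset.sum_range_sub'`).
`B 0 = 0`: the direction `(c, true)` moves in the step `s = pos (c, true)`, `s + 1 < 2 card C`; the vertices `s`, `s + 1` differ only in the angle of `c` (`pos` is injective), and the radius of `c` is `0`: `Bc.deg`.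
`b.B c = none`: `B N = 0` by `Bc.mir` (the angle of `c` is `2 t c` or `2 t c + dz (δ c)`).
`b.B c = some j`: for fixed `e c'` (`c' ≠ c`) and `δ` let `g t` be `(∏ dz) * B N`.  With `s c' = M * b.mu j c'`, `s c = M`: the sequence for `t + s` is the same, in the sense of `Same (2 p M)`, as the rotation of the sequence for `t` (`(t + s).val ≡ t.val + M mu` modulo `p M`), so `g (t + s) = g t` by `Bc.blk` and `Bc.same`.
`S_Fr`. -/
def S_Sd : Prop := ∀ (C J : Type) [Fintype C] (b : Blo C J) (p M N : ℕ) [NeZero (p * M)]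
  (z : (ℕ → Pt C) → ℤ) (c : C) (pos : C × Bool → ℕ), Bc b p M N z → 1 ≤ N → Function.Injective pos →
  pos (c, true) + 1 < 2 * Fintype.card C →
  (p : ℤ) ∣ ∑ e ∈ Fintype.piFinset (fun _ : C => Finset.range N), ∑ t : C → ZMod (p * M),
    ∑ δ : C → Bool, (∏ c, dz (δ c)) *
    (z (ed (c, false) false e (fun c => ((t c).val : ℤ)) δ pos) -
      z (ed (c, false) true e (fun c => ((t c).val : ℤ)) δ pos))

/-- (80 lines; uses `S_Si`, `S_Sr`, `S_Sa`, `S_Sd`) **Stokes modulo `p`.**

Proof.  `dl (D - 1) z v = ∑ i ∈ range (D + 1), (-1)^i * z (skip i v)`, `D = 2 card C > 0`.  The terms `0 < i < D` vanish by `S_Si` (after the sum over `π`); `(-1)^0 = (-1)^D = 1`; `S_Sr`; exchange the sums; for fixed `π` the direction `π⁻¹ L` is `(c, true)` (`S_Sa`, for every `e`) or `(c, false)`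
(`S_Sd` with `pos x = st T (π x)`, injective, values `< D`, and `pos (c, true) ≠ D - 1`).  If `card C = 0` then `D - 1 = 0`, and `dl 0 z v = z (skip 0 v) - z (skip 1 v) = 0` for any `v` in the sum: the hypothesis `0 < card C` excludes this case. -/
def S_So : Prop := ∀ (C J : Type) [Fintype C] (b : Blo C J) (p M N : ℕ) [NeZero (p * M)] (T : Num C)
  (z : (ℕ → Pt C) → ℤ), 0 < Fintype.card C → 1 ≤ N → Bc b p M N z →
  (p : ℤ) ∣ all p M N T (fun v => dl (2 * Fintype.card C - 1) z v)

/-- (200 lines; uses `S_Wc`, `S_Pl`, `S_So`) **The sum does not depend on the arguments, modulo `p`.**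

Notation: `n = Fintype.card C`.  For `m ≤ n` let `f^m c = if T.n c < m then f' c else f c`; every `f^m` satisfies `Ok`; it is enough to compare `f^m` and `f^(m+1)`, `m < n`.  Let `c = T.symm ⟨m, _⟩`, `g v = f c v + Int.fract (f' c v - f c v)`; `g v - f' c v` is an integer, so `f' c` may be replaced by `g` in `pw` (`S_Wc` (3) with `κ = 0`).
By `S_Wc` (2) the difference of the two products `pw` is `∏ … * (us a c - us a b - us b c) * ∏ …` for `us (f c) g`, which is `- dl (2n-1) (pb n m σ (us (f c) g))` by `S_Pl`, `σ = so T f^m` (the factors with other numbers are those of `f^m`).  `S_So` for `z = pb n m σ (us (f c) g)`.  The hypotheses `Bc`: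
`loc`: only `v 0, …, v (2n-1)` occur.  `same`: `h = Int.fract (f' c - f c)` is the same for equivalent points (`Ok.same` for both), `f c`, `g` change by the same integer: `us` and all `ww` do not change.
`deg`: the vertices `l`, `l + 1` (`l + 1 < 2n`) occur together in one factor: for `l < 2m` in a factor of the first product (as first and second, or second and third vertex): `S_Wc` (4); for `l = 2m` in `us`: `f c` and `g` change by the same integer `k`, `round k - round k = 0`; for `l > 2m` in a factor of the last product.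
`blk`: all arguments of the function `c'` change by `χ c' j / p` and integers: `S_Wc` (3); `h` does not change (both `f c` and `f' c` change by `χ c j / p` and integers), so `us` does not change.
`mir` for `c'`: all `f c' (v l)`, `f' c' (v l)` are `(v l c').2 / (2 p M)` plus integers; if `T.n c' ≠ m` the factor `ww` of the number `T.n c'` is `0` (`S_Wc` (3), (5): the angles differ by at most `1`, `2 p M > 2` as `p ≥ 2`); if `T.n c' = m` then `h = 0`, so `g = f c` at these points and `us = 0`. -/
def S_Io : Prop := ∀ (C J : Type) [Fintype C] (b : Blo C J) (p M N : ℕ) [NeZero (p * M)] (T : Num C)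
  (f f' : C → Pt C → ℝ), 2 ≤ p → 1 ≤ N → b.Ok p M N f → b.Ok p M N f' →
  (p : ℤ) ∣ all p M N T (pw (Fintype.card C) (so T f)) - all p M N T (pw (Fintype.card C) (so T f'))

/-! ## The reference arguments -/

/-- (120 lines) **The reference arguments satisfy the conditions.**

Proof.  `A = 2 p M`.  In `lo b A T j v` at most one summand is not `0`: the one of the coordinate `c₀` of the block `j` with radius `≠ 0` and the largest number.  `same`: `c₀` is the same, the angle changes by a multiple of `A` (the radius of `c₀` is not `0`), so `lo` changes by an integer; `χ c j` is an integer.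
`blk`: `rot` changes only angles; in the block `j` (which has a coordinate with radius `N ≥ 1`, so `c₀` exists) all angles change by `2 M`, `2 M / A = 1 / p`; the other blocks do not change; a Miranda coordinate `c` changes its angle by `2 M χ c j`.  `mir`: radius `N ≠ 0`. -/
def S_Ro : Prop := ∀ (C J : Type) [Fintype C] [Fintype J] (b : Blo C J) (p M N : ℕ) [NeZero (p * M)]
  (T : Num C), 1 ≤ N → b.Ok p M N (ro b (2 * p * M) T)

/-- (260 lines; uses `S_Wc`) **There is only one order for the reference arguments.**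

Notation: the direction `x` moves in the step `s = st T (π x)`, in which the function of the coordinate `(π x).1` is used; let `v`, `v'` be the vertices `s`, `s + 1`: they differ only in the direction `x`.
Proof.  (0) All factors of the product are `≠ 0`; by `S_Wc` (4) for every direction `x` the numbers `ro (π x).1 v`, `ro (π x).1 v'` do not differ by an integer, in particular they are different (every step `s < 2 card C` is the first or the second half of a factor).
(1) `e c = 0`: otherwise for `x = (c, false)` the radius of `c` is `≠ 0` at both vertices; `ro` depends on the radii only through the question which are `0`.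
(2) If `b.B c = none`: `ro c'` for `c' ≠ c` does not depend on the coordinate `c`, so `(π (c, i)).1 = c` for both `i`; so `π` permutes `(c, false)`, `(c, true)`.  If it exchanged them the angle would move in the step `2 T c`, when the radius is `0`; then `ro c` does not change (`ro c` depends on the angle of `c` only if the radius is `≠ 0`).
So `π (c, i) = (c, i)`.
(3) If `b.B c = some j`, `x = (c, i)`: CLAIM `b.B (π x).1 = some j`.  The value `ro (π x).1` changes, so `χ (π x).1 j ≠ 0` (only `lo j` depends on the coordinate `c`).  Strong induction on `rank j`.  `b.B (π x).1 = none`: by (2) `π x = π x'` with `x' = ((π x).1, _)`, so `x = x'`, contradiction.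
`b.B (π x).1 = some j'`, `j' ≠ j`: by `up` `rank j' < rank j`, by induction `π` maps the directions of the block `j'` into themselves, so onto themselves, so `x` is a direction of the block `j'`: contradiction.
(4) `c`, `c'` in the block `j`, `T.n c < T.n c'`: `st T (π (c, i)) < st T (π (c', false))` for both `i`: otherwise in the step of `(c, i)` the radius of `c'` is not `0`, and `lo j` does not depend on the coordinate `c`.  (5) `st T (π (c, false)) < st T (π (c, true))`: otherwise the angle of `c` moves when the radius is `0`, and nothing changes.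
(6) So `st T (π x) < st T (π x')` for directions `x`, `x'` of the block `j` with `st T x < st T x'`; a strictly increasing selfmap of a finite set is the identity. -/
def S_Uo : Prop := ∀ (C J : Type) [Fintype C] [Fintype J] (b : Blo C J) (A : ℝ) (T : Num C)
  (e : C → ℕ) (t : C → ℤ) (δ : C → Bool) (π : Equiv.Perm (C × Bool)),
  pw (Fintype.card C) (so T (ro b A T)) (vt e t δ (fun x => st T (π x))) ≠ 0 →
  (∀ c, e c = 0) ∧ π = 1

/-- (80 lines) **The winding number of the circle.**

Proof.  Let `x θ = κ θ / (2P) + ν`, `R θ = round (x θ - μ)`.  The last rounding is `round (± κ / (2P)) = 0`.  The sum over `δ` is `(R (2t+1) - R (2t)) - (R (2t-1) - R (2t)) = R (2t+1) - R (2t-1)`, `t = 0, …, P - 1`; telescoping (`Finset.sum_range_sub`): `R (2P-1) - R (-1) = κ` as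
`x (θ + 2P) = x θ + κ`.  (`∑ t : ZMod P, F t.val = ∑ t ∈ range P, F t`: `Fin.sum_univ_eq_sum_range` for `P = P' + 1`, `ZMod (P'+1) = Fin (P'+1)`.) -/
def S_Aw : Prop := ∀ (P : ℕ) [NeZero P] (κ : ℤ) (ν μ : ℝ), |κ| < P →
  ∑ t : ZMod P, ∑ δ : Bool, dz δ *
    (round ((κ * (2 * (t.val : ℝ) + dz δ) / (2 * P) + ν) - μ) - round ((κ * (2 * (t.val : ℝ)) / (2 * P) + ν) - μ)
      - round ((κ * (2 * (t.val : ℝ) + dz δ) / (2 * P) + ν) - (κ * (2 * (t.val : ℝ)) / (2 * P) + ν))) = κ

/-- (60 lines) **Triangular sums.**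

Proof.  Induction on `n` (`Fin.snocEquiv`): for given values of the first `n` variables the first `n` factors are fixed and the sum over the last variable of the last factor is `κ n`. -/
def S_Tu : Prop := ∀ (n : ℕ) (X : Type) [Fintype X] [Nonempty X] (g : Fin n → (Fin n → X) → ℤ) (κ : Fin n → ℤ),
  (∀ l w w', (∀ i ≤ l, w i = w' i) → g l w = g l w') →
  (∀ l w, ∑ x : X, g l (Function.update w l x) = κ l) →
  ∑ w : Fin n → X, ∏ l, g l w = ∏ l, κ l

/-- (180 lines; uses `S_Uo`, `S_Aw`, `S_Tu`) **The reference sum.**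

Proof.  By `S_Uo` only `e = 0` (in `piFinset (range N)`, `1 ≤ N`) and `π = 1` contribute, `sign 1 = 1`.  Left: the sum over `w : Fin n → ZMod (p M) × Bool` (`w (T c) = (t c, δ c)`, `n = card C`) of `∏ l, dz * ww (ro c) (v (2l)) (v (2l+1)) (v (2l+2))`, `c = T.symm l`.  At the vertex `2 l` the coordinates with number `< l` have
radius `1` and angle `2 t + dz δ`, the others radius `0`; at `2l + 1` also `c` has radius `1`, angle `2 t c`; at `2l + 2` angle `2 t c + dz (δ c)`.  So the factor depends only on `w i`, `i ≤ l`.  Put `A = 2 p M`, `μ = ro c (v (2l))`.  If `b.B c = some j`: at the vertices `2l+1`, `2l+2` the nonzero coordinate of the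
block `j` with the largest number is `c`, the other blocks are as at `2l`: `ro c = κ θ / A + ν`, `κ = χ c j`, `ν = ∑ j' ≠ j, χ c j' * lo j' (v (2l))`, `θ = 2 t c`, `2 t c + dz (δ c)`.  If `b.B c = none`: the same with `κ = 1`, `ν = 0`.  `μ`, `ν` depend only on `w i`, `i < l`, so by `S_Aw` (`P = p M`) the sum of the factor over `w l` is `κ`.
`S_Tu`. -/
def S_Eo : Prop := ∀ (C J : Type) [Fintype C] [Fintype J] (b : Blo C J) (p M N : ℕ) [NeZero (p * M)]
  (T : Num C), 1 ≤ N → 2 ≤ p → (∀ c j, |b.χ c j| < p * M) →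
  all p M N T (pw (Fintype.card C) (so T (ro b (2 * p * M) T))) = ∏ c, b.ka c

/-- (80 lines; uses `S_Io`, `S_Ro`, `S_Eo`) **The combinatorial theorem.**

Proof.  Any numbering `T`.  `all … (so T f) ≡ all … (so T (ro …)) = ∏ c, ka c`, not divisible by the prime `p`; so some summand is not `0`: a simplex with `pw ≠ 0`, all factors `≠ 0`.  `v₀` = its vertex `0`; radii and angles differ by at most `1`; radii `≤ e c + 1 ≤ N`. -/
def S_Bo : Prop := ∀ (C J : Type) [Fintype C] [Fintype J] (b : Blo C J) (p M N : ℕ) [NeZero (p * M)]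
  (f : C → Pt C → ℝ), p.Prime → 1 ≤ N → (∀ c j, |b.χ c j| < p * M) →
  (∀ c j, b.B c = some j → ¬ (p : ℤ) ∣ b.χ c j) → b.Ok p M N f →
  ∃ v₀ ∈ GrO C N, ∀ c, ∃ v : Fin 3 → Pt C, (∀ i, v i ∈ GrO C N ∧
    ∀ c', |((v i c').1 : ℤ) - (v₀ c').1| ≤ 1 ∧ |(v i c').2 - (v₀ c').2| ≤ 1) ∧
    ww (f c) (v 0) (v 1) (v 2) ≠ 0

/-! ## The continuous versions -/

/-- (220 lines; uses `S_Wc`, `S_Ro`, `S_Bo`) **The disc theorem.**

Proof.  `C` empty: trivial.  Suppose there is no common zero; the polydisc is compact, so there is `ε > 0` such that for every `x` some `‖f c x‖ ≥ ε`, and `η > 0` such that `‖f c x - f c x'‖ < ε / 2` for all `c` and all `x`, `x'` in the polydisc with `‖x c' - x' c'‖ ≤ η` for all `c'`.  Take `N`, `M ≥ 1` with `1 / N + π / (p M) ≤ η`,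
`|χ c j| < p M`.  The point of `v`: `pt v c = ((v c).1 / N) * exp (2πi (v c).2 / (2 p M))`.  `φ c v = arg (f c (pt v)) / (2π)` if `f c (pt v) ≠ 0`, and `ro b (2pM) T c v` otherwise.  `Ok`: `same`: `pt v' = pt v`.  `blk`: `pt (rot b M j v) = rotC b p j (pt v)` as `2 M / (2 p M) = 1 / p`, and for `f ≠ 0`
`arg (om p ^ χ * z) = arg z + 2π χ / p` up to a multiple of `2π` (`om p ^ χ = exp (2πi χ / p)`; `Complex.arg_mul_coe_angle` or: two complex numbers with equal `exp (i ·)`); for `f = 0` `S_Ro`.  `mir`: `‖pt v c‖ = 1`, `f c (pt v) = r * pt v c`, argument `2π (v c).2 / (2pM)`.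
`S_Bo` gives `v₀`; take `c` with `‖f c (pt v₀)‖ ≥ ε`, `z₀ = f c (pt v₀)`, and the three points.  `z i = f c (pt (v i)) = z₀ (1 + η i)` with `‖η i‖ < 1/2`, so `arg (z i)` is `arg z₀ + α i` up to a multiple of `2π`, `α i = arg (1 + η i)`, `|α i| < π / 2`.  By `S_Wc` (3), (5) `ww = 0`: contradiction.
(Distance: `‖pt v c' - pt v₀ c'‖ ≤ 1 / N + |angle| `, `‖exp (iα) - exp (iβ)‖ ≤ |α - β|`.) -/
def S_Co : Prop := ∀ (C J : Type) [Fintype C] [Fintype J] (b : Blo C J) (p : ℕ)
  (f : C → (C → ℂ) → ℂ), p.Prime → (∀ c j, b.B c = some j → ¬ (p : ℤ) ∣ b.χ c j) →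
  (∀ c, ContinuousOn (f c) {x | ∀ c', ‖x c'‖ ≤ 1}) →
  (∀ (j : J) (x : C → ℂ), (∀ c, ‖x c‖ ≤ 1) → (∃ c, b.B c = some j ∧ ‖x c‖ = 1) → ∀ c,
    f c (rotC b p j x) = om p ^ b.χ c j * f c x) →
  (∀ c, b.B c = none → ∀ x : C → ℂ, (∀ c', ‖x c'‖ ≤ 1) → ‖x c‖ = 1 →
    ∃ r : ℝ, 0 < r ∧ f c x = r * x c) →
  ∃ x : C → ℂ, (∀ c, ‖x c‖ ≤ 1) ∧ ∀ c, f c x = 0

/-- (200 lines; uses `S_Co`) **Borsuk-Ulam for products of spheres, group `(ℤ/p)^J`, with Miranda directions.**

Proof.  As `PP/Sp.lean` (landed, the case `p = 2`).  Coordinates `C ⊕ K`; for every `j` choose `{c // B c = j} ≃ Fin (n j)`.  `X j i` = the `i`-th coordinate of the block `j` for `i < n j`, `X j (n j) = 1 - M j`, `M j` = the supremum of the `‖x (inl c)‖`, `B c = j` (`0` if the block is empty), `X j i = 0` for `i > n j`; `y a = x (inr a)`.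
This is a point of `DomO n`, continuous in `x`.  If `‖x (inl c)‖ = 1` for some `c` of the block `j` then `X j (n j) = 0`, and the rotation of the block `j` (`mu = 1` on the block, `χ' a j` on `inr a`, `0` on the other blocks) changes `X` into `rX p j X`, `y` into `rY p χ' j y`.  Apply `S_Co`. -/
def S_Po : Prop := ∀ (C K J : Type) [Fintype C] [Fintype K] [Fintype J] (p : ℕ) (B : C → J)
  (χ : C → J → ℤ) (χ' : K → J → ℤ) (rank : J → ℕ) (n : J → ℕ)
  (F : C → (J → ℕ → ℂ) → (K → ℂ) → ℂ) (G : K → (J → ℕ → ℂ) → (K → ℂ) → ℂ), p.Prime →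
  (∀ c, ¬ (p : ℤ) ∣ χ c (B c)) → (∀ c j, χ c j ≠ 0 → j = B c ∨ rank (B c) < rank j) →
  (∀ j, Fintype.card {c // B c = j} = n j) →
  (∀ c, ContinuousOn (fun z : (J → ℕ → ℂ) × (K → ℂ) => F c z.1 z.2) (DomO n)) →
  (∀ a, ContinuousOn (fun z : (J → ℕ → ℂ) × (K → ℂ) => G a z.1 z.2) (DomO n)) →
  (∀ (j : J), ∀ z ∈ (DomO n : Set ((J → ℕ → ℂ) × (K → ℂ))), z.1 j (n j) = 0 →
    (∀ c, F c (rX p j z.1) (rY p χ' j z.2) = om p ^ χ c j * F c z.1 z.2) ∧
    ∀ a, G a (rX p j z.1) (rY p χ' j z.2) = om p ^ χ' a j * G a z.1 z.2) →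
  (∀ (a : K), ∀ z ∈ (DomO n : Set ((J → ℕ → ℂ) × (K → ℂ))), ‖z.2 a‖ = 1 →
    ∃ r : ℝ, 0 < r ∧ G a z.1 z.2 = r * z.2 a) →
  ∃ z ∈ (DomO n : Set ((J → ℕ → ℂ) × (K → ℂ))), (∀ c, F c z.1 z.2 = 0) ∧ ∀ a, G a z.1 z.2 = 0

end Pool.Agent.MPc05127.PO
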