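import Mathlib
import Pool.Agent.Lib.MP_c05127_co.PO.SpecT

/-!
# Triangular sums
-/

set_option autoImplicit false

open scoped Classical

namespace Pool.Agent.MPc05127.PO

namespace TuAux

/-- Triangular sums, by induction. -/
theorem main : ∀ (n : ℕ) (X : Type) [Fintype X] [Nonempty X] (g : Fin n → (Fin n → X) → ℤ)
    (κ : Fin n → ℤ), (∀ l w w', (∀ i ≤ l, w i = w' i) → g l w = g l w') →
    (∀ l w, ∑ x : X, g l (Function.update w l x) = κ l) →
    ∑ w : Fin n → X, ∏ l, g l w = ∏ l, κ l := by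
  intro n
  induction n with
  | zero =>
    intro X _ _ g κ _ _
    simp
  | succ n ih =>
    intro X _ _ g κ h1 h2
    obtain ⟨x₀⟩ := ‹Nonempty X›
    have hs : ∀ (w : Fin n → X) (x : X), (Fin.snoc w x : Fin (n + 1) → X) =
        Function.update (Fin.snoc w x₀ : Fin (n + 1) → X) (Fin.last n) x := by
      intro w x
      rw [Fin.update_snoc_last]
    have h3 : ∀ (l : Fin n) (w : Fin n → X) (x : X), g l.castSucc (Fin.snoc w x : Fin (n + 1) → X) =
        g l.castSucc (Fin.snoc w x₀ : Fin (n + 1) → X) := by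
      intro l w x
      refine h1 _ _ _ fun i hi => ?_
      have hi' : i < Fin.last n := lt_of_le_of_lt hi (Fin.castSucc_lt_last l)
      obtain ⟨j, rfl⟩ := Fin.exists_castSucc_eq.2 hi'.ne
      rw [Fin.snoc_castSucc, Fin.snoc_castSucc]
    have h4 := ih X (fun l w => g l.castSucc (Fin.snoc w x₀ : Fin (n + 1) → X))
      (fun l => κ l.castSucc) (by
        intro l w w' h
        refine h1 _ _ _ fun i hi => ?_
        have hi' : i < Fin.last n := lt_of_le_of_lt hi (Fin.castSucc_lt_last l)
        obtain ⟨j, rfl⟩ := Fin.exists_castSucc_eq.2 hi'.ne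
        rw [Fin.snoc_castSucc, Fin.snoc_castSucc]
        exact h j (Fin.castSucc_le_castSucc_iff.1 hi)) (by
        intro l w
        rw [← h2 l.castSucc (Fin.snoc w x₀ : Fin (n + 1) → X)]
        refine Finset.sum_congr rfl fun x _ => ?_
        rw [Fin.snoc_update])
    rw [← (Fin.snocEquiv fun _ : Fin (n + 1) => X).sum_comp, Fintype.sum_prod_type_right,
      Fin.prod_univ_castSucc, ← h4, Finset.sum_mul]
    refine Finset.sum_congr rfl fun w _ => ?_
    rw [← h2 (Fin.last n) (Fin.snoc w x₀ : Fin (n + 1) → X), Finset.mul_sum]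
    refine Finset.sum_congr rfl fun x _ => ?_
    rw [Fin.prod_univ_castSucc]
    change (∏ l : Fin n, g l.castSucc (Fin.snoc w x : Fin (n + 1) → X)) *
      g (Fin.last n) (Fin.snoc w x : Fin (n + 1) → X) = _
    rw [hs w x, ← hs w x]
    rw [Finset.prod_congr rfl fun l _ => h3 l w x, hs w x]

end TuAux

/-- Triangular sums. -/
theorem tTu : S_Tu := fun n X _ _ g κ h1 h2 => TuAux.main n X g κ h1 h2

end Pool.Agent.MPc05127.PO
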