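import Pool.Agent.Lib.MP_c05127_co.PO.SpecT

/-!
# MP_c05127_co, project PO: there is only one order for the reference arguments
-/

set_option autoImplicit false

open scoped Classical

namespace Pool.Agent.MPc05127.PO

open Pool.Agent.MPc05127.PP (skip Num Num.n)

namespace UoAux

variable {C J : Type}

/-- The same coordinate `c`, as far as the reference arguments can see. -/
def sim (v w : Pt C) (c : C) : Prop :=
  ((v c).1 = 0 ↔ (w c).1 = 0) ∧ ((v c).1 ≠ 0 → (v c).2 = (w c).2)

lemma sim_of_eq {v w : Pt C} {c : C} (h : v c = w c) : sim v w c := by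
  unfold sim
  rw [h]
  exact ⟨Iff.rfl, fun _ => rfl⟩

lemma sim_symm {v w : Pt C} {c : C} (h : sim v w c) : sim w v c :=
  ⟨h.1.symm, fun h' => (h.2 (fun h'' => h' (h.1.1 h''))).symm⟩

/-- The data at a vertex. -/
lemma vt_fst (e : C → ℕ) (t : C → ℤ) (δ : C → Bool) (pos : C × Bool → ℕ) (l : ℕ) (c : C) :
    (vt e t δ pos l c).1 = e c + (if pos (c, false) < l then 1 else 0) := rfl

lemma vt_snd (e : C → ℕ) (t : C → ℤ) (δ : C → Bool) (pos : C × Bool → ℕ) (l : ℕ) (c : C) :
    (vt e t δ pos l c).2 = 2 * t c + (if pos (c, true) < l then dz (δ c) else 0) := rfl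

lemma lt_succ_iff {pos : C × Bool → ℕ} (hp : Function.Injective pos) {x y : C × Bool}
    (h : y ≠ x) : (pos y < pos x + 1) = (pos y < pos x) := by
  have h1 : pos y ≠ pos x := fun h2 => h (hp h2)
  exact propext ⟨fun h2 => by omega, fun h2 => by omega⟩

/-- The vertices `pos x` and `pos x + 1` differ only in the direction `x`. -/
lemma vt_fst_succ (e : C → ℕ) (t : C → ℤ) (δ : C → Bool) {pos : C × Bool → ℕ}
    (hp : Function.Injective pos) (x : C × Bool) (c : C) (h : (c, false) ≠ x) :
    (vt e t δ pos (pos x) c).1 = (vt e t δ pos (pos x + 1) c).1 := by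
  rw [vt_fst, vt_fst]
  simp only [lt_succ_iff hp h]

lemma vt_snd_succ (e : C → ℕ) (t : C → ℤ) (δ : C → Bool) {pos : C × Bool → ℕ}
    (hp : Function.Injective pos) (x : C × Bool) (c : C) (h : (c, true) ≠ x) :
    (vt e t δ pos (pos x) c).2 = (vt e t δ pos (pos x + 1) c).2 := by
  rw [vt_snd, vt_snd]
  simp only [lt_succ_iff hp h]

lemma vt_succ (e : C → ℕ) (t : C → ℤ) (δ : C → Bool) {pos : C × Bool → ℕ}
    (hp : Function.Injective pos) (x : C × Bool) (c : C) (h : c ≠ x.1) :
    vt e t δ pos (pos x) c = vt e t δ pos (pos x + 1) c :=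
  Prod.ext
    (vt_fst_succ e t δ hp x c fun h' => h (congrArg Prod.fst h'))
    (vt_snd_succ e t δ hp x c fun h' => h (congrArg Prod.fst h'))

variable [Fintype C]

/-- The condition in the summand `c` of `lo`. -/
abbrev cnd (b : Blo C J) (T : Num C) (j : J) (v : Pt C) (c : C) : Prop :=
  b.B c = some j ∧ (v c).1 ≠ 0 ∧ ∀ c', b.B c' = some j → T.n c < T.n c' → (v c').1 = 0

/-- The comparison of two points in the block `j`. -/
def cmp (b : Blo C J) (T : Num C) (j : J) (v w : Pt C) : Prop :=
  ∀ c', b.B c' = some j → sim v w c' ∨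
    ∃ c₀, b.B c₀ = some j ∧ T.n c' < T.n c₀ ∧ (v c₀).1 ≠ 0 ∧ (w c₀).1 ≠ 0

lemma cmp_symm {b : Blo C J} {T : Num C} {j : J} {v w : Pt C} (H : cmp b T j v w) :
    cmp b T j w v := by
  intro c' hc'
  rcases H c' hc' with h | ⟨c₀, h1, h2, h3, h4⟩
  · exact Or.inl (sim_symm h)
  · exact Or.inr ⟨c₀, h1, h2, h4, h3⟩

lemma cnd_imp (b : Blo C J) (T : Num C) (j : J) (v w : Pt C) (H : cmp b T j v w)
    (c : C) (hc : cnd b T j v c) : cnd b T j w c ∧ (v c).2 = (w c).2 := by
  obtain ⟨h1, h2, h3⟩ := hc
  have h4 : sim v w c := by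
    rcases H c h1 with h | ⟨c₀, h5, h6, h7, _⟩
    · exact h
    · exact absurd (h3 c₀ h5 h6) h7
  refine ⟨⟨h1, fun h => h2 (h4.1.2 h), fun c' h5 h6 => ?_⟩, h4.2 h2⟩
  rcases H c' h5 with h | ⟨c₀, h7, h8, h9, _⟩
  · exact h.1.1 (h3 c' h5 h6)
  · exact absurd (h3 c₀ h7 (h6.trans h8)) h9

lemma lo_congr (b : Blo C J) (A : ℝ) (T : Num C) (j : J) (v w : Pt C) (H : cmp b T j v w) :
    lo b A T j v = lo b A T j w := by
  unfold lo
  refine Finset.sum_congr rfl fun c _ => ?_
  by_cases hc : cnd b T j v c
  · obtain ⟨h1, h2⟩ := cnd_imp b T j v w H c hc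
    rw [if_pos hc, if_pos h1, h2]
  · have hc' : ¬ cnd b T j w c := fun h => hc (cnd_imp b T j w v (cmp_symm H) c h).1
    rw [if_neg hc, if_neg hc']

/-- Two points which differ only in the coordinate `c`. -/
lemma lo_same (b : Blo C J) (A : ℝ) (T : Num C) (j : J) (v w : Pt C) (c : C)
    (hvw : ∀ c', c' ≠ c → v c' = w c')
    (h : b.B c = some j → sim v w c ∨ ∃ c₀, b.B c₀ = some j ∧ T.n c < T.n c₀ ∧ (v c₀).1 ≠ 0) :
    lo b A T j v = lo b A T j w := by
  refine lo_congr b A T j v w fun c' hc' => ?_
  by_cases h1 : c' = c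
  · subst h1
    rcases h hc' with h2 | ⟨c₀, h2, h3, h4⟩
    · exact Or.inl h2
    · refine Or.inr ⟨c₀, h2, h3, h4, ?_⟩
      rw [← hvw c₀ (fun h5 => absurd h3 (by rw [h5]; exact lt_irrefl _))]
      exact h4
  · exact Or.inl (sim_of_eq (hvw c' h1))

lemma ro_same [Fintype J] (b : Blo C J) (A : ℝ) (T : Num C) (v w : Pt C) (c c₁ : C)
    (hvw : ∀ c', c' ≠ c → v c' = w c')
    (h0 : b.B c₁ = none → c₁ = c → sim v w c)
    (h : ∀ j, b.χ c₁ j ≠ 0 → lo b A T j v = lo b A T j w) :
    ro b A T c₁ v = ro b A T c₁ w := by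
  have hs : ∑ j, (b.χ c₁ j : ℝ) * lo b A T j v = ∑ j, (b.χ c₁ j : ℝ) * lo b A T j w := by
    refine Finset.sum_congr rfl fun j _ => ?_
    by_cases hj : b.χ c₁ j = 0
    · rw [hj, Int.cast_zero, zero_mul, zero_mul]
    · rw [h j hj]
  unfold ro
  by_cases hB : b.B c₁ = none
  · have hsim : sim v w c₁ := by
      by_cases h1 : c₁ = c
      · rw [h1]
        exact h0 hB h1
      · exact sim_of_eq (hvw c₁ h1)
    by_cases h2 : (v c₁).1 = 0
    · rw [if_neg (fun h => h.2 h2), if_neg (fun h => h.2 (hsim.1.1 h2)), hs]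
    · rw [if_pos ⟨hB, h2⟩, if_pos ⟨hB, fun h => h2 (hsim.1.2 h)⟩, hsim.2 h2]
  · rw [if_neg (fun h => hB h.1), if_neg (fun h => hB h.1), hs]

lemma st_inj (T : Num C) : Function.Injective (st T) := by
  rintro ⟨c, i⟩ ⟨c', i'⟩ h
  unfold st at h
  simp only at h
  have h1 : T.n c = T.n c' := by
    rcases i with _ | _ <;> rcases i' with _ | _ <;> simp at h <;> omega
  have h2 : c = c' := T.injective (Fin.ext h1)
  have h3 : i = i' := by
    rw [h1] at h
    rcases i with _ | _ <;> rcases i' with _ | _ <;> simp at h <;> rfl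
  rw [h2, h3]

end UoAux

open UoAux

theorem tUo (hWc : S_Wc) : S_Uo := by
  intro C J _ _ b A T e t δ π hpw
  obtain ⟨pos, hpos⟩ : ∃ pos : C × Bool → ℕ, pos = fun x => st T (π x) := ⟨_, rfl⟩
  obtain ⟨V, hV⟩ : ∃ V : ℕ → Pt C, V = vt e t δ pos := ⟨_, rfl⟩
  rw [← hpos, ← hV] at hpw
  have hpe : ∀ x, pos x = st T (π x) := fun x => by rw [hpos]
  have hp : Function.Injective pos := by
    rw [hpos]
    exact (st_inj T).comp π.injective
  -- (0)
  have key : ∀ x, ro b A T (π x).1 (V (pos x)) ≠ ro b A T (π x).1 (V (pos x + 1)) := by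
    intro x heq
    apply hpw
    unfold pw
    refine Finset.prod_eq_zero (i := (T (π x).1 : ℕ)) (Finset.mem_range.2 (T (π x).1).2) ?_
    have hso : so T (ro b A T) (T (π x).1 : ℕ) = ro b A T (π x).1 := by
      funext v
      unfold so
      rw [dif_pos (T (π x).1).2, Fin.eta, Equiv.symm_apply_apply]
    rw [hso]
    refine (hWc (Pt C) (ro b A T (π x).1)).2.2.2.1 _ _ _ 0 ?_
    rw [Int.cast_zero, add_zero, add_zero]
    have h1 := hpe x
    unfold st at h1
    rcases h : (π x).2 with _ | _
    · rw [h] at h1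
      simp only [Bool.false_eq_true, if_false, add_zero] at h1
      have h2 : 2 * (T (π x).1 : ℕ) = pos x := h1.symm
      rw [h2]
      exact Or.inl heq.symm
    · rw [h] at h1
      simp only [if_true] at h1
      have h2 : 2 * (T (π x).1 : ℕ) + 1 = pos x := h1.symm
      have h3 : 2 * (T (π x).1 : ℕ) + 2 = pos x + 1 := by omega
      rw [h3, h2]
      exact Or.inr heq.symm
  have hne : ∀ x c, c ≠ x.1 → V (pos x) c = V (pos x + 1) c := by
    intro x c h
    rw [hV]
    exact vt_succ e t δ hp x c h
  -- (1)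
  have hsim : ∀ x, ¬ sim (V (pos x)) (V (pos x + 1)) x.1 := by
    intro x h
    refine key x (ro_same b A T _ _ x.1 (π x).1 (hne x) (fun _ _ => h) fun j _ => ?_)
    exact lo_same b A T j _ _ x.1 (hne x) fun _ => Or.inl h
  have he : ∀ c, e c = 0 := by
    intro c
    by_contra hc
    refine hsim (c, false) ⟨⟨fun h => ?_, fun h => ?_⟩, fun _ => ?_⟩
    · exfalso
      rw [hV, vt_fst] at h
      simp only at h
      omega
    · exfalso
      rw [hV, vt_fst] at h
      simp only at h
      omega
    · rw [hV]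
      exact vt_snd_succ e t δ hp (c, false) c (by simp)
  -- (5)
  have h5 : ∀ c, pos (c, false) < pos (c, true) := by
    intro c
    by_contra hc
    have h1 : (V (pos (c, true)) c).1 = 0 := by
      rw [hV, vt_fst, he c, if_neg hc]
    refine hsim (c, true) ⟨?_, fun h => absurd h1 h⟩
    have h2 : (V (pos (c, true)) c).1 = (V (pos (c, true) + 1) c).1 := by
      rw [hV]
      exact vt_fst_succ e t δ hp (c, true) c (by simp)
    show (V (pos (c, true)) c).1 = 0 ↔ (V (pos (c, true) + 1) c).1 = 0
    rw [h2]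
  -- (2)
  have h2 : ∀ c, b.B c = none → ∀ i, π (c, i) = (c, i) := by
    intro c hc
    have h1 : ∀ i, (π (c, i)).1 = c := by
      intro i
      by_contra h
      refine key (c, i) (ro_same b A T _ _ c _ (hne (c, i)) (fun _ h' => absurd h' h) fun j _ => ?_)
      refine lo_same b A T j _ _ c (hne (c, i)) fun h' => ?_
      rw [hc] at h'
      exact absurd h' (by simp)
    have h3 := h5 c
    rw [hpe, hpe] at h3
    unfold st at h3
    rw [h1, h1] at h3
    have h4 : (π (c, false)).2 = false ∧ (π (c, true)).2 = true := by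
      rcases h6 : (π (c, false)).2 with _ | _ <;> rcases h7 : (π (c, true)).2 with _ | _ <;>
        rw [h6, h7] at h3 <;> simp at h3 ⊢
    intro i
    rcases i with _ | _
    · exact Prod.ext (h1 false) h4.1
    · exact Prod.ext (h1 true) h4.2
  -- (3)
  have h3 : ∀ (r : ℕ) (j : J), b.rank j = r → ∀ x : C × Bool, b.B x.1 = some j →
      b.B (π x).1 = some j := by
    intro r
    induction r using Nat.strong_induction_on with
    | _ r ih =>
      intro j hr x hx
      have h4 : x.1 = (π x).1 ∨ (b.χ (π x).1 j ≠ 0) := by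
        by_contra h
        push Not at h
        refine key x (ro_same b A T _ _ x.1 _ (hne x) (fun _ h' => absurd h'.symm h.1)
          fun j' hj' => ?_)
        refine lo_same b A T j' _ _ x.1 (hne x) fun h' => ?_
        rw [hx] at h'
        exact absurd (Option.some.inj h' ▸ h.2) hj'
      rcases h4 with h4 | h4
      · rw [← h4]
        exact hx
      · rcases hB : b.B (π x).1 with _ | j'
        · exfalso
          have h6 := h2 (π x).1 hB (π x).2
          rw [Prod.mk.eta] at h6
          have h7 := π.injective h6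
          rw [h7, hx] at hB
          exact absurd hB (by simp)
        · rcases b.up _ j' j hB h4 with h6 | h6
          · rw [h6]
          · exfalso
            have h7 := ih (b.rank j') (hr ▸ h6) j' rfl
            have h8 : Set.MapsTo π {y : C × Bool | b.B y.1 = some j'}
                {y : C × Bool | b.B y.1 = some j'} := fun y hy => h7 y hy
            have h9 := Equiv.Perm.perm_symm_mapsTo_of_mapsTo π h8
            have h10 : b.B (π.symm (π x)).1 = some j' := h9 hB
            rw [Equiv.symm_apply_apply, hx] at h10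
            have h11 := Option.some.inj h10
            rw [h11] at h6
            exact lt_irrefl _ h6
  -- (4)
  have h4 : ∀ (j : J) (c c' : C), b.B c = some j → b.B c' = some j → T.n c < T.n c' → ∀ i,
      pos (c, i) < pos (c', false) := by
    intro j c c' hc hc' hlt i
    by_contra h
    have hcc : (c', false) ≠ (c, i) := by
      intro h6
      have h7 : c' = c := congrArg Prod.fst h6
      rw [h7] at hlt
      exact lt_irrefl _ hlt
    have h6 : pos (c', false) < pos (c, i) :=
      lt_of_le_of_ne (not_lt.1 h) fun h7 => hcc (hp h7)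
    have h7 : b.B (π (c, i)).1 = some j := h3 _ j rfl (c, i) hc
    refine key (c, i) (ro_same b A T _ _ c _ (hne (c, i)) (fun h8 _ => ?_) fun j' _ => ?_)
    · rw [h7] at h8
      exact absurd h8 (by simp)
    · refine lo_same b A T j' _ _ c (hne (c, i)) fun h8 => Or.inr ⟨c', ?_, hlt, ?_⟩
      · rw [hc']
        rw [hc] at h8
        exact h8
      · rw [hV, vt_fst, if_pos h6]
        omega
  -- (6)
  have h6 : ∀ (j : J) (x x' : C × Bool), b.B x.1 = some j → b.B x'.1 = some j →
      st T x < st T x' → pos x < pos x' := by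
    rintro j ⟨c, i⟩ ⟨c', i'⟩ hc hc' hlt
    simp only at hc hc'
    rcases lt_trichotomy (T.n c) (T.n c') with h | h | h
    · have h7 := h4 j c c' hc hc' h i
      rcases i' with _ | _
      · exact h7
      · exact h7.trans (h5 c')
    · have h8 : c = c' := T.injective (Fin.ext h)
      subst h8
      rcases i with _ | _ <;> rcases i' with _ | _
      · exact absurd hlt (lt_irrefl _)
      · exact h5 c
      · exfalso
        unfold st at hlt
        simp at hlt
      · exact absurd hlt (lt_irrefl _)
    · exfalso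
      unfold st at hlt
      rcases i with _ | _ <;> rcases i' with _ | _ <;> simp at hlt <;> omega
  have h7 : ∀ (j : J) (r : ℕ) (x : C × Bool), b.B x.1 = some j → st T x = r → π x = x := by
    intro j r
    induction r using Nat.strong_induction_on with
    | _ r ih =>
      intro x hx hr
      have hmaps : Set.MapsTo π {y : C × Bool | b.B y.1 = some j}
          {y : C × Bool | b.B y.1 = some j} := fun y hy => h3 _ j rfl y hy
      have hinv := Equiv.Perm.perm_symm_mapsTo_of_mapsTo π hmaps
      have hz : b.B (π.symm x).1 = some j := hinv hx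
      have h8 : st T x ≤ st T (π x) := by
        by_contra h
        have h9 := ih (st T (π x)) (by omega) (π x) (h3 _ j rfl x hx) rfl
        have h10 := π.injective h9
        rw [h10] at h
        exact h le_rfl
      have h9 : st T x ≤ st T (π.symm x) := by
        by_contra h
        have h10 := ih (st T (π.symm x)) (by omega) (π.symm x) hz rfl
        rw [Equiv.apply_symm_apply] at h10
        rw [← h10] at h
        exact h le_rfl
      by_contra hne'
      have h10 : st T x ≠ st T (π.symm x) := by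
        intro h
        have h11 := st_inj T h
        apply hne'
        conv_lhs => rw [h11]
        rw [Equiv.apply_symm_apply]
      have h11 := h6 j x (π.symm x) hx hz (lt_of_le_of_ne h9 h10)
      rw [hpe, hpe, Equiv.apply_symm_apply] at h11
      omega
  refine ⟨he, Equiv.ext fun x => ?_⟩
  rw [Equiv.Perm.one_apply]
  rcases hx : b.B x.1 with _ | j
  · exact h2 x.1 hx x.2
  · exact h7 j _ x hx rfl

end Pool.Agent.MPc05127.PO
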