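import Pool.Agent.Lib.MP_c05127_co.PO.SpecG

/-!
# MP_c05127_co, project PO: the common zero
-/

set_option autoImplicit false

open scoped Classical

namespace Pool.Agent.MPc05127.PO

private theorem ZrCardEq {α : Type} (i1 i2 : Fintype α) :
    @Fintype.card α i1 = @Fintype.card α i2 := by
  rw [Subsingleton.elim i1 i2]

theorem tZr (hPo : S_Po) (hBl : S_Bl) (hFc : S_Fc) (hFs : S_Fs) (hFm : S_Fm) : S_Zr := by
  intro p _ hp hp2 d l h1 hl e a
  obtain ⟨z, hz, h1, h2⟩ := hPo (Cf p l e) (Fin l) (Jo l e) p BO XO (fun b j => XQ b j) ru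
    (no p) (fun c => fo p a c) (fun b => go p a b) hp
    (fun c => (hBl p hp hp2 _ l e c).1) (fun c j h => (hBl p hp hp2 _ l e c).2 j h)
    (fun _ => ZrCardEq _ _)
    (hFc p hp.two_le _ l d e a).1 (hFc p hp.two_le _ l d e a).2
    (fun j z hz => hFs p hp.two_le _ l d e a j z hz)
    (fun b z hz => (hFm p hp hp2 d l h1 hl e a z hz).2 b)
  exact ⟨z, hz, h1, h2⟩

end Pool.Agent.MPc05127.PO
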