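import Pool.Agent.Lib.MP_c05127_co.PP.All
import Pool.Agent.Lib.MP_c05127_co.PP.Fink
import Pool.Agent.Lib.MP_c05127_co.PP.Gen1k
import Pool.Agent.Lib.MP_c05127_co.PP.Gen2k
import Pool.Agent.Lib.MP_c05127_co.PO.Aw
import Pool.Agent.Lib.MP_c05127_co.PO.Ax
import Pool.Agent.Lib.MP_c05127_co.PO.Bl
import Pool.Agent.Lib.MP_c05127_co.PO.Bo
import Pool.Agent.Lib.MP_c05127_co.PO.Cn
import Pool.Agent.Lib.MP_c05127_co.PO.Co
import Pool.Agent.Lib.MP_c05127_co.PO.Eo
import Pool.Agent.Lib.MP_c05127_co.PO.Fc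
import Pool.Agent.Lib.MP_c05127_co.PO.Fm
import Pool.Agent.Lib.MP_c05127_co.PO.Fr
import Pool.Agent.Lib.MP_c05127_co.PO.Fs
import Pool.Agent.Lib.MP_c05127_co.PO.Geo
import Pool.Agent.Lib.MP_c05127_co.PO.In
import Pool.Agent.Lib.MP_c05127_co.PO.Io
import Pool.Agent.Lib.MP_c05127_co.PO.It
import Pool.Agent.Lib.MP_c05127_co.PO.Lb
import Pool.Agent.Lib.MP_c05127_co.PO.Or
import Pool.Agent.Lib.MP_c05127_co.PO.Pl
import Pool.Agent.Lib.MP_c05127_co.PO.Po
import Pool.Agent.Lib.MP_c05127_co.PO.Pq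
import Pool.Agent.Lib.MP_c05127_co.PO.Pr
import Pool.Agent.Lib.MP_c05127_co.PO.Ps
import Pool.Agent.Lib.MP_c05127_co.PO.Ro
import Pool.Agent.Lib.MP_c05127_co.PO.Sa
import Pool.Agent.Lib.MP_c05127_co.PO.Sd
import Pool.Agent.Lib.MP_c05127_co.PO.Sg
import Pool.Agent.Lib.MP_c05127_co.PO.Si
import Pool.Agent.Lib.MP_c05127_co.PO.So
import Pool.Agent.Lib.MP_c05127_co.PO.Sr
import Pool.Agent.Lib.MP_c05127_co.PO.Tu
import Pool.Agent.Lib.MP_c05127_co.PO.Uo
import Pool.Agent.Lib.MP_c05127_co.PO.Wc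
import Pool.Agent.Lib.MP_c05127_co.PO.Zr
import Pool.Agent.Lib.MP_c05127_co.PO.FinkO
import Pool.Agent.Lib.MP_c05127_co.PO.FinalP

/-!
# MP_c05127_co, project PO: the composition of the modules (the disc theorem, the vector statement for odd `p`,
and the final statement)
-/

set_option autoImplicit false

namespace Pool.Agent.MPc05127.PO

/-- Borsuk-Ulam for products of spheres with Miranda directions (group `(ℤ/p)^J`, triangular characters). -/
theorem allPo : S_Po := by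
  have hFr := tFr
  have hSo := tSo tSi tSr tSa (tSd hFr)
  have hIo := tIo tWc (tPl tLb tWc) hSo
  have hEo := tEo (tUo tWc) tAw tTu
  exact tPo (tCo tWc tRo (tBo hIo tRo hEo))

/-- The vector statement for powers of an odd prime. -/
theorem allGeo : S_Geo := by
  have hLe : S_PLe := Pool.Agent.MPc05127.PP.allLe
  have hSg := tSg tAx
  have hPs := tPs hLe
  have hFm := tFm tCn
  have hOr := tOr hFm
  exact tGeo tCn (tZr allPo tBl (tFc hSg (tPq hLe)) (tFs hSg tPr) hFm) (tIn hSg tPr hPs hOr)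
    (tIt hSg tPr hPs hOr)

end Pool.Agent.MPc05127.PO

namespace Pool.Agent.Lib.MP_c05127_co.PP

/-- The theorem for prime powers. -/
theorem allFinalP : S_FinalP :=
  wFinalP (wFink Pool.Agent.MPc05127.PP.allGeo) (wFinkO Pool.Agent.MPc05127.PO.allGeo) wGen1k wGen2k

end Pool.Agent.Lib.MP_c05127_co.PP
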