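import Pool.Agent.Lib.MP_c05127_co.PO.DefsT
import Pool.Agent.Lib.MP_c05127_co.PP.DefsG

/-!
# MP_c05127_co, project PO (all `r i` powers of an odd prime): definitions of part G (geometry)
-/

set_option autoImplicit false

open scoped Classical

namespace Pool.Agent.MPc05127.PO

open Pool.Agent.MPc05127.PP (E idx len)

/-! ### One family -/

section

variable {s : ℕ} {p : ℕ}

/-- The direction of a complex number (`0` for `0`). -/
noncomputable def dn (z : ℂ) : ℂ := z / ‖z‖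

/-- The weighted sum of `F` with the character `χ` of the labels.  `Z t b` is the length of the `b`-th
interval of the `t`-th partition times the root of unity which is its label. -/
noncomputable def phc (n : Fin s → ℕ) (Z : Fin s → ℕ → ℂ) (χ : Fin s → ZMod p) (F : ℕ → ℂ) : ℂ :=
  ∑ α ∈ idx n, (len n (fun t b => ‖Z t b‖) α : ℂ) * (∏ t, dn (Z t (α t)) ^ (χ t).val) * F (∑ t, α t)

/-- The domain. -/
def DomC (n : Fin s → ℕ) : Set (Fin s → ℕ → ℂ) := {Z | ∀ t, ∃ b ≤ n t, Z t b ≠ 0}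

/-- The components in the sectors around the `p`-th roots of unity, as multiples of these roots. -/
noncomputable def sA (p : ℕ) (x : ℂ) : ℂ := ∑ l ∈ Finset.range p,
  ((max 0 ((x * (starRingEnd ℂ) (om p ^ l)).re - Real.cos (Real.pi / p) * ‖x‖) : ℝ) : ℂ) * om p ^ l

/-- The same for the sectors around the `om (2 p) * om p ^ l`, as multiples of the `om p ^ l`. -/
noncomputable def sB (p : ℕ) (x : ℂ) : ℂ := ∑ l ∈ Finset.range p,
  ((max 0 ((x * (starRingEnd ℂ) (om (2 * p) * om p ^ l)).re - Real.cos (Real.pi / p) * ‖x‖) : ℝ) : ℂ) *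
    om p ^ l

/-- The `2 n + 1` labelled intervals of a point of `ℂ^(n+1)`. -/
noncomputable def seg (p n : ℕ) (X : ℕ → ℂ) (b : ℕ) : ℂ :=
  if b < 2 * n then (if b % 2 = 0 then sA p (X (b / 2)) else sB p (X (b / 2)))
  else if b = 2 * n then X n else 0

/-- Half of the nonzero characters: the first nonzero coordinate is `1, …, (p-1)/2`. -/
abbrev Hc (p s : ℕ) : Type :=
  {χ : Fin s → ZMod p // ∃ t, χ t ≠ 0 ∧ (∀ t' < t, χ t' = 0) ∧ 2 * (χ t).val < p}

/-- The first nonzero coordinate. -/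
noncomputable def ld (χ : Hc p s) : Fin s := χ.2.choose

end

/-! ### The functions of the disc theorem; `k = 2 l` -/

section

variable {m l d : ℕ}

/-- The blocks: `e i` spheres for the family `i`, and the `l` complex vectors of the frame. -/
abbrev Jo (l : ℕ) (e : Fin m → ℕ) : Type := (Σ i : Fin m, Fin (e i)) ⊕ Fin l

/-- The functions. -/
abbrev Cf (p l : ℕ) (e : Fin m → ℕ) : Type :=
  (Σ i : Fin m, Hc p (e i) × Option (Fin l × Bool)) ⊕
    ((Fin l ⊕ ({q : Fin l × Fin l // q.1 < q.2} × Bool)) ⊕ (Fin l × {i : Fin m // (i : ℕ) ≠ 0}))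

variable {p : ℕ} {e : Fin m → ℕ}

/-- The block of a function. -/
noncomputable def BO : Cf p l e → Jo l e
  | Sum.inl ⟨i, χ, _⟩ => Sum.inl ⟨i, ld χ⟩
  | Sum.inr (Sum.inl (Sum.inl b)) => Sum.inr b
  | Sum.inr (Sum.inl (Sum.inr (q, _))) => Sum.inr q.1.1
  | Sum.inr (Sum.inr (b, _)) => Sum.inr b

/-- The characters of the functions. -/
noncomputable def XO : Cf p l e → Jo l e → ℤ
  | Sum.inl ⟨i, χ, _⟩, Sum.inl j => ∑ t, if j = ⟨i, t⟩ then ((χ.1 t).val : ℤ) else 0
  | Sum.inl ⟨_, _, none⟩, Sum.inr _ => 0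
  | Sum.inl ⟨_, _, some (b', s)⟩, Sum.inr b => if b = b' then (if s then 1 else -1) else 0
  | Sum.inr (Sum.inl (Sum.inl b')), j => if j = Sum.inr b' then 2 else 0
  | Sum.inr (Sum.inl (Sum.inr (q, s))), j =>
    (if j = Sum.inr q.1.1 then 1 else 0) + (if j = Sum.inr q.1.2 then (if s then 1 else -1) else 0)
  | Sum.inr (Sum.inr (b', _)), j => if j = Sum.inr b' then 1 else 0

/-- The characters of the Miranda coordinates. -/
noncomputable def XQ (b : Fin l) (j : Jo l e) : ℤ := if j = Sum.inr b then 1 else 0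

/-- The rank of a block. -/
def ru : Jo l e → ℕ
  | Sum.inl j => j.2
  | Sum.inr b => (∑ i, e i) + 1 + b

/-- The dimension of a block. -/
noncomputable def no (p : ℕ) [NeZero p] (j : Jo l e) : ℕ := Fintype.card {c : Cf p l e // BO c = j}

/-- The dimensions of the spheres of the family `i`. -/
noncomputable def nj (p l : ℕ) [NeZero p] (e : Fin m → ℕ) (i : Fin m) : Fin (e i) → ℕ :=
  fun t => no (l := l) p (Sum.inl ⟨i, t⟩)

/-- The numbers of intervals, minus one. -/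
noncomputable def n2 (p l : ℕ) [NeZero p] (e : Fin m → ℕ) (i : Fin m) : Fin (e i) → ℕ :=
  fun t => 2 * nj p l e i t

/-- The real part of the `b`-th vector of the frame. -/
noncomputable def vR (d : ℕ) (X : Jo l e → ℕ → ℂ) (b : Fin l) : E d :=
  WithLp.toLp 2 (fun c : Fin d => (X (Sum.inr b) (c : ℕ)).re)

/-- The imaginary part of the `b`-th vector of the frame. -/
noncomputable def vI (d : ℕ) (X : Jo l e → ℕ → ℂ) (b : Fin l) : E d :=
  WithLp.toLp 2 (fun c : Fin d => (X (Sum.inr b) (c : ℕ)).im)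

/-- The vector `u = ∑ Re (conj y_b z_b)`. -/
noncomputable def uo (d : ℕ) (X : Jo l e → ℕ → ℂ) (y : Fin l → ℂ) : E d :=
  ∑ b, ((y b).re • vR d X b + (y b).im • vI d X b)

/-- Positive for `‖y‖ < 1/2` (sup norm). -/
noncomputable def tu (y : Fin l → ℂ) : ℝ := max 0 (1 - 2 * ‖y‖)

/-- Positive for `‖y‖ > 1/2`. -/
noncomputable def su (y : Fin l → ℂ) : ℝ := max 0 (2 * ‖y‖ - 1)

/-- The labelled intervals of the family `i`. -/
noncomputable def zz (p : ℕ) [NeZero p] (X : Jo l e → ℕ → ℂ) (i : Fin m) : Fin (e i) → ℕ → ℂ :=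
  fun t => seg p (nj p l e i t) (X (Sum.inl ⟨i, t⟩))

/-- The `b`-th component of the vector of the hyperplane `h` of the family `i`. -/
noncomputable def FO (a : Fin m → ℕ → E d) (X : Jo l e → ℕ → ℂ) (y : Fin l → ℂ) (i : Fin m)
    (b : Fin l) (h : ℕ) : ℂ :=
  ((tu y - inner ℝ (a i h) (uo d X y) : ℝ) : ℂ) *
    ⟨inner ℝ (a i h) (vR d X b), inner ℝ (a i h) (vI d X b)⟩

/-- The functions. -/
noncomputable def fo (p : ℕ) [NeZero p] (a : Fin m → ℕ → E d) :
    Cf p l e → (Jo l e → ℕ → ℂ) → (Fin l → ℂ) → ℂ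
  | Sum.inl ⟨i, χ, none⟩, X, _ => phc (n2 p l e i) (zz p X i) χ.1 (fun _ => 1)
  | Sum.inl ⟨i, χ, some (b, s)⟩, X, y => phc (n2 p l e i) (zz p X i) χ.1
      (fun h => if s then FO a X y i b h else (starRingEnd ℂ) (FO a X y i b h))
  | Sum.inr (Sum.inl (Sum.inl b)), X, _ => ∑ c ∈ Finset.range d, X (Sum.inr b) c ^ 2
  | Sum.inr (Sum.inl (Sum.inr (q, s))), X, _ => ∑ c ∈ Finset.range d, X (Sum.inr q.1.1) c *
      (if s then X (Sum.inr q.1.2) c else (starRingEnd ℂ) (X (Sum.inr q.1.2) c))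
  | Sum.inr (Sum.inr (b, i)), X, y => phc (n2 p l e i) (zz p X i) (0 : Fin (e i) → ZMod p) (FO a X y i b)

/-- The Miranda functions. -/
noncomputable def go (p : ℕ) [NeZero p] [NeZero m] (a : Fin m → ℕ → E d) (b : Fin l)
    (X : Jo l e → ℕ → ℂ) (y : Fin l → ℂ) : ℂ :=
  -((1 - su y : ℝ) * phc (n2 p l e 0) (zz p X 0) (0 : Fin (e 0) → ZMod p) (FO a X y 0 b)) +
    (su y * (‖vR d X b‖ ^ 2 + ‖vI d X b‖ ^ 2) : ℝ) * y b

end

end Pool.Agent.MPc05127.PO
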