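import Pool.Agent.Lib.MP_c05127_co.PP.DefsT

/-!
# MP_c05127_co, project PO (all `r i` powers of an odd prime): definitions of part T (the disc theorem)

The analogue of the cube theorem (project PP) for the group `(ℤ/p)^J`: products of discs `|x c| ≤ 1` in `ℂ`,
functions with complex values, the rotation by `exp (2πi/p)` in place of the antipodal map, winding numbers
of triangles in place of changes of sign.
-/

set_option autoImplicit false

open scoped Classical

namespace Pool.Agent.MPc05127.PO

open Pool.Agent.MPc05127.PP (skip Num Num.n)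

/-! ### Cochains -/

section

variable {V : Type}

/-- The coboundary of a `q`-cochain `z` (a function of the vertices `v 0, …, v q`). -/
noncomputable def dl (q : ℕ) (z : (ℕ → V) → ℤ) (v : ℕ → V) : ℤ :=
  ∑ i ∈ Finset.range (q + 2), (-1) ^ i * z (skip i v)

/-- `z` depends only on `v 0, …, v q`. -/
def Loc (q : ℕ) (z : (ℕ → V) → ℤ) : Prop := ∀ v v' : ℕ → V, (∀ l ≤ q, v l = v' l) → z v = z v'

/-- The winding number of the triangle `a b c`, if `f` is the argument (in multiples of `2π`). -/
noncomputable def ww (f : V → ℝ) (a b c : V) : ℤ :=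
  round (f c - f a) - round (f b - f a) - round (f c - f b)

/-- The cochain comparing `f` and `g`. -/
noncomputable def us (f g : V → ℝ) (a b : V) : ℤ := round (g b - g a) - round (f b - f a)

/-- The cup product of the `ww (f l)`, `l < n`. -/
noncomputable def pw (n : ℕ) (f : ℕ → V → ℝ) (v : ℕ → V) : ℤ :=
  ∏ l ∈ Finset.range n, ww (f l) (v (2 * l)) (v (2 * l + 1)) (v (2 * l + 2))

/-- The cup product of the `ww (f l)`, `l < n`, with the factor `m` replaced by the 1-cochain `u`. -/
noncomputable def pb (n m : ℕ) (f : ℕ → V → ℝ) (u : V → V → ℤ) (v : ℕ → V) : ℤ :=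
  (∏ l ∈ Finset.range m, ww (f l) (v (2 * l)) (v (2 * l + 1)) (v (2 * l + 2))) *
    u (v (2 * m)) (v (2 * m + 1)) *
    ∏ l ∈ Finset.Ico (m + 1) n, ww (f l) (v (2 * l - 1)) (v (2 * l)) (v (2 * l + 1))

end

/-! ### Blocks and characters -/

/-- The combinatorial data.  `B c = some j`: the coordinate `c` belongs to the block `j`; `B c = none`: `c`
is a Miranda coordinate.  There is one function for every coordinate; under the rotation of the block `j`
the function of `c` is multiplied by `exp (2πi/p) ^ (χ c j)`. -/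
structure Blo (C J : Type) where
  B : C → Option J
  χ : C → J → ℤ
  rank : J → ℕ
  up : ∀ c j j', B c = some j → χ c j' ≠ 0 → j' = j ∨ rank j < rank j'

section

variable {C J : Type}

/-- The multiple of the rotation applied to the coordinate `c` by the rotation of the block `j`. -/
noncomputable def Blo.mu (b : Blo C J) (j : J) (c : C) : ℤ :=
  if b.B c = some j then 1 else if b.B c = none then b.χ c j else 0

/-- Grid points: radius and angle of every coordinate. -/
abbrev Pt (C : Type) : Type := C → ℕ × ℤ

/-- The grid. -/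
def GrO (C : Type) (N : ℕ) : Set (Pt C) := {v | ∀ c, (v c).1 ≤ N}

/-- The same point of the product of discs; `A` is the number of angles. -/
def Same (A : ℤ) (v v' : Pt C) : Prop :=
  ∀ c, (v c).1 = (v' c).1 ∧ ((v c).1 = 0 ∨ A ∣ (v' c).2 - (v c).2)

/-- The rotation of the block `j`. -/
noncomputable def rot (b : Blo C J) (M : ℕ) (j : J) (v : Pt C) : Pt C :=
  fun c => ((v c).1, (v c).2 + 2 * M * b.mu j c)

/-- The conditions on the arguments (in multiples of `2π`) of the functions at the grid points; there are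
`2 p M` angles. -/
structure Blo.Ok (b : Blo C J) (p M N : ℕ) (f : C → Pt C → ℝ) : Prop where
  same : ∀ (c : C) (v v' : Pt C), v ∈ GrO C N → Same (2 * p * M) v v' → ∃ n : ℤ, f c v' = f c v + n
  blk : ∀ (j : J) (v : Pt C), v ∈ GrO C N → (∃ c, b.B c = some j ∧ (v c).1 = N) → ∀ c,
    ∃ n : ℤ, f c (rot b M j v) = f c v + (b.χ c j : ℝ) / p + n
  mir : ∀ (c : C) (v : Pt C), v ∈ GrO C N → b.B c = none → (v c).1 = N →
    ∃ n : ℤ, f c v = ((v c).2 : ℝ) / (2 * p * M) + n

/-! ### Simplices of the grid -/

/-- `1` or `-1`. -/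
def dz (b : Bool) : ℤ := if b then 1 else -1

/-- The vertex with the number `l` of the simplex `(e, t, δ, pos)`: the radius of `c` moves from `e c` to
`e c + 1` in the step `pos (c, false)`, the angle of `c` moves from `2 t c` to `2 t c + dz (δ c)` in the
step `pos (c, true)`. -/
noncomputable def vt (e : C → ℕ) (t : C → ℤ) (δ : C → Bool) (pos : C × Bool → ℕ) (l : ℕ) : Pt C :=
  fun c => (e c + (if pos (c, false) < l then 1 else 0),
    2 * t c + (if pos (c, true) < l then dz (δ c) else 0))

variable [Fintype C]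

/-- The standard order of the directions. -/
def st (T : Num C) (x : C × Bool) : ℕ := 2 * T.n x.1 + (if x.2 then 1 else 0)

/-- The `l`-th function is the one of the coordinate with the number `l`. -/
noncomputable def so (T : Num C) (f : C → Pt C → ℝ) (l : ℕ) (v : Pt C) : ℝ :=
  if h : l < Fintype.card C then f (T.symm ⟨l, h⟩) v else 0

/-- The sum of `g` over all simplices, with signs. -/
noncomputable def all (p M N : ℕ) (T : Num C) [NeZero (p * M)] (g : (ℕ → Pt C) → ℤ) : ℤ :=
  ∑ e ∈ Fintype.piFinset (fun _ : C => Finset.range N), ∑ t : C → ZMod (p * M), ∑ δ : C → Bool,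
    ∑ π : Equiv.Perm (C × Bool), (Equiv.Perm.sign π : ℤ) * (∏ c, dz (δ c)) *
      g (vt e (fun c => ((t c).val : ℤ)) δ (fun x => st T (π x)))

/-! ### The reference arguments -/

/-- The argument of the block `j`: the angle of the nonzero coordinate with the largest number. -/
noncomputable def lo (b : Blo C J) (A : ℝ) (T : Num C) (j : J) (v : Pt C) : ℝ :=
  ∑ c, if b.B c = some j ∧ (v c).1 ≠ 0 ∧ ∀ c', b.B c' = some j → T.n c < T.n c' → (v c').1 = 0
    then ((v c).2 : ℝ) / A else 0

/-- The reference arguments. -/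
noncomputable def ro [Fintype J] (b : Blo C J) (A : ℝ) (T : Num C) (c : C) (v : Pt C) : ℝ :=
  if b.B c = none ∧ (v c).1 ≠ 0 then ((v c).2 : ℝ) / A else ∑ j, (b.χ c j : ℝ) * lo b A T j v

/-- The leading character of the function of `c`. -/
noncomputable def Blo.ka (b : Blo C J) (c : C) : ℤ :=
  match b.B c with
  | none => 1
  | some j => b.χ c j

end

/-! ### The continuous version -/

section

variable {C J K : Type}

/-- The root of unity. -/
noncomputable def om (p : ℕ) : ℂ := Complex.exp (2 * Real.pi * Complex.I / p)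

/-- The rotation of the block `j`. -/
noncomputable def rotC (b : Blo C J) (p : ℕ) (j : J) (x : C → ℂ) : C → ℂ :=
  fun c => om p ^ b.mu j c * x c

/-- The domain: for every `j` a point `X j ≠ 0` of `ℂ^(n j + 1)` whose last coordinate is real and `≥ 0`, and a
point `y` of a product of discs. -/
def DomO (n : J → ℕ) : Set ((J → ℕ → ℂ) × (K → ℂ)) :=
  {z | (∀ j, (∃ i ≤ n j, z.1 j i ≠ 0) ∧ (∀ i, n j < i → z.1 j i = 0) ∧
    ∃ r : ℝ, 0 ≤ r ∧ z.1 j (n j) = r) ∧ ∀ a, ‖z.2 a‖ ≤ 1}

/-- The rotation of `X j`. -/
noncomputable def rX (p : ℕ) (j : J) (X : J → ℕ → ℂ) : J → ℕ → ℂ :=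
  Function.update X j (fun i => om p * X j i)

/-- The rotation of `y`. -/
noncomputable def rY (p : ℕ) (χ : K → J → ℤ) (j : J) (y : K → ℂ) : K → ℂ :=
  fun a => om p ^ χ a j * y a

end

end Pool.Agent.MPc05127.PO
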