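import Pool.Agent.Lib.MP_c05127_co.PO.SpecG

/-!
# MP_c05127_co, project PO: continuity of the functions
-/

set_option autoImplicit false

open scoped Classical

namespace Pool.Agent.MPc05127.PO

open Pool.Agent.MPc05127.PP (E idx len)

section

variable {m l d p : ℕ} {e : Fin m → ℕ}

private theorem contX (j : Jo l e) (c : ℕ) :
    Continuous (fun z : (Jo l e → ℕ → ℂ) × (Fin l → ℂ) => z.1 j c) :=
  (continuous_apply c).comp ((continuous_apply j).comp continuous_fst)

private theorem contY (b : Fin l) :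
    Continuous (fun z : (Jo l e → ℕ → ℂ) × (Fin l → ℂ) => z.2 b) :=
  (continuous_apply b).comp continuous_snd

private theorem contVR (b : Fin l) :
    Continuous (fun z : (Jo l e → ℕ → ℂ) × (Fin l → ℂ) => vR d z.1 b) := by
  unfold vR
  exact (PiLp.continuous_toLp 2 _).comp
    (continuous_pi (fun c => Complex.continuous_re.comp (contX (Sum.inr b) (c : ℕ))))

private theorem contVI (b : Fin l) :
    Continuous (fun z : (Jo l e → ℕ → ℂ) × (Fin l → ℂ) => vI d z.1 b) := by
  unfold vI
  exact (PiLp.continuous_toLp 2 _).comp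
    (continuous_pi (fun c => Complex.continuous_im.comp (contX (Sum.inr b) (c : ℕ))))

private theorem contUO :
    Continuous (fun z : (Jo l e → ℕ → ℂ) × (Fin l → ℂ) => uo d z.1 z.2) := by
  unfold uo
  exact continuous_finsetSum _ (fun b _ =>
    ((Complex.continuous_re.comp (contY b)).smul (contVR b)).add
      ((Complex.continuous_im.comp (contY b)).smul (contVI b)))

private theorem contTu :
    Continuous (fun z : (Jo l e → ℕ → ℂ) × (Fin l → ℂ) => tu z.2) := by
  unfold tu
  exact continuous_const.max (continuous_const.sub (continuous_const.mul continuous_snd.norm))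

private theorem contSu :
    Continuous (fun z : (Jo l e → ℕ → ℂ) × (Fin l → ℂ) => su z.2) := by
  unfold su
  exact continuous_const.max ((continuous_const.mul continuous_snd.norm).sub continuous_const)

private theorem contFO1 (a : Fin m → ℕ → E d) (i : Fin m) (b : Fin l) (h : ℕ) :
    Continuous (fun z : (Jo l e → ℕ → ℂ) × (Fin l → ℂ) => FO a z.1 z.2 i b h) := by
  unfold FO
  simp only [Complex.mk_eq_add_mul_I]
  exact (Complex.continuous_ofReal.comp (contTu.sub (continuous_const.inner contUO))).mul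
    ((Complex.continuous_ofReal.comp (continuous_const.inner (contVR b))).add
      ((Complex.continuous_ofReal.comp (continuous_const.inner (contVI b))).mul continuous_const))

private theorem contFO (a : Fin m → ℕ → E d) (i : Fin m) (b : Fin l) :
    Continuous (fun z : (Jo l e → ℕ → ℂ) × (Fin l → ℂ) => FO a z.1 z.2 i b) :=
  continuous_pi (fun h => contFO1 a i b h)

private theorem contFOs (a : Fin m → ℕ → E d) (i : Fin m) (b : Fin l) (s : Bool) :
    Continuous (fun z : (Jo l e → ℕ → ℂ) × (Fin l → ℂ) => fun h : ℕ =>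
      if s then FO a z.1 z.2 i b h else (starRingEnd ℂ) (FO a z.1 z.2 i b h)) := by
  refine continuous_pi (fun h => ?_)
  cases s
  · simp only [Bool.false_eq_true, if_false]
    exact Complex.continuous_conj.comp (contFO1 a i b h)
  · simp only [if_true]
    exact contFO1 a i b h

private theorem contZZ (hSg : S_Sg) [NeZero p] (hp : 2 ≤ p) (i : Fin m) :
    Continuous (fun z : (Jo l e → ℕ → ℂ) × (Fin l → ℂ) => zz p z.1 i) := by
  unfold zz
  refine continuous_pi (fun t => continuous_pi (fun b => ?_))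
  exact ((hSg p (nj p l e i t) hp).1 b).comp
    ((continuous_apply (Sum.inl ⟨i, t⟩ : Jo l e)).comp continuous_fst)

private theorem zzDom (hSg : S_Sg) [NeZero p] (hp : 2 ≤ p) (i : Fin m)
    {z : (Jo l e → ℕ → ℂ) × (Fin l → ℂ)} (hz : z ∈ DomO (no p)) :
    zz p z.1 i ∈ DomC (n2 p l e i) := by
  intro t
  exact ((hSg p (nj p l e i t) hp).2 (z.1 (Sum.inl ⟨i, t⟩))).2.2 (hz.1 (Sum.inl ⟨i, t⟩)).1

private theorem contPhc (hSg : S_Sg) (hPq : S_Pq) [NeZero p] (hp : 2 ≤ p) (i : Fin m)
    (χ : Fin (e i) → ZMod p)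
    (F : (Jo l e → ℕ → ℂ) × (Fin l → ℂ) → ℕ → ℂ) (hF : Continuous F) :
    ContinuousOn (fun z : (Jo l e → ℕ → ℂ) × (Fin l → ℂ) =>
      phc (n2 p l e i) (zz p z.1 i) χ (F z)) (DomO (no p)) := by
  have h := hPq (e i) p (n2 p l e i) χ
  have hf : Continuous (fun z : (Jo l e → ℕ → ℂ) × (Fin l → ℂ) => (zz p z.1 i, F z)) :=
    (contZZ hSg hp i).prodMk hF
  have hm : Set.MapsTo (fun z : (Jo l e → ℕ → ℂ) × (Fin l → ℂ) => (zz p z.1 i, F z))
      (DomO (no p)) {z | z.1 ∈ DomC (n2 p l e i)} := fun z hz => zzDom hSg hp i hz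
  exact ContinuousOn.comp (g := fun z : (Fin (e i) → ℕ → ℂ) × (ℕ → ℂ) =>
    phc (n2 p l e i) z.1 χ z.2)
    (f := fun z : (Jo l e → ℕ → ℂ) × (Fin l → ℂ) => (zz p z.1 i, F z)) h hf.continuousOn hm

private theorem contOr (b b' : Fin l) (s : Bool) :
    Continuous (fun z : (Jo l e → ℕ → ℂ) × (Fin l → ℂ) => ∑ c ∈ Finset.range d,
      z.1 (Sum.inr b) c * (if s then z.1 (Sum.inr b') c
        else (starRingEnd ℂ) (z.1 (Sum.inr b') c))) := by
  refine continuous_finsetSum _ (fun c _ => (contX (Sum.inr b) c).mul ?_)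
  cases s
  · simp only [Bool.false_eq_true, if_false]
    exact Complex.continuous_conj.comp (contX (Sum.inr b') c)
  · simp only [if_true]
    exact contX (Sum.inr b') c

end

private theorem cFo {m l d p : ℕ} [NeZero p] {e : Fin m → ℕ} (hSg : S_Sg) (hPq : S_Pq)
    (hp : 2 ≤ p) (a : Fin m → ℕ → E d) : ∀ c : Cf p l e,
    ContinuousOn (fun z : (Jo l e → ℕ → ℂ) × (Fin l → ℂ) => fo p a c z.1 z.2) (DomO (no p))
  | Sum.inl ⟨i, χ, none⟩ => by
    simp only [fo]
    exact contPhc hSg hPq hp i χ.1 (fun _ _ => 1) continuous_const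
  | Sum.inl ⟨i, χ, some (b, s)⟩ => by
    simp only [fo]
    exact contPhc hSg hPq hp i χ.1 (fun z h => if s then FO a z.1 z.2 i b h
      else (starRingEnd ℂ) (FO a z.1 z.2 i b h)) (contFOs a i b s)
  | Sum.inr (Sum.inl (Sum.inl b)) => by
    simp only [fo]
    exact (continuous_finsetSum _ (fun c _ => (contX (Sum.inr b) c).pow 2)).continuousOn
  | Sum.inr (Sum.inl (Sum.inr (q, s))) => by
    simp only [fo]
    exact (contOr q.1.1 q.1.2 s).continuousOn
  | Sum.inr (Sum.inr (b, i)) => by
    exact contPhc hSg hPq hp i.1 (0 : Fin (e i.1) → ZMod p) (fun z => FO a z.1 z.2 i.1 b)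
      (contFO a i.1 b)

private theorem cGo {m l d p : ℕ} [NeZero p] [NeZero m] {e : Fin m → ℕ} (hSg : S_Sg)
    (hPq : S_Pq) (hp : 2 ≤ p) (a : Fin m → ℕ → E d) (b : Fin l) :
    ContinuousOn (fun z : (Jo l e → ℕ → ℂ) × (Fin l → ℂ) => go p a b z.1 z.2) (DomO (no p)) := by
  unfold go
  refine ContinuousOn.add (ContinuousOn.neg (ContinuousOn.mul ?_ ?_)) (ContinuousOn.mul ?_ ?_)
  · exact (Complex.continuous_ofReal.comp (continuous_const.sub contSu)).continuousOn
  · exact contPhc hSg hPq hp 0 0 (fun z => FO a z.1 z.2 0 b) (contFO a 0 b)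
  · exact (Complex.continuous_ofReal.comp (contSu.mul
        (((contVR b).norm.pow 2).add ((contVI b).norm.pow 2)))).continuousOn
  · exact (contY b).continuousOn

theorem tFc (hSg : S_Sg) (hPq : S_Pq) : S_Fc := by
  intro p _ hp m l d _ e a
  exact ⟨cFo hSg hPq hp a, cGo hSg hPq hp a⟩

end Pool.Agent.MPc05127.PO
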