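import Pool.Agent.Lib.MP_c05127_co.PO.SpecG

/-!
# MP_c05127_co, project PO, module Pq: continuity of the weighted sums
-/

set_option autoImplicit false

open scoped Classical

namespace Pool.Agent.MPc05127.PO

open Pool.Agent.MPc05127.PP (E idx len)

namespace PqAux

open Filter Topology

variable {s : ℕ}

theorem tot_pos (n : Fin s → ℕ) {x : Fin s → ℕ → ℝ} (hx : x ∈ PP.DomF n) (t : Fin s) :
    0 < PP.tot n x t := by
  obtain ⟨b, hb, hb0⟩ := hx t
  unfold PP.tot
  exact Finset.sum_pos' (fun _ _ => abs_nonneg _)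
    ⟨b, Finset.mem_range.2 (by omega), abs_pos.2 hb0⟩

theorem cont_tot (n : Fin s → ℕ) (t : Fin s) :
    Continuous (fun x : Fin s → ℕ → ℝ => PP.tot n x t) := by
  unfold PP.tot
  fun_prop

theorem cont_cut (n : Fin s → ℕ) (t : Fin s) (b : ℕ) :
    ContinuousOn (fun x : Fin s → ℕ → ℝ => PP.cut n x t b) (PP.DomF n) := by
  unfold PP.cut
  refine ContinuousOn.div ?_ (cont_tot n t).continuousOn fun x hx => (tot_pos n hx t).ne'
  fun_prop

theorem cont_len (n : Fin s → ℕ) (α : Fin s → ℕ) :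
    ContinuousOn (fun x : Fin s → ℕ → ℝ => len n x α) (PP.DomF n) := by
  unfold PP.len PP.up PP.lo
  refine ContinuousOn.sup continuousOn_const (ContinuousOn.sub ?_ ?_)
  · refine ContinuousOn.finset_inf'_apply Finset.univ_nonempty fun o _ => ?_
    rcases o with _ | t
    · exact continuousOn_const
    · exact cont_cut n t _
  · refine ContinuousOn.finset_sup'_apply Finset.univ_nonempty fun o _ => ?_
    rcases o with _ | t
    · exact continuousOn_const
    · exact cont_cut n t _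

/-- the norms -/
noncomputable def nm (Z : Fin s → ℕ → ℂ) : Fin s → ℕ → ℝ := fun t b => ‖Z t b‖

theorem cont_nm : Continuous (nm : (Fin s → ℕ → ℂ) → Fin s → ℕ → ℝ) := by
  unfold nm
  fun_prop

theorem nm_dom (n : Fin s → ℕ) {Z : Fin s → ℕ → ℂ} (hZ : Z ∈ DomC n) : nm Z ∈ PP.DomF n := by
  intro t
  obtain ⟨b, hb, hb0⟩ := hZ t
  exact ⟨b, hb, norm_ne_zero_iff.2 hb0⟩

theorem cont_lenC (n : Fin s → ℕ) (α : Fin s → ℕ) :
    ContinuousOn (fun Z : Fin s → ℕ → ℂ => len n (nm Z) α) (DomC n) :=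
  (cont_len n α).comp cont_nm.continuousOn fun _ hZ => nm_dom n hZ

theorem cont_ev (t : Fin s) (b : ℕ) : Continuous (fun Z : Fin s → ℕ → ℂ => Z t b) :=
  (continuous_apply b).comp (continuous_apply t)

theorem norm_dn_le (z : ℂ) : ‖dn z‖ ≤ 1 := by
  unfold dn
  rw [norm_div, Complex.norm_real, norm_norm]
  exact div_self_le_one _

theorem dn_zero : dn 0 = 0 := by
  unfold dn
  rw [zero_div]

theorem cont_dn {z : ℂ} (hz : z ≠ 0) : ContinuousAt dn z := by
  unfold dn
  refine continuousAt_id.div ?_ ?_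
  · exact (Complex.continuous_ofReal.comp continuous_norm).continuousAt
  · rw [Ne, Complex.ofReal_eq_zero, norm_eq_zero]
    exact hz

theorem norm_prod_le (e : Fin s → ℕ) (w : Fin s → ℂ) : ‖∏ t, dn (w t) ^ e t‖ ≤ 1 := by
  rw [norm_prod]
  refine Finset.prod_le_one (fun t _ => norm_nonneg _) fun t _ => ?_
  rw [norm_pow]
  exact pow_le_one₀ (norm_nonneg _) (norm_dn_le _)

/-- one term -/
theorem cont_term (hPLe : S_PLe) (n : Fin s → ℕ) (e : Fin s → ℕ) (α : Fin s → ℕ) :
    ContinuousOn (fun Z : Fin s → ℕ → ℂ =>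
      (len n (nm Z) α : ℂ) * ∏ t, dn (Z t (α t)) ^ e t) (DomC n) := by
  intro Z₀ hZ₀
  by_cases h : ∀ t, e t ≠ 0 → Z₀ t (α t) ≠ 0
  · have h1 : ContinuousWithinAt (fun Z : Fin s → ℕ → ℂ => (len n (nm Z) α : ℂ)) (DomC n) Z₀ :=
      Complex.continuous_ofReal.continuousAt.comp_continuousWithinAt (cont_lenC n α Z₀ hZ₀)
    have h2 : ContinuousAt (fun Z : Fin s → ℕ → ℂ => ∏ t, dn (Z t (α t)) ^ e t) Z₀ := by
      refine tendsto_finsetProd _ fun t _ => ?_
      by_cases he : e t = 0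
      · simp only [he, pow_zero]
        exact tendsto_const_nhds
      · have h3 : ContinuousAt (fun Z : Fin s → ℕ → ℂ => Z t (α t)) Z₀ :=
          (cont_ev t (α t)).continuousAt
        have h4 : ContinuousAt (fun Z : Fin s → ℕ → ℂ => dn (Z t (α t))) Z₀ :=
          ContinuousAt.comp (f := fun Z : Fin s → ℕ → ℂ => Z t (α t)) (cont_dn (h t he)) h3
        exact h4.pow (e t)
    exact h1.mul h2.continuousWithinAt
  · push Not at h
    obtain ⟨t, he, h0⟩ := h
    have hz : (len n (nm Z₀) α : ℂ) * ∏ t, dn (Z₀ t (α t)) ^ e t = 0 := by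
      rw [Finset.prod_eq_zero (Finset.mem_univ t), mul_zero]
      rw [h0, dn_zero, zero_pow he]
    have hlim : Tendsto (fun Z : Fin s → ℕ → ℂ => ‖Z t (α t)‖ / PP.tot n (nm Z) t)
        (𝓝[DomC n] Z₀) (𝓝 0) := by
      have h5 : ContinuousAt (fun Z : Fin s → ℕ → ℂ => ‖Z t (α t)‖ / PP.tot n (nm Z) t) Z₀ :=
        ContinuousAt.div (cont_ev t (α t)).norm.continuousAt
          ((cont_tot n t).comp cont_nm).continuousAt (tot_pos n (nm_dom n hZ₀) t).ne'
      have h6 := h5.tendsto.mono_left (nhdsWithin_le_nhds (s := DomC n))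
      rwa [h0, norm_zero, zero_div] at h6
    change Tendsto _ _ (𝓝 ((len n (nm Z₀) α : ℂ) * ∏ t, dn (Z₀ t (α t)) ^ e t))
    rw [hz]
    refine squeeze_zero_norm' ?_ hlim
    filter_upwards [self_mem_nhdsWithin] with Z hZ
    have h7 := (hPLe s n (nm Z) (nm_dom n hZ)).1 α t
    rw [norm_mul, Complex.norm_real, Real.norm_of_nonneg h7.1]
    have h8 : len n (nm Z) α * ‖∏ t, dn (Z t (α t)) ^ e t‖ ≤ len n (nm Z) α * 1 :=
      mul_le_mul_of_nonneg_left (norm_prod_le e fun t => Z t (α t)) h7.1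
    rw [mul_one] at h8
    refine h8.trans (h7.2.trans (le_of_eq ?_))
    unfold nm
    rw [abs_of_nonneg (norm_nonneg _)]

end PqAux

theorem tPq (hPLe : S_PLe) : S_Pq := by
  intro s p _ n χ
  unfold phc
  refine continuousOn_finsetSum _ fun α _ => ContinuousOn.mul ?_ ?_
  · exact (PqAux.cont_term hPLe n (fun t => (χ t).val) α).comp continuous_fst.continuousOn
      fun z hz => hz
  · exact (Continuous.comp (continuous_apply _) continuous_snd).continuousOn

end Pool.Agent.MPc05127.PO
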