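import Pool.Agent.Lib.MP_c05127_co.PO.DefsG
import Pool.Agent.Lib.MP_c05127_co.PO.SpecT
import Pool.Agent.Lib.MP_c05127_co.PP.SpecG

/-!
# MP_c05127_co, project PO: statements of the modules, part G (geometry), `p` an odd prime, `k = 2 l`

The analogue of `PP/SpecG.lean` (landed, the case `p = 2`).  Every `S_X` is proved in its own file `PO/X.lean`
(`namespace Pool.Agent.MPc05127.PO`) as `theorem tX (hA : S_A) … : S_X`, `S_A`, … the statements named after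
`uses`; the docstring contains the proof.  Auxiliary declarations are private or in
`Pool.Agent.MPc05127.PO.XAux`.  `S_PLe` is `PP.S_Le` (facts on `len`, proved in `PP/Le.lean`).

The hyperplane `h` of the family `i` is `{x | ⟨a i h, x⟩ = 1}`, `h < (2 l + 1) (p ^ e i - 1) + 1`.
-/

set_option autoImplicit false

open scoped Classical

namespace Pool.Agent.MPc05127.PO

open Pool.Agent.MPc05127.PP (E idx len)

/-- The facts on `len` (project PP, module Le). -/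
def S_PLe : Prop := Pool.Agent.MPc05127.PP.S_Le

/-! ## One family -/

/-- (180 lines) **The two functions `sA`, `sB`.**

Notation: `ω = om p`, `ζ = om (2 p)`, `ζ² = ω`, `ω^p = 1`, `‖ω‖ = 1`, `c = cos (π / p)`.
Proof.  (1) finite sums of continuous functions.  (2) `(ω x) conj (ω^(l+1)) = x conj (ω^l)`: reindex the sum by `l ↦ l + 1` modulo `p` (`Finset.sum_range_succ'` and `ω^p = 1`, or sum over `ZMod p`).
(3) At most one term is not `0`: if the terms `l ≠ l'` are positive, `u`, `u'` the two unit numbers, then `2 c ‖x‖ < Re (x conj (u + u')) ≤ ‖x‖ ‖u + u'‖`, but `‖u + u'‖ = ‖1 + ω^(l'-l)‖ = 2 |cos (π (l'-l) / p)| ≤ 2 c` for `1 ≤ |l' - l| ≤ p - 1`.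
(4) `x = ‖x‖ exp (iφ)`; `l' = round (p φ / π)`, `|φ - π l' / p| ≤ π / (2p)`, so `Re (x conj (ζ^l')) = ‖x‖ cos (φ - π l'/p) ≥ ‖x‖ cos (π/(2p)) > c ‖x‖`.  If `l' = 2 l` then `ζ^l' = ω^l` and the term `l mod p` of `sA` is not `0`; if `l' = 2 l + 1`, `ζ^l' = ζ ω^l`, the term `l mod p` of `sB`; by (3) the sum is not `0`. -/
def S_Ax : Prop := ∀ p : ℕ, 2 ≤ p →
  (Continuous (sA p) ∧ Continuous (sB p)) ∧
  (∀ x, sA p (om p * x) = om p * sA p x ∧ sB p (om p * x) = om p * sB p x) ∧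
  (∀ x, (∃ r : ℝ, 0 ≤ r ∧ ∃ l : ℕ, sA p x = r * om p ^ l) ∧
    ∃ r : ℝ, 0 ≤ r ∧ ∃ l : ℕ, sB p x = r * om p ^ l) ∧
  ∀ x, x ≠ 0 → sA p x ≠ 0 ∨ sB p x ≠ 0

/-- (80 lines; uses `S_Ax`) **The labelled intervals.**

Proof.  By the definition of `seg`.  (4): `X i ≠ 0`, `i < n`: `b = 2 i` or `b = 2 i + 1`; `i = n`: `b = 2 n`. -/
def S_Sg : Prop := ∀ p n : ℕ, 2 ≤ p →
  (∀ b, Continuous (fun X : ℕ → ℂ => seg p n X b)) ∧
  ∀ X : ℕ → ℂ,
    (X n = 0 → ∀ b, seg p n (fun i => om p * X i) b = om p * seg p n X b) ∧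
    ((∃ r : ℝ, 0 ≤ r ∧ X n = r) → ∀ b, ∃ r : ℝ, 0 ≤ r ∧ ∃ l : ℕ, seg p n X b = r * om p ^ l) ∧
    ((∃ i ≤ n, X i ≠ 0) → ∃ b ≤ 2 * n, seg p n X b ≠ 0)

/-- (140 lines; uses `S_PLe`) **Continuity.**

Proof.  As `PP/Pc.lean`.  A finite sum; it is enough to treat `Z ↦ len n ‖Z‖ α * ∏ t, dn (Z t (α t)) ^ (χ t).val`; `len n x α` is continuous on `PP.DomF n`.  `dn` is continuous at `z ≠ 0`.  Let `Z₀ ∈ DomC n`.  If `Z₀ t (α t) ≠ 0` for all `t` with `χ t ≠ 0` all factors with positive exponent are continuous at `Z₀`.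
If `Z₀ t (α t) = 0` for some `t` with `χ t ≠ 0` then the value at `Z₀` is `0` and near `Z₀` the absolute value is `≤ len ≤ ‖Z t (α t)‖ / tot` (`S_PLe` (1)), which tends to `0` (`‖dn z‖ ≤ 1`). -/
def S_Pq : Prop := ∀ (s p : ℕ) [NeZero p] (n : Fin s → ℕ) (χ : Fin s → ZMod p),
  ContinuousOn (fun z : (Fin s → ℕ → ℂ) × (ℕ → ℂ) => phc n z.1 χ z.2) {z | z.1 ∈ DomC n}

/-- (100 lines) **Rotation and linearity.**

Proof.  (1) the norms do not change, so `len` does not change; `dn (om p * z) = om p * dn z` (`‖om p‖ = 1`); exactly the factor `t` of the product is multiplied by `om p ^ (χ t).val`.  (2) the definition is a sum.  (3) the coefficients are real: `(0 : ZMod p).val = 0`, the product is `1`. -/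
def S_Pr : Prop := ∀ (s p : ℕ) [NeZero p] (n : Fin s → ℕ) (Z : Fin s → ℕ → ℂ) (χ : Fin s → ZMod p),
  (∀ (t : Fin s) (F : ℕ → ℂ), phc n (Function.update Z t (fun b => om p * Z t b)) χ F =
    om p ^ (χ t).val * phc n Z χ F) ∧
  (∀ (κ : Type) [Fintype κ] (c : κ → ℂ) (F : κ → ℕ → ℂ),
    phc n Z χ (fun h => ∑ b, c b * F b h) = ∑ b, c b * phc n Z χ (F b)) ∧
  ∀ F : ℕ → ℂ, phc n Z (0 : Fin s → ZMod p) (fun h => (starRingEnd ℂ) (F h)) =
    (starRingEnd ℂ) (phc n Z (0 : Fin s → ZMod p) F)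

/-- (260 lines; uses `S_PLe`) **The parts.**

Proof.  As `PP/Pf.lean`.  `ω = om p`, `x t b = ‖Z t b‖`.  For `0 < len n x α` all `Z t (α t) ≠ 0` (`S_PLe` (2)), so `dn (Z t (α t)) = ω ^ l t` for some `l t`.
(a) For real `F` and `χ ≠ 0` `phc n Z χ F = conj (phc n Z (-χ) F)`: term by term, for `len > 0`: `(ω^l)^(a.val) = conj ((ω^l)^((-a).val))` as `(-a).val = p - a.val` for `a ≠ 0`.  Either `χ` or `-χ` is in `Hc p s` (the first nonzero coordinate `a`: `2 a.val < p` or `2 (p - a.val) < p`, `p` odd).  So the hypothesis gives `phc n Z χ F = 0`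
for all `χ ≠ 0` (for `F = 1`, and for every real `F` with `phc … χ F = 0` for all `χ ∈ Hc`).
(b) `I g = {α ∈ idx n | 0 < len n x α ∧ ∀ t, dn (Z t (α t)) = ω ^ (g t).val}`, `P g` = the image of `I g` under `α ↦ ∑ t, α t`.  Every `α` with `0 < len` is in exactly one `I g`.  Disjoint: `S_PLe` (3).
(c) Fourier: `∑ χ, (∏ t, ω ^ (-(g t).val * (χ t).val)) * phc n Z χ F = ∑ α ∈ idx n, len * F (∑ α) * ∏ t, ∑ a : ZMod p, (ω ^ (-(g t).val) * dn (Z t (α t))) ^ a.val` (`Finset.prod_univ_sum`), and for `len > 0` the inner sum is `p` if `dn (Z t (α t)) = ω ^ (g t).val` and `0` otherwise (geometric sum of a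
`p`-th root of unity `≠ 1`).  So the left side is `p ^ s * ∑ α ∈ I g, len n x α * F (∑ α)`.
(d) Nonempty: `F = 1`, the left side is `phc n Z 0 1 = ∑ α, len > 0` (`S_PLe` (4)).  If all `phc n Z χ F` vanish then `∑ α ∈ I g, len * F (∑ α) = 0`, so some `F h ≥ 0`, `h ∈ P g`.  Last claim: a sum of nonnegative terms. -/
def S_Ps : Prop := ∀ (s p : ℕ) [NeZero p], p.Prime → p ≠ 2 → ∀ (n : Fin s → ℕ), ∀ Z ∈ DomC n,
  (∀ t b, ∃ r : ℝ, 0 ≤ r ∧ ∃ l : ℕ, Z t b = r * om p ^ l) →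
  (∀ χ : Hc p s, phc n Z χ.1 (fun _ => 1) = 0) →
  ∃ P : (Fin s → ZMod p) → Finset ℕ, (∀ g g', g ≠ g' → Disjoint (P g) (P g')) ∧
    (∀ g, ∀ h ∈ P g, h ≤ ∑ t, n t) ∧ (∀ g, (P g).Nonempty) ∧
    (∀ F : ℕ → ℝ, (∀ χ : Hc p s, phc n Z χ.1 (fun h => (F h : ℂ)) = 0) →
      phc n Z (0 : Fin s → ZMod p) (fun h => (F h : ℂ)) = 0 → ∀ g, ∃ h ∈ P g, 0 ≤ F h) ∧
    ∀ F : ℕ → ℝ, (∀ h, 0 ≤ F h) → phc n Z (0 : Fin s → ZMod p) (fun h => (F h : ℂ)) = 0 →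
      ∀ g, ∀ h ∈ P g, F h = 0

/-! ## All families -/

/-- (180 lines) **Counting.**

Proof.  (1) The `c` with `BO c = inl ⟨i, t⟩` are the `inl ⟨i, χ, o⟩` with `ld χ = t`; summed over `t`: `card (Hc p (e i)) * (2 l + 1)`.  `2 * card (Hc p s) = p ^ s - 1`: `χ ↦ -χ` maps `Hc` bijectively onto the nonzero characters not in `Hc` (first nonzero coordinate `a`, `(-a).val = p - a.val`, `p` odd).
(2) `BO c = inr b`: one function `inr (inl (inl b))`, two for every `b' > b`, and `d - 2 l` functions `inr (inr (b, i))`: together `d - 1 - 2 b`. -/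
def S_Cn : Prop := ∀ (p : ℕ) [NeZero p], p.Prime → p ≠ 2 → ∀ (d l : ℕ), 1 ≤ l → 2 * l ≤ d →
  ∀ e : Fin (d - 2 * l + 1) → ℕ,
  (∀ i, ∑ t : Fin (e i), n2 p l e i t = (2 * l + 1) * (p ^ e i - 1)) ∧
  ∀ b : Fin l, no (e := e) p (Sum.inr b) + 1 ≤ d

/-- (100 lines) **The characters are triangular.**

Proof.  Cases.  `inl ⟨i, χ, o⟩`: `XO c (inl ⟨i, t⟩) = (χ t).val`; at `t = ld χ` it is between `1` and `p - 1`; it is `0` for `t < ld χ` and for other families; `ru (inr b) > ∑ e i ≥ e i > t`.  The others: `2`, `1`, `1` at the block, `p` is odd; `q.1.1 < q.1.2`. -/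
def S_Bl : Prop := ∀ (p : ℕ) [NeZero p], p.Prime → p ≠ 2 → ∀ (m l : ℕ) (e : Fin m → ℕ) (c : Cf p l e),
  ¬ (p : ℤ) ∣ XO c (BO c) ∧ ∀ j, XO c j ≠ 0 → j = BO c ∨ ru (BO c) < ru j

/-- (140 lines; uses `S_Sg`, `S_Pq`) **Continuity of the functions.**

Proof.  On `DomO (no p)` the `zz p X i` are in `DomC (n2 p l e i)` (`S_Sg` (4): `X (inl ⟨i,t⟩) i' ≠ 0` for some `i' ≤ nj`).  `(X, y) ↦ (zz p X i, FO a X y i b)` is continuous (`S_Sg` (1)); compose with `S_Pq`; the other functions are polynomials in finitely many coordinates and their conjugates. -/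
def S_Fc : Prop := ∀ (p : ℕ) [NeZero p], 2 ≤ p → ∀ (m l d : ℕ) [NeZero m] (e : Fin m → ℕ)
  (a : Fin m → ℕ → E d),
  (∀ c : Cf p l e, ContinuousOn (fun z : (Jo l e → ℕ → ℂ) × (Fin l → ℂ) => fo p a c z.1 z.2)
    (DomO (no p))) ∧
  ∀ b : Fin l, ContinuousOn (fun z : (Jo l e → ℕ → ℂ) × (Fin l → ℂ) => go p a b z.1 z.2) (DomO (no p))

/-- (240 lines; uses `S_Sg`, `S_Pr`) **Symmetry of the functions.**

Proof.  `j = inl ⟨i, t⟩`: `y`, `vR`, `vI` do not change; `zz p X i` changes into `Function.update (zz p X i) t (fun b => om p * zz p X i t b)` (`S_Sg` (2): the last coordinate of `X j` is `0`), the other `zz p X i'` do not change; `S_Pr` (1): the factor is `om p ^ (χ t).val`, and `XO c j = (χ t).val` (`0` for the functions with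
the character `0`, for the other families and for the orthogonality functions).
`j = inr b`: the `zz` do not change; `X j` and `y b` are multiplied by `om p`; `uo` does not change (`Re (conj (ω y) ω z) = Re (conj y z)`: `(y.re) vR + (y.im) vI` is this, coordinate by coordinate), nor do `‖y‖`, `tu`, `su`, `‖vR‖² + ‖vI‖²`; `FO a X y i b` is multiplied by `om p`, its conjugate by `om p ^ (-1)`; `FO a X y i b'` does not change
for `b' ≠ b`; `S_Pr` (2) (linearity).  Orthogonality: `X²`, `X X'`, `X conj X'`. -/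
def S_Fs : Prop := ∀ (p : ℕ) [NeZero p], 2 ≤ p → ∀ (m l d : ℕ) [NeZero m] (e : Fin m → ℕ)
  (a : Fin m → ℕ → E d) (j : Jo l e),
  ∀ z ∈ (DomO (no p) : Set ((Jo l e → ℕ → ℂ) × (Fin l → ℂ))), z.1 j (no p j) = 0 →
    (∀ c : Cf p l e, fo p a c (rX p j z.1) (rY p XQ j z.2) = om p ^ XO c j * fo p a c z.1 z.2) ∧
    ∀ b, go p a b (rX p j z.1) (rY p XQ j z.2) = om p ^ XQ b j * go p a b z.1 z.2

/-- (80 lines; uses `S_Cn`) **The vectors of the frame; the Miranda conditions.**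

Proof.  `X (inr b) i ≠ 0` for some `i ≤ no p (inr b) < d` (`S_Cn`), so the real or the imaginary part of the coordinate `i` is not `0`.  If `‖y b‖ = 1` then `‖y‖ = 1`, `su y = 1` and `go = (‖vR‖² + ‖vI‖²) * y b`. -/
def S_Fm : Prop := ∀ (p : ℕ) [NeZero p], p.Prime → p ≠ 2 → ∀ (d l : ℕ), 1 ≤ l → 2 * l ≤ d →
  ∀ (e : Fin (d - 2 * l + 1) → ℕ) (a : Fin (d - 2 * l + 1) → ℕ → E d),
  ∀ z ∈ (DomO (no p) : Set ((Jo l e → ℕ → ℂ) × (Fin l → ℂ))),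
    (∀ b, 0 < ‖vR d z.1 b‖ ^ 2 + ‖vI d z.1 b‖ ^ 2) ∧
    ∀ b, ‖z.2 b‖ = 1 → ∃ r : ℝ, 0 < r ∧ go p a b z.1 z.2 = r * z.2 b

/-- The `2 l` real vectors of the frame. -/
noncomputable def fr {m l : ℕ} {e : Fin m → ℕ} (d : ℕ) (X : Jo l e → ℕ → ℂ) (x : Fin l × Bool) : E d :=
  if x.2 then vI d X x.1 else vR d X x.1

/-- (100 lines; uses `S_Fm`) **The frame is orthogonal.**

Proof.  With `z_b = vR + i vI` (coordinates `c < d`): `∑ z_b² = 0` gives `‖vR b‖ = ‖vI b‖`, `⟨vR b, vI b⟩ = 0`.  For `b < b'` `∑ z_b z_b' = 0` and `∑ z_b conj z_b' = 0` give (real and imaginary parts, sums and differences) that all four inner products of `vR b`, `vI b` with `vR b'`, `vI b'` vanish.  `vR b ≠ 0` by `S_Fm`. -/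
def S_Or : Prop := ∀ (p : ℕ) [NeZero p], p.Prime → p ≠ 2 → ∀ (d l : ℕ), 1 ≤ l → 2 * l ≤ d →
  ∀ (e : Fin (d - 2 * l + 1) → ℕ) (a : Fin (d - 2 * l + 1) → ℕ → E d),
  ∀ z ∈ (DomO (no p) : Set ((Jo l e → ℕ → ℂ) × (Fin l → ℂ))),
    (∀ c : Cf p l e, fo p a c z.1 z.2 = 0) →
    (∀ b, vR d z.1 b ≠ 0 ∧ ‖vI d z.1 b‖ = ‖vR d z.1 b‖) ∧
    ∀ x y : Fin l × Bool, x ≠ y → inner ℝ (fr d z.1 x) (fr d z.1 y) = (0 : ℝ)

/-- (60 lines; uses `S_Po`, `S_Bl`, `S_Fc`, `S_Fs`, `S_Fm`) **The common zero.**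

Proof.  `S_Po` with `C = Cf p l e`, `K = Fin l`, `J = Jo l e`, `B = BO`, `χ = XO`, `χ' = XQ`, `rank = ru`, `n = no p`. -/
def S_Zr : Prop := ∀ (p : ℕ) [NeZero p], p.Prime → p ≠ 2 → ∀ (d l : ℕ), 1 ≤ l → 2 * l ≤ d →
  ∀ (e : Fin (d - 2 * l + 1) → ℕ) (a : Fin (d - 2 * l + 1) → ℕ → E d),
  ∃ z ∈ (DomO (no p) : Set ((Jo l e → ℕ → ℂ) × (Fin l → ℂ))),
    (∀ c : Cf p l e, fo p a c z.1 z.2 = 0) ∧ ∀ b, go p a b z.1 z.2 = 0

/-- (160 lines; uses `S_Sg`, `S_Pr`, `S_Ps`, `S_Or`) **Zeros at infinity are excluded.**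

Proof.  As `PP/In.lean`.  `‖y‖ ≥ 1/2`; `u = uo d X y = ∑ (Re y_b vR b + Im y_b vI b)`, by `S_Or` `‖u‖² = ∑ ‖y b‖² ‖vR b‖² > 0`.  `tu y = 0`, `0 ≤ su y ≤ 1`; `FO a X y i b h = -⟨a i h, u⟩ (⟨a i h, vR b⟩ + i ⟨a i h, vI b⟩)`, so `Re ∑ b, conj (y b) * FO a X y i b h = -⟨a i h, u⟩²`.
By `S_Pr` (2), (3) `Re (∑ b, conj (y b) * phc … 0 (FO a X y i b)) = phc … 0 (-⟨a i h, u⟩²)` (the sums `phc … 0 F` of real `F` are real, nonnegative for `F ≥ 0`).  `0 = Re ∑ b, conj (y b) * go b = (1 - su y) * phc … 0 (⟨a 0 h, u⟩²) + su y * ∑ ‖y b‖² (‖vR b‖² + ‖vI b‖²)`, both terms `≥ 0`: so `su y = 0` and `phc … 0 (⟨a 0 h, u⟩²) = 0`.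
For `i ≠ 0` the functions `inr (inr (b, i))` give `phc … 0 (⟨a i h, u⟩²) = 0`.  `S_Ps` (`Z = zz p X i`: `DomC` by `S_Sg` (4), values by `S_Sg` (3), the weight functions `inl ⟨i, χ, none⟩`): `p ^ e i` disjoint nonempty sets `P g` of `h ≤ ∑ n2` with `⟨a i h, u⟩ = 0`. -/
def S_In : Prop := ∀ (p : ℕ) [NeZero p], p.Prime → p ≠ 2 → ∀ (d l : ℕ), 1 ≤ l → 2 * l ≤ d →
  ∀ (e : Fin (d - 2 * l + 1) → ℕ) (a : Fin (d - 2 * l + 1) → ℕ → E d),
  ∀ z ∈ (DomO (no p) : Set ((Jo l e → ℕ → ℂ) × (Fin l → ℂ))),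
    (∀ c : Cf p l e, fo p a c z.1 z.2 = 0) → (∀ b, go p a b z.1 z.2 = 0) → 1 / 2 ≤ ‖z.2‖ →
    ∃ u : E d, u ≠ 0 ∧ ∀ i, p ^ e i ≤
      ((Finset.range (∑ t, n2 p l e i t + 1)).filter (fun h => inner ℝ (a i h) u = (0 : ℝ))).card

/-- (160 lines; uses `S_Sg`, `S_Pr`, `S_Ps`, `S_Or`) **Zeros in the interior.**

Proof.  As `PP/It.lean`.  `‖y‖ < 1/2`, `τ = tu y > 0`, `su y = 0`, `q = τ⁻¹ • uo d X y`.  For `χ ∈ Hc` the functions `inl ⟨i, χ, some (b, s)⟩`, `s = true, false`, give `phc … χ (Re FO) = phc … χ (Im FO) = 0` (linearity: `Re F = (F + conj F)/2`), for `χ = 0`, `i ≠ 0` the functions `inr (inr (b, i))` and `S_Pr` (3), for `i = 0` the functions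
`go` (`su y = 0`).  For `w = ∑ x, c x • fr d X x`: `F h = (τ - ⟨a i h, u⟩) ⟨a i h, w⟩ = τ (1 - ⟨a i h, q⟩) ⟨a i h, w⟩` is the real combination of the `Re FO`, `Im FO` with the coefficients `c (b, false)`, `c (b, true)`; `S_Ps`. -/
def S_It : Prop := ∀ (p : ℕ) [NeZero p], p.Prime → p ≠ 2 → ∀ (d l : ℕ), 1 ≤ l → 2 * l ≤ d →
  ∀ (e : Fin (d - 2 * l + 1) → ℕ) (a : Fin (d - 2 * l + 1) → ℕ → E d),
  ∀ z ∈ (DomO (no p) : Set ((Jo l e → ℕ → ℂ) × (Fin l → ℂ))),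
    (∀ c : Cf p l e, fo p a c z.1 z.2 = 0) → (∀ b, go p a b z.1 z.2 = 0) → ‖z.2‖ < 1 / 2 →
    ∃ (v : Fin l × Bool → E d) (q : E d), LinearIndependent ℝ v ∧
      q ∈ Submodule.span ℝ (Set.range v) ∧
      ∀ i, ∃ P : (Fin (e i) → ZMod p) → Finset ℕ, (∀ g g', g ≠ g' → Disjoint (P g) (P g')) ∧
        (∀ g, ∀ h ∈ P g, h ≤ ∑ t, n2 p l e i t) ∧
        ∀ g, ∀ w ∈ Submodule.span ℝ (Set.range v), ∃ h ∈ P g,
          (inner ℝ (a i h) q - 1) * inner ℝ (a i h) w ≤ (0 : ℝ)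

/-- (100 lines; uses `S_Cn`, `S_Zr`, `S_In`, `S_It`) **The vector statement.**

Proof.  As `PP/Geo.lean`.  `∑ t, n2 p l e i t = (2 l + 1) (p ^ e i - 1)` (`S_Cn`); `Fin (p ^ e i) ≃ (Fin (e i) → ZMod p)` (equal cardinalities), `Fin (2 * l) ≃ Fin l × Bool`. -/
def S_Geo : Prop := ∀ (p : ℕ), p.Prime → p ≠ 2 → ∀ (d l : ℕ), 1 ≤ l → 2 * l ≤ d →
  ∀ (e : Fin (d - 2 * l + 1) → ℕ)
  (a : (i : Fin (d - 2 * l + 1)) → Fin ((2 * l + 1) * (p ^ e i - 1) + 1) → E d),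
  (∀ u : E d, u ≠ 0 →
    ∃ i, (Finset.univ.filter (fun h => inner ℝ (a i h) u = (0 : ℝ))).card < p ^ e i) →
  ∃ (v : Fin (2 * l) → E d) (q : E d), LinearIndependent ℝ v ∧ q ∈ Submodule.span ℝ (Set.range v) ∧
    ∀ i, ∃ P : Fin (p ^ e i) → Finset (Fin ((2 * l + 1) * (p ^ e i - 1) + 1)),
      (∀ j j', j ≠ j' → Disjoint (P j) (P j')) ∧
      ∀ j, ∀ w ∈ Submodule.span ℝ (Set.range v), ∃ h ∈ P j,
        (inner ℝ (a i h) q - 1) * inner ℝ (a i h) w ≤ (0 : ℝ)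

end Pool.Agent.MPc05127.PO
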