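import Pool.Agent.Lib.MP_c05127_co.PP.SpecE
import Pool.Agent.Lib.MP_c05127_co.PO.SpecG

set_option autoImplicit false

/-!
# MP_c05127_co: the final statement for prime powers, and the module FinkO
-/

open scoped Classical

namespace Pool.Agent.Lib.MP_c05127_co.PP

open Pool.Agent.Lib.MP_c05127_co.Brief

/-- The final theorem: all `r i` are powers of one prime `p`, and `p k` is even. -/
def S_FinalP : Prop :=
  ∀ (p d k : ℕ) (r : Fin (d - k + 1) → ℕ) (A : Fin (d - k + 1) → Finset (Aff d)),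
    p.Prime → Even (p * k) → 1 ≤ k → k ≤ d → (∀ i, ∃ e, r i = p ^ e) → (∀ i, IsArr (A i)) →
    (∀ i, (A i).card = (k + 1) * (r i - 1) + 1) → (NoDirK r A ∨ GenPosK A) → ConclK k r A

/-- From vectors to hyperplanes, `p` odd (uses `MPc05127.PO.S_Geo`). -/
def S_FinkO : Prop :=
  ∀ (p : ℕ), p.Prime → p ≠ 2 → ∀ (d l : ℕ) (r : Fin (d - 2 * l + 1) → ℕ)
    (A : Fin (d - 2 * l + 1) → Finset (Aff d)),
    1 ≤ l → 2 * l ≤ d → (∀ i, ∃ e, r i = p ^ e) → (∀ i, IsArr (A i)) →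
    (∀ i, (A i).card = (2 * l + 1) * (r i - 1) + 1) → NoDirK r A → ConclK (2 * l) r A

end Pool.Agent.Lib.MP_c05127_co.PP
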