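import Pool.Agent.Lib.MP_c05127_co.PO.SpecT

/-!
# MP_c05127_co, project PO: the winding number of a triangle
-/

set_option autoImplicit false

open scoped Classical

namespace Pool.Agent.MPc05127.PO

open Pool.Agent.MPc05127.PP (skip Num Num.n)

namespace WcAux

theorem rd_add (x : ℝ) (n : ℤ) : round (x + n) = round x + n := round_add_intCast x n

theorem rd_int (n : ℤ) : round (n : ℝ) = n := round_intCast n

theorem rd_zero {x : ℝ} (h : |x| < 1 / 2) : round x = 0 := by
  rw [abs_lt] at h
  rw [round_eq_zero_iff]
  exact ⟨by linarith [h.1], by linarith [h.2]⟩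

end WcAux

open WcAux in
theorem tWc : S_Wc := by
  intro V f
  refine ⟨?_, ?_, ?_, ?_, ?_⟩
  · intro a b c d
    simp only [ww]
    ring
  · intro g a b c
    simp only [ww, us]
    ring
  · intro f' κ n₁ n₂ n₃ a b c a' b' c' h1 h2 h3
    have e1 : f' c' - f' a' = (f c - f a) + ((n₃ - n₁ : ℤ) : ℝ) := by
      rw [h1, h3]
      push_cast
      ring
    have e2 : f' b' - f' a' = (f b - f a) + ((n₂ - n₁ : ℤ) : ℝ) := by
      rw [h1, h2]
      push_cast
      ring
    have e3 : f' c' - f' b' = (f c - f b) + ((n₃ - n₂ : ℤ) : ℝ) := by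
      rw [h2, h3]
      push_cast
      ring
    simp only [ww]
    rw [e1, e2, e3, rd_add, rd_add, rd_add]
    ring
  · intro a b c n h
    simp only [ww]
    rcases h with h | h
    · have e1 : f b - f a = (n : ℝ) := by
        rw [h]
        ring
      have e2 : f c - f a = (f c - f b) + (n : ℝ) := by
        rw [h]
        ring
      rw [e1, e2, rd_add, rd_int]
      ring
    · have e1 : f c - f b = (n : ℝ) := by
        rw [h]
        ring
      have e2 : f c - f a = (f b - f a) + (n : ℝ) := by
        rw [h]
        ring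
      rw [e1, e2, rd_add, rd_int]
      ring
  · intro a b c h1 h2 h3
    simp only [ww]
    rw [rd_zero h1, rd_zero h2, rd_zero h3]
    ring

end Pool.Agent.MPc05127.PO
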